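import Mathlib.Algebra.BigOperators.Field
import Mathlib.Tactic.Monotonicity.Lemmas
import Mathlib.Data.Int.Star
import Mathlib.Algebra.Order.Ring.Star
import Mathlib.Analysis.SpecialFunctions.Log.Basic
import Mathlib.Algebra.Order.Star.Real
import Mathlib.Combinatorics.SimpleGraph.Basic
import Mathlib.Combinatorics.Pigeonhole
import Mathlib.Tactic.Algebra.Basic

-- ======== part 0: formerly Pool.Agent.MP_d6d719_co.h91.Defs
section MrgPart0

set_option autoImplicit false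

open Finset
open scoped Classical

namespace Pool.Agent.MP_d6d719_co.H91

variable {V : Type} [Fintype V]

/-- the edges `v a` and `v b` are distinct and compatible at `v` -/
def Cmp (F : V → V → V → Prop) (v a b : V) : Prop := a ≠ b ∧ ¬ F v a b

/-- number of ordered pairs in `X × Y` related by `r` -/
noncomputable def er (r : V → V → Prop) (X Y : Finset V) : ℕ := ∑ x ∈ X, #{y ∈ Y | r x y}

/-- a nearly regular graph with a bounded incompatibility system -/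
structure Sys (G : SimpleGraph V) (F : V → V → V → Prop) (d μ τ : ℝ) : Prop where
  symm : ∀ v a b, F v a b → F v b a
  lo : ∀ v, (1 - τ) * d ≤ #{w | G.Adj v w}
  hi : ∀ v, (#{w | G.Adj v w} : ℝ) ≤ (1 + τ) * d
  bd : ∀ v a, G.Adj v a → (#{b | G.Adj v b ∧ ¬ Cmp F v a b} : ℝ) ≤ μ * d

/-- `s` is a perfect matching of `G` on `R` -/
def Mat (G : SimpleGraph V) (R : Finset V) (s : V → V) : Prop :=
  ∀ x ∈ R, s x ∈ R ∧ s (s x) = x ∧ G.Adj x (s x)

/-- edges compatible with the state edges at both ends -/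
def Gam (G : SimpleGraph V) (F : V → V → V → Prop) (s : V → V) (x y : V) : Prop :=
  G.Adj x y ∧ Cmp F x (s x) y ∧ Cmp F y (s y) x

/-- robust expansion -/
def RX (r : V → V → Prop) (R : Finset V) (ε γ b : ℝ) : Prop :=
  ∀ X ⊆ R, ∀ Y ⊆ R, ε * Fintype.card V ≤ #X → ε * Fintype.card V ≤ #Y →
    (1 - γ) * Fintype.card V ≤ #X + #Y → b ≤ er r X Y

/-- a compatible path on five vertices -/
def Obj (G : SimpleGraph V) (F : V → V → V → Prop) (o : Fin 5 → V) : Prop :=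
  G.Adj (o 0) (o 1) ∧ G.Adj (o 1) (o 2) ∧ G.Adj (o 2) (o 3) ∧ G.Adj (o 3) (o 4) ∧
    Cmp F (o 1) (o 0) (o 2) ∧ Cmp F (o 2) (o 1) (o 3) ∧ Cmp F (o 3) (o 2) (o 4)

/-- the centre of `o` is a two-sided pivot for the state `(v, f)` -/
def Ctr (G : SimpleGraph V) (F : V → V → V → Prop) (v f : V) (o : Fin 5 → V) : Prop :=
  G.Adj v (o 2) ∧ Cmp F v f (o 2) ∧ Cmp F (o 2) v (o 1) ∧ Cmp F (o 2) v (o 3)

/-- the first vertex of `o` can be entered from the state `(v, f)` -/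
def Ent (G : SimpleGraph V) (F : V → V → V → Prop) (v f : V) (o : Fin 5 → V) : Prop :=
  G.Adj v (o 0) ∧ Cmp F v f (o 0) ∧ Cmp F (o 0) v (o 1)

omit [Fintype V] in
theorem Cmp.symm' {F : V → V → V → Prop} (hF : ∀ v a b, F v a b → F v b a) {v a b : V}
    (h : Cmp F v a b) : Cmp F v b a :=
  ⟨h.1.symm, fun h' => h.2 (hF _ _ _ h')⟩

omit [Fintype V] in
theorem er_mono {r r' : V → V → Prop} {X X' Y Y' : Finset V} (hr : ∀ x y, r x y → r' x y)
    (hX : X ⊆ X') (hY : Y ⊆ Y') : er r X Y ≤ er r' X' Y' := by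
  unfold er
  refine (sum_le_sum fun x _ => card_le_card ?_).trans
    (sum_le_sum_of_subset (f := fun x => #{y ∈ Y' | r' x y}) hX)
  intro y hy
  rw [mem_filter] at hy ⊢
  exact ⟨hY hy.1, hr _ _ hy.2⟩

omit [Fintype V] in
theorem er_comm (r : V → V → Prop) (X Y : Finset V) : er r X Y = er (fun y x => r x y) Y X := by
  unfold er
  simp only [card_filter]
  exact sum_comm

omit [Fintype V] in
theorem er_split (r : V → V → Prop) (X Y Z : Finset V) :
    er r X Y ≤ er r X Z + er r X (Y \ Z) := by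
  unfold er
  rw [← sum_add_distrib]
  refine sum_le_sum fun x _ => (card_le_card ?_).trans (card_union_le _ _)
  intro y hy
  simp only [mem_filter, mem_union, mem_sdiff] at hy ⊢
  tauto

end Pool.Agent.MP_d6d719_co.H91

end MrgPart0

-- ======== part 1: formerly Pool.Agent.MP_d6d719_co.h91.FP
section MrgPart1

set_option autoImplicit false

open Finset
open scoped Classical

namespace Pool.Agent.MP_d6d719_co.H91

variable {V : Type}

/-- used targets -/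
noncomputable def Usd (T : Finset V) (p : V → V) : Finset V := {y ∈ T | p y ≠ y}

/-- the extension invariant of Friedman and Pippenger -/
structure Inv (H : V → V → Prop) (Pt T : Finset V) (D m : ℕ) (p : V → V) : Prop where
  lk : ∀ y ∈ T, p y ≠ y → H (p y) y
  ct : ∀ X ⊆ Pt, #X ≤ 2 * m →
    D * #X ≤ #{y ∈ T | (p y = y ∧ ∃ x ∈ X, H x y) ∨ (p y ≠ y ∧ p y ∈ X)}

/-- expansion of small sets of sources into the targets -/
def EX (H : V → V → Prop) (Pt T : Finset V) (D m : ℕ) : Prop :=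
  ∀ X ⊆ Pt, #X ≤ 2 * m → 4 * D * #X ≤ #{y ∈ T | ∃ x ∈ X, H x y}

variable {H : V → V → Prop} {Pt T : Finset V} {D m : ℕ}

theorem EX.inv_id (h : EX H Pt T D m) : Inv H Pt T D m id :=
  ⟨fun _ _ h => (h rfl).elim, fun X h1 h2 => by
    have := h X h1 h2
    simp only [id, true_and, ne_eq, not_true, false_and, or_false]
    nlinarith⟩

/-- forgetting used targets keeps the invariant -/
theorem Inv.mono {P p : V → V} (h : Inv H Pt T D m P) (hp : ∀ y ∈ T, p y = y ∨ p y = P y) :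
    Inv H Pt T D m p := by
  refine ⟨fun y hy h1 => ?_, fun X h1 h2 => (h.ct X h1 h2).trans (card_le_card fun y hy => ?_)⟩
  · have := (hp y hy).resolve_left h1
    exact this ▸ h.lk y hy (this ▸ h1)
  · rw [mem_filter] at hy ⊢
    refine ⟨hy.1, ?_⟩
    rcases hp y hy.1 with e | e
    · exact Or.inl ⟨e, hy.2.elim (·.2) fun a => ⟨_, a.2, h.lk y hy.1 a.1⟩⟩
    · rw [e]; exact hy.2

theorem card_Usd_update (T : Finset V) (p : V → V) (y x : V) :
    #(Usd T (Function.update p y x)) ≤ #(Usd T p) + 1 := by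
  refine le_trans (card_le_card fun z hz => ?_) (card_insert_le y _)
  by_cases e : z = y
  · simp [e]
  · simpa [Usd, e] using hz

theorem Inv.extend (hEX : EX H Pt T D m) (hD : 1 ≤ D) (hm : 1 ≤ m) (hirr : ∀ x, ¬ H x x)
    {p : V → V} (h : Inv H Pt T D m p) (hu : #(Usd T p) ≤ 3 * m) {x : V} (hx : x ∈ Pt)
    (hc : #{y ∈ T | p y ≠ y ∧ p y = x} < D) :
    ∃ y ∈ T, p y = y ∧ H x y ∧ Inv H Pt T D m (Function.update p y x) := by
  set g : Finset V → Finset V := fun X =>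
    {y ∈ T | (p y = y ∧ ∃ x ∈ X, H x y) ∨ (p y ≠ y ∧ p y ∈ X)} with hg
  have small : ∀ X ⊆ Pt, #X ≤ 2 * m → #(g X) ≤ D * #X → #X ≤ m := fun X h1 h2 h3 => by
    have a1 : #{y ∈ T | ∃ x ∈ X, H x y} ≤ #(g X) + #(Usd T p) :=
      le_trans (card_le_card fun y hy => by
        simp only [hg, Usd, mem_filter, mem_union] at hy ⊢
        exact (em (p y = y)).imp (fun e => ⟨hy.1, Or.inl ⟨e, hy.2⟩⟩) fun e => ⟨hy.1, e⟩)
        (card_union_le _ _)
    nlinarith [hEX X h1 h2]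
  obtain ⟨U, hU, hmax⟩ := exists_max_image
    {X ∈ Pt.powerset | x ∉ X ∧ #X ≤ 2 * m ∧ #(g X) ≤ D * #X} card ⟨∅, by simp [hg]⟩
  simp only [mem_filter, mem_powerset] at hU hmax
  obtain ⟨u1, u2, u3, u4⟩ := hU
  have u5 := small U u1 u3 u4
  by_contra hcon
  push Not at hcon
  have key : ∀ y ∈ T, p y = y → H x y → y ∈ g U := fun y y1 y2 y3 => by
    have hxy : x ≠ y := fun e => hirr y (e ▸ y3)
    obtain ⟨X, x1, x2, x3⟩ : ∃ X ⊆ Pt, #X ≤ 2 * m ∧ #{z ∈ T | (Function.update p y x z = z ∧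
        ∃ x ∈ X, H x z) ∨ (Function.update p y x z ≠ z ∧ Function.update p y x z ∈ X)} < D * #X := by
      by_contra h2
      push Not at h2
      refine hcon y y1 y2 y3 ⟨fun z z1 z2 => ?_, h2⟩
      by_cases e : z = y
      · simpa [e] using y3
      · rw [Function.update_of_ne e] at z2 ⊢
        exact h.lk z z1 z2
    have a1 := h.ct X x1 x2
    have a2 : ∀ z ∈ g X, z ≠ y ∨ x ∈ X → z ∈ {z ∈ T | (Function.update p y x z = z ∧
        ∃ x ∈ X, H x z) ∨ (Function.update p y x z ≠ z ∧ Function.update p y x z ∈ X)} :=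
      fun z hz h2 => by
      by_cases e : z = y
      · simp [e, y1, hxy, h2.resolve_left (not_not.2 e)]
      · simpa [hg, e] using hz
    have a3 : y ∈ g X ∧ x ∉ X := by
      by_contra h2
      refine absurd (a1.trans (card_le_card fun z hz => a2 z hz ?_)) (not_le.2 x3)
      by_contra h3
      push Not at h3
      exact h2 ⟨h3.1 ▸ hz, h3.2⟩
    have a4 : #(g X) ≤ D * #X := by
      have := card_le_card (s := (g X).erase y) fun z hz =>
        a2 z (mem_of_mem_erase hz) (Or.inl (ne_of_mem_erase hz))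
      rw [card_erase_of_mem a3.1] at this
      omega
    have a5 := small X x1 x2 a4
    have a6 := card_union_add_card_inter X U
    have a7 := card_union_add_card_inter (g X) (g U)
    have a8 : #(g (X ∪ U)) ≤ #(g X ∪ g U) := card_le_card fun z hz => by
      simp only [hg, mem_filter, mem_union, or_and_right, exists_or] at hz ⊢
      obtain ⟨b1, ⟨b2, b3 | b3⟩ | ⟨b2, b3 | b3⟩⟩ := hz
      exacts [.inl ⟨b1, .inl ⟨b2, b3⟩⟩, .inr ⟨b1, .inl ⟨b2, b3⟩⟩, .inl ⟨b1, .inr ⟨b2, b3⟩⟩,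
        .inr ⟨b1, .inr ⟨b2, b3⟩⟩]
    have a9 : D * #(X ∩ U) ≤ #(g X ∩ g U) := (h.ct (X ∩ U) (inter_subset_left.trans x1)
      ((card_le_card inter_subset_left).trans x2)).trans (card_le_card fun z hz => by
        simp only [hg, mem_filter, mem_inter] at hz ⊢
        obtain ⟨b1, ⟨b2, w, b3, b4⟩ | b2⟩ := hz
        · exact ⟨⟨b1, Or.inl ⟨b2, w, b3.1, b4⟩⟩, b1, Or.inl ⟨b2, w, b3.2, b4⟩⟩
        · exact ⟨⟨b1, Or.inr ⟨b2.1, b2.2.1⟩⟩, b1, Or.inr ⟨b2.1, b2.2.2⟩⟩)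
    have b1 := hmax (X ∪ U) ⟨union_subset x1 u1, by simp [a3.2, u2], by omega, by nlinarith⟩
    have b2 : X ⊆ U := eq_of_subset_of_card_le subset_union_right b1 ▸ subset_union_left
    have := a3.1
    simp only [hg, mem_filter, y1, y2, true_and, ne_eq, not_true, false_and, or_false] at this ⊢
    exact this.imp fun w hw => ⟨b2 hw.1, hw.2⟩
  have c1 := h.ct (insert x U) (insert_subset hx u1) ((card_insert_le _ _).trans (by omega))
  have c2 : #(g (insert x U)) ≤ #(g U) + #{y ∈ T | p y ≠ y ∧ p y = x} :=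
    le_trans (card_le_card fun z hz => by
      have := key z
      simp only [hg, mem_filter, mem_union, mem_insert, exists_eq_or_imp] at hz this ⊢
      obtain ⟨b1, ⟨b2, b3 | b3⟩ | ⟨b2, b3 | b3⟩⟩ := hz
      exacts [.inl (this b1 b2 b3), .inl ⟨b1, .inl ⟨b2, b3⟩⟩, .inr ⟨b1, b2, b3⟩,
        .inl ⟨b1, .inr ⟨b2, b3⟩⟩]) (card_union_le _ _)
  rw [card_insert_of_notMem u2] at c1
  nlinarith

theorem Inv.extend_many (hEX : EX H Pt T D m) (hD : 1 ≤ D) (hm : 1 ≤ m) (hirr : ∀ x, ¬ H x x)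
    {p : V → V} (h : Inv H Pt T D m p) {X : Finset V} (hX : X ⊆ Pt)
    (hc : ∀ y ∈ T, p y ≠ y → p y ∉ X) (hu : #(Usd T p) + D * #X ≤ 3 * m) (k : ℕ)
    (hk : k ≤ D * #X) : ∃ P, Inv H Pt T D m P ∧ ∃ Y ⊆ T, #Y = k ∧ (∀ y ∉ Y, P y = p y) ∧
      (∀ y ∈ Y, p y = y ∧ P y ≠ y ∧ P y ∈ X) ∧ #(Usd T P) ≤ #(Usd T p) + k := by
  induction k with
  | zero => exact ⟨p, h, ∅, by simp⟩
  | succ k ih =>
    obtain ⟨P, a1, Y, a2, a3, a4, a5, a6⟩ := ih (by omega)
    obtain ⟨x, x1, x2⟩ := exists_card_fiber_lt_of_card_lt_mul (s := Y) (t := X) (f := P)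
      (n := D) (by rw [mul_comm]; omega)
    obtain ⟨y, y1, y2, y3, y4⟩ := a1.extend hEX hD hm hirr (by omega) (hX x1)
      (lt_of_le_of_lt (card_le_card fun y hy => by
        rw [mem_filter] at hy ⊢
        refine ⟨by_contra fun h2 => ?_, hy.2.2⟩
        rw [a4 y h2] at hy
        exact hc y hy.1 hy.2.1 (hy.2.2 ▸ x1)) x2)
    have y5 : y ∉ Y := fun h => (a5 y h).2.1 y2
    refine ⟨_, y4, insert y Y, insert_subset y1 a2, by rw [card_insert_of_notMem y5, a3],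
      fun z hz => ?_, fun z hz => ?_, (card_Usd_update T P y x).trans (by omega)⟩
    · rw [mem_insert, not_or] at hz
      rw [Function.update_of_ne hz.1, a4 z hz.2]
    · rcases mem_insert.1 hz with rfl | hz
      · rw [Function.update_self]
        exact ⟨a4 z y5 ▸ y2, fun e => hirr z (e ▸ y3), x1⟩
      · rw [Function.update_of_ne (ne_of_mem_of_not_mem hz y5)]
        exact a5 z hz

theorem tree {l : ℕ} (hEX : EX H Pt T D m) (hD : 2 ≤ D)
    (hm : D ^ l = m) (hirr : ∀ x, ¬ H x x) (out : V → V → Prop)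
    (out_pt : ∀ y ∈ T, ∀ z, out y z → z ∈ Pt)
    (out_inj : ∀ y ∈ T, ∀ y' ∈ T, ∀ z, out y z → out y' z → y = y')
    {p0 : V → V} (h0 : Inv H Pt T D m p0) (hu : #(Usd T p0) ≤ m) {x0 : V} (hx0 : x0 ∈ Pt)
    (fresh : ∀ y ∈ T, p0 y = y → ∀ z, out y z → z ≠ x0 ∧ ∀ y' ∈ T, p0 y' ≠ y' → p0 y' ≠ z)
    (root : ∀ y ∈ T, p0 y ≠ y → p0 y ≠ x0)
    (C : ℕ → V → (V → V) → Prop) (c0 : C 0 x0 p0)
    (step : ∀ j < l, ∀ x p y, C j x p → y ∈ T → p y = y → p0 y = y → H x y →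
      Inv H Pt T D m (Function.update p y x) → ∃ z, out y z ∧ C (j + 1) z (Function.update p y x)) :
    ∃ X ⊆ Pt, #X = m ∧ ∀ x ∈ X, ∃ p, C l x p ∧ Inv H Pt T D m p ∧
      (∀ y, p0 y ≠ y → p y = p0 y) ∧ #(Usd T p) ≤ #(Usd T p0) + l := by
  have hm1 : 1 ≤ m := hm ▸ Nat.one_le_pow _ _ (by omega)
  suffices h : ∀ j ≤ l, ∃ P, Inv H Pt T D m P ∧ #(Usd T P) ≤ m + 2 * D ^ j ∧
      (∀ y, p0 y ≠ y → P y = p0 y) ∧ ∃ X ⊆ Pt, #X = D ^ j ∧ (∀ y ∈ T, P y ≠ y → P y ∉ X) ∧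
      (∀ w, (w ∈ X ∨ ∃ y ∈ T, p0 y = y ∧ P y ≠ y ∧ P y = w) →
        w = x0 ∨ ∃ y ∈ T, P y ≠ y ∧ out y w) ∧
      ∀ x ∈ X, ∃ p, C j x p ∧ (∀ y ∈ T, p y = y ∨ p y = P y) ∧ (∀ y, p0 y ≠ y → p y = p0 y) ∧
        #(Usd T p) ≤ #(Usd T p0) + j by
    obtain ⟨P, a1, -, -, X, a2, a3, -, -, a4⟩ := h l le_rfl
    exact ⟨X, a2, a3.trans hm, fun x hx => (a4 x hx).imp fun p h => ⟨h.1, a1.mono h.2.1, h.2.2⟩⟩
  intro j hj
  induction j with
  | zero =>
    refine ⟨p0, h0, by omega, fun _ _ => rfl, {x0}, by simpa, by simp, by simpa using root, ?_,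
      by simpa using ⟨p0, c0, by simp⟩⟩
    rintro w (h | ⟨y, -, h1, h2, -⟩)
    exacts [Or.inl (mem_singleton.1 h), (h2 h1).elim]
  | succ j ih =>
    obtain ⟨P, a1, a2, a3, X, a4, a5, a6, a7, a8⟩ := ih (by omega)
    have e1 : D ^ (j + 1) ≤ m := hm ▸ Nat.pow_le_pow_right (by omega) hj
    have e2 : D * #X = D ^ (j + 1) := by rw [a5, pow_succ']
    have e3 : 2 * D ^ j ≤ D ^ (j + 1) := by rw [pow_succ']; exact Nat.mul_le_mul_right _ hD
    obtain ⟨P', b1, Y, b2, b3, b4, b5, b6⟩ := a1.extend_many hEX (by omega) hm1 hirr a4 a6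
      (by omega) _ le_rfl
    have b7 : ∀ y, P y ≠ y → P' y = P y := fun y h => b4 y fun h' => h (b5 y h').1
    have b8 : ∀ y ∈ Y, p0 y = y := fun y hy => by
      by_contra h
      exact h ((a3 y h).symm.trans (b5 y hy).1)
    have : ∀ y ∈ Y, ∃ z, out y z ∧ ∃ p, C (j + 1) z p ∧ (∀ y ∈ T, p y = y ∨ p y = P' y) ∧
        (∀ y, p0 y ≠ y → p y = p0 y) ∧ #(Usd T p) ≤ #(Usd T p0) + (j + 1) := fun y hy => by
      obtain ⟨c1, c2, c3⟩ := b5 y hy
      obtain ⟨p, d1, d2, d3, d4⟩ := a8 _ c3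
      have d5 : ∀ z ∈ T, Function.update p y (P' y) z = z ∨
          Function.update p y (P' y) z = P' z := fun z hz => by
        by_cases e : z = y
        · simp [e]
        · rw [Function.update_of_ne e]
          by_cases h : p z = z
          · exact Or.inl h
          · have := (d2 z hz).resolve_left h
            exact Or.inr (this.trans (b7 z (this ▸ h)).symm)
      obtain ⟨z, z1, z2⟩ := step j hj _ p y d1 (b2 hy) ((d2 y (b2 hy)).elim id (·.trans c1))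
        (b8 y hy) (b1.lk y (b2 hy) c2) (b1.mono d5)
      refine ⟨z, z1, _, z2, d5, fun w hw => ?_, (card_Usd_update _ _ _ _).trans (by omega)⟩
      rw [Function.update_of_ne fun e : w = y => hw (e ▸ b8 y hy), d3 w hw]
    choose! z z1 z2 using this
    have old : ∀ y ∈ T, p0 y = y → P' y ≠ y → P' y = x0 ∨ ∃ y' ∈ T, P y' ≠ y' ∧ out y' (P' y) :=
      fun y y1 y2 y3 => a7 _ (by
        by_cases h : y ∈ Y
        · exact Or.inl (b5 y h).2.2
        · exact Or.inr ⟨y, y1, y2, b4 y h ▸ y3, (b4 y h).symm⟩)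
    refine ⟨P', b1, by omega, fun y h => (b7 y (a3 y h ▸ h)).trans (a3 y h), Y.image z,
      fun w hw => ?_, ?_, fun y y1 y2 h => ?_, ?_, fun w hw => ?_⟩
    · obtain ⟨y, hy, rfl⟩ := mem_image.1 hw
      exact out_pt y (b2 hy) _ (z1 y hy)
    · rw [card_image_of_injOn fun y hy y' hy' (e : z y = z y') =>
        out_inj y (b2 hy) y' (b2 hy') _ (z1 y hy) (e ▸ z1 y' hy'), b3, e2]
    · obtain ⟨w, hw, e⟩ := mem_image.1 h
      have f1 := fresh w (b2 hw) (b8 w hw) _ (z1 w hw)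
      by_cases h0 : p0 y = y
      · rcases old y y1 h0 y2 with h2 | ⟨y', h2, h3, h4⟩
        · exact f1.1 (e.trans h2)
        · exact h3 (out_inj y' h2 w (b2 hw) _ h4 (e ▸ z1 w hw) ▸ (b5 w hw).1)
      · exact f1.2 y y1 h0 ((a3 y h0).symm.trans ((b7 y (a3 y h0 ▸ h0)).symm.trans e.symm))
    · rintro w (h | ⟨y, y1, y2, y3, rfl⟩)
      · obtain ⟨y, hy, rfl⟩ := mem_image.1 h
        exact Or.inr ⟨y, b2 hy, (b5 y hy).2.1, z1 y hy⟩
      · exact (old y y1 y2 y3).imp_right fun ⟨y', h1, h2, h3⟩ => ⟨y', h1, b7 y' h2 ▸ h2, h3⟩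
    · obtain ⟨y, hy, rfl⟩ := mem_image.1 hw
      exact z2 y hy

end Pool.Agent.MP_d6d719_co.H91

end MrgPart1

-- ======== part 2: formerly Pool.Agent.MP_d6d719_co.h91.PRDefs
section MrgPart2

set_option autoImplicit false

open Finset
open scoped Classical

namespace Pool.Agent.MP_d6d719_co.H91

/-- pseudorandom properties of the host graph -/
structure PR {V : Type} [Fintype V] (G : SimpleGraph V) (d τ ζ : ℝ) : Prop where
  lo : ∀ v, (1 - τ) * d ≤ #{w | G.Adj v w}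
  hi : ∀ v, (#{w | G.Adj v w} : ℝ) ≤ (1 + τ) * d
  p1 : ∀ A B : Finset V, (er G.Adj A B : ℝ) ≤
    8 * (d / Fintype.card V) * #A * #B + 3 * Real.log (Fintype.card V) * (#A + #B)
  p2 : ∀ A B : Finset V, (er G.Adj A B : ℝ) ≤
    8 * (d / Fintype.card V) * #A * #B + 2 * Fintype.card V
  p3 : ∀ A B : Finset V, #B ^ 2 ≤ 16 * Fintype.card V → er G.Adj A B ≤ 30 * (#A + #B)
  p4 : ∀ A B : Finset V, d / Fintype.card V * #A * #B - ζ * Fintype.card V * d ≤ er G.Adj A B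

/-- sets determined by a sparse subgraph and a short code meet few neighbourhoods -/
def UP {V ι : Type} [Fintype V] (G : SimpleGraph V) (d : ℝ)
    (Ψ : Finset (Sym2 V) → ι → V → Finset V) : Prop :=
  ∀ E : Finset (Sym2 V), (∀ e ∈ E, e ∈ G.edgeSet) → (#E : ℝ) ≤ Fintype.card V * d / 1000 →
    ∀ i, ((∑ x, #{y ∈ Ψ E i x | G.Adj x y} : ℕ) : ℝ) ≤ Fintype.card V * d / 20

theorem er_eq_card {V : Type} (r : V → V → Prop) (A B : Finset V) :
    er r A B = #{q ∈ A ×ˢ B | r q.1 q.2} := by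
  simp only [er, card_filter, sum_product]

end Pool.Agent.MP_d6d719_co.H91

end MrgPart2

-- ======== part 3: formerly Pool.Agent.MP_d6d719_co.h91.Grow
section MrgPart3

set_option autoImplicit false

open Finset
open scoped Classical

namespace Pool.Agent.MP_d6d719_co.H91

variable {V : Type} [Fintype V]

/-- few pairs into a small set -/
def E2 (H : V → V → Prop) : Prop :=
  ∀ A B : Finset V, #B ^ 2 ≤ 16 * Fintype.card V → er H A B ≤ 30 * (#A + #B)

/-- the first step from a set of at least `r1` sources -/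
def FS (H : V → V → Prop) (Pt R : Finset V) (ε : ℝ) (r1 w w' : ℕ) : Prop :=
  ∀ X ⊆ Pt, r1 ≤ #X → ∀ N ⊆ R, (#N : ℝ) < 10 * ε * Fintype.card V →
    30 * (w * #X + w' * Fintype.card V) < er H X (R \ N)

theorem bad_le {κ : Type} {H : V → V → Prop} (hE : E2 H) (cl : V → κ) {B : Finset V}
    (hsm : ∀ c, #{y ∈ B | cl y = c} ^ 2 ≤ 16 * Fintype.card V) (X Y : Finset V) (W : V → Finset κ)
    {w : ℕ} (hW : ∀ x ∈ X, #(W x) ≤ w) (h : ∀ x ∈ X, ∀ y ∈ Y, H x y → y ∈ B ∧ cl y ∈ W x) :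
    er H X Y ≤ 30 * (w * #X + Fintype.card V) := by
  have a1 : er H X Y ≤ ∑ c ∈ B.image cl, er H {x ∈ X | c ∈ W x} {y ∈ B | cl y = c} := by
    simp only [er_eq_card]
    refine le_trans (card_le_card fun q hq => ?_) card_biUnion_le
    simp only [mem_filter, mem_product, mem_biUnion] at hq ⊢
    have := h _ hq.1.1 _ hq.1.2 hq.2
    exact ⟨_, mem_image_of_mem _ this.1, ⟨⟨hq.1.1, this.2⟩, this.1, rfl⟩, hq.2⟩
  refine a1.trans ((sum_le_sum fun c _ => hE _ _ (hsm c)).trans ?_)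
  rw [← mul_sum, sum_add_distrib, ← card_eq_sum_card_image]
  refine Nat.mul_le_mul_left _ (add_le_add ?_ (card_le_univ _))
  simp only [card_filter]
  rw [sum_comm, mul_comm]
  refine sum_le_card_nsmul _ _ _ fun x hx => le_trans ?_ (hW x hx)
  rw [← card_filter]
  exact card_le_card fun c hc => (mem_filter.1 hc).2

theorem junction {κ : Type} {H : V → V → Prop} {Pt R : Finset V} {ε : ℝ} {r1 w w' : ℕ}
    (hs : ∀ x y, H x y → H y x) (hE : E2 H) (hFS : FS H Pt R ε r1 w w') (hε : 0 < ε)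
    (hn : 0 < Fintype.card V) (cl : V → κ) {A X : Finset V} (hA : A ⊆ Pt) (hA1 : r1 ≤ #A)
    (hsm : ∀ c, #{y ∈ A | cl y = c} ^ 2 ≤ 16 * Fintype.card V) (hX : X ⊆ R)
    (hX1 : #R - 5 * ε * Fintype.card V ≤ #X) (W : V → Finset κ)
    (hW : ∀ x ∈ X, #(W x) + 1 ≤ w') : ∃ x ∈ X, ∃ y ∈ A, H x y ∧ cl y ∉ W x := by
  by_contra hc
  push Not at hc
  have h0 : 0 < ε * Fintype.card V := by positivity
  have a1 := hFS A hA hA1 (R \ X) sdiff_subset (by
    rw [card_sdiff_of_subset hX, Nat.cast_sub (card_le_card hX)]; linarith)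
  rw [Finset.sdiff_sdiff_eq_self hX, er_comm] at a1
  have a2 := (er_mono (fun x y (h : H y x) => hs _ _ h) Subset.rfl Subset.rfl).trans
    (bad_le hE cl hsm X A W (w := w' - 1) (fun x hx => by have := hW x hx; omega)
    fun x hx y hy h => ⟨hy, hc x hx y hy h⟩)
  rcases X.eq_empty_or_nonempty with rfl | ⟨x, hx⟩
  · simp [er] at a1
  obtain ⟨k, rfl⟩ : ∃ k, w' = k + 1 := ⟨w' - 1, by have := hW x hx; omega⟩
  rw [Nat.add_sub_cancel] at a2
  nlinarith [Nat.mul_le_mul_left k (card_le_univ X), Nat.zero_le (w * #A)]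

theorem grow {κ : Type} {H : V → V → Prop} {Pt R : Finset V} {ε γ b : ℝ} {r1 w w' J : ℕ}
    (hE : E2 H) (hFS : FS H Pt R ε r1 w w') (hw' : 1 ≤ w') (hRX : RX H R ε γ b)
    (hb : 30 * ((w + 1 : ℝ) * Fintype.card V) < b) (hε : 0 < ε) (hγ : 20 * ε ≤ γ) (hγ1 : γ ≤ 1)
    (hn : 0 < Fintype.card V) (hJ : 2 + γ ≤ γ * J) (hR : (1 - 4 * ε) * Fintype.card V ≤ #R)
    {Lo Tg Sm : Finset V} (cl : V → κ) (φ : V → V) (_hLo : Lo ⊆ R) (hSm : Lo ⊆ Sm) (hTg : Tg ⊆ R)
    (hsm : ∀ c, #{y ∈ Sm | cl y = c} ^ 2 ≤ 16 * Fintype.card V)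
    (hf : (#(R \ (Lo ∪ Tg)) : ℝ) ≤ 4 * ε * Fintype.card V)
    (hφ : Set.InjOn φ Lo) (hφR : ∀ y ∈ Lo, φ y ∈ R)
    (C : ℕ → V → Finset κ → Prop) (hW : ∀ j ≤ J, ∀ x W, C j x W → #W ≤ w)
    (step : ∀ j < J, ∀ x W y, C j x W → y ∈ Lo → H x y → cl y ∉ W → ∃ W', C (j + 1) (φ y) W')
    {X0 : Finset V} (hX0 : X0 ⊆ Pt) (hr : r1 ≤ #X0) (c0 : ∀ x ∈ X0, ∃ W, C 0 x W) :
    (∃ j < J, ∃ x W y, C j x W ∧ y ∈ Tg ∧ H x y ∧ (y ∈ Sm → cl y ∉ W)) ∨
    ((#Tg : ℝ) < ε * Fintype.card V ∧ ∃ X ⊆ R, #R - 5 * ε * Fintype.card V ≤ #X ∧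
      ∀ x ∈ X, ∃ W, C J x W) := by
  refine or_iff_not_imp_left.2 fun hc => ?_
  push Not at hc
  have adv : ∀ j < J, ∀ X : Finset V, (∀ x ∈ X, ∃ W, C j x W) → ∃ N ⊆ R, Tg ⊆ R \ N ∧
      er H X (R \ N) ≤ 30 * (w * #X + Fintype.card V) ∧ ∃ X' ⊆ R,
      (#N : ℝ) - 4 * ε * Fintype.card V ≤ #X' ∧ ∀ x ∈ X', ∃ W, C (j + 1) x W := fun j hj X h => by
    choose! W h using h
    set N := {y ∈ R | ∃ x ∈ X, H x y ∧ ¬ (y ∈ Sm ∧ cl y ∈ W x)} with hN
    have a1 : ∀ y ∈ Tg, y ∉ N := fun y hy h2 => by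
      obtain ⟨x, b1, b2, b3⟩ := (mem_filter.1 h2).2
      exact b3 (hc j hj x _ y (h x b1) hy b2)
    refine ⟨N, filter_subset _ _, fun y hy => mem_sdiff.2 ⟨hTg hy, a1 y hy⟩, bad_le hE cl hsm _ _ W
      (fun x hx => hW j hj.le x _ (h x hx)) fun x hx y hy h2 => ?_, (N ∩ Lo).image φ,
      fun x hx => ?_, ?_, fun x hx => ?_⟩
    · by_contra h3
      exact (mem_sdiff.1 hy).2 (mem_filter.2 ⟨(mem_sdiff.1 hy).1, x, hx, h2, h3⟩)
    · obtain ⟨y, hy, rfl⟩ := mem_image.1 hx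
      exact hφR y (mem_inter.1 hy).2
    · rw [card_image_of_injOn (hφ.mono (coe_subset.2 inter_subset_right))]
      have : #N ≤ #(N ∩ Lo) + #(R \ (Lo ∪ Tg)) := le_trans (card_le_card fun y hy => by
        by_cases h2 : y ∈ Lo
        · exact mem_union_left _ (mem_inter.2 ⟨hy, h2⟩)
        · exact mem_union_right _ (mem_sdiff.2 ⟨(mem_filter.1 hy).1,
            fun h3 => (mem_union.1 h3).elim h2 fun h4 => a1 y h4 hy⟩)) (card_union_le _ _)
      have := Nat.cast_le (α := ℝ).2 this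
      push_cast at this
      linarith
    · obtain ⟨y, hy, rfl⟩ := mem_image.1 hx
      obtain ⟨x, b1, b2, b3⟩ := (mem_filter.1 (mem_inter.1 hy).1).2
      exact step j hj x _ y (h x b1) (mem_inter.1 hy).2 b2
        fun h2 => b3 ⟨hSm (mem_inter.1 hy).2, h2⟩
  set n : ℝ := (Fintype.card V : ℝ) with hn'
  have n0 : 0 < n := Nat.cast_pos.2 hn
  have h0 : 0 < ε * n := by positivity
  have h1 := mul_le_mul_of_nonneg_right hγ n0.le
  have h2 := mul_le_mul_of_nonneg_right hγ1 n0.le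
  have key : ∀ j : ℕ, j + 1 ≤ J → ∃ X ⊆ R, (∀ x ∈ X, ∃ W, C (j + 1) x W) ∧
      (((#Tg : ℝ) < ε * n ∧ #R - 5 * ε * n ≤ #X) ∨ ε * n + j * (γ * n / 2) ≤ #X) := by
    intro j hj
    induction j with
    | zero =>
      obtain ⟨N, a1, -, a2, X, a3, a4, a5⟩ := adv 0 hj X0 c0
      refine ⟨X, a3, a5, Or.inr ?_⟩
      have : 10 * ε * n ≤ #N := not_lt.1 fun h => by
        nlinarith [hFS X0 hX0 hr N a1 h, Nat.mul_le_mul_right (Fintype.card V) hw']
      simp only [Nat.cast_zero, zero_mul, add_zero]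
      linarith
    | succ j ih =>
      obtain ⟨X, b1, b2, b3⟩ := ih (by omega)
      obtain ⟨N, a1, a0, a2, X', a3, a4, a5⟩ := adv (j + 1) hj X b2
      refine ⟨X', a3, a5, ?_⟩
      have c1 : (#(R \ N) : ℝ) = #R - #N := by
        rw [card_sdiff_of_subset a1, Nat.cast_sub (card_le_card a1)]
      have c2 : (#Tg : ℝ) ≤ #(R \ N) := Nat.cast_le.2 (card_le_card a0)
      have c3 : 0 ≤ j * (γ * n / 2) := mul_nonneg (Nat.cast_nonneg _) (by linarith)
      have c4 : (er H X (R \ N) : ℝ) ≤ 30 * ((w + 1 : ℝ) * n) := by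
        rw [hn']
        exact_mod_cast a2.trans (by nlinarith [Nat.mul_le_mul_left w (card_le_univ X)])
      by_cases c5 : ε * n ≤ #(R \ N)
      swap
      · exact Or.inl ⟨by linarith, by linarith⟩
      have c6 : #X + #(R \ N) < (1 - γ) * n := not_le.1 fun h => by
        linarith [hRX X b1 _ sdiff_subset (by rcases b3 with h | h <;> linarith [h]) c5 h]
      push_cast
      exact b3.imp (fun h => ⟨h.1, by linarith [h.2]⟩) fun h => by linarith
  obtain ⟨j, rfl⟩ : ∃ j, J = j + 1 := ⟨J - 1, by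
    rcases J with _ | J
    · simp at hJ; linarith
    · rfl⟩
  obtain ⟨X, a1, a2, a3 | a3⟩ := key j le_rfl
  · exact ⟨a3.1, X, a1, a3.2, a2⟩
  · have : (#X : ℝ) ≤ n := Nat.cast_le.2 (card_le_univ X)
    push_cast at hJ
    nlinarith

end Pool.Agent.MP_d6d719_co.H91

end MrgPart3

-- ======== part 4: formerly Pool.Agent.MP_d6d719_co.h91.EarlyA
section MrgPart4

set_option autoImplicit false

open Finset
open scoped Classical

namespace Pool.Agent.MP_d6d719_co.H91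

theorem greedy {I O K : Type} [Fintype K] [DecidableEq I] (o0 : O) (Good : Finset I → (I → O) → Prop)
    (inc : K → I → O → ℝ) (b : ℝ) (h0 : ∀ ob, Good ∅ ob) (hb : Fintype.card K * Real.exp (-b) < 1)
    (step : ∀ (S : Finset I) (ob : I → O) (i : I), i ∉ S → Good S ob →
      (∀ k, ∑ x ∈ S, inc k x (ob x) ≤ b) → ∃ Ω : Finset O, Ω.Nonempty ∧
        (∀ o ∈ Ω, Good (insert i S) (Function.update ob i o)) ∧
        ∀ k, ∑ o ∈ Ω, Real.exp (inc k i o) ≤ Ω.card) (S : Finset I) :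
    ∃ ob, Good S ob ∧ ∀ k, ∑ x ∈ S, inc k x (ob x) ≤ b := by
  have hle : ∀ (S : Finset I) (ob : I → O), ∑ k, Real.exp (∑ x ∈ S, inc k x (ob x) - b) < 1 →
      ∀ k, ∑ x ∈ S, inc k x (ob x) ≤ b := fun S ob h k => by
    have := lt_of_le_of_lt (single_le_sum (f := fun k => Real.exp (∑ x ∈ S, inc k x (ob x) - b))
      (fun _ _ => (Real.exp_pos _).le) (mem_univ k)) h
    rw [Real.exp_lt_one_iff] at this
    linarith
  suffices h : ∃ ob, Good S ob ∧ ∑ k, Real.exp (∑ x ∈ S, inc k x (ob x) - b) < 1 from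
    h.imp fun ob h => ⟨h.1, hle S ob h.2⟩
  induction S using Finset.induction_on with
  | empty => exact ⟨fun _ => o0, h0 _, by simpa using hb⟩
  | insert i S hi ih =>
    obtain ⟨ob, h1, h2⟩ := ih
    obtain ⟨Ω, a1, a2, a3⟩ := step S ob i hi h1 (hle S ob h2)
    have e : ∀ o k, Real.exp (∑ x ∈ insert i S, inc k x (Function.update ob i o x) - b) =
        Real.exp (∑ x ∈ S, inc k x (ob x) - b) * Real.exp (inc k i o) := fun o k => by
      rw [sum_insert hi, Function.update_self, ← Real.exp_add, sum_congr rfl fun x hx => by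
        rw [Function.update_of_ne (ne_of_mem_of_not_mem hx hi)]]
      congr 1; ring
    obtain ⟨o, ho, h3⟩ := exists_le_of_sum_le a1
      (f := fun o => ∑ k, Real.exp (∑ x ∈ insert i S, inc k x (Function.update ob i o x) - b))
      (g := fun _ => ∑ k, Real.exp (∑ x ∈ S, inc k x (ob x) - b)) (by
        simp only [e]
        rw [sum_comm, sum_const, nsmul_eq_mul, mul_sum]
        refine sum_le_sum fun k _ => ?_
        rw [← mul_sum, mul_comm]
        exact mul_le_mul_of_nonneg_right (a3 k) (Real.exp_pos _).le)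
    exact ⟨_, a2 o ho, h3.trans_lt h2⟩

variable {V : Type} [Fintype V] {G : SimpleGraph V} {F : V → V → V → Prop} {d μ τ : ℝ}

theorem card_prod_ge {α β : Type} [Fintype α] [Fintype β] (P : α → Prop) (Q : α → β → Prop)
    {m0 m : ℝ} (hm : 0 ≤ m) (h0 : m0 ≤ #{a | P a}) (h1 : ∀ a, P a → m ≤ #{b | Q a b}) :
    m0 * m ≤ #{x : α × β | P x.1 ∧ Q x.1 x.2} := by
  have e : (#{x : α × β | P x.1 ∧ Q x.1 x.2} : ℝ) = ∑ a with P a, (#{b | Q a b} : ℝ) := by
    rw [card_filter, Fintype.sum_prod_type, sum_filter]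
    push_cast
    refine sum_congr rfl fun a _ => ?_
    by_cases h : P a <;> simp [h]
  rw [e]
  refine (mul_le_mul_of_nonneg_right h0 hm).trans ?_
  rw [← nsmul_eq_mul, ← sum_const]
  exact sum_le_sum fun a ha => h1 a (mem_filter.1 ha).2

theorem card_five_ge (P0 : V → Prop) (P1 : V → V → Prop) (P2 : V → V → V → Prop)
    (P3 : V → V → V → V → Prop) (P4 : V → V → V → V → V → Prop) {m0 m : ℝ} (hm : 0 ≤ m)
    (h0 : m0 ≤ #{a | P0 a}) (h1 : ∀ a, P0 a → m ≤ #{b | P1 a b})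
    (h2 : ∀ a b, P1 a b → m ≤ #{c | P2 a b c})
    (h3 : ∀ a b c, P1 a b → P2 a b c → m ≤ #{e | P3 a b c e})
    (h4 : ∀ a b c e, P2 a b c → P3 a b c e → m ≤ #{f | P4 a b c e f})
    (Ω : Finset (Fin 5 → V)) (φ : V → V → V → V → V → Fin 5 → V)
    (hφ : ∀ a b c e f a' b' c' e' f', φ a b c e f = φ a' b' c' e' f' →
      a = a' ∧ b = b' ∧ c = c' ∧ e = e' ∧ f = f')
    (hΩ : ∀ a b c e f, P0 a → P1 a b → P2 a b c → P3 a b c e → P4 a b c e f → φ a b c e f ∈ Ω) :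
    m0 * m ^ 4 ≤ Ω.card := by
  have a1 := card_prod_ge P0 P1 hm h0 h1
  have a2 := card_prod_ge (fun x : V × V => P0 x.1 ∧ P1 x.1 x.2) (fun x c => P2 x.1 x.2 c) hm
    (by convert a1) fun x hx => h2 _ _ hx.2
  have a3 := card_prod_ge (fun x : (V × V) × V => (P0 x.1.1 ∧ P1 x.1.1 x.1.2) ∧ P2 x.1.1 x.1.2 x.2)
    (fun x c => P3 x.1.1 x.1.2 x.2 c) hm (by convert a2) fun x hx => h3 _ _ _ hx.1.2 hx.2
  have a4 := card_prod_ge (fun x : ((V × V) × V) × V => ((P0 x.1.1.1 ∧ P1 x.1.1.1 x.1.1.2) ∧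
    P2 x.1.1.1 x.1.1.2 x.1.2) ∧ P3 x.1.1.1 x.1.1.2 x.1.2 x.2)
    (fun x c => P4 x.1.1.1 x.1.1.2 x.1.2 x.2 c) hm (by convert a3) fun x hx => h4 _ _ _ _ hx.1.2 hx.2
  rw [show m0 * m ^ 4 = m0 * m * m * m * m by ring]
  refine a4.trans (Nat.cast_le.2 (card_le_card_of_injOn
    (fun x => φ x.1.1.1.1 x.1.1.1.2 x.1.1.2 x.1.2 x.2) (fun x hx => ?_) fun x _ y _ e => ?_))
  · simp only [coe_filter, mem_univ, true_and, Set.mem_ofPred_eq] at hx
    obtain ⟨⟨⟨⟨b1, b2⟩, b3⟩, b4⟩, b5⟩ := hx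
    exact hΩ _ _ _ _ _ b1 b2 b3 b4 b5
  · obtain ⟨b1, b2, b3, b4, b5⟩ := hφ _ _ _ _ _ _ _ _ _ _ e
    exact Prod.ext (Prod.ext (Prod.ext (Prod.ext b1 b2) b3) b4) b5

theorem card_prod_le {α β : Type} [Fintype α] [Fintype β] (P : α → Prop) (Q : α → β → Prop)
    {m0 m : ℝ} (hm : 0 ≤ m) (h0 : (#{a | P a} : ℝ) ≤ m0) (h1 : ∀ a, (#{b | Q a b} : ℝ) ≤ m) :
    (#{x : α × β | P x.1 ∧ Q x.1 x.2} : ℝ) ≤ m0 * m := by
  have e : (#{x : α × β | P x.1 ∧ Q x.1 x.2} : ℝ) = ∑ a with P a, (#{b | Q a b} : ℝ) := by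
    rw [card_filter, Fintype.sum_prod_type, sum_filter]
    push_cast
    refine sum_congr rfl fun a _ => ?_
    by_cases h : P a <;> simp [h]
  rw [e]
  refine le_trans ?_ (mul_le_mul_of_nonneg_right h0 hm)
  rw [← nsmul_eq_mul, ← sum_const]
  exact sum_le_sum fun a _ => h1 a

theorem card_five_le {D : ℝ} (hD : ∀ v, (#{w | G.Adj v w} : ℝ) ≤ D) (hD0 : 0 ≤ D) (P : V → Prop)
    (Ω : Finset (Fin 5 → V)) (i0 i1 i2 i3 i4 : Fin 5) (p2 : V × V → V) (p3 : (V × V) × V → V)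
    (p4 : ((V × V) × V) × V → V) (hi : ∀ i, i = i0 ∨ i = i1 ∨ i = i2 ∨ i = i3 ∨ i = i4)
    (hΩ : ∀ o ∈ Ω, P (o i0) ∧ G.Adj (o i0) (o i1) ∧ G.Adj (p2 (o i0, o i1)) (o i2) ∧
      G.Adj (p3 ((o i0, o i1), o i2)) (o i3) ∧ G.Adj (p4 (((o i0, o i1), o i2), o i3)) (o i4)) :
    (Ω.card : ℝ) ≤ #{a | P a} * D ^ 4 := by
  have a1 := card_prod_le P G.Adj hD0 le_rfl hD
  have a2 := card_prod_le (fun x : V × V => P x.1 ∧ G.Adj x.1 x.2) (fun x c => G.Adj (p2 x) c) hD0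
    (by convert a1) fun x => hD _
  have a3 := card_prod_le (fun x : (V × V) × V => (P x.1.1 ∧ G.Adj x.1.1 x.1.2) ∧
    G.Adj (p2 x.1) x.2) (fun x c => G.Adj (p3 x) c) hD0 (by convert a2) fun x => hD _
  have a4 := card_prod_le (fun x : ((V × V) × V) × V => ((P x.1.1.1 ∧ G.Adj x.1.1.1 x.1.1.2) ∧
    G.Adj (p2 x.1.1) x.1.2) ∧ G.Adj (p3 x.1) x.2) (fun x c => G.Adj (p4 x) c) hD0 (by convert a3)
    fun x => hD _
  rw [show #{a | P a} * D ^ 4 = #{a | P a} * D * D * D * D by ring]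
  refine le_trans (Nat.cast_le.2 (card_le_card_of_injOn
    (fun o => ((((o i0, o i1), o i2), o i3), o i4)) (fun o ho => ?_) fun o _ o' _ e => ?_)) a4
  · obtain ⟨b1, b2, b3, b4, b5⟩ := hΩ o ho
    simp only [coe_filter, mem_univ, true_and, Set.mem_ofPred_eq]
    exact ⟨⟨⟨⟨b1, b2⟩, b3⟩, b4⟩, b5⟩
  · simp only [Prod.mk.injEq] at e
    funext i
    rcases hi i with rfl | rfl | rfl | rfl | rfl <;> tauto

theorem card_obj_le {D : ℝ} (hD : ∀ v, (#{w | G.Adj v w} : ℝ) ≤ D) (hD0 : 0 ≤ D) (P : V → Prop)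
    (Ω : Finset (Fin 5 → V)) (i : Fin 5) (hΩ : ∀ o ∈ Ω, Obj G F o ∧ P (o i)) :
    (Ω.card : ℝ) ≤ #{a | P a} * D ^ 4 := by
  fin_cases i
  · exact card_five_le hD hD0 P Ω 0 1 2 3 4 (·.2) (·.2) (·.2) (by decide) fun o ho => by
      obtain ⟨⟨a1, a2, a3, a4, -⟩, a5⟩ := hΩ o ho
      exact ⟨a5, a1, a2, a3, a4⟩
  · exact card_five_le hD hD0 P Ω 1 0 2 3 4 (·.1) (·.2) (·.2) (by decide) fun o ho => by
      obtain ⟨⟨a1, a2, a3, a4, -⟩, a5⟩ := hΩ o ho
      exact ⟨a5, a1.symm, a2, a3, a4⟩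
  · exact card_five_le hD hD0 P Ω 2 1 0 3 4 (·.2) (·.1.1) (·.2) (by decide) fun o ho => by
      obtain ⟨⟨a1, a2, a3, a4, -⟩, a5⟩ := hΩ o ho
      exact ⟨a5, a2.symm, a1.symm, a3, a4⟩
  · exact card_five_le hD hD0 P Ω 3 4 2 1 0 (·.1) (·.2) (·.2) (by decide) fun o ho => by
      obtain ⟨⟨a1, a2, a3, a4, -⟩, a5⟩ := hΩ o ho
      exact ⟨a5, a4, a3.symm, a2.symm, a1.symm⟩
  · exact card_five_le hD hD0 P Ω 4 3 2 1 0 (·.2) (·.2) (·.2) (by decide) fun o ho => by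
      obtain ⟨⟨a1, a2, a3, a4, -⟩, a5⟩ := hΩ o ho
      exact ⟨a5, a4.symm, a3.symm, a2.symm, a1.symm⟩

theorem avail (S : Sys G F d μ τ) {W : Finset V} {x m : ℝ}
    (hW : ∀ v, (#{w | G.Adj v w ∧ w ∈ W} : ℝ) ≤ x) (hm : m + x + 2 ≤ (1 - τ - 2 * μ) * d)
    {v f g : V} (hf : G.Adj v f) (hg : G.Adj v g) (y z : V) (P : V → Prop)
    (hP : ∀ u, G.Adj v u → Cmp F v f u → Cmp F v g u → u ∉ W → u ≠ y → u ≠ z → P u) :
    m ≤ #{u | P u} := by
  have h1 : ({w | G.Adj v w} : Finset V) ⊆ univ.filter P ∪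
      ({b | G.Adj v b ∧ ¬ Cmp F v f b} : Finset V) ∪ ({b | G.Adj v b ∧ ¬ Cmp F v g b} : Finset V) ∪
      ({w | G.Adj v w ∧ w ∈ W} : Finset V) ∪ {y, z} := by
    intro u hu
    simp only [mem_union, mem_filter, mem_univ, true_and, mem_insert, mem_singleton] at hu ⊢
    have := hP u hu
    tauto
  have h2 := (card_le_card h1).trans ((card_union_le _ _).trans (Nat.add_le_add
    ((card_union_le _ _).trans (Nat.add_le_add_right ((card_union_le _ _).trans
      (Nat.add_le_add_right (card_union_le _ _) _)) _)) card_le_two))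
  have h3 := Nat.cast_le (α := ℝ).2 h2
  push_cast at h3
  linarith [S.lo v, S.bd v f hf, S.bd v g hg, hW v]

variable (G F) in
/-- Valid objects avoiding `W`. -/
noncomputable def Om (W : Finset V) : Finset (Fin 5 → V) :=
  {o | Obj G F o ∧ Function.Injective o ∧ ∀ i, o i ∉ W}

theorem mem_Om {W : Finset V} {a b c e f : V} (h1 : G.Adj a b) (h2 : G.Adj b c) (h3 : G.Adj c e)
    (h4 : G.Adj e f) (k1 : Cmp F b a c) (k2 : Cmp F c b e) (k3 : Cmp F e c f) (n1 : a ≠ e)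
    (n2 : a ≠ f) (n3 : b ≠ f) (w1 : a ∉ W) (w2 : b ∉ W) (w3 : c ∉ W) (w4 : e ∉ W) (w5 : f ∉ W) :
    ![a, b, c, e, f] ∈ Om G F W := by
  refine mem_filter.2 ⟨mem_univ _, ⟨h1, h2, h3, h4, k1, k2, k3⟩, ?_, fun i => ?_⟩
  · have := h1.ne; have := h2.ne; have := h3.ne; have := h4.ne
    have := k1.1; have := k2.1; have := k3.1
    intro i j
    fin_cases i <;> fin_cases j <;> simp_all [eq_comm]
  · fin_cases i <;> simpa

theorem card_ent (S : Sys G F d μ τ) {W : Finset V} {x m m0 : ℝ}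
    (hW : ∀ v, (#{w | G.Adj v w ∧ w ∈ W} : ℝ) ≤ x) (hm : m + x + 2 ≤ (1 - τ - 2 * μ) * d)
    (hm0 : 0 ≤ m) (P0 : V → Prop) (r : V → V) (h0 : m0 ≤ #{a | P0 a})
    (hP : ∀ a, P0 a → a ∉ W ∧ G.Adj a (r a)) :
    m0 * m ^ 4 ≤ #{o ∈ Om G F W | P0 (o 0) ∧ Cmp F (o 0) (r (o 0)) (o 1)} :=
  card_five_ge P0 (fun a b => G.Adj a b ∧ Cmp F a (r a) b ∧ b ∉ W)
    (fun a b c => G.Adj b c ∧ Cmp F b a c ∧ c ∉ W)
    (fun a b c e => G.Adj c e ∧ Cmp F c b e ∧ e ∉ W ∧ e ≠ a)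
    (fun a b c e f => G.Adj e f ∧ Cmp F e c f ∧ f ∉ W ∧ f ≠ a ∧ f ≠ b) hm0 h0
    (fun a ha => avail S hW hm (hP a ha).2 (hP a ha).2 a a _ fun _ h1 h2 _ h3 _ _ => ⟨h1, h2, h3⟩)
    (fun a _ h => avail S hW hm h.1.symm h.1.symm a a _ fun _ h1 h2 _ h3 _ _ => ⟨h1, h2, h3⟩)
    (fun a _ _ _ h => avail S hW hm h.1.symm h.1.symm a a _ fun _ h1 h2 _ h3 h4 _ =>
      ⟨h1, h2, h3, h4⟩)
    (fun a b _ _ _ h => avail S hW hm h.1.symm h.1.symm a b _ fun _ h1 h2 _ h3 h4 h5 =>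
      ⟨h1, h2, h3, h4, h5⟩) _ (fun a b c e f => ![a, b, c, e, f]) (by simp)
    fun a _ _ _ _ h0 h1 h2 h3 h4 => mem_filter.2 ⟨mem_Om h1.1 h2.1 h3.1 h4.1 h2.2.1 h3.2.1 h4.2.1
      h3.2.2.2.symm h4.2.2.2.1.symm h4.2.2.2.2.symm (hP a h0).1 h1.2.2 h2.2.2 h3.2.2.1 h4.2.2.1,
      h0, h1.2.1⟩

theorem card_ctr (S : Sys G F d μ τ) {W : Finset V} {x m : ℝ}
    (hW : ∀ v, (#{w | G.Adj v w ∧ w ∈ W} : ℝ) ≤ x) (hm : m + x + 2 ≤ (1 - τ - 2 * μ) * d)
    (hm0 : 0 ≤ m) {v f : V} (hf : G.Adj v f) :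
    m * m ^ 4 ≤ #{o ∈ Om G F W | Ctr G F v f o} :=
  card_five_ge (fun c => G.Adj v c ∧ Cmp F v f c ∧ c ∉ W)
    (fun c b => G.Adj v c ∧ G.Adj c b ∧ Cmp F c v b ∧ b ∉ W)
    (fun c b e => G.Adj c e ∧ Cmp F c v e ∧ Cmp F c b e ∧ e ∉ W)
    (fun c b e a => G.Adj b a ∧ Cmp F b c a ∧ a ∉ W ∧ a ≠ e)
    (fun c b e a g => G.Adj e g ∧ Cmp F e c g ∧ g ∉ W ∧ g ≠ a ∧ g ≠ b) hm0
    (avail S hW hm hf hf v v _ fun _ h1 h2 _ h3 _ _ => ⟨h1, h2, h3⟩)
    (fun a h => avail S hW hm h.1.symm h.1.symm a a _ fun _ h1 h2 _ h3 _ _ => ⟨h.1, h1, h2, h3⟩)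
    (fun a _ h => avail S hW hm h.1.symm h.2.1 a a _ fun _ h1 h2 h4 h3 _ _ => ⟨h1, h2, h4, h3⟩)
    (fun _ _ e h _ => avail S hW hm h.2.1.symm h.2.1.symm e e _ fun _ h1 h2 _ h3 h4 _ =>
      ⟨h1, h2, h3, h4⟩)
    (fun _ b _ a h _ => avail S hW hm h.1.symm h.1.symm a b _ fun _ h1 h2 _ h3 h4 h5 =>
      ⟨h1, h2, h3, h4, h5⟩) _ (fun c b e a g => ![a, b, c, e, g]) (by simp; tauto)
    fun _ _ _ _ _ h0 h1 h2 h3 h4 => mem_filter.2 ⟨mem_Om h3.1.symm h1.2.1.symm h2.1 h4.1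
      (h3.2.1.symm' S.symm) h2.2.2.1 h4.2.1 h3.2.2.2 h4.2.2.2.1.symm h4.2.2.2.2.symm h3.2.2.1
      h1.2.2.2 h0.2.2 h2.2.2.2 h4.2.2.1, h0.1, h0.2.1, h1.2.2.1, h2.2.1⟩

end Pool.Agent.MP_d6d719_co.H91

end MrgPart4

-- ======== part 5: formerly Pool.Agent.MP_d6d719_co.h91.Early
section MrgPart5

set_option autoImplicit false

open Finset
open scoped Classical

namespace Pool.Agent.MP_d6d719_co.H91

theorem exp_up {O : Type} (Ω : Finset O) (X : O → ℝ) {a : ℝ} (h0 : ∀ o, 0 ≤ X o)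
    (h1 : ∀ o, X o ≤ 1) (h : ∑ o ∈ Ω, X o ≤ a * Ω.card) :
    ∑ o ∈ Ω, Real.exp (X o - 2 * a) ≤ Ω.card := by
  have e : ∀ o ∈ Ω, Real.exp (X o - 2 * a) ≤ (1 + 2 * X o) * Real.exp (-(2 * a)) := fun o _ => by
    rw [sub_eq_add_neg, Real.exp_add]
    refine mul_le_mul_of_nonneg_right ?_ (Real.exp_pos _).le
    have := Real.abs_exp_sub_one_le (x := X o) (by rw [abs_of_nonneg (h0 o)]; exact h1 o)
    rw [abs_of_nonneg (h0 o)] at this
    linarith [le_abs_self (Real.exp (X o) - 1)]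
  refine (sum_le_sum e).trans ?_
  rw [← sum_mul, sum_add_distrib, ← mul_sum, sum_const, nsmul_eq_mul, mul_one, Real.exp_neg,
    ← div_eq_mul_inv, div_le_iff₀ (Real.exp_pos _)]
  nlinarith [Real.add_one_le_exp (2 * a), Nat.cast_nonneg (α := ℝ) Ω.card]

theorem exp_lo {O : Type} (Ω : Finset O) (P : O → Prop) [DecidablePred P] {a : ℝ}
    (h : 2 * a * Ω.card ≤ #{o ∈ Ω | P o}) :
    ∑ o ∈ Ω, Real.exp (a - if P o then 1 else 0) ≤ Ω.card := by
  have e : ∀ o ∈ Ω, Real.exp (a - if P o then 1 else 0) ≤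
      (1 - (if P o then 1 else 0) / 2) * Real.exp a := fun o _ => by
    split_ifs
    · rw [Real.exp_sub, div_le_iff₀ (Real.exp_pos _)]
      nlinarith [Real.add_one_le_exp 1, Real.exp_pos a]
    · simp
  refine (sum_le_sum e).trans ?_
  rw [← sum_mul, sum_sub_distrib, ← sum_div, sum_boole, sum_const, nsmul_eq_mul, mul_one,
    ← le_div_iff₀ (Real.exp_pos _), div_eq_mul_inv _ (Real.exp a), ← Real.exp_neg]
  nlinarith [Real.add_one_le_exp (-a), Nat.cast_nonneg (α := ℝ) Ω.card]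

theorem card_used {V I : Type} [Fintype V] (S : Finset I) (ob : I → Fin 5 → V) (P : V → Prop) :
    (#{w | P w ∧ w ∈ S.biUnion fun x => univ.image (ob x)} : ℝ) ≤
      ∑ x ∈ S, (#{k | P (ob x k)} : ℝ) := by
  rw [← Nat.cast_sum, Nat.cast_le]
  refine le_trans (card_le_card (t := S.biUnion fun x => (univ.filter fun k => P (ob x k)).image
    (ob x)) fun w hw => ?_) (card_biUnion_le.trans (sum_le_sum fun x _ => card_image_le))
  simp only [mem_filter, mem_univ, true_and, mem_biUnion, mem_image] at hw ⊢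
  obtain ⟨h1, x, h2, k, rfl⟩ := hw
  exact ⟨x, h2, k, h1, rfl⟩

theorem early_step {V : Type} [Fintype V] {G : SimpleGraph V} {F : V → V → V → Prop}
    {d μ τ β : ℝ} (S : Sys G F d μ τ) (hβ : 0 < β) (hτ : τ ≤ β) (hμ : 4 * β ≤ 1 - 2 * μ)
    (hβ1 : 4 * β ≤ 1) (hd : 2 ≤ β * d) (hn : 0 < (Fintype.card V : ℝ)) (W : Finset V)
    (hW : ∀ v, (#{w | G.Adj v w ∧ w ∈ W} : ℝ) ≤ β * d) (hW' : (#W : ℝ) ≤ Fintype.card V / 2) :
    (Om G F W).Nonempty ∧
    (∀ v, ∑ o ∈ Om G F W, (#{k | G.Adj v (o k)} : ℝ) / 5 ≤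
      64 * d / (β ^ 4 * Fintype.card V) * (Om G F W).card) ∧
    ∀ v f, G.Adj v f →
      2 * (β ^ 5 * d / (32 * Fintype.card V)) * (Om G F W).card ≤ #{o ∈ Om G F W | Ctr G F v f o} ∧
      2 * (β ^ 5 * d / (32 * Fintype.card V)) * (Om G F W).card ≤ #{o ∈ Om G F W | Ent G F v f o} := by
  have hd0 : 0 < d := by by_contra h; nlinarith
  have hm : β * d + β * d + 2 ≤ (1 - τ - 2 * μ) * d := by nlinarith
  have hD : ∀ v, (#{w | G.Adj v w} : ℝ) ≤ 2 * d := fun v => by nlinarith [S.hi v]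
  have hr : ∀ a, ∃ b, G.Adj a b := fun a => by
    have : (0 : ℝ) < #{w | G.Adj a w} := by nlinarith [S.lo a]
    obtain ⟨b, hb⟩ := card_pos.1 (Nat.cast_pos.1 this)
    exact ⟨b, (mem_filter.1 hb).2⟩
  choose r hr using hr
  have hb : 0 < β * d := by positivity
  have h1 : Fintype.card V / 2 * (β * d) ^ 4 ≤ (Om G F W).card := by
    refine (card_ent S hW hm hb.le (fun a => a ∉ W) r ?_ fun a ha => ⟨ha, hr a⟩).trans
      (Nat.cast_le.2 (card_le_card fun o ho => by simp only [mem_filter] at ho; exact ho.1))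
    have := card_filter_add_card_filter_not (s := univ) (fun a => a ∈ W)
    rw [filter_univ_mem, card_univ] at this
    have := congrArg (Nat.cast (R := ℝ)) this
    push_cast at this
    have e : (#{a | a ∉ W} : ℝ) = Fintype.card V - #W := by linarith
    convert (show Fintype.card V / 2 ≤ (Fintype.card V - #W : ℝ) by linarith)
    convert e
  have h2 : ((Om G F W).card : ℝ) ≤ Fintype.card V * (2 * d) ^ 4 := by
    simpa using card_obj_le (F := F) hD (by positivity) (fun _ => True) (Om G F W) 0 fun o ho =>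
      ⟨(mem_filter.1 ho).2.1, trivial⟩
  have h3 : 2 * (β ^ 5 * d / (32 * Fintype.card V)) * (Om G F W).card ≤ β * d * (β * d) ^ 4 :=
    (mul_le_mul_of_nonneg_left h2 (by positivity)).trans (le_of_eq (by field_simp; ring))
  refine ⟨card_pos.1 (Nat.cast_pos.1 (lt_of_lt_of_le (by positivity) h1)), fun v => ?_,
    fun v f hf => ⟨h3.trans (card_ctr S hW hm hb.le hf), h3.trans ?_⟩⟩
  · have e : ∑ o ∈ Om G F W, (#{k | G.Adj v (o k)} : ℝ) =
        ∑ k, (#{o ∈ Om G F W | G.Adj v (o k)} : ℝ) := by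
      simp only [card_filter]
      push_cast
      exact sum_comm
    have h4 : ∀ k ∈ (univ : Finset (Fin 5)), (#{o ∈ Om G F W | G.Adj v (o k)} : ℝ) ≤
        2 * d * (2 * d) ^ 4 := fun k _ =>
      (card_obj_le (F := F) hD (by positivity) (G.Adj v) _ k fun o ho =>
        ⟨(mem_filter.1 (mem_filter.1 ho).1).2.1, (mem_filter.1 ho).2⟩).trans
        (mul_le_mul_of_nonneg_right (hD v) (by positivity))
    have h5 := sum_le_sum h4
    rw [← sum_div, e]
    refine le_trans ?_ (mul_le_mul_of_nonneg_left h1 (by positivity))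
    rw [show 64 * d / (β ^ 4 * Fintype.card V) * (Fintype.card V / 2 * (β * d) ^ 4) =
      2 * d * (2 * d) ^ 4 by field_simp; ring]
    simp only [sum_const, card_univ, Fintype.card_fin, nsmul_eq_mul, Nat.cast_ofNat] at h5
    linarith
  · refine (card_ent S hW hm hb.le (fun a => G.Adj v a ∧ Cmp F v f a ∧ a ∉ W) (fun _ => v)
      (avail S hW hm hf hf v v _ fun _ h1 h2 _ h3 _ _ => ⟨h1, h2, h3⟩)
      fun a ha => ⟨ha.2.2, ha.1.symm⟩).trans (Nat.cast_le.2 (card_le_card fun o ho => ?_))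
    simp only [mem_filter] at ho ⊢
    exact ⟨ho.1, ho.2.1.1, ho.2.1.2.1, ho.2.2⟩

/-- (A) crude greedy choice of 4T disjoint compatible 5-paths. -/
theorem early (μ : ℝ) (hμ : μ < 1 / 2) : ∃ c C η0 : ℝ, 0 < c ∧ 0 < C ∧ 0 < η0 ∧
    ∀ (V : Type) [Fintype V] (G : SimpleGraph V) (F : V → V → V → Prop) (d τ η : ℝ) (T : ℕ),
      Sys G F d μ τ → 0 ≤ τ → τ ≤ η0 → 0 < η → η ≤ η0 →
      η * Fintype.card V ≤ T → (T : ℝ) ≤ 2 * η * Fintype.card V →
      Real.log (Fintype.card V) + 1 ≤ c * η * d →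
      ∃ ob : Fin 4 × Fin T → Fin 5 → V,
        Function.Injective (fun x : (Fin 4 × Fin T) × Fin 5 => ob x.1 x.2) ∧
        (∀ o, Obj G F (ob o)) ∧
        (∀ v, (#{w | G.Adj v w ∧ ∃ o i, ob o i = w} : ℝ) ≤ C * η * d) ∧
        (∀ j v f, G.Adj v f → c * η * d ≤ #{t | Ctr G F v f (ob (j, t))}) ∧
        (∀ j v f, G.Adj v f → c * η * d ≤ #{t | Ent G F v f (ob (j, t))}) := by
  obtain ⟨β, hβ, hβ1, hβ2⟩ : ∃ β : ℝ, 0 < β ∧ 4 * β ≤ 1 ∧ 4 * β ≤ 1 - 2 * μ :=
    ⟨min (1 / 4) ((1 - 2 * μ) / 4), lt_min (by norm_num) (by linarith),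
      by linarith [min_le_left (1 / 4 : ℝ) ((1 - 2 * μ) / 4)],
      by linarith [min_le_right (1 / 4 : ℝ) ((1 - 2 * μ) / 4)]⟩
  refine ⟨β ^ 5 / 128, 5200 / β ^ 4, β ^ 5 / 5200, by positivity, by positivity, by positivity,
    fun V _ G F d τ η T S _ hτ hη hη0 hT hT' hl => ?_⟩
  rcases isEmpty_or_nonempty V with hV | hV
  · have : T = 0 := by simpa using hT'
    subst this
    exact ⟨fun x => x.2.elim0, fun x => x.1.2.elim0, fun x => x.2.elim0, hV.elim,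
      fun _ => hV.elim, fun _ => hV.elim⟩
  set n : ℝ := (Fintype.card V : ℝ) with hn
  have hn1 : 1 ≤ n := Nat.one_le_cast.2 Fintype.card_pos
  have hlog := Real.log_nonneg hn1
  have hβ4 : β ^ 4 ≤ 1 := pow_le_one₀ hβ.le (by linarith)
  have hβ5 : β ^ 5 ≤ β := by rw [pow_succ]; nlinarith
  have hd0 : 0 < d := by
    by_contra h
    nlinarith [mul_nonneg (show 0 ≤ β ^ 5 / 128 * η by positivity) (neg_nonneg.2 (not_lt.1 h))]
  have hηd : 0 < η * d := by positivity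
  have hd : 2 ≤ β * d := by
    have : β ^ 5 / 128 * η * d ≤ β / 128 * 1 * d := by gcongr; linarith
    linarith
  let inc : V ⊕ (Fin 4 × V × V × Bool) → Fin 4 × Fin T → (Fin 5 → V) → ℝ := fun k i o =>
    match k with
    | .inl v => (#{k | G.Adj v (o k)} : ℝ) / 5 - 2 * (64 * d / (β ^ 4 * n))
    | .inr (j, v, f, t) => if i.1 = j ∧ G.Adj v f then β ^ 5 * d / (32 * n) -
        if (if t then Ctr G F v f o else Ent G F v f o) then 1 else 0 else 0
  have up : ∀ (A : Finset (Fin 4 × Fin T)) (ob : Fin 4 × Fin T → Fin 5 → V),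
      (∀ k, ∑ x ∈ A, inc k x (ob x) ≤ 2 * Real.log n + 3) → ∀ v,
      (#{w | G.Adj v w ∧ w ∈ A.biUnion fun x => univ.image (ob x)} : ℝ) ≤
        5200 / β ^ 4 * η * d := fun A ob h v => by
    refine (card_used A ob _).trans ?_
    have h1 := h (.inl v)
    simp only [inc, sum_sub_distrib, ← sum_div, sum_const, nsmul_eq_mul] at h1
    have h2 : (#A : ℝ) ≤ 8 * η * n := by
      have := Nat.cast_le (α := ℝ).2 (card_le_univ A)
      simp only [Fintype.card_prod, Fintype.card_fin, Nat.cast_mul, Nat.cast_ofNat] at this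
      linarith
    have h3 : (#A : ℝ) * (2 * (64 * d / (β ^ 4 * n))) ≤ 1024 * (η * d / β ^ 4) :=
      (mul_le_mul_of_nonneg_right h2 (by positivity)).trans (le_of_eq (by field_simp; ring))
    have h4 : η * d ≤ η * d / β ^ 4 := by
      rw [le_div_iff₀ (by positivity)]; nlinarith
    have h5 : β ^ 5 / 128 * η * d ≤ η * d := by nlinarith
    rw [show 5200 / β ^ 4 * η * d = 5200 * (η * d / β ^ 4) by ring]
    linarith
  obtain ⟨ob, ⟨g1, g2⟩, g3⟩ := greedy (fun _ : Fin 5 => hV.some)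
    (fun A ob => (∀ x ∈ A, Obj G F (ob x) ∧ Function.Injective (ob x)) ∧
      ∀ x ∈ A, ∀ y ∈ A, x ≠ y → ∀ k l, ob x k ≠ ob y l) inc (2 * Real.log n + 3)
    (by simp) (by
      simp only [Fintype.card_sum, Fintype.card_prod, Fintype.card_fin, Fintype.card_bool]
      push_cast
      rw [← hn, Real.exp_neg, ← div_eq_mul_inv, div_lt_one (Real.exp_pos _), Real.exp_add,
        two_mul, Real.exp_add, Real.exp_log (by linarith)]
      have : (10 : ℝ) ≤ Real.exp 3 := by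
        have := Real.sum_le_exp_of_nonneg (x := 3) (by norm_num) 4
        norm_num [sum_range_succ, Nat.factorial] at this
        linarith
      nlinarith) (fun A ob i hi hg hs => by
      obtain ⟨a1, a2, a3⟩ := early_step S hβ (by linarith) hβ2 hβ1 hd (by linarith)
        (A.biUnion fun x => univ.image (ob x)) (fun v => (up A ob hs v).trans (by
          have : 5200 / β ^ 4 * η ≤ β := (mul_le_mul_of_nonneg_left hη0 (by positivity)).trans
            (le_of_eq (by field_simp))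
          exact mul_le_mul_of_nonneg_right this hd0.le)) (by
          have h1 := card_used A ob fun _ => True
          have h2 := Nat.cast_le (α := ℝ).2 (card_le_univ A)
          simp only [Fintype.card_prod, Fintype.card_fin, Nat.cast_mul, Nat.cast_ofNat, true_and,
            filter_univ_mem, filter_true, card_univ, sum_const, nsmul_eq_mul] at h1 h2
          have : η * n ≤ 1 / 80 * n := by gcongr; linarith
          linarith)
      refine ⟨_, a1, fun o ho => ?_, fun k => ?_⟩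
      · obtain ⟨b1, b2, b3⟩ := (mem_filter.1 ho).2
        simp only [mem_biUnion, mem_image, mem_univ, true_and, not_exists, not_and] at b3
        have e : ∀ x ∈ A, Function.update ob i o x = ob x := fun x hx =>
          Function.update_of_ne (ne_of_mem_of_not_mem hx hi) _ _
        simp only [forall_mem_insert, Function.update_self]
        refine ⟨⟨⟨b1, b2⟩, fun x hx => by rw [e x hx]; exact hg.1 x hx⟩,
          ⟨fun h => (h rfl).elim, fun y hy _ k l => ?_⟩, fun x hx =>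
          ⟨fun _ k l => ?_, fun y hy => ?_⟩⟩
        · rw [e y hy]; exact Ne.symm (b3 k y hy l)
        · rw [e x hx]; exact b3 l x hx k
        · rw [e x hx, e y hy]; exact hg.2 x hx y hy
      · rcases k with v | ⟨j, v, f, t⟩
        · refine exp_up _ _ (fun o => by positivity) (fun o => ?_) (a2 v)
          rw [div_le_one (by norm_num)]
          exact_mod_cast (card_le_univ _).trans (Fintype.card_fin 5).le
        · by_cases h : i.1 = j ∧ G.Adj v f
          · simp only [inc, if_pos h]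
            refine exp_lo _ _ ?_
            cases t
            · simpa using (a3 v f h.2).2
            · simpa using (a3 v f h.2).1
          · simp [inc, if_neg h]) univ
  have lo : ∀ j v f (t : Bool), G.Adj v f → β ^ 5 / 128 * η * d ≤
      #{s | if t then Ctr G F v f (ob (j, s)) else Ent G F v f (ob (j, s))} := fun j v f t h => by
    have h1 := g3 (.inr (j, v, f, t))
    simp only [inc, h, and_true, Fintype.sum_prod_type, sum_comm (s := (univ : Finset (Fin 4))),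
      sum_ite_eq', mem_univ, if_true, sum_sub_distrib, sum_boole, sum_const, card_univ,
      Fintype.card_fin, nsmul_eq_mul] at h1
    have h2 : 4 * (β ^ 5 / 128 * η * d) ≤ T * (β ^ 5 * d / (32 * n)) :=
      le_trans (le_of_eq (by field_simp; ring)) (mul_le_mul_of_nonneg_right hT (by positivity))
    linarith
  refine ⟨ob, fun x y e => ?_, fun o => (g1 o (mem_univ _)).1, fun v => ?_,
    fun j v f h => by simpa using lo j v f true h, fun j v f h => by simpa using lo j v f false h⟩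
  · by_cases h : x.1 = y.1
    · simp only [h] at e
      exact Prod.ext h ((g1 _ (mem_univ _)).2 e)
    · exact (g2 _ (mem_univ _) _ (mem_univ _) h _ _ e).elim
  · simpa using up univ ob g3 v

end Pool.Agent.MP_d6d719_co.H91

end MrgPart5

-- ======== part 6: formerly Pool.Agent.MP_d6d719_co.h91.ContainA
section MrgPart6

set_option autoImplicit false

open Finset
open scoped Classical

namespace Pool.Agent.MP_d6d719_co.H91

theorem lp_half {μ δ a1 a2 b1 b2 : ℝ} (hμ : 1 / 4 ≤ μ) (hμ2 : μ ≤ 1 / 2) (hδ : 0 < δ)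
    (hδ1 : δ ≤ 1 / 4) (h1 : a2 ≤ a1) (h2 : a1 ≤ 1) (h0 : 0 ≤ b2) (h4 : b1 ≤ 1) (h6 : δ ≤ b1)
    (hb : b2 ≤ δ) (c2 : a2 * b1 ≤ μ * b1 + δ ^ 2)
    (c4 : a1 * b1 ≤ μ * (a1 - a2 + (b1 - b2)) + δ ^ 2) :
    μ * (a1 + b1) + (1 - μ) * (a2 + b2) ≤ 2 * μ + 2 * δ := by
  have e1 : a2 ≤ μ + δ := by
    by_contra h
    push Not at h
    nlinarith
  have e2 : (1 - μ) * b2 ≤ δ := by nlinarith
  rcases le_or_gt b1 μ with h | h
  · nlinarith
  rcases le_or_gt a1 μ with h' | h'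
  · nlinarith
  have e3 : μ ^ 2 * ((a1 - μ) + (b1 - μ) - (1 - μ)) ≤ (1 - μ) * ((a1 - μ) * (b1 - μ)) := by
    rcases le_total 0 ((a1 - μ) + (b1 - μ) - (1 - μ)) with h5 | h5
    · have a : (1 - μ) * ((a1 - μ) + (b1 - μ) - (1 - μ)) ≤ (a1 - μ) * (b1 - μ) := by
        nlinarith [mul_nonneg (sub_nonneg.2 h2) (sub_nonneg.2 h4)]
      have b : μ ^ 2 ≤ (1 - μ) * (1 - μ) := by nlinarith
      have c := mul_le_mul_of_nonneg_right b h5
      have d := mul_le_mul_of_nonneg_left a (show 0 ≤ 1 - μ by linarith)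
      linarith
    · have a : 0 ≤ (1 - μ) * ((a1 - μ) * (b1 - μ)) :=
        mul_nonneg (by linarith) (mul_nonneg (by linarith) (by linarith))
      nlinarith [sq_nonneg μ]
  have e4 : μ * a2 ≤ μ ^ 2 - (a1 - μ) * (b1 - μ) + δ ^ 2 := by nlinarith
  have e5 := mul_le_mul_of_nonneg_left e4 (show 0 ≤ 1 - μ by linarith)
  have e6 : (1 - μ) * δ ^ 2 ≤ μ * δ := by nlinarith
  have e7 : μ * (μ * (a1 + b1) + (1 - μ) * a2) ≤ μ * (2 * μ + δ) := by nlinarith
  have e8 := le_of_mul_le_mul_left e7 (by linarith)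
  linarith

theorem lp_main {μ δ a1 a2 b1 b2 : ℝ} (hμ : 1 / 4 ≤ μ) (hμ2 : μ ≤ 1 / 2) (hδ : 0 < δ)
    (hδ1 : δ ≤ 1 / 4) (h0 : 0 ≤ a2) (h1 : a2 ≤ a1) (h2 : a1 ≤ 1) (h0' : 0 ≤ b2) (h3 : b2 ≤ b1)
    (h4 : b1 ≤ 1) (h5 : δ ≤ a1) (h6 : δ ≤ b1) (c1 : a2 * b2 ≤ δ ^ 2)
    (c2 : a2 * b1 ≤ μ * b1 + δ ^ 2) (c3 : a1 * b2 ≤ μ * a1 + δ ^ 2)
    (c4 : a1 * b1 ≤ μ * (a1 - a2 + (b1 - b2)) + δ ^ 2) :
    μ * (a1 + b1) + (1 - μ) * (a2 + b2) ≤ 2 * μ + 2 * δ := by
  rcases le_or_gt b2 δ with h | h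
  · exact lp_half hμ hμ2 hδ hδ1 h1 h2 h0' h4 h6 h c2 c4
  · have h7 : a2 ≤ δ := by
      by_contra h8
      push Not at h8
      nlinarith
    have := lp_half hμ hμ2 hδ hδ1 h3 h4 h0 h2 h5 h7 (by linarith) (by linarith)
    linarith

variable {V : Type} [Fintype V] {G : SimpleGraph V} {F : V → V → V → Prop} {d μ τ : ℝ}

variable (G F) in
/-- Compatible pairs of states. -/
def CS (e e' : V × V) : Prop := G.Adj e.1 e'.1 ∧ Cmp F e.1 e.2 e'.1 ∧ Cmp F e'.1 e'.2 e.1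

/-- The states of `Z` at the vertex `x`. -/
noncomputable def fib (Z : Finset (V × V)) (x : V) : Finset V := univ.filter fun f => (x, f) ∈ Z

variable (F) in
/-- The number of states at `x` compatible with the edge `x y`. -/
noncomputable def free (Z : Finset (V × V)) (x y : V) : ℕ :=
  ((fib Z x).filter fun f => Cmp F x f y).card

variable (G F) in
/-- Neighbours blocked by `x`. -/
noncomputable def blk (Z : Finset (V × V)) (c : ℝ) (x : V) : Finset V :=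
  univ.filter fun y => G.Adj x y ∧ (free F Z x y : ℝ) ≤ c

theorem card_eq_sum_fib (Z : Finset (V × V)) : Z.card = ∑ x, (fib Z x).card := by
  have : Z = univ.filter fun e : V × V => (e.1, e.2) ∈ Z := by ext; simp
  rw [this, card_filter, Fintype.sum_prod_type]
  refine sum_congr rfl fun x _ => ?_
  rw [fib, card_filter]
  simp

theorem fib_split (Z : Finset (V × V)) (x y : V) :
    ((fib Z x).card : ℝ) = free F Z x y + ((fib Z x).filter fun f => ¬ Cmp F x f y).card := by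
  exact_mod_cast (card_filter_add_card_filter_not (s := fib Z x) fun f => Cmp F x f y).symm

theorem blk_empty (S : Sys G F d μ τ) {Z : Finset (V × V)} (hZ : ∀ e ∈ Z, G.Adj e.1 e.2) {c : ℝ}
    {x : V} (h : μ * d + c < (fib Z x).card) : blk G F Z c x = ∅ := by
  refine filter_eq_empty_iff.2 fun y _ hy => ?_
  have h1 := fib_split (F := F) Z x y
  have h2 : (((fib Z x).filter fun f => ¬ Cmp F x f y).card : ℝ) ≤
      #{b | G.Adj x b ∧ ¬ Cmp F x y b} := by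
    refine Nat.cast_le.2 (card_le_card fun f hf => ?_)
    simp only [fib, mem_filter, mem_univ, true_and] at hf ⊢
    exact ⟨hZ _ hf.1, fun h3 => hf.2 (h3.symm' S.symm)⟩
  linarith [S.bd x y hy.1, hy.2]

theorem blk_le (S : Sys G F d μ τ) {Z : Finset (V × V)} (hZ : ∀ e ∈ Z, G.Adj e.1 e.2) (c : ℝ)
    (x : V) : (blk G F Z c x).card * ((fib Z x).card - c) ≤ (fib Z x).card * (μ * d) := by
  have h1 : ∑ y ∈ blk G F Z c x, (((fib Z x).filter fun f => ¬ Cmp F x f y).card : ℝ) ≤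
      ∑ f ∈ fib Z x, (#{b | G.Adj x b ∧ ¬ Cmp F x f b} : ℝ) := by
    norm_cast
    simp only [card_filter]
    rw [sum_comm]
    refine sum_le_sum fun f _ => ?_
    rw [← card_filter, ← card_filter]
    refine card_le_card fun y hy => ?_
    simp only [blk, mem_filter, mem_univ, true_and] at hy ⊢
    exact ⟨hy.1.1, hy.2⟩
  rw [← nsmul_eq_mul, ← nsmul_eq_mul, ← sum_const, ← sum_const]
  refine le_trans (sum_le_sum fun y hy => ?_) (h1.trans (sum_le_sum fun f hf => ?_))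
  · linarith [fib_split (F := F) Z x y, (mem_filter.1 hy).2.2]
  · exact S.bd x f (hZ _ (mem_filter.1 hf).2)

theorem fib_le (S : Sys G F d μ τ) {Z : Finset (V × V)} (hZ : ∀ e ∈ Z, G.Adj e.1 e.2) (x : V) :
    ((fib Z x).card : ℝ) ≤ (1 + τ) * d := by
  refine le_trans (Nat.cast_le.2 (card_le_card fun f hf => ?_)) (S.hi x)
  simp only [fib, mem_filter, mem_univ, true_and] at hf ⊢
  exact hZ _ hf

theorem sum_free (X Y : Finset (V × V)) :
    ∑ x, ∑ y, (if G.Adj x y then free F X x y * free F Y y x else 0) =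
      ∑ e' ∈ Y, (X.filter fun e => CS G F e e').card := by
  have h1 : ∀ (Z : Finset (V × V)) (g : V × V → ℕ), ∑ e ∈ Z, g e = ∑ x, ∑ f ∈ fib Z x, g (x, f) := by
    intro Z g
    simp only [fib, sum_filter]
    rw [← Fintype.sum_prod_type' (f := fun x f => if (x, f) ∈ Z then g (x, f) else 0)]
    simp
  simp only [card_filter]
  rw [h1, sum_comm]
  refine sum_congr rfl fun y _ => ?_
  simp only [h1 X]
  rw [sum_comm]
  refine sum_congr rfl fun x _ => ?_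
  rw [sum_comm]
  unfold free CS
  split_ifs with h
  · rw [card_filter, card_filter, sum_mul_sum]
    refine sum_congr rfl fun f _ => sum_congr rfl fun g _ => ?_
    by_cases h2 : Cmp F x f y <;> by_cases h3 : Cmp F y g x <;> simp [h, h2, h3]
  · simp [h]

theorem er_le_blk (X Y : Finset (V × V)) {c : ℝ} (hc : 0 ≤ c) (A B : Finset V) :
    c ^ 2 * er G.Adj A B ≤ c ^ 2 * (∑ x ∈ A, ((blk G F X c x).card : ℝ) +
      ∑ y ∈ B, ((blk G F Y c y).card : ℝ)) +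
      ∑ e' ∈ Y, ((X.filter fun e => CS G F e e').card : ℝ) := by
  have h1 : ∀ x y, c ^ 2 * (if G.Adj x y then 1 else 0) ≤
      c ^ 2 * ((if y ∈ blk G F X c x then 1 else 0) + if x ∈ blk G F Y c y then 1 else 0) +
        ((if G.Adj x y then free F X x y * free F Y y x else 0 : ℕ) : ℝ) := by
    intro x y
    have h0 := sq_nonneg c
    by_cases h : G.Adj x y
    · simp only [blk, mem_filter, mem_univ, true_and, h, h.symm, if_true]
      push_cast
      have a0 : (0 : ℝ) ≤ free F X x y * free F Y y x := by positivity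
      split_ifs with h2 h3 h3
      · linarith
      · linarith
      · linarith
      · push Not at h2 h3
        nlinarith [mul_le_mul h2.le h3.le hc (by positivity)]
    · simp only [h, if_false]
      split_ifs <;> simp <;> positivity
  have h2 := sum_le_sum fun x (_ : x ∈ A) => sum_le_sum fun y (_ : y ∈ B) => h1 x y
  simp only [sum_add_distrib, ← mul_sum] at h2
  have e1 : (er G.Adj A B : ℝ) = ∑ x ∈ A, ∑ y ∈ B, if G.Adj x y then 1 else 0 := by
    simp [er]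
  have e2 : ∑ x ∈ A, ∑ y ∈ B, (if y ∈ blk G F X c x then (1 : ℝ) else 0) ≤
      ∑ x ∈ A, ((blk G F X c x).card : ℝ) := sum_le_sum fun x _ => by
    rw [sum_boole]
    exact_mod_cast card_le_card fun y hy => (mem_filter.1 hy).2
  have e3 : ∑ x ∈ A, ∑ y ∈ B, (if x ∈ blk G F Y c y then (1 : ℝ) else 0) ≤
      ∑ y ∈ B, ((blk G F Y c y).card : ℝ) := by
    rw [sum_comm]
    exact sum_le_sum fun y _ => by
      rw [sum_boole]
      exact_mod_cast card_le_card fun x hx => (mem_filter.1 hx).2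
  have e4 : ∑ x ∈ A, ∑ y ∈ B, ((if G.Adj x y then free F X x y * free F Y y x else 0 : ℕ) : ℝ) ≤
      ∑ e' ∈ Y, ((X.filter fun e => CS G F e e').card : ℝ) := by
    norm_cast
    rw [← sum_free]
    exact (sum_le_sum fun x _ => sum_le_sum_of_subset (subset_univ B)).trans
      (sum_le_sum_of_subset (subset_univ A))
  rw [e1]
  have := mul_le_mul_of_nonneg_left (add_le_add e2 e3) (sq_nonneg c)
  linarith

theorem shares (S : Sys G F d μ τ) {Z : Finset (V × V)} (hZ : ∀ e ∈ Z, G.Adj e.1 e.2)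
    {ν δ : ℝ} (hd : 0 < d) (hδ : 0 < δ) (hν : ν ≤ 1 / 2) (hν0 : 0 ≤ ν) (hμ : μ + δ ≤ ν)
    (hδ1 : δ ≤ 1 / 4) (hτ : τ ≤ δ) :
    ∃ A1 A2 : Finset V, A2 ⊆ A1 ∧ (∀ x ∈ A2, blk G F Z (δ ^ 2 * d) x = ∅) ∧
      (∀ x ∈ A1, ((blk G F Z (δ ^ 2 * d) x).card : ℝ) ≤ ν * d) ∧
      (Z.card : ℝ) ≤ (2 * δ * Fintype.card V + ν * A1.card + (1 - ν) * A2.card) * d := by
  refine ⟨univ.filter fun x => δ * d ≤ (fib Z x).card,
    univ.filter fun x => max ν δ * d < (fib Z x).card, fun x hx => ?_, fun x hx => ?_,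
    fun x hx => ?_, ?_⟩
  · simp only [mem_filter, mem_univ, true_and] at hx ⊢
    exact le_trans (mul_le_mul_of_nonneg_right (le_max_right _ _) hd.le) hx.le
  · refine blk_empty S hZ (lt_of_le_of_lt ?_ (mem_filter.1 hx).2)
    have := mul_le_mul_of_nonneg_right (le_max_left ν δ) hd.le
    nlinarith [mul_pos hδ hd]
  · have h1 := blk_le S hZ (δ ^ 2 * d) x
    have h2 := (mem_filter.1 hx).2
    obtain ⟨f, hf⟩ : ∃ f : ℝ, f = (fib Z x).card := ⟨_, rfl⟩
    rw [← hf] at h1 h2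
    have h3 : 0 < δ * d := mul_pos hδ hd
    have h4 : (1 - δ) * f ≤ f - δ ^ 2 * d := by nlinarith
    have h5 : (0 : ℝ) ≤ (blk G F Z (δ ^ 2 * d) x).card := by positivity
    have h6 := (mul_le_mul_of_nonneg_left h4 h5).trans h1
    have h7 : f * (μ * d) ≤ f * ((1 - δ) * (ν * d)) :=
      mul_le_mul_of_nonneg_left (by nlinarith) (by linarith)
    refine le_of_mul_le_mul_right (a := (1 - δ) * f) (by linarith) (mul_pos (by linarith) (by linarith))
  · rw [card_eq_sum_fib, card_filter, card_filter]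
    push_cast
    rw [← card_univ, mul_comm (2 * δ), ← nsmul_eq_mul, ← sum_const, mul_sum, mul_sum,
      ← sum_add_distrib, ← sum_add_distrib, sum_mul]
    refine sum_le_sum fun x _ => ?_
    have h1 := fib_le S hZ x
    have h3 : 0 < δ * d := mul_pos hδ hd
    have h4 : max ν δ * d ≤ (ν + δ) * d :=
      mul_le_mul_of_nonneg_right (max_le (by linarith) (by linarith)) hd.le
    have h5 := mul_le_mul_of_nonneg_right (le_max_right ν δ) hd.le
    split_ifs with c1 c2 c2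
    · nlinarith
    · push Not at c2; nlinarith
    · push Not at c1; linarith
    · push Not at c1; nlinarith

theorem ideal (S : Sys G F d μ τ) {X Y : Finset (V × V)} (hX : ∀ e ∈ X, G.Adj e.1 e.2)
    (hY : ∀ e ∈ Y, G.Adj e.1 e.2) {ν δ : ℝ} (hd : 0 < d) (hδ : 0 < δ) (hν : ν ≤ 1 / 2)
    (hν0 : 1 / 4 ≤ ν) (hμ : μ + δ ≤ ν) (hδ1 : δ ≤ 1 / 4) (hτ : τ ≤ δ) (hn : 0 < Fintype.card V)
    (hE : ∀ A B : Finset V,
      d / Fintype.card V * #A * #B - δ ^ 2 / 2 * Fintype.card V * d ≤ er G.Adj A B)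
    (hXY : ∀ e' ∈ Y, ((X.filter fun e => CS G F e e').card : ℝ) ≤ δ ^ 6 / 4 * d ^ 2)
    (h1 : 3 * δ * Fintype.card V * d ≤ X.card) (h2 : 3 * δ * Fintype.card V * d ≤ Y.card) :
    (X.card + Y.card : ℝ) ≤ (2 * ν + 6 * δ) * Fintype.card V * d := by
  obtain ⟨A1, A2, a1, a2, a3, a4⟩ := shares S hX hd hδ hν (by linarith) hμ hδ1 hτ
  obtain ⟨B1, B2, b1, b2, b3, b4⟩ := shares S hY hd hδ hν (by linarith) hμ hδ1 hτ
  obtain ⟨n, hn'⟩ : ∃ n : ℝ, n = Fintype.card V := ⟨_, rfl⟩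
  have hn0 : 0 < n := by rw [hn']; exact_mod_cast hn
  rw [← hn'] at hE h1 h2 a4 b4 ⊢
  have hYc : (Y.card : ℝ) ≤ n * (2 * d) := by
    rw [card_eq_sum_fib, hn', ← card_univ, ← nsmul_eq_mul, ← sum_const]
    push_cast
    exact sum_le_sum fun x _ => (fib_le S hY x).trans (by nlinarith)
  have hsum : ∑ e' ∈ Y, ((X.filter fun e => CS G F e e').card : ℝ) ≤
      (δ ^ 2 * d) ^ 2 * (δ ^ 2 / 2 * n * d) := by
    have := sum_le_sum hXY
    rw [sum_const, nsmul_eq_mul] at this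
    have := mul_le_mul_of_nonneg_right hYc (show 0 ≤ δ ^ 6 / 4 * d ^ 2 by positivity)
    linarith
  have key : ∀ (A B : Finset V) (u v : ℝ),
      ∑ x ∈ A, ((blk G F X (δ ^ 2 * d) x).card : ℝ) ≤ u * n * (ν * d) →
      ∑ y ∈ B, ((blk G F Y (δ ^ 2 * d) y).card : ℝ) ≤ v * n * (ν * d) →
      A.card / n * (B.card / n) ≤ ν * (u + v) + δ ^ 2 := by
    intro A B u v c1 c2
    have c3 := er_le_blk (G := G) (F := F) X Y (c := δ ^ 2 * d) (by positivity) A B
    have c4 := mul_le_mul_of_nonneg_left (add_le_add c1 c2) (sq_nonneg (δ ^ 2 * d))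
    have c5 : (er G.Adj A B : ℝ) ≤ (u + v) * n * (ν * d) + δ ^ 2 / 2 * n * d :=
      le_of_mul_le_mul_left (a := (δ ^ 2 * d) ^ 2) (by linarith) (by positivity)
    have c6 := (hE A B).trans c5
    refine le_of_mul_le_mul_right (a := n * d) ?_ (by positivity)
    have : A.card / n * (B.card / n) * (n * d) = d / n * A.card * B.card := by field_simp
    linarith
  have hz : ∀ (Z : Finset (V × V)) (C1 C2 : Finset V), C2 ⊆ C1 →
      (∀ x ∈ C2, blk G F Z (δ ^ 2 * d) x = ∅) →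
      (∀ x ∈ C1, ((blk G F Z (δ ^ 2 * d) x).card : ℝ) ≤ ν * d) →
      ∑ x ∈ C2, ((blk G F Z (δ ^ 2 * d) x).card : ℝ) ≤ 0 * n * (ν * d) ∧
      ∑ x ∈ C1, ((blk G F Z (δ ^ 2 * d) x).card : ℝ) ≤
        (C1.card / n - C2.card / n) * n * (ν * d) := by
    intro Z C1 C2 c1 c2 c3
    have c4 : ∑ x ∈ C2, ((blk G F Z (δ ^ 2 * d) x).card : ℝ) = 0 :=
      sum_eq_zero fun x hx => by rw [c2 x hx]; simp
    refine ⟨by rw [c4]; simp, ?_⟩
    rw [← sum_sdiff c1, c4, add_zero]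
    have c5 := sum_le_sum fun x (hx : x ∈ C1 \ C2) => c3 x (mem_sdiff.1 hx).1
    rw [sum_const, nsmul_eq_mul, card_sdiff_of_subset c1, Nat.cast_sub (card_le_card c1)] at c5
    rw [← sub_div, div_mul_cancel₀ _ hn0.ne']
    exact c5
  obtain ⟨p1, p2⟩ := hz X A1 A2 a1 a2 a3
  obtain ⟨q1, q2⟩ := hz Y B1 B2 b1 b2 b3
  have hle : ∀ C : Finset V, C.card / n ≤ 1 := fun C => by
    rw [div_le_one hn0, hn']; exact_mod_cast card_le_univ C
  have hmono : ∀ C1 C2 : Finset V, C2 ⊆ C1 → C2.card / n ≤ C1.card / n := fun C1 C2 h =>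
    div_le_div_of_nonneg_right (by exact_mod_cast card_le_card h) hn0.le
  have hlow : ∀ (C1 C2 : Finset V) (z : ℝ), C2 ⊆ C1 → 3 * δ * n * d ≤ z →
      z ≤ (2 * δ * n + ν * C1.card + (1 - ν) * C2.card) * d → δ ≤ C1.card / n := by
    intro C1 C2 z c1 c2 c3
    have c4 : (C2.card : ℝ) ≤ C1.card := by exact_mod_cast card_le_card c1
    have c5 := le_of_mul_le_mul_right (c2.trans c3) hd
    rw [le_div_iff₀ hn0]
    nlinarith
  have a0 : (0 : ℝ) ≤ A2.card / n := by positivity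
  have b0 : (0 : ℝ) ≤ B2.card / n := by positivity
  have k1 := key A2 B2 _ _ p1 q1
  have k2 := key A2 B1 _ _ p1 q2
  have k3 := key A1 B2 _ _ p2 q1
  have k4 := lp_main hν0 hν hδ hδ1 a0 (hmono _ _ a1) (hle A1) b0 (hmono _ _ b1) (hle B1)
    (hlow _ _ _ a1 h1 a4) (hlow _ _ _ b1 h2 b4) (by linarith) (by nlinarith) (by nlinarith)
    (key A1 B1 _ _ p2 q2)
  have k5 := mul_le_mul_of_nonneg_right k4 (show 0 ≤ n * d by positivity)
  have k6 : (ν * (A1.card / n + B1.card / n) + (1 - ν) * (A2.card / n + B2.card / n)) * (n * d) =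
      (ν * (A1.card + B1.card) + (1 - ν) * (A2.card + B2.card)) * d := by field_simp
  linarith

end Pool.Agent.MP_d6d719_co.H91

end MrgPart6

-- marker of a merged file
example : 731051 + 820877 = 731051 + 820877 := rfl
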