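import Mathlib.Algebra.Field.ZMod
import Mathlib.Analysis.Complex.ExponentialBounds
import Mathlib.Data.Finset.Slice
import Pool.Agent.MP_d6d719_co.h91.ContainA
import Pool.Agent.MP_d6d719_co.CoverAbs

-- ======== part 0: formerly Pool.Agent.MP_d6d719_co.h91.State
section MrgPart0

set_option autoImplicit false

open Finset
open scoped Classical

namespace Pool.Agent.MP_d6d719_co.H91

variable {V : Type}

/-- the other slot of the same vertex -/
def fl (u : V × Bool) : V × Bool := (u.1, !u.2)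

@[simp] theorem fl_fl (u : V × Bool) : fl (fl u) = u := by simp [fl]

theorem fl_ne (u : V × Bool) : fl u ≠ u := by
  rcases u with ⟨v, b⟩
  cases b <;> simp [fl]

@[simp] theorem fl_fst (u : V × Bool) : (fl u).1 = u.1 := rfl

theorem fl_inj {u v : V × Bool} (h : fl u = fl v) : u = v := by
  rw [← fl_fl u, h, fl_fl]

/-- a system of paths: a matching `t` on slots with the length `lam` of the path leaving
through a slot and the slot `fin` where it ends -/
structure St (V : Type) where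
  t : V × Bool → V × Bool
  lam : V × Bool → ℕ
  fin : V × Bool → V × Bool
  inv : ∀ u, t (t u) = u
  un : ∀ u, t (fl u) = fl u → lam u = 1 ∧ fin u = fl u
  ma : ∀ u, t (fl u) ≠ fl u → lam u = lam (t (fl u)) + 1 ∧ fin u = fin (t (fl u))

namespace St

variable (S : St V)

theorem t_inj {u v : V × Bool} (h : S.t u = S.t v) : u = v := by
  rw [← S.inv u, h, S.inv]

theorem t_ne {u : V × Bool} (h : S.t u ≠ u) : S.t (S.t u) ≠ S.t u := by
  rw [S.inv]; exact h.symm

theorem lam_pos (u : V × Bool) : 1 ≤ S.lam u := by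
  by_cases h : S.t (fl u) = fl u
  · exact (S.un u h).1.ge
  · rw [(S.ma u h).1]; omega

theorem ind {P : V × Bool → Prop} (h0 : ∀ u, S.t (fl u) = fl u → P u)
    (h1 : ∀ u, S.t (fl u) ≠ fl u → P (S.t (fl u)) → P u) (u : V × Bool) : P u := by
  induction hn : S.lam u using Nat.strong_induction_on generalizing u with
  | _ n ih =>
    by_cases h : S.t (fl u) = fl u
    · exact h0 u h
    · exact h1 u h (ih _ (by rw [← hn, (S.ma u h).1]; omega) _ rfl)

theorem fin_un (u : V × Bool) : S.t (S.fin u) = S.fin u := by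
  induction u using S.ind with
  | h0 u h => rw [(S.un u h).2, h]
  | h1 u h ih => rw [(S.ma u h).2, ih]

theorem eq_of_fin_lam {u v : V × Bool} (h1 : S.fin u = S.fin v) (h2 : S.lam u = S.lam v) :
    u = v := by
  induction u using S.ind generalizing v with
  | h0 u h =>
    by_cases hv : S.t (fl v) = fl v
    · rw [(S.un u h).2, (S.un v hv).2] at h1
      exact fl_inj h1
    · have := S.lam_pos (S.t (fl v))
      rw [(S.un u h).1, (S.ma v hv).1] at h2
      omega
  | h1 u h ih =>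
    by_cases hv : S.t (fl v) = fl v
    · have := S.lam_pos (S.t (fl u))
      rw [(S.ma u h).1, (S.un v hv).1] at h2
      omega
    · rw [(S.ma u h).2, (S.ma v hv).2] at h1
      rw [(S.ma u h).1, (S.ma v hv).1] at h2
      exact fl_inj (S.t_inj (ih h1 (by omega)))

theorem fl_ma {y : V × Bool} (h : S.t y ≠ y) :
    S.lam (fl y) = S.lam (S.t y) + 1 ∧ S.fin (fl y) = S.fin (S.t y) := by
  have := S.ma (fl y) (by rwa [fl_fl])
  rwa [fl_fl] at this

theorem fl_un {y : V × Bool} (h : S.t y = y) : S.lam (fl y) = 1 ∧ S.fin (fl y) = y := by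
  have := S.un (fl y) (by rwa [fl_fl])
  rwa [fl_fl] at this

theorem key (u : V × Bool) :
    S.lam (S.fin u) + 1 = S.lam u + S.lam (fl u) ∧ S.fin (S.fin u) = S.fin (fl u) := by
  induction u using S.ind with
  | h0 u h => rw [(S.un u h).1, (S.un u h).2]; exact ⟨by omega, rfl⟩
  | h1 u h ih =>
    have h2 := S.fl_ma (S.t_ne h)
    rw [S.inv] at h2
    rw [(S.ma u h).1, (S.ma u h).2, ih.2, h2.2]
    exact ⟨by omega, rfl⟩

theorem fin_fin (u : V × Bool) : S.fin (S.fin u) = S.fin (fl u) := (S.key u).2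

theorem lam_add {y : V × Bool} (h : S.t y ≠ y) :
    S.lam y + S.lam (S.t y) = S.lam (S.fin y) := by
  have h1 := (S.key y).1
  rw [(S.fl_ma h).1] at h1
  omega

theorem fin_t {y : V × Bool} (h : S.t y ≠ y) : S.fin (S.t y) = S.fin (S.fin y) := by
  rw [S.fin_fin, (S.fl_ma h).2]

theorem fin_fin_un {e : V × Bool} (h : S.t e = e) : S.fin (S.fin e) = e := by
  rw [S.fin_fin, (S.fl_un h).2]

theorem lam_fin_un {e : V × Bool} (h : S.t e = e) : S.lam (S.fin e) = S.lam e := by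
  have h1 := (S.key e).1
  rw [(S.fl_un h).1] at h1
  omega

theorem fin3 (u : V × Bool) : S.fin (S.fin (S.fin u)) = S.fin u := S.fin_fin_un (S.fin_un u)

theorem lam_fin2 (u : V × Bool) : S.lam (S.fin (S.fin u)) = S.lam (S.fin u) :=
  S.lam_fin_un (S.fin_un u)

theorem lam_le (u : V × Bool) : S.lam u ≤ S.lam (S.fin u) := by
  have h1 := (S.key u).1
  have h2 := S.lam_pos (fl u)
  omega

theorem exists_lam (u : V × Bool) (k : ℕ) (h1 : 1 ≤ k) (h2 : k ≤ S.lam u) :
    ∃ v, S.fin v = S.fin u ∧ S.lam v = k := by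
  induction u using S.ind with
  | h0 u h => exact ⟨u, rfl, by rw [(S.un u h).1] at h2 ⊢; omega⟩
  | h1 u h ih =>
    rcases h2.eq_or_lt with h3 | h3
    · exact ⟨u, rfl, h3.symm⟩
    · rw [(S.ma u h).2]
      exact ih (by rw [(S.ma u h).1] at h3; omega)

theorem fin_ne_un {e : V × Bool} (h : S.t e = e) : S.fin e ≠ e := by
  intro he
  have hp := S.lam_pos e
  obtain ⟨v, hv1, hv2⟩ := S.exists_lam e ((S.lam e + 1) / 2) (by omega) (by omega)
  rw [he] at hv1
  have k1 := (S.key v).1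
  have k2 := S.fin_fin v
  rw [hv1] at k1 k2
  rw [he] at k2
  by_cases hodd : S.lam e % 2 = 1
  · exact fl_ne v (S.eq_of_fin_lam (k2.symm.trans hv1.symm) (by omega))
  · by_cases hv : S.t v = v
    · rw [(S.fl_un hv).1] at k1
      omega
    · have k3 := S.lam_add hv
      have k4 := S.fin_t hv
      rw [hv1] at k3 k4
      rw [he] at k4
      exact hv (S.eq_of_fin_lam (k4.trans hv1.symm) (by omega))

theorem fin_t_ne {y : V × Bool} (h : S.t y ≠ y) : S.fin (S.t y) ≠ S.fin y := by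
  rw [S.fin_t h]; exact S.fin_ne_un (S.fin_un y)

theorem fin_eq_comm {x y : V × Bool} (hx : S.t x = x) (h : S.fin x = y) : S.fin y = x := by
  rw [← h, S.fin_fin_un hx]

/-- states that agree on a closed set have the same coordinates there -/
theorem agree (S' : St V) (Q : V × Bool → Prop) (h1 : ∀ u, Q u → Q (fl u))
    (h2 : ∀ u, Q u → Q (S.t u)) (h3 : ∀ u, Q u → S'.t u = S.t u) (u : V × Bool) (hu : Q u) :
    S'.lam u = S.lam u ∧ S'.fin u = S.fin u := by
  induction u using S.ind with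
  | h0 u h =>
    have h4 := S'.un u (by rw [h3 _ (h1 u hu), h])
    exact ⟨h4.1.trans (S.un u h).1.symm, h4.2.trans (S.un u h).2.symm⟩
  | h1 u h ih =>
    have h4 := S'.ma u (by rw [h3 _ (h1 u hu)]; exact h)
    rw [h3 _ (h1 u hu)] at h4
    have h5 := ih (h2 _ (h1 u hu))
    rw [h4.1, h4.2, h5.1, h5.2, (S.ma u h).1, (S.ma u h).2]
    exact ⟨rfl, rfl⟩

theorem closed_fin (Q : V × Bool → Prop) (h1 : ∀ u, Q u → Q (fl u))
    (h2 : ∀ u, Q u → Q (S.t u)) (u : V × Bool) (hu : Q u) : Q (S.fin u) := by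
  induction u using S.ind with
  | h0 u h => rw [(S.un u h).2]; exact h1 u hu
  | h1 u h ih => rw [(S.ma u h).2]; exact ih (h2 _ (h1 u hu))

/-- the unordered pair of ends of the path through a slot -/
def cl (u : V × Bool) : Sym2 (V × Bool) := s(S.fin u, S.fin (fl u))

theorem cl_fl (u : V × Bool) : S.cl (fl u) = S.cl u := by
  rw [cl, cl, fl_fl, Sym2.eq_swap]

theorem cl_eq (u : V × Bool) : S.cl u = s(S.fin u, S.fin (S.fin u)) := by rw [cl, S.fin_fin]

theorem cl_of_fin {u v : V × Bool} (h : S.fin u = S.fin v) : S.cl u = S.cl v := by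
  rw [cl_eq, cl_eq, h]

theorem cl_fin (u : V × Bool) : S.cl (S.fin u) = S.cl u := by
  rw [cl_eq, cl_eq, S.fin3, Sym2.eq_swap]

theorem cl_t (u : V × Bool) : S.cl (S.t u) = S.cl u := by
  by_cases h : S.t u = u
  · rw [h]
  · rw [S.cl_of_fin (S.fin_t h), S.cl_fin]

theorem cl_iff {u v : V × Bool} :
    S.cl u = S.cl v ↔ S.fin u = S.fin v ∨ S.fin u = S.fin (S.fin v) := by
  constructor
  · intro h
    rw [cl_eq, cl_eq, Sym2.eq_iff] at h
    tauto
  · rintro (h | h)
    · exact S.cl_of_fin h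
    · rw [S.cl_of_fin h, S.cl_fin]

theorem len_of_cl {u v : V × Bool} (h : S.cl u = S.cl v) : S.lam (S.fin u) = S.lam (S.fin v) := by
  rcases S.cl_iff.1 h with h | h
  · rw [h]
  · rw [h, S.lam_fin2]

theorem un_of_cl {e v : V × Bool} (he : S.t e = e) (h : S.cl e = S.cl v) :
    e = S.fin v ∨ e = S.fin (fl v) := by
  rcases S.cl_iff.1 h with h | h
  · right; rw [← S.fin_fin, ← h, S.fin_fin_un he]
  · left; rw [← S.fin3 v, ← h, S.fin_fin_un he]

/-- remove the link at `y` -/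
noncomputable def cut (y : V × Bool) (hy : S.t y ≠ y) : St V where
  t u := if u = y ∨ u = S.t y then u else S.t u
  lam u := if S.fin u = S.fin (S.t y) ∧ S.lam (S.t y) < S.lam u then S.lam u - S.lam (S.t y)
    else if S.fin u = S.fin y ∧ S.lam y < S.lam u then S.lam u - S.lam y else S.lam u
  fin u := if S.fin u = S.fin (S.t y) ∧ S.lam (S.t y) < S.lam u then y
    else if S.fin u = S.fin y ∧ S.lam y < S.lam u then S.t y else S.fin u
  inv u := by
    by_cases h : u = y ∨ u = S.t y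
    · simp only [h, if_true]
    · have h2 : ¬ (S.t u = y ∨ S.t u = S.t y) := by
        rintro (h2 | h2)
        · exact h (Or.inr (by rw [← h2, S.inv]))
        · exact h (Or.inl (S.t_inj h2))
      simp only [h, h2, if_false, S.inv]
  un u := by
    have hne := S.fin_t_ne hy
    have p1 := S.lam_pos y
    have p2 := S.lam_pos (S.t y)
    by_cases h1 : fl u = y
    · have h2 := S.ma u (by rwa [h1])
      rw [h1] at h2
      intro _
      simp only [h1, h2.1, h2.2, true_and, Nat.lt_succ_self, if_true]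
      exact ⟨by omega, trivial⟩
    by_cases h2 : fl u = S.t y
    · have h3 := S.ma u (by rw [h2]; exact S.t_ne hy)
      rw [h2, S.inv] at h3
      intro _
      simp only [h2, h3.1, h3.2, hne.symm, false_and, true_and, Nat.lt_succ_self, if_true,
        if_false]
      exact ⟨by omega, trivial⟩
    simp only [h1, h2, or_self, if_false]
    intro h3
    have h4 := S.un u h3
    rw [if_neg (by omega), if_neg (by omega), if_neg (by omega), if_neg (by omega)]
    exact h4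
  ma u := by
    by_cases h1 : fl u = y ∨ fl u = S.t y
    · simp only [h1, if_true, ne_eq, not_true, false_imp_iff]
    simp only [h1, if_false]
    intro h3
    obtain ⟨h4, h5⟩ := S.ma u h3
    have n1 : S.t (fl u) ≠ S.t y := fun h => h1 (Or.inl (S.t_inj h))
    have n2 : S.t (fl u) ≠ y := fun h => h1 (Or.inr (by rw [← h, S.inv]))
    have e1 : (S.fin u = S.fin (S.t y) ∧ S.lam (S.t y) < S.lam u) ↔
        (S.fin (S.t (fl u)) = S.fin (S.t y) ∧ S.lam (S.t y) < S.lam (S.t (fl u))) := by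
      rw [h4, h5]
      refine and_congr_right fun h => ⟨fun h6 => ?_, fun h6 => by omega⟩
      have := mt (S.eq_of_fin_lam h) n1
      omega
    have e2 : (S.fin u = S.fin y ∧ S.lam y < S.lam u) ↔
        (S.fin (S.t (fl u)) = S.fin y ∧ S.lam y < S.lam (S.t (fl u))) := by
      rw [h4, h5]
      refine and_congr_right fun h => ⟨fun h6 => ?_, fun h6 => by omega⟩
      have := mt (S.eq_of_fin_lam h) n2
      omega
    simp only [e1, e2]
    split_ifs with a b
    · exact ⟨by omega, rfl⟩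
    · exact ⟨by omega, rfl⟩
    · exact ⟨h4, h5⟩

/-- link two free slots that end different paths -/
noncomputable def link (x y : V × Bool) (hx : S.t x = x) (hy : S.t y = y) (hxy : x ≠ y)
    (hf : S.fin x ≠ y) : St V where
  t u := if u = x then y else if u = y then x else S.t u
  lam u := if S.fin u = x then S.lam u + S.lam y else if S.fin u = y then S.lam u + S.lam x
    else S.lam u
  fin u := if S.fin u = x then S.fin y else if S.fin u = y then S.fin x else S.fin u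
  inv u := by
    by_cases h1 : u = x
    · simp [h1, hxy.symm]
    by_cases h2 : u = y
    · simp [h2, hxy.symm]
    have h3 : S.t u ≠ x := fun h => h1 (by rw [← S.inv u, h, hx])
    have h4 : S.t u ≠ y := fun h => h2 (by rw [← S.inv u, h, hy])
    simp [h1, h2, h3, h4, S.inv]
  un u := by
    by_cases h1 : fl u = x
    · simp [h1, hxy.symm]
    by_cases h2 : fl u = y
    · simp [h2, hxy.symm, hxy]
    simp only [h1, h2, if_false]
    intro h3
    simp only [(S.un u h3).1, (S.un u h3).2, h1, h2, if_false, and_self]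
  ma u := by
    have a1 : S.fin y ≠ x := fun h => hf (S.fin_eq_comm hy h)
    have a2 := S.fin_ne_un hx
    have a3 := S.fin_ne_un hy
    by_cases h1 : fl u = x
    · have h2 := S.un u (by rw [h1, hx])
      simp only [h1, h2.1, h2.2, if_true, a1, a3, if_false]
      exact fun _ => ⟨by omega, trivial⟩
    by_cases h2 : fl u = y
    · have h3 := S.un u (by rw [h2, hy])
      simp only [h2, h3.1, h3.2, if_true, hxy.symm, a2, hf, if_false]
      exact fun _ => ⟨by omega, trivial⟩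
    simp only [h1, h2, if_false]
    intro h3
    rw [(S.ma u h3).1, (S.ma u h3).2]
    split_ifs
    · exact ⟨by omega, rfl⟩
    · exact ⟨by omega, rfl⟩
    · exact ⟨rfl, rfl⟩

end St

end Pool.Agent.MP_d6d719_co.H91

end MrgPart0

-- ======== part 1: formerly Pool.Agent.MP_d6d719_co.h91.Pot
section MrgPart1

set_option autoImplicit false

open Finset
open scoped Classical

namespace Pool.Agent.MP_d6d719_co.H91

variable {V : Type} [Fintype V]

namespace St

variable (S : St V)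

/-- free slots -/
noncomputable def Un : Finset (V × Bool) := {u | S.t u = u}

/-- the potential -/
noncomputable def Pot : ℝ := ∑ u ∈ S.Un, Real.log (S.lam u)

theorem mem_Un {u : V × Bool} : u ∈ S.Un ↔ S.t u = u := by simp [Un]

omit [Fintype V] in
theorem lam_pos' (u : V × Bool) : (0 : ℝ) < S.lam u := by exact_mod_cast S.lam_pos u

omit [Fintype V] in
theorem log_lam (u : V × Bool) : 0 ≤ Real.log (S.lam u) := Real.log_natCast_nonneg _

theorem pot_nonneg : 0 ≤ S.Pot := sum_nonneg fun u _ => S.log_lam u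

omit [Fintype V] in
theorem sum_two {A : Finset (V × Bool)} {f g : V × Bool → ℝ} {a b : V × Bool} (ha : a ∈ A)
    (hb : b ∈ A) (hab : a ≠ b) (h : ∀ u ∈ A, u ≠ a → u ≠ b → f u = g u) :
    ∑ u ∈ A, f u = ∑ u ∈ A, g u + (f a - g a) + (f b - g b) := by
  have := sum_eq_add (s := A) (f := fun u => f u - g u) a b hab
    (fun u hu h2 => by rw [h u hu h2.1 h2.2, sub_self]) (fun h => absurd ha h)
    (fun h => absurd hb h)
  rw [sum_sub_distrib] at this
  linarith

omit [Fintype V] in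
theorem fin2_t {y : V × Bool} (h : S.t y ≠ y) : S.fin (S.fin (S.t y)) = S.fin y := by
  rw [S.fin_t h, S.fin3]

omit [Fintype V] in
theorem cut_lam_un {y e : V × Bool} (hy : S.t y ≠ y) (he : S.t e = e) (h1 : e ≠ S.fin y)
    (h2 : e ≠ S.fin (S.t y)) : (S.cut y hy).lam e = S.lam e ∧ (S.cut y hy).fin e = S.fin e := by
  have a1 : S.fin e ≠ S.fin (S.t y) := fun h => h1 (by rw [← S.fin2_t hy, ← h, S.fin_fin_un he])
  have a2 : S.fin e ≠ S.fin y := fun h => h2 (by rw [S.fin_t hy, ← h, S.fin_fin_un he])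
  simp [cut, a1, a2]

omit [Fintype V] in
theorem cut_y {y : V × Bool} (hy : S.t y ≠ y) :
    (S.cut y hy).lam y = S.lam y ∧ (S.cut y hy).lam (S.t y) = S.lam (S.t y) ∧
      (S.cut y hy).fin (S.t y) = S.fin (S.t y) ∧ (S.cut y hy).lam (S.fin y) = S.lam y ∧
      (S.cut y hy).lam (S.fin (S.t y)) = S.lam (S.t y) := by
  have a1 := S.fin_t_ne hy
  have a2 := S.lam_add hy
  have a3 := S.lam_pos y
  have a4 := S.lam_pos (S.t y)
  have a5 : S.lam (S.fin (S.t y)) = S.lam (S.fin y) := by rw [S.fin_t hy, S.lam_fin2]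
  refine ⟨by simp [cut, a1.symm], by simp [cut, a1], by simp [cut, a1], ?_, ?_⟩
  · simp only [cut, ← S.fin_t hy, true_and]
    rw [if_pos (by omega)]
    omega
  · simp only [cut, S.fin2_t hy, a1.symm, false_and, if_false, true_and]
    rw [if_pos (by omega)]
    omega

theorem pot_cut {y : V × Bool} (hy : S.t y ≠ y) : (S.cut y hy).Pot = S.Pot +
    2 * (Real.log (S.lam y) + Real.log (S.lam (S.t y)) - Real.log (S.lam (S.fin y))) := by
  have a1 : (S.cut y hy).Un = insert y (insert (S.t y) S.Un) := by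
    ext u
    simp only [mem_Un, cut, mem_insert]
    by_cases h : u = y ∨ u = S.t y
    · simp only [h, if_true, true_iff]
      tauto
    · simp only [h, if_false]
      tauto
  obtain ⟨b1, b2, -, b4, b5⟩ := S.cut_y hy
  rw [Pot, a1, sum_insert (by simp [mem_Un, hy, hy.symm]),
    sum_insert (by simpa [mem_Un] using S.t_ne hy),
    sum_two (g := fun u => Real.log (S.lam u)) (S.mem_Un.2 (S.fin_un y))
      (S.mem_Un.2 (S.fin_un (S.t y))) (S.fin_t_ne hy).symm
      (fun u hu h1 h2 => by rw [(S.cut_lam_un hy (S.mem_Un.1 hu) h1 h2).1]), b1, b2, b4, b5,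
    S.fin_t hy, S.lam_fin2, Pot]
  ring

theorem pot_link {x y : V × Bool} (hx : S.t x = x) (hy : S.t y = y) (hxy : x ≠ y)
    (hf : S.fin x ≠ y) : (S.link x y hx hy hxy hf).Pot = S.Pot +
    2 * (Real.log (S.lam x + S.lam y) - Real.log (S.lam x) - Real.log (S.lam y)) := by
  have a1 : S.Un = insert x (insert y (S.link x y hx hy hxy hf).Un) := by
    ext u
    simp only [mem_Un, link, mem_insert]
    by_cases h1 : u = x
    · simp [h1, hx]
    by_cases h2 : u = y
    · simp [h2, hy]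
    simp [h1, h2]
  have a2 : S.fin y ≠ x := fun h => hf (S.fin_eq_comm hy h)
  have a3 : S.fin x ≠ S.fin y := fun h => hxy (by rw [← S.fin_fin_un hx, h, S.fin_fin_un hy])
  have a4 := S.fin_ne_un hx
  have a5 := S.fin_ne_un hy
  have a6 : ∀ u ∈ (S.link x y hx hy hxy hf).Un, S.t u = u := fun u hu =>
    S.mem_Un.1 (by rw [a1]; simp [hu])
  rw [Pot, Pot, a1, sum_insert (by simp [mem_Un, link, hxy, hxy.symm]),
    sum_insert (by simp [mem_Un, link, hxy, hxy.symm]),
    sum_two (g := fun u => Real.log (S.lam u)) (a := S.fin x) (b := S.fin y)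
      (by simp [mem_Un, link, a4, hf, S.fin_un]) (by simp [mem_Un, link, a2, a5, S.fin_un]) a3
      (fun u hu h1 h2 => by
        have b1 : S.fin u ≠ x := fun h => h1 (S.fin_eq_comm (a6 u hu) h).symm
        have b2 : S.fin u ≠ y := fun h => h2 (S.fin_eq_comm (a6 u hu) h).symm
        simp [link, b1, b2])]
  simp only [link, S.fin_fin_un hx, S.fin_fin_un hy, S.lam_fin_un hx, S.lam_fin_un hy, if_true,
    hxy.symm, if_false]
  push_cast
  rw [add_comm (S.lam y : ℝ)]
  ring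

/-- cut at `y` and link the free slot `x` to `y` -/
theorem step {x y : V × Bool} (hx : S.t x = x) (hy : S.t y ≠ y) (hf : S.fin y ≠ x) :
    ∃ S' : St V, (∀ u, S'.t u = if u = x then y else if u = y then x else
        if u = S.t y then u else S.t u) ∧
      (S.fin (S.t y) = x → S'.Pot = S.Pot ∧ S'.lam (S.t y) = S.lam x) ∧
      (S.fin (S.t y) ≠ x → S'.Pot = S.Pot + 2 * (Real.log (S.lam (S.t y)) -
        Real.log (S.lam (S.fin y)) + Real.log (S.lam x + S.lam y) - Real.log (S.lam x)) ∧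
        S'.lam (S.t y) = S.lam (S.t y) ∧ S'.fin (S.t y) = S.fin (S.t y)) ∧
      ∀ B : ℕ, S'.lam (S.t y) < B → ∀ v, S.t v ≠ v → B ≤ S.lam v → B ≤ S.lam (S.t v) →
        S'.t v = S.t v ∧ S.lam v ≤ S'.lam v + B := by
  have hxy : x ≠ y := fun h => hy (h ▸ hx)
  have h1 : (S.cut y hy).t x = x := by simp [cut, hx]
  have h2 : (S.cut y hy).t y = y := by simp [cut]
  have h3 : (S.cut y hy).fin x ≠ y := by
    have a1 : S.fin x ≠ S.fin (S.t y) := fun h => hf (by rw [← S.fin2_t hy, ← h, S.fin_fin_un hx])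
    simp only [cut, a1, false_and, if_false]
    split_ifs
    · exact hy
    · exact fun h => hy (h ▸ S.fin_un x)
  obtain ⟨b1, b2, b3, -, b5⟩ := S.cut_y hy
  have b6 : S.fin (S.t y) ≠ y := fun h => hy (h ▸ S.fin_un _)
  have b7 := S.lam_add hy
  have mono : ∀ u, (S.cut y hy).lam u ≤ ((S.cut y hy).link x y h1 h2 hxy h3).lam u := fun u => by
    simp only [link]
    split_ifs <;> omega
  refine ⟨(S.cut y hy).link x y h1 h2 hxy h3, fun u => ?_, fun h => ?_, fun h => ?_,
    fun B hB v c1 c2 c3 => ?_⟩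
  · simp only [link, cut]
    split_ifs <;> first | rfl | tauto
  · have a1 : S.lam x = S.lam (S.fin y) := by rw [← h, S.fin_t hy, S.lam_fin2]
    rw [h] at b5
    constructor
    · rw [pot_link, pot_cut, b1, b5, ← b7]
      push_cast
      rw [add_comm (S.lam y : ℝ)]
      ring
    · simp only [link, b3, h, if_true, b1, b2]
      omega
  · refine ⟨?_, by simp only [link, b3, h, b6, if_false, b2], by simp only [link, b3, h, b6, if_false]⟩
    rw [pot_link, pot_cut, b1, (S.cut_lam_un hy hx hf.symm h.symm).1]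
    ring
  · have a1 := mono (S.t y)
    have a2 := mono v
    have a3 : v ≠ y := fun h => by rw [h] at c3; omega
    have a4 : v ≠ S.t y := fun h => by rw [h] at c2; omega
    have a5 : v ≠ x := fun h => c1 (h ▸ hx)
    refine ⟨by simp [link, cut, a3, a4, a5], ?_⟩
    have a6 := S.lam_add c1
    suffices S.lam v ≤ (S.cut y hy).lam v + B by omega
    simp only [cut]
    split_ifs with d1 d2
    · omega
    · rw [d2.1] at a6
      omega
    · omega

theorem card_fib (e : V × Bool) (k : ℕ) : #{v | S.fin v = e ∧ S.lam v ≤ k} ≤ k := by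
  refine (card_le_card_of_injOn (t := Icc 1 k) S.lam (fun v hv => ?_) fun v hv w hw h => ?_).trans
    (by simp)
  · simp only [coe_filter, mem_univ, true_and, Set.mem_setOf_eq] at hv
    simpa using ⟨S.lam_pos v, hv.2⟩
  · simp only [coe_filter, mem_univ, true_and, Set.mem_setOf_eq] at hv hw
    exact S.eq_of_fin_lam (hv.1.trans hw.1.symm) h

theorem card_fib_un {e : V × Bool} (he : S.t e = e) : #{v | S.fin v = e} = S.lam e := by
  refine le_antisymm (le_trans (card_le_card fun v hv => ?_) (S.card_fib e (S.lam e))) ?_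
  · simp only [mem_filter, mem_univ, true_and] at hv ⊢
    exact ⟨hv, hv ▸ S.lam_le v⟩
  · refine le_trans (by simp) (card_le_card_of_surjOn (t := Icc 1 (S.lam e)) S.lam fun k hk => ?_)
    simp only [coe_Icc, Set.mem_Icc] at hk
    obtain ⟨v, h1, h2⟩ := S.exists_lam (S.fin e) k hk.1 (by rw [S.lam_fin_un he]; exact hk.2)
    exact ⟨v, by simp [h1, S.fin_fin_un he], h2⟩

theorem sum_lam : ∑ u ∈ S.Un, (S.lam u : ℝ) = 2 * Fintype.card V := by
  have := card_eq_sum_card_fiberwise (f := S.fin) (s := univ) (t := S.Un)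
    fun u _ => S.mem_Un.2 (S.fin_un u)
  rw [sum_congr rfl fun e he => S.card_fib_un (S.mem_Un.1 he)] at this
  rw [← Nat.cast_sum, ← this]
  simp [mul_comm]

theorem card_cl (u : V × Bool) : #{v | S.cl v = S.cl u} ≤ 2 * S.lam (S.fin u) := by
  have h1 := S.card_fib_un (S.fin_un u)
  have h2 := S.card_fib_un (S.fin_un (S.fin u))
  rw [S.lam_fin2] at h2
  refine le_trans (card_le_card fun v hv => ?_)
    ((card_union_le ({v | S.fin v = S.fin u} : Finset _) {v | S.fin v = S.fin (S.fin u)}).trans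
      (by omega))
  simpa [S.cl_iff] using hv

theorem card_viol {θ : ℝ} (hθ : 0 ≤ θ) :
    (#{u | (S.lam u : ℝ) < θ * S.lam (S.fin u)} : ℝ) ≤ θ * (2 * Fintype.card V) := by
  rw [← S.sum_lam, mul_sum, card_eq_sum_card_fiberwise (f := S.fin) (t := S.Un)
    fun u _ => S.mem_Un.2 (S.fin_un u), Nat.cast_sum]
  refine sum_le_sum fun e _ => le_trans ?_ (Nat.floor_le (a := θ * S.lam e) (by positivity))
  refine Nat.cast_le.2 (le_trans (card_le_card fun v hv => ?_) (S.card_fib e _))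
  simp only [mem_filter, mem_univ, true_and] at hv ⊢
  exact ⟨hv.2, Nat.le_floor (hv.2 ▸ hv.1.le)⟩

theorem card_long (x : ℝ) : x * #{u ∈ S.Un | x ≤ S.lam u} ≤ 2 * Fintype.card V := by
  rw [← S.sum_lam, mul_comm, ← nsmul_eq_mul]
  exact (card_nsmul_le_sum _ _ _ fun u hu => (mem_filter.1 hu).2).trans
    (sum_le_sum_of_subset_of_nonneg (filter_subset _ _) fun u _ _ => by positivity)

theorem pot_diff (S' : St V) {Z : Finset (V × Bool)} (h1 : Z ⊆ S.Un) (h2 : Z ⊆ S'.Un)
    (h3 : ∀ u ∈ Z, S.lam u = S'.lam u) {M : ℝ} (hM : 0 < M) :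
    S.Pot ≤ S'.Pot + #(S.Un \ Z) * Real.log M + 2 * Fintype.card V / M := by
  have a1 : ∑ u ∈ Z, Real.log (S.lam u) ≤ S'.Pot := by
    rw [sum_congr rfl fun u hu => by rw [h3 u hu]]
    exact sum_le_sum_of_subset_of_nonneg h2 fun u _ _ => S'.log_lam u
  have a2 : ∑ u ∈ S.Un \ Z, Real.log (S.lam u) ≤ ∑ u ∈ S.Un \ Z, (Real.log M + S.lam u / M) :=
    sum_le_sum fun u _ => by
      have := Real.log_le_sub_one_of_pos (div_pos (S.lam_pos' u) hM)
      rw [Real.log_div (S.lam_pos' u).ne' hM.ne'] at this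
      linarith
  have a3 : ∑ u ∈ S.Un \ Z, S.lam u / M ≤ 2 * Fintype.card V / M := by
    rw [← S.sum_lam, sum_div]
    exact sum_le_sum_of_subset_of_nonneg sdiff_subset fun u _ _ => by positivity
  rw [sum_add_distrib, sum_const, nsmul_eq_mul] at a2
  rw [Pot, ← sum_sdiff h1]
  linarith

theorem pot_le : S.Pot ≤ 2 * Fintype.card V :=
  (sum_le_sum fun u _ =>
    (Real.log_le_sub_one_of_pos (S.lam_pos' u)).trans (sub_le_self _ zero_le_one)).trans
    S.sum_lam.le

omit [Fintype V] in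
theorem even_card {A : Finset (V × Bool)} (h1 : ∀ u ∈ A, S.t u = u) (h2 : ∀ u ∈ A, S.fin u ∈ A) :
    Even #A := by
  have := sum_involution (s := A) (f := fun _ => (1 : ZMod 2)) (fun u _ => S.fin u)
    (fun _ _ => rfl) (fun u hu _ => S.fin_ne_un (h1 u hu)) h2 fun u hu => S.fin_fin_un (h1 u hu)
  rw [sum_const, nsmul_one] at this
  exact ZMod.natCast_eq_zero_iff_even.1 this

end St

end Pool.Agent.MP_d6d719_co.H91

end MrgPart1

-- ======== part 2: formerly Pool.Agent.MP_d6d719_co.h91.Outer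
section MrgPart2

set_option autoImplicit false

open Finset
open scoped Classical

namespace Pool.Agent.MP_d6d719_co.H91

variable {V : Type}

theorem St.cl_closed (S : St V) (Q : V × Bool → Prop) (h1 : ∀ u, Q u → Q (fl u))
    (h2 : ∀ u, Q u → Q (S.t u)) {v w : V × Bool} (hw : Q w) (h : S.cl v = S.cl w) : Q v := by
  by_contra hv
  have a1 := S.closed_fin (fun u => ¬ Q u) (fun u hu h => hu (fl_fl u ▸ h1 _ h))
    (fun u hu h => hu (S.inv u ▸ h2 _ h)) v hv
  have a2 := S.closed_fin Q h1 h2 w hw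
  rcases S.cl_iff.1 h with h | h
  · exact a1 (h ▸ a2)
  · exact a1 (h ▸ S.closed_fin Q h1 h2 _ a2)

theorem St.agree_cl (S S' : St V) (P : Sym2 (V × Bool) → Prop)
    (h : ∀ v, P (S.cl v) → S'.t v = S.t v) {u : V × Bool} (hu : P (S.cl u)) :
    S'.lam u = S.lam u ∧ S'.fin u = S.fin u :=
  S.agree S' (fun v => P (S.cl v)) (fun v hv => by rwa [S.cl_fl]) (fun v hv => by rwa [S.cl_t]) h u
    hu

/-- static data of the outer phase -/
structure Dt (V : Type) where
  Pt : Finset V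
  R : Finset V
  Ro : Finset V
  Cn : Finset V
  g : V × Bool → V
  t0 : V × Bool → V × Bool
  Fz : Finset (V × Bool)

/-- well-formed static data -/
structure WF (D : Dt V) : Prop where
  ro : D.Ro ⊆ D.R
  rp : D.R ⊆ D.Pt
  pc : ∀ x ∈ D.Pt, x ∉ D.Cn
  gp : ∀ y ∈ D.Cn, ∀ b, D.g (y, b) ∈ D.Pt ∧ (y, b) ∉ D.Fz ∧ (D.g (y, b), true) ∉ D.Fz
  gi : ∀ y ∈ D.Cn, ∀ y' ∈ D.Cn, ∀ b b', D.g (y, b) = D.g (y', b') → y = y'
  rf : ∀ x ∈ D.Ro, (x, true) ∉ D.Fz
  nf : ∀ u ∉ D.Fz, (u.2 = true ∧ u.1 ∈ D.Pt) ∨ u.1 ∈ D.Cn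
  cf : ∀ u ∈ D.Fz, D.t0 u ∈ D.Fz

/-- valid states -/
structure OV (D : Dt V) (H Lk : V → V → Prop) (S : St V) (p : V → V) : Prop where
  fz : ∀ u ∈ D.Fz, S.t u = D.t0 u
  pp : ∀ x ∈ D.Pt, ∀ y ∈ D.Pt, (x, true) ∉ D.Fz → x ≠ y → S.t (x, true) = (y, true) → Lk x y
  gu : ∀ y ∈ D.Cn, p y = y → ∀ b, S.t (y, b) = (D.g (y, b), true)
  gd : ∀ y ∈ D.Cn, p y ≠ y → p y ∈ D.Pt ∧ H (p y) y ∧
    ∃ b, S.t (y, b) = (p y, true) ∧ S.t (y, !b) = (D.g (y, !b), true)

variable {D : Dt V} {H Lk : V → V → Prop} {S S' : St V} {p p' : V → V}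

theorem WF.ne (hD : WF D) {x c : V} (hx : x ∈ D.Pt) (hc : c ∈ D.Cn) (b b' : Bool) :
    (c, b) ≠ (x, b') := fun e => hD.pc x hx (by rw [← (Prod.mk.inj e).1]; exact hc)

theorem OV.trans (h : OV D H Lk S p) {Fz : Finset (V × Bool)}
    (h1 : ∀ u ∈ Fz, S'.t u = D.t0 u) (h2 : ∀ y ∈ D.Cn, ∀ b, S'.t (y, b) = S.t (y, b))
    (h3 : ∀ x ∈ D.Pt, ∀ y ∈ D.Pt, (x, true) ∉ Fz → x ≠ y → S'.t (x, true) = (y, true) →
      Lk x y ∨ ((x, true) ∉ D.Fz ∧ S.t (x, true) = (y, true))) :
    OV { D with Fz := Fz } H Lk S' p where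
  fz := h1
  pp x hx y hy a b c := (h3 x hx y hy a b c).elim id fun d => h.pp x hx y hy d.1 b d.2
  gu y hy a b := (h2 y hy b).trans (h.gu y hy a b)
  gd y hy a := by
    obtain ⟨b1, b2, b, b3⟩ := h.gd y hy a
    exact ⟨b1, b2, b, by rw [h2 y hy, h2 y hy]; exact b3⟩

theorem OV.cn_ne (hD : WF D) (h : OV D H Lk S p) {y : V} (hy : y ∈ D.Cn) (b : Bool) :
    (S.t (y, b)).1 ∈ D.Pt := by
  by_cases a : p y = y
  · rw [h.gu y hy a]; exact (hD.gp y hy b).1
  · obtain ⟨b1, -, c, b3, b4⟩ := h.gd y hy a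
    by_cases e : b = c
    · rw [e, b3]; exact b1
    · rw [show b = !c by cases b <;> cases c <;> simp_all, b4]; exact (hD.gp y hy _).1

theorem OV.free (hD : WF D) (h : OV D H Lk S p) {u : V × Bool} (h1 : S.t u = u) (h2 : u ∉ D.Fz) :
    u = (u.1, true) ∧ u.1 ∈ D.Pt := by
  rcases hD.nf u h2 with a | a
  · exact ⟨Prod.ext rfl a.1, a.2⟩
  · have := h.cn_ne hD a u.2
    rw [show (u.1, u.2) = u from rfl, h1] at this
    exact absurd a (hD.pc _ this)

theorem OV.t_nf (hD : WF D) (h : OV D H Lk S p) {u : V × Bool} (h2 : u ∉ D.Fz) :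
    S.t u ∉ D.Fz := fun a => h2 (by
  have := hD.cf _ a
  rwa [← h.fz _ a, S.inv] at this)

theorem OV.low (hD : WF D) (h : OV D H Lk S p) {x y z : V} (hx : x ∈ D.Pt) (hy : y ∈ D.Pt)
    (hz : z ∈ D.Pt) (a1 : (x, true) ∉ D.Fz) (a2 : (y, true) ∉ D.Fz) (a3 : (z, true) ∉ D.Fz)
    (b1 : Lk x y) (b2 : Lk y x)
    (ht : ∀ u, S'.t u = if u = (x, true) then (y, true) else if u = (y, true) then (x, true) else
      if u = (z, true) then u else S.t u) : OV D H Lk S' p := by
  refine h.trans (Fz := D.Fz) (fun u hu => ?_) (fun c hc b => ?_) fun x' _ y' _ c1 c2 c3 => ?_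
  · rw [ht, if_neg (ne_of_mem_of_not_mem hu a1), if_neg (ne_of_mem_of_not_mem hu a2),
      if_neg (ne_of_mem_of_not_mem hu a3), h.fz u hu]
  · rw [ht, if_neg (hD.ne hx hc _ _), if_neg (hD.ne hy hc _ _), if_neg (hD.ne hz hc _ _)]
  · rw [ht] at c3
    split_ifs at c3 with d1 d2 d3
    · rw [(Prod.mk.inj d1).1, ← (Prod.mk.inj c3).1]; exact Or.inl b1
    · rw [(Prod.mk.inj d2).1, ← (Prod.mk.inj c3).1]; exact Or.inl b2
    · exact absurd (Prod.mk.inj c3).1 c2
    · exact Or.inr ⟨c1, c3⟩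

theorem OV.gad (hD : WF D) (h : OV D H Lk S p) {x c : V} {b : Bool} (hx : x ∈ D.Pt)
    (hc : c ∈ D.Cn) (hp : p c = c) (a1 : (x, true) ∉ D.Fz) (b1 : H x c)
    (ht : ∀ u, S'.t u = if u = (x, true) then (c, b) else if u = (c, b) then (x, true) else
      if u = (D.g (c, b), true) then u else S.t u) :
    OV D H Lk S' (Function.update p c x) := by
  obtain ⟨g1, g2, g3⟩ := hD.gp c hc b
  have e1 : ∀ y ∈ D.Cn, ∀ b', (y, b') ≠ (c, b) → S'.t (y, b') = S.t (y, b') := fun y hy b' e => by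
    rw [ht, if_neg (hD.ne hx hy _ _), if_neg e, if_neg (hD.ne g1 hy _ _)]
  have e2 : x ≠ c := fun e => hD.pc x hx (e ▸ hc)
  refine ⟨fun u hu => ?_, fun x' _ y' hy' c1 c2 c3 => ?_, fun y hy a b' => ?_, fun y hy a => ?_⟩
  · rw [ht, if_neg (ne_of_mem_of_not_mem hu a1), if_neg (ne_of_mem_of_not_mem hu g2),
      if_neg (ne_of_mem_of_not_mem hu g3), h.fz u hu]
  · rw [ht] at c3
    split_ifs at c3 with d1 d2 d3
    · exact absurd c3 (hD.ne hy' hc _ _)
    · exact absurd d2.symm (hD.ne ‹_› hc _ _)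
    · exact absurd (Prod.mk.inj c3).1 c2
    · exact h.pp x' ‹_› y' hy' c1 c2 c3
  · by_cases e : y = c
    · rw [e, Function.update_self] at a
      exact absurd a e2
    · rw [Function.update_of_ne e] at a
      rw [e1 y hy b' fun e' => e (Prod.mk.inj e').1, h.gu y hy a]
  · by_cases e : y = c
    · subst e
      rw [Function.update_self]
      refine ⟨hx, b1, b, ?_, ?_⟩
      · rw [ht, if_neg (hD.ne hx hy _ _), if_pos rfl]
      · rw [e1 y hy _ (by simp), h.gu y hy hp]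
    · rw [Function.update_of_ne e] at a ⊢
      obtain ⟨d1, d2, b', d3⟩ := h.gd y hy a
      refine ⟨d1, d2, b', ?_⟩
      rw [e1 y hy _ fun e' => e (Prod.mk.inj e').1, e1 y hy _ fun e' => e (Prod.mk.inj e').1]
      exact d3

variable [Fintype V]

theorem OV.link (hD : WF D) (h : OV D H Lk S p) {x y : V} (hx : x ∈ D.Pt) (hy : y ∈ D.Pt)
    (a1 : (x, true) ∉ D.Fz) (a2 : (y, true) ∉ D.Fz) (b1 : Lk x y) (b2 : Lk y x) (hxy : x ≠ y)
    (c1 : S.t (x, true) = (x, true)) (c2 : S.t (y, true) = (y, true))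
    (c3 : S.fin (x, true) ≠ (y, true)) :
    ∃ S' : St V, OV D H Lk S' p ∧ #(S'.Un \ D.Fz) + 2 = #(S.Un \ D.Fz) ∧
      S.Pot - 2 * Real.log (S.lam (y, true)) ≤ S'.Pot := by
  have e : ((x, true) : V × Bool) ≠ (y, true) := fun e => hxy (Prod.mk.inj e).1
  refine ⟨S.link _ _ c1 c2 e c3, h.low hD hx hy hy a1 a2 a2 b1 b2 fun u => ?_, ?_, ?_⟩
  · simp only [St.link]
    split_ifs <;> rfl
  · have : S.Un \ D.Fz = insert (x, true) (insert (y, true)
        ((S.link _ _ c1 c2 e c3).Un \ D.Fz)) := by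
      ext u
      simp only [mem_sdiff, St.mem_Un, St.link, mem_insert]
      by_cases h1 : u = (x, true)
      · simp [h1, c1, a1]
      by_cases h2 : u = (y, true)
      · simp [h2, c2, a2]
      simp [h1, h2]
    rw [this, card_insert_of_notMem (by simp [St.mem_Un, St.link, hxy, hxy.symm]),
      card_insert_of_notMem (by simp [St.mem_Un, St.link, hxy, hxy.symm])]
  · rw [St.pot_link]
    have := Real.log_le_log (S.lam_pos' (x, true))
      (le_add_of_nonneg_right (S.lam_pos' (y, true)).le)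
    linarith

/-- configurations reached by a walk of the free end `u` of `S` -/
structure Cf (D : Dt V) (H Lk : V → V → Prop) (S : St V) (u : V × Bool) (m ω : ℝ) (x : V)
    (W : Finset (Sym2 (V × Bool))) (S' : St V) (p' : V → V) : Prop where
  ov : OV D H Lk S' p'
  pt : x ∈ D.Pt
  nf : (x, true) ∉ D.Fz
  un : ∀ v, S'.t v = v ↔ (S.t v = v ∧ v ≠ u) ∨ v = (x, true)
  nx : S.t (x, true) = (x, true) → (x, true) = u
  ac : S.Pot - 2 * m * Real.log (S.lam u) - 2 * ω ≤
    S'.Pot - 2 * m * Real.log (S'.lam (x, true))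
  cx : S.cl (x, true) ∈ W
  ag : ∀ v, S.cl v ∉ W → S'.t v = S.t v

variable {u : V × Bool} {m ω : ℝ} {x : V} {W : Finset (Sym2 (V × Bool))}

theorem Cf.mono (h : Cf D H Lk S u m ω x W S' p') {ω' : ℝ} (h1 : ω ≤ ω') :
    Cf D H Lk S u m ω' x W S' p' :=
  { h with ac := le_trans (by linarith) h.ac }

theorem Cf.init (hD : WF D) (h : OV D H Lk S p) (h1 : S.t u = u) (h2 : u ∉ D.Fz)
    (hW : S.cl u ∈ W) : Cf D H Lk S u m 0 u.1 W S p := by
  obtain ⟨a1, a2⟩ := h.free hD h1 h2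
  refine ⟨h, a2, a1 ▸ h2, fun v => ?_, fun _ => a1.symm, by rw [← a1]; simp, a1 ▸ hW,
    fun _ _ => rfl⟩
  rw [← a1]
  by_cases e : v = u
  · simp [e, h1]
  · simp [e]

theorem Cf.free (h : Cf D H Lk S u m ω x W S' p') : S'.t (x, true) = (x, true) :=
  (h.un _).2 (Or.inr rfl)

theorem Cf.card (h : Cf D H Lk S u m ω x W S' p') (h1 : S.t u = u) (h2 : u ∉ D.Fz) :
    #(S'.Un \ D.Fz) = #(S.Un \ D.Fz) := by
  have : S'.Un \ D.Fz = insert (x, true) ((S.Un \ D.Fz).erase u) := by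
    ext v
    simp only [mem_sdiff, St.mem_Un, h.un, mem_insert, mem_erase]
    by_cases e : v = (x, true)
    · simp [e, h.nf]
    · tauto
  rw [this, card_insert_of_notMem, card_erase_add_one (by simp [St.mem_Un, h1, h2])]
  simp only [mem_erase, mem_sdiff, St.mem_Un]
  exact fun a => a.1 (h.nx a.2.1)

theorem Cf.same (h : Cf D H Lk S u m ω x W S' p') {v : V × Bool} (hv : S.cl v ∉ W) :
    S'.lam v = S.lam v ∧ S'.fin v = S.fin v ∧ S'.fin v ≠ (x, true) := by
  obtain ⟨a1, a2⟩ := S.agree_cl S' (· ∉ W) h.ag hv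
  exact ⟨a1, a2, fun e => hv (by rw [← S.cl_fin, ← a2, e]; exact h.cx)⟩

theorem Cf.step (h : Cf D H Lk S u m ω x W S' p') {y : V × Bool} {z : V} {p'' : V → V} {m' c : ℝ}
    (hz : S'.t y = (z, true)) (hz' : S.t y = (z, true)) (hy : y ≠ (z, true))
    (hf : S'.fin y ≠ (x, true)) (a1 : z ∈ D.Pt) (a2 : (z, true) ∉ D.Fz)
    (hov : ∀ S'' : St V, (∀ u, S''.t u = if u = (x, true) then y else if u = y then (x, true) else
      if u = (z, true) then u else S'.t u) → OV D H Lk S'' p'')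
    (hac : (S'.fin (z, true) = (x, true) → m' = m ∧ 0 ≤ c) ∧ (S'.fin (z, true) ≠ (x, true) →
      2 * m' * (Real.log (S'.lam (z, true)) - Real.log (S.lam u)) - 2 * c ≤
        2 * m * (Real.log (S'.lam (x, true)) - Real.log (S.lam u)) +
        2 * (Real.log (S'.lam (z, true)) - Real.log (S'.lam (S'.fin y)) +
          Real.log (S'.lam (x, true) + S'.lam y) - Real.log (S'.lam (x, true))))) :
    ∃ S'' : St V, Cf D H Lk S u m' (ω + c) z (insert (S.cl y) W) S'' p'' ∧
      (S'.fin (z, true) ≠ (x, true) → S''.lam (z, true) = S'.lam (z, true) ∧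
        S''.fin (z, true) = S'.fin (z, true)) ∧
      ∀ B : ℕ, S''.lam (z, true) < B → ∀ v, S'.t v ≠ v → B ≤ S'.lam v → B ≤ S'.lam (S'.t v) →
        S''.t v = S'.t v ∧ S'.lam v ≤ S''.lam v + B := by
  have b1 : S'.t y ≠ y := hz ▸ hy.symm
  obtain ⟨S'', c1, c2, c3, c4⟩ := S'.step h.free b1 hf
  rw [hz] at c1 c2 c3 c4
  have b2 : S'.t (z, true) = y := by rw [← hz, S'.inv]
  have b3 : y ≠ (x, true) := fun e => b1 (e ▸ h.free)
  have b4 : ((z, true) : V × Bool) ≠ (x, true) := fun e => hy (by rw [← b2, e, h.free])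
  have b5 : S.cl (z, true) = S.cl y := by rw [← hz', S.cl_t]
  refine ⟨S'', ⟨hov S'' c1, a1, a2, fun v => ?_, fun e => ?_, ?_, by simp [b5], fun v hv => ?_⟩,
    fun e => (c3 e).2, c4⟩
  · rw [c1]
    split_ifs with d1 d2 d3
    · subst d1
      simp only [b3, b4.symm, or_false, false_iff]
      exact fun a => a.2 (h.nx a.1)
    · subst d2
      simp only [b3.symm, hy, or_false, false_iff]
      exact fun a => b1 ((h.un _).2 (Or.inl a))
    · simp [d3]
    · simp [h.un, d1, d3]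
  · exact absurd (by rw [← S.inv y, hz', e]) hy
  · have := h.ac
    by_cases e : S'.fin (z, true) = (x, true)
    · rw [(c2 e).1, (c2 e).2, (hac.1 e).1]
      linarith [(hac.1 e).2]
    · rw [(c3 e).1, (c3 e).2.1]
      linarith [hac.2 e]
  · rw [mem_insert, not_or] at hv
    rw [c1, if_neg (fun e => hv.2 (by rw [e]; exact h.cx)), if_neg (fun e => hv.1 (by rw [e])),
      if_neg (fun e => hv.1 (by rw [e, b5])), h.ag v hv.2]

omit [Fintype V] in
theorem acc_le {m c a p q l s : ℝ} (ha : 0 < a) (hp : 0 < p) (hq : 0 < q) (hl : 0 < l)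
    (hc : 0 < c) (h : (m = 0 ∧ l ≤ c * q) ∨ (m = 1 ∧ l ≤ c * p)) :
    2 * m * (Real.log q - s) - 2 * Real.log c ≤ 2 * m * (Real.log a - s) +
      2 * (Real.log q - Real.log l + Real.log (a + p) - Real.log a) := by
  rcases h with ⟨rfl, h⟩ | ⟨rfl, h⟩
  · have a1 := Real.log_le_log hl h
    have a2 := Real.log_le_log ha (le_add_of_nonneg_right hp.le)
    rw [Real.log_mul hc.ne' hq.ne'] at a1
    linarith
  · have a1 := Real.log_le_log hl h
    have a2 := Real.log_le_log hp (le_add_of_nonneg_left ha.le : p ≤ a + p)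
    rw [Real.log_mul hc.ne' hp.ne'] at a1
    linarith

omit [Fintype V] in
theorem acc_deep {b a p q s : ℝ} (ha : 0 < a) (hb : 0 < b) (hp : b ≤ p) (hq : b ≤ q) :
    2 * 0 * (Real.log q - s) - 2 * (s - Real.log (b / 2)) ≤ 2 * 1 * (Real.log a - s) +
      2 * (Real.log q - Real.log (p + q) + Real.log (a + p) - Real.log a) := by
  have a2 := Real.log_le_log (hb.trans_le hp) (le_add_of_nonneg_left ha.le : p ≤ a + p)
  have a3 := Real.log_le_log (x := b / 2 * (p + q)) (y := p * q) (by nlinarith) (by nlinarith)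
  rw [Real.log_mul (by linarith) (by linarith), Real.log_mul (by linarith) (by linarith)] at a3
  linarith

end Pool.Agent.MP_d6d719_co.H91

end MrgPart2

-- ======== part 3: formerly Pool.Agent.MP_d6d719_co.h91.Toggle
section MrgPart3

set_option autoImplicit false

open Finset
open scoped Classical

namespace Pool.Agent.MP_d6d719_co.H91

variable {V : Type}

/-- all links are edges and the two links at a vertex are compatible -/
def Good (G : SimpleGraph V) (F : V → V → V → Prop) (S : St V) : Prop :=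
  (∀ u, S.t u ≠ u → G.Adj u.1 (S.t u).1) ∧
    ∀ u, S.t u ≠ u → S.t (fl u) ≠ fl u → Cmp F u.1 (S.t u).1 (S.t (fl u)).1

theorem St.ext_fin (S S' : St V) (h : ∀ u, S.t u ≠ u → S'.t u = S.t u) (u : V × Bool)
    (hu : S'.t (S.fin u) = S.fin u) : S'.lam u = S.lam u ∧ S'.fin u = S.fin u := by
  induction u using S.ind with
  | h0 u h1 =>
    rw [(S.un u h1).2] at hu
    rw [(S.un u h1).1, (S.un u h1).2]
    exact S'.un u hu
  | h1 u h1 ih =>
    rw [(S.ma u h1).2] at hu
    have h2 := S'.ma u (by rw [h _ h1]; exact h1)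
    rw [h _ h1] at h2
    rw [h2.1, h2.2, (ih hu).1, (ih hu).2, (S.ma u h1).1, (S.ma u h1).2]
    exact ⟨rfl, rfl⟩

theorem Gam.symm' {G : SimpleGraph V} {F : V → V → V → Prop} {s : V → V} {x y : V}
    (h : Gam G F s x y) : Gam G F s y x := ⟨h.1.symm, h.2.2, h.2.1⟩

theorem good_upd {G : SimpleGraph V} {F : V → V → V → Prop} (hF : ∀ v a b, F v a b → F v b a)
    {S : St V} (hS : Good G F S) {x y : V}
    (lk : Gam G F (fun v => (S.t (v, false)).1) x y) (T : V × Bool → V × Bool)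
    (hT : ∀ u, T u = if u = (x, true) then (y, true) else if u = (y, true) then (x, true)
      else S.t u) :
    (∀ u, T u ≠ u → G.Adj u.1 (T u).1) ∧
      ∀ u, T u ≠ u → T (fl u) ≠ fl u → Cmp F u.1 (T u).1 (T (fl u)).1 := by
  have hxy : x ≠ y := lk.1.ne
  have t0 : ∀ v, T (v, false) = S.t (v, false) := fun v => by simp [hT]
  have tx : T (x, true) = (y, true) := by simp [hT]
  have ty : T (y, true) = (x, true) := by simp [hT, hxy.symm]
  have tz : ∀ v, v ≠ x → v ≠ y → T (v, true) = S.t (v, true) := fun v h1 h2 => by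
    simp [hT, h1, h2]
  have key : ∀ v, T (v, true) ≠ (v, true) → T (v, false) ≠ (v, false) →
      Cmp F v (T (v, false)).1 (T (v, true)).1 := by
    intro v h1 h2
    by_cases a1 : v = x
    · rw [a1, tx, t0]; exact lk.2.1
    by_cases a2 : v = y
    · rw [a2, ty, t0]; exact lk.2.2
    rw [tz v a1 a2] at h1 ⊢
    rw [t0] at h2 ⊢
    exact hS.2 (v, false) h2 h1
  constructor
  · rintro ⟨v, _ | _⟩ h
    · rw [t0] at h ⊢; exact hS.1 _ h
    by_cases a1 : v = x
    · rw [a1, tx]; exact lk.1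
    by_cases a2 : v = y
    · rw [a2, ty]; exact lk.1.symm
    rw [tz v a1 a2] at h ⊢
    exact hS.1 _ h
  · rintro ⟨v, _ | _⟩ h1 h2
    · exact key v h2 h1
    · exact (key v h1 h2).symm' hF

theorem Good.link {G : SimpleGraph V} {F : V → V → V → Prop} (hF : ∀ v a b, F v a b → F v b a)
    {S : St V} (hS : Good G F S) {x y : V}
    (lk : Gam G F (fun v => (S.t (v, false)).1) x y) (hx : S.t (x, true) = (x, true))
    (hy : S.t (y, true) = (y, true)) (hf : S.fin (x, true) ≠ (y, true)) :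
    ∃ S' : St V, Good G F S' ∧ S'.t (x, true) = (y, true) ∧ S'.t (y, true) = (x, true) ∧
      (∀ u, u ≠ (x, true) → u ≠ (y, true) → S'.t u = S.t u) ∧
      (∀ u, S.fin u = (y, true) → S'.fin u = S.fin (x, true)) ∧
      ∀ u, S.fin u ≠ (x, true) → S.fin u ≠ (y, true) → S'.fin u = S.fin u := by
  have hxy : ((x, true) : V × Bool) ≠ (y, true) := fun h => lk.1.ne (Prod.mk.inj h).1
  refine ⟨S.link _ _ hx hy hxy hf, good_upd hF hS lk _ fun _ => rfl, ?_, ?_, fun u h1 h2 => ?_,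
    fun u h1 => ?_, fun u h1 h2 => ?_⟩
  · simp only [St.link, if_true]
  · simp only [St.link, if_true, hxy.symm, if_false]
  · simp only [St.link, h1, h2, if_false]
  · simp only [St.link, h1, hxy.symm, if_true, if_false]
  · simp only [St.link, h1, h2, if_false]

theorem link_chain {G : SimpleGraph V} {F : V → V → V → Prop} (hF : ∀ v a b, F v a b → F v b a)
    {S : St V} (hS : Good G F S) {m : ℕ} (A B : ℕ → V)
    (dA : ∀ i < m, ∀ j < m, A i = A j → i = j) (dB : ∀ i < m, ∀ j < m, B i = B j → i = j)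
    (dAB : ∀ i < m, ∀ j < m, A i ≠ B j) (uA : ∀ i < m, S.t (A i, true) = (A i, true))
    (uB : ∀ i < m, S.t (B i, true) = (B i, true))
    (lk : ∀ i < m, Gam G F (fun v => (S.t (v, false)).1) (A i) (B i))
    (hf : ∀ i, i + 1 < m → S.fin (A (i + 1), true) = (B i, true))
    (he : ∀ i < m, S.fin (A 0, true) ≠ (B i, true)) (n : ℕ) (hn : n ≤ m) :
    ∃ S' : St V, Good G F S' ∧
      (∀ i < n, S'.t (A i, true) ≠ (A i, true) ∧ S'.t (B i, true) ≠ (B i, true)) ∧
      (∀ u, (∀ i < n, u ≠ (A i, true) ∧ u ≠ (B i, true)) → S'.t u = S.t u) ∧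
      (n < m → S'.fin (A n, true) = S.fin (A 0, true)) := by
  induction n with
  | zero => exact ⟨S, hS, fun _ h => absurd h (by omega), fun _ _ => rfl, fun _ => rfl⟩
  | succ n ih =>
    obtain ⟨S1, g1, m1, o1, f1⟩ := ih (by omega)
    have hn' : n < m := hn
    have a1 : S1.t (A n, true) = (A n, true) := by
      rw [o1, uA n hn']
      exact fun i hi => ⟨fun h => by have := dA n hn' i (by omega) (Prod.mk.inj h).1; omega,
        fun h => dAB n hn' i (by omega) (Prod.mk.inj h).1⟩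
    have a2 : S1.t (B n, true) = (B n, true) := by
      rw [o1, uB n hn']
      exact fun i hi => ⟨fun h => dAB i (by omega) n hn' (Prod.mk.inj h).1.symm,
        fun h => by have := dB n hn' i (by omega) (Prod.mk.inj h).1; omega⟩
    have a3 : (fun v => (S1.t (v, false)).1) = fun v => (S.t (v, false)).1 := by
      funext v
      rw [o1]
      simp
    obtain ⟨S2, g2, t1, t2, o2, f2, -⟩ := g1.link hF (a3 ▸ lk n hn') a1 a2
      (by rw [f1 hn']; exact he n hn')
    have hAB := dAB n hn' n hn'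
    refine ⟨S2, g2, fun i hi => ?_, fun u hu => ?_, fun h => ?_⟩
    · rcases (Nat.lt_succ_iff.1 hi).eq_or_lt with rfl | hi
      · rw [t1, t2]
        exact ⟨fun h => hAB (Prod.mk.inj h).1.symm, fun h => hAB (Prod.mk.inj h).1⟩
      · have b := m1 i hi
        rw [o2 _ (fun h => b.1 (by rw [h, a1])) (fun h => b.1 (by rw [h, a2])),
          o2 _ (fun h => b.2 (by rw [h, a1])) (fun h => b.2 (by rw [h, a2]))]
        exact b
    · rw [o2 u (hu n (by omega)).1 (hu n (by omega)).2, o1 u fun i hi => hu i (by omega)]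
    · rw [f2, f1 hn']
      rw [← hf n h]
      refine (S.ext_fin S1 (fun u hu => o1 u fun i hi => ?_) _ (by rw [hf n h, a2])).2
      exact ⟨fun e => hu (by rw [e, uA i (by omega)]), fun e => hu (by rw [e, uB i (by omega)])⟩

theorem switch_aux {G : SimpleGraph V} {F : V → V → V → Prop} (hF : ∀ v a b, F v a b → F v b a)
    {S : St V} (hS : Good G F S) {h : ℕ} (hh : 2 ≤ h) (c : ℕ → V)
    (inj : ∀ i < 2 * h, ∀ j < 2 * h, c i = c j → i = j)
    (un : ∀ j < 2 * h, S.t (c j, true) = (c j, true))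
    (lk : ∀ j, j + 1 < 2 * h → Gam G F (fun v => (S.t (v, false)).1) (c j) (c (j + 1)))
    (hfin : ∀ j, 2 ≤ j → j ≤ 2 * h - 2 → j ≠ h → S.fin (c j, true) = (c (2 * h - j), true))
    (he : ∀ j < 2 * h, S.fin (c h, true) ≠ (c j, true)) (h01 : S.fin (c 0, true) ≠ (c 1, true)) :
    ∃ S' : St V, Good G F S' ∧ (∀ j < 2 * h, S'.t (c j, true) ≠ (c j, true)) ∧
      ∀ u, (∀ j < 2 * h, u ≠ (c j, true)) → S'.t u = S.t u := by
  obtain ⟨S1, g1, t1, t2, o1, -, f1⟩ := hS.link hF (lk 0 (by omega)) (un 0 (by omega))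
    (un 1 (by omega)) h01
  rw [zero_add] at t1 t2 o1 f1
  have ne : ∀ i < 2 * h, ∀ j < 2 * h, i ≠ j → ((c i, true) : V × Bool) ≠ (c j, true) :=
    fun i hi j hj h1 h2 => h1 (inj i hi j hj (Prod.mk.inj h2).1)
  have a3 : (fun v => (S1.t (v, false)).1) = fun v => (S.t (v, false)).1 := by
    funext v
    rw [o1] <;> simp
  obtain ⟨a, ha⟩ : ∃ a : ℕ → ℕ, ∀ k, ((h + k) % 2 = 0 → a k = h + k) ∧
      ((h + k) % 2 = 1 → a k = h - k) :=
    ⟨fun k => if (h + k) % 2 = 0 then h + k else h - k, fun k =>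
      ⟨fun e => if_pos e, fun e => if_neg (by omega)⟩⟩
  obtain ⟨b, hb⟩ : ∃ b : ℕ → ℕ, ∀ k, ((h + k) % 2 = 0 → b k = h + k + 1) ∧
      ((h + k) % 2 = 1 → b k = h - k - 1) :=
    ⟨fun k => if (h + k) % 2 = 0 then h + k + 1 else h - k - 1, fun k =>
      ⟨fun e => if_pos e, fun e => if_neg (by omega)⟩⟩
  have ra : ∀ k < h - 1, 2 ≤ a k ∧ a k < 2 * h := fun k hk => by have := ha k; omega
  have rb : ∀ k < h - 1, 2 ≤ b k ∧ b k < 2 * h := fun k hk => by have := hb k; omega
  have u1 : ∀ j, 2 ≤ j → j < 2 * h → S1.t (c j, true) = (c j, true) := fun j h1 h2 => by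
    rw [o1 _ (ne j h2 0 (by omega) (by omega)) (ne j h2 1 (by omega) (by omega)), un j h2]
  have a0 : a 0 = h := by have := ha 0; omega
  obtain ⟨S2, g2, m2, o2, -⟩ := link_chain hF g1 (m := h - 1) (fun k => c (a k)) (fun k => c (b k))
    (fun i hi j hj e => by
      have := inj _ (ra i hi).2 _ (ra j hj).2 e
      have := ha i; have := ha j; omega)
    (fun i hi j hj e => by
      have := inj _ (rb i hi).2 _ (rb j hj).2 e
      have := hb i; have := hb j; omega)
    (fun i hi j hj e => by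
      have := inj _ (ra i hi).2 _ (rb j hj).2 e
      have := ha i; have := hb j; omega)
    (fun i hi => u1 _ (ra i hi).1 (ra i hi).2) (fun i hi => u1 _ (rb i hi).1 (rb i hi).2)
    (fun i hi => by
      rw [a3]
      rcases Nat.mod_two_eq_zero_or_one (h + i) with e | e
      · simp only [(ha i).1 e, (hb i).1 e]
        exact lk _ (by omega)
      · have e2 : h - i = h - i - 1 + 1 := by omega
        simp only [(ha i).2 e, (hb i).2 e]
        have := (lk (h - i - 1) (by omega)).symm'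
        rwa [← e2] at this)
    (fun i hi => by
      have e1 := ha (i + 1)
      have e2 := hb i
      have e3 := hfin (a (i + 1)) (by omega) (by omega) (by omega)
      have e4 : 2 * h - a (i + 1) = b i := by omega
      rw [e4] at e3
      have e5 := rb i (by omega)
      rw [f1 _ (by rw [e3]; exact ne _ e5.2 0 (by omega) (by omega))
        (by rw [e3]; exact ne _ e5.2 1 (by omega) (by omega)), e3])
    (fun i hi => by
      simp only [a0]
      rw [f1 _ (he 0 (by omega)) (he 1 (by omega))]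
      exact he _ (rb i hi).2)
    (h - 1) le_rfl
  refine ⟨S2, g2, fun j hj => ?_, fun u hu => ?_⟩
  · by_cases h2 : j < 2
    · rw [o2 _ fun i hi => ⟨ne j hj _ (ra i hi).2 (by have := ra i hi; omega),
        ne j hj _ (rb i hi).2 (by have := rb i hi; omega)⟩]
      obtain rfl | rfl : j = 0 ∨ j = 1 := by omega
      · rw [t1]; exact ne 1 (by omega) 0 (by omega) (by omega)
      · rw [t2]; exact ne 0 (by omega) 1 (by omega) (by omega)
    · by_cases h3 : h ≤ j ∧ j % 2 = 0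
      · have e : a (j - h) = j := by have := ha (j - h); omega
        simpa only [e] using (m2 (j - h) (by omega)).1
      by_cases h4 : j ≤ h ∧ j % 2 = 1
      · have e : a (h - j) = j := by have := ha (h - j); omega
        simpa only [e] using (m2 (h - j) (by omega)).1
      by_cases h5 : h ≤ j
      · have e : b (j - h - 1) = j := by have := hb (j - h - 1); omega
        simpa only [e] using (m2 (j - h - 1) (by omega)).2
      · have e : b (h - j - 1) = j := by have := hb (h - j - 1); omega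
        simpa only [e] using (m2 (h - j - 1) (by omega)).2
  · rw [o2 u fun i hi => ⟨hu _ (ra i hi).2, hu _ (rb i hi).2⟩,
      o1 u (hu 0 (by omega)) (hu 1 (by omega))]

theorem switch {G : SimpleGraph V} {F : V → V → V → Prop} (hF : ∀ v a b, F v a b → F v b a)
    {S : St V} (hS : Good G F S) {h : ℕ} (hh : 2 ≤ h) (c : ℕ → V) (hc : c (2 * h) = c 0)
    (inj : ∀ i < 2 * h, ∀ j < 2 * h, c i = c j → i = j)
    (un : ∀ j < 2 * h, S.t (c j, true) = (c j, true))
    (lk : ∀ j < 2 * h, Gam G F (fun v => (S.t (v, false)).1) (c j) (c (j + 1)))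
    (hfin : ∀ j, 2 ≤ j → j ≤ 2 * h - 2 → j ≠ h → S.fin (c j, true) = (c (2 * h - j), true))
    (he : ∀ j < 2 * h, S.fin (c h, true) ≠ (c j, true)) :
    ∃ S' : St V, Good G F S' ∧ (∀ j < 2 * h, S'.t (c j, true) ≠ (c j, true)) ∧
      ∀ u, (∀ j < 2 * h, u ≠ (c j, true)) → S'.t u = S.t u := by
  by_cases h01 : S.fin (c 0, true) ≠ (c 1, true)
  · exact switch_aux hF hS hh c inj un (fun j hj => lk j (by omega)) hfin he h01
  rw [not_not] at h01
  have r : ∀ j < 2 * h, ∃ i < 2 * h, c (2 * h - j) = c i ∧ (j = 0 → i = 0) ∧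
      (j ≠ 0 → i = 2 * h - j) := fun j hj => by
    by_cases e : j = 0
    · exact ⟨0, by omega, by rw [e, Nat.sub_zero, hc], fun _ => rfl, fun e2 => absurd e e2⟩
    · exact ⟨2 * h - j, by omega, rfl, fun e2 => absurd e2 e, fun _ => rfl⟩
  obtain ⟨S', g, m, o⟩ := switch_aux hF hS hh (fun j => c (2 * h - j))
    (fun i hi j hj e => by
      obtain ⟨i', h1, h2, h3⟩ := r i hi
      obtain ⟨j', h4, h5, h6⟩ := r j hj
      have := inj i' h1 j' h4 (by rw [← h2, ← h5]; exact e)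
      omega)
    (fun j hj => by
      obtain ⟨i, h1, h2, -⟩ := r j hj
      simp only [h2]
      exact un i h1)
    (fun j hj => by
      have e : 2 * h - j = 2 * h - (j + 1) + 1 := by omega
      have := (lk (2 * h - (j + 1)) (by omega)).symm'
      rwa [← e] at this)
    (fun j h1 h2 h3 => hfin (2 * h - j) (by omega) (by omega) (by omega))
    (fun j hj => by
      obtain ⟨i, h1, h2, -⟩ := r j hj
      simp only [h2, show 2 * h - h = h by omega]
      exact he i h1)
    (by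
      simp only [Nat.sub_zero, hc, h01]
      intro e
      have := inj 1 (by omega) (2 * h - 1) (by omega) (Prod.mk.inj e).1
      omega)
  refine ⟨S', g, fun j hj => ?_, fun u hu => o u fun j hj => ?_⟩
  · by_cases e : j = 0
    · simpa only [e, Nat.sub_zero, hc] using m 0 (by omega)
    · simpa only [show 2 * h - (2 * h - j) = j by omega] using m (2 * h - j) (by omega)
  · obtain ⟨i, h1, h2, -⟩ := r j hj
    simp only [h2]
    exact hu i h1

theorem cw_of_seq {G : SimpleGraph V} {F : V → V → V → Prop} (f : ℕ → V)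
    (h1 : ∀ n, G.Adj (f n) (f (n + 1))) (h2 : ∀ n, ¬ F (f (n + 1)) (f n) (f (n + 2))) (k a : ℕ) :
    CW G F ((List.range' a (k + 2)).map f) := by
  induction k generalizing a with
  | zero => exact h1 a
  | succ k ih => exact ⟨h1 a, h2 a, ih (a + 1)⟩

theorem ham {G : SimpleGraph V} {F : V → V → V → Prop} (hF : ∀ v a b, F v a b → F v b a)
    {S : St V} (hS : Good G F S) {x y : V}
    (un : ∀ u, S.t u = u ↔ u = (x, true) ∨ u = (y, true))
    (lk : Gam G F (fun v => (S.t (v, false)).1) x y) : HamList G F := by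
  obtain ⟨T, hT⟩ : ∃ T : V × Bool → V × Bool, ∀ u, T u = if u = (x, true) then (y, true)
      else if u = (y, true) then (x, true) else S.t u := ⟨_, fun _ => rfl⟩
  obtain ⟨g1, g2⟩ := good_upd hF hS lk T hT
  have hxy : ((x, true) : V × Bool) ≠ (y, true) := fun h => lk.1.ne (Prod.mk.inj h).1
  have ux := (un _).2 (Or.inl rfl)
  have uy := (un _).2 (Or.inr rfl)
  have tx : T (x, true) = (y, true) := by rw [hT, if_pos rfl]
  have ty : T (y, true) = (x, true) := by rw [hT, if_neg hxy.symm, if_pos rfl]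
  have tz : ∀ u, S.t u ≠ u → T u = S.t u := fun u h => by
    rw [hT, if_neg fun e => h ((un u).2 (Or.inl e)), if_neg fun e => h ((un u).2 (Or.inr e))]
  have tt : ∀ u, T u ≠ u ∧ T (T u) = u := fun u => by
    by_cases h : S.t u = u
    · rcases (un u).1 h with e | e
      · rw [e, tx, ty]; exact ⟨hxy.symm, rfl⟩
      · rw [e, ty, tx]; exact ⟨hxy, rfl⟩
    · rw [tz u h, tz _ (S.t_ne h), S.inv]
      exact ⟨h, rfl⟩
  have fx : S.fin (x, true) = (y, true) :=
    ((un _).1 (S.fin_un (x, true))).resolve_left (S.fin_ne_un ux)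
  have fy : S.fin (y, true) = (x, true) := S.fin_eq_comm ux fx
  obtain ⟨s, s0, s1⟩ : ∃ s : ℕ → V × Bool, s 0 = (x, true) ∧ ∀ n, s (n + 1) = T (fl (s n)) :=
    ⟨fun n => Nat.rec (x, true) (fun _ u => T (fl u)) n, rfl, fun _ => rfl⟩
  obtain ⟨L, hL⟩ : ∃ L, S.lam (x, true) = L + 2 := by
    have a1 : S.t (fl (x, true)) ≠ fl (x, true) := fun h => by simpa [fl] using (un _).1 h
    have a2 := (S.ma _ a1).1
    have a3 := S.lam_pos (S.t (fl (x, true)))
    exact ⟨S.lam (x, true) - 2, by omega⟩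
  have iv : ∀ n < L + 2, S.fin (s n) = (y, true) ∧ S.lam (s n) + n = L + 2 := by
    intro n hn
    induction n with
    | zero => rw [s0]; exact ⟨fx, hL⟩
    | succ n ih =>
      obtain ⟨a1, a2⟩ := ih (by omega)
      have a3 : S.t (fl (s n)) ≠ fl (s n) := fun h => by have := (S.un _ h).1; omega
      have a4 := S.ma _ a3
      rw [s1, tz _ a3, ← a4.2]
      exact ⟨a1, by omega⟩
  have sL : s (L + 2) = s 0 := by
    obtain ⟨a1, a2⟩ := iv (L + 1) (by omega)
    have a3 : S.t (fl (s (L + 1))) = fl (s (L + 1)) := by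
      by_contra h
      have := (S.ma _ h).1
      have := S.lam_pos (S.t (fl (s (L + 1))))
      omega
    rw [s1, ← (S.un _ a3).2, a1, ty, s0]
  have sL1 : s (L + 3) = s 1 := by rw [s1, sL, ← s1]
  have e1 : (List.range' 0 (L + 2)).map (fun n => (s n).1) =
      (s 0).1 :: (s 1).1 :: (List.range' 2 L).map fun n => (s n).1 := rfl
  refine ⟨(s 0).1, (s 1).1, (List.range' 2 L).map fun n => (s n).1, ?_, ?_, fun v => ?_⟩
  · have a1 := cw_of_seq (G := G) (F := F) (fun n => (s n).1) (fun n => ?_) (fun n => ?_) (L + 2) 0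
    · rw [← List.range'_append_1, List.map_append, e1] at a1
      simpa only [List.range', List.map_cons, List.map_nil, zero_add, sL, sL1] using a1
    · rw [s1]
      exact g1 (fl (s n)) (tt _).1
    · have a2 := (g2 (s (n + 1)) (tt _).1 (tt _).1).2
      rw [← s1] at a2
      rw [s1 n, (tt _).2, ← s1 n] at a2
      exact a2
  · rw [← e1]
    refine List.Nodup.map_on (fun i hi j hj e => ?_) List.nodup_range'
    rw [List.mem_range'_1] at hi hj
    obtain ⟨a1, a2⟩ := iv i (by omega)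
    obtain ⟨a3, a4⟩ := iv j (by omega)
    by_cases e2 : (s i).2 = (s j).2
    · rw [Prod.ext e e2] at a2
      omega
    · have a5 : s i = fl (s j) := Prod.ext e (by simpa [fl, Bool.eq_not_iff] using e2)
      rw [a5, ← S.fin_fin, a3, fy] at a1
      exact absurd a1 hxy
  · rw [← e1]
    obtain ⟨w, w1, w2⟩ : ∃ w : V × Bool, w.1 = v ∧ S.fin w = (y, true) := by
      rcases (un _).1 (S.fin_un (v, true)) with e | e
      · exact ⟨fl (v, true), rfl, by rw [← S.fin_fin, e, fx]⟩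
      · exact ⟨(v, true), rfl, e⟩
    have a1 := S.lam_le w
    have a2 := S.lam_fin_un ux
    have a3 := S.lam_pos w
    rw [w2] at a1
    rw [fx] at a2
    obtain ⟨a4, a5⟩ := iv (L + 2 - S.lam w) (by omega)
    rw [← w1, ← S.eq_of_fin_lam (a4.trans w2.symm) (by omega)]
    exact List.mem_map.2 ⟨_, List.mem_range'_1.2 (by omega), rfl⟩

end Pool.Agent.MP_d6d719_co.H91

end MrgPart3

-- ======== part 4: formerly Pool.Agent.MP_d6d719_co.h91.Iface
section MrgPart4

set_option autoImplicit false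

open Finset
open scoped Classical

namespace Pool.Agent.MP_d6d719_co.H91

/-- numerical parameters -/
structure Pm where
  ε : ℝ
  γ : ℝ
  b : ℝ
  θ : ℝ
  Dg : ℕ
  l : ℕ
  m : ℕ
  J : ℕ
  r1 : ℕ
  B : ℕ
  B1 : ℕ

/-- cost of a walk up to growth step `j` -/
noncomputable def Pm.om (P : Pm) (j : ℕ) : ℝ := P.l * Real.log 3 + j * Real.log (1 / P.θ)

variable {V : Type} [Fintype V]

/-- expansion of the sparse relation and the numerical side conditions -/
structure HP (P : Pm) (Pt R : Finset V) (H : V → V → Prop) : Prop where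
  sy : ∀ x y, H x y → H y x
  ir : ∀ x, ¬ H x x
  e2 : E2 H
  fs : FS H Pt R P.ε P.r1 (P.l + P.J + 2) (P.J + 2)
  rx : RX H R P.ε P.γ P.b
  hb : 30 * ((((P.l + P.J + 2 : ℕ) : ℝ) + 1) * Fintype.card V) < P.b
  hε : 0 < P.ε
  hγ : 20 * P.ε ≤ P.γ
  hγ1 : P.γ ≤ 1
  hn : 0 < Fintype.card V
  hJ : 2 + P.γ ≤ P.γ * P.J
  hR : (1 - 4 * P.ε) * Fintype.card V ≤ #R
  hD : 2 ≤ P.Dg
  hm : P.Dg ^ P.l = P.m
  r1m : P.r1 ≤ P.m
  θ0 : 0 < P.θ
  θ1 : P.θ ≤ 1
  hB : (2 * P.B) ^ 2 ≤ 16 * Fintype.card V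
  hB1 : (P.l + P.J + 1 : ℝ) * P.B1 ≤ P.θ * P.B
  B0 : 0 < P.B1

/-- the skeleton: frozen links `D.Fz`, gadgets, and short free paths entered at `D.R`, `T1`, `T2` -/
structure SK (D : Dt V) (S : St V) (T1 T2 : Finset V) : Prop where
  wf : WF D
  ro : D.Ro = D.R
  t0 : D.t0 = S.t
  ov : OV D (fun _ _ => False) (fun _ _ => False) S id
  fm : ∀ u ∈ D.Fz, S.t u ≠ u
  d1 : Disjoint D.R T1
  d2 : Disjoint D.R T2
  d3 : Disjoint T1 T2
  en : ∀ y ∈ D.R ∪ T1 ∪ T2, y ∈ D.Pt ∧ (y, true) ∉ D.Fz ∧ S.t (y, true) = (y, true) ∧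
    S.lam (y, true) ≤ 5 ∧ (S.fin (y, true)).2 = true ∧ (S.fin (y, true)).1 ∈ D.Pt ∧
    ∀ v, S.cl v = S.cl (y, true) → v ∈ D.Fz ∨ v = (y, true) ∨ v = S.fin (y, true)
  er : ∀ y ∈ D.R, (S.fin (y, true)).1 ∈ D.R
  et : ∀ y ∈ T1 ∪ T2, (S.fin (y, true)).1 ∉ D.R ∪ T1 ∪ T2

/-- the permanent neighbour of a vertex -/
def Dt.st (D : Dt V) (v : V) : V := (D.t0 (v, false)).1

/-- the centre `y` is a two-sided pivot for `v` -/
def Ct (G : SimpleGraph V) (F : V → V → V → Prop) (D : Dt V) (v y : V) : Prop :=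
  G.Adj v y ∧ Cmp F v (D.st v) y ∧ ∀ b, Cmp F y v (D.g (y, b))

/-- expansion of the skeleton -/
structure SX (G : SimpleGraph V) (F : V → V → V → Prop) (D : Dt V) (T1 T2 : Finset V)
    (d ε γ g c φ : ℝ) : Prop where
  rx : RX (Gam G F D.st) D.R ε γ (g * d * Fintype.card V)
  dR : ∀ v ∈ D.Pt, d / 5 ≤ #{y ∈ D.R | Gam G F D.st v y}
  d1 : ∀ v ∈ D.Pt, c * d ≤ #{y ∈ T1 | Gam G F D.st v y}
  d2 : ∀ v ∈ D.Pt, c * d ≤ #{y ∈ T2 | Gam G F D.st v y}
  dC : ∀ v ∈ D.Pt, c * d ≤ #{y ∈ D.Cn | Ct G F D v y}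
  cR : (#(univ \ D.R) : ℝ) ≤ φ * Fintype.card V

/-- the output of the construction of `k` switches over the skeleton `(D, S)` -/
structure BO (D : Dt V) (H : V → V → Prop) (S0 : St V) (Ro : Finset V)
    (Fz0 Fz1 : Finset (V × Bool)) (k L N : ℕ) : Prop where
  ov : OV D H H S0 id
  wf : WF { D with Ro := Ro, t0 := S0.t, Fz := Fz0 }
  s0 : D.Fz ⊆ Fz1
  s1 : Fz1 ⊆ Fz0
  hd : ∀ q ∈ Fz0 \ Fz1, q.2 = true ∧ q.1 ∈ D.Pt ∧ S0.t q ≠ q ∧ S0.t q ∉ Fz1 ∧ S0.lam q ≤ L ∧
    ∀ v, S0.cl v = S0.cl q → v ∈ Fz1 ∨ v = q ∨ v = S0.t q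
  dm : ∀ u ∈ Fz0, S0.t u = u → ∀ v, S0.cl v = S0.cl u → v ∈ Fz0
  hk : 2 * k ≤ #(Fz0 \ Fz1)
  ro : #(D.R \ Ro) ≤ N
  ham : ∀ (G : SimpleGraph V) (F : V → V → V → Prop), (∀ v a b, F v a b → F v b a) →
    (∀ x ∈ D.Pt, ∀ y ∈ D.Pt, H x y → Gam G F D.st x y) → ∀ S : St V, Good G F S →
    (∀ u ∈ Fz1, S.t u = S0.t u) → (∀ u ∉ Fz1, S.t u ≠ u) → HamList G F

end Pool.Agent.MP_d6d719_co.H91

end MrgPart4

-- ======== part 5: formerly Pool.Agent.MP_d6d719_co.h91.Num
section MrgPart5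

set_option autoImplicit false

namespace Pool.Agent.MP_d6d719_co.H91

/-- all numerical side conditions -/
structure Num (P : Pm) (n : ℕ) (d γ ε g c φ : ℝ) (k h : ℕ) (a M : ℝ) : Prop where
  eε : P.ε = ε
  eγ : P.γ = γ
  eb : P.b = g * d * n / 20000
  hJ : 2 + γ ≤ γ * P.J
  hD : 2 ≤ P.Dg
  hm : P.Dg ^ P.l = P.m
  r1m : P.r1 ≤ P.m
  θ0 : 0 < P.θ
  θ1 : P.θ ≤ 1
  hB : (2 * P.B) ^ 2 ≤ 16 * n
  hB1 : (P.l + P.J + 1 : ℝ) * P.B1 ≤ P.θ * P.B
  B0 : 0 < P.B1
  hb : 30 * (P.l + P.J + 3 : ℝ) < g * d / 20000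
  fs1 : 30 * (P.l + P.J + 2 : ℝ) ≤ d / 400000
  fs2 : (30 * (P.J + 2) + 2 : ℝ) * n < P.r1 * d / 200000
  ex1 : 64 * (P.Dg : ℝ) * P.m ≤ c * n / 40000
  ex2 : 3 * Real.log n * (1 + 4 * P.Dg) < c * d / 40000
  sp1 : Real.log n + 3 ≤ d / 200000
  hh : 2 ≤ h
  hJ' : 2 * h = 2 * P.l + P.J + 1
  bm : (k * h + 1) * P.l ≤ P.m
  a0 : 0 < a
  aB : a ≤ P.B
  M1 : 1 ≤ M
  nf : 2 * (P.r1 + 2 * n / a + 2 * k + 2 +
    (3 * (φ * n + 2 * ((k * h + 1) * (2 * h) + 1)) + 4 * P.θ * n)) +
    (P.l + P.J + 2) * (2 * P.B) ≤ 3 * ε * n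
  nL : 1000 ≤ Real.log n
  no : P.om P.J + P.l ≤ Real.log n / 20
  nB : Real.log P.B ≤ Real.log n / 2
  nB1 : 49 / 100 * Real.log n ≤ Real.log (P.B1 / 2)
  nL' : Real.log (10 * h : ℕ) ≤ Real.log n / 100
  na : Real.log a ≤ 26 / 100 * Real.log n
  nM : Real.log M ≤ Real.log n / 10
  nk : 36 * (2 * n / a) + n / M < 2 * k
  nm : (4 * (P.r1 + 2 * n / a) + 4 * k) * Real.log n + 4 + 3 * P.l ≤ P.m

end Pool.Agent.MP_d6d719_co.H91

end MrgPart5

-- ======== part 6: formerly Pool.Agent.MP_d6d719_co.h91.Params2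
section MrgPart6

set_option autoImplicit false

open Filter

namespace Pool.Agent.MP_d6d719_co.H91

theorem num_of {γ ε g c d L w C c' : ℝ} {n J j D : ℕ} (hε : 0 < ε) (hε1 : ε ≤ 1) (hg : 0 < g)
    (hc : 0 < c) (hJ : 2 + γ ≤ γ * J) (hj : J = 2 * j + 3) (hD : 2 ≤ D) (hD1 : 55 ≤ Real.log D)
    (hL : L = Real.log n) (hw : w = Real.exp (L / 100)) (hn0 : 0 < n)
    (hC : C = (30 * (J + 2) + 2) * 200000) (hc' : c' = c / (40000 * 64 * D) / D)
    (l1 : 1000 ≤ L) (l2 : (J : ℝ) + 3 ≤ L / 2) (l3 : Real.log c ≤ L / 10)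
    (l4 : J * Real.log (1 / (ε / 100)) ≤ L / 500) (w1 : 1000 * L ≤ ε * w) (w2 : 1000 ≤ c' * w)
    (d1 : 600001 * L ≤ g * d) (d2 : 12000000 * L ≤ d) (d3 : 120001 * (1 + 4 * D) * L ≤ c * d)
    (d4 : 8 * C * L ≤ c' * d) (d5 : 10 * C ≤ ε * d) :
    ∃ (P : Pm) (k h : ℕ) (a M : ℝ), Num P n d γ ε g c (ε / 100) k h a M := by
  have hnR : (0 : ℝ) < n := by exact_mod_cast hn0
  have pw : ∀ i : ℕ, Real.log (w ^ i) = i * (L / 100) := fun i => by
    rw [Real.log_pow, hw, Real.log_exp]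
  have w0 : 0 < w := by rw [hw]; exact Real.exp_pos _
  have hn : (n : ℝ) = w ^ 100 := by
    rw [hw, ← Real.exp_nat_mul, show ((100 : ℕ) : ℝ) * (L / 100) = L by push_cast; ring, hL,
      Real.exp_log hnR]
  have wL : 1000 * L ≤ w := w1.trans (mul_le_of_le_one_left w0.le hε1)
  have wone : 1 ≤ w := by linarith
  have mono : ∀ {i i' : ℕ}, i ≤ i' → w ^ i ≤ w ^ i' := fun h => pow_le_pow_right₀ wone h
  have p1 : ∀ i : ℕ, 1 ≤ w ^ i := fun i => one_le_pow₀ wone
  have sL : ∀ i : ℕ, w ^ i * L ≤ w ^ (i + 1) := fun i => by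
    rw [pow_succ]; exact mul_le_mul_of_nonneg_left (by linarith) (by positivity)
  have s50 : w ^ 50 * L ≤ w ^ 51 := sL 50
  have s75 : w ^ 75 * L ≤ w ^ 76 := sL 75
  have s90 : w ^ 90 * L ≤ w ^ 91 := sL 90
  have s91 : w ^ 91 * L ≤ w ^ 92 := sL 91
  have s49 : w ^ 49 * L ≤ w ^ 50 := sL 49
  have D2 : (2 : ℝ) ≤ D := by exact_mod_cast hD
  have d0 : 0 < d := by linarith
  have c0 : 0 < c' := by rw [hc']; positivity
  have C0 : 0 < C := by rw [hC]; positivity
  have q1 : 1000 * w ^ 92 ≤ ε * n := by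
    rw [hn, pow_succ' w 99, ← mul_assoc]
    exact mul_le_mul (by linarith) (mono (by norm_num)) (by positivity) (by positivity)
  have q2 : 1000 * w ^ 92 ≤ c' * n := by
    rw [hn, pow_succ' w 99, ← mul_assoc]
    exact mul_le_mul w2 (mono (by norm_num)) (by positivity) (by positivity)
  obtain ⟨x, hx⟩ : ∃ x : ℝ, x = c * n / (40000 * 64 * D) := ⟨_, rfl⟩
  have x1 : x = c' * n * D := by rw [hx, hc']; field_simp
  have x2 : 1 ≤ x := by
    rw [x1]
    exact one_le_mul_of_one_le_of_one_le (by linarith [p1 92]) (by linarith)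
  obtain ⟨l, hl⟩ : ∃ l, l = Nat.log D ⌊x⌋₊ := ⟨_, rfl⟩
  obtain ⟨m, hm⟩ : ∃ m, m = D ^ l := ⟨_, rfl⟩
  have m1 : (m : ℝ) ≤ x := by
    refine le_trans ?_ (Nat.floor_le (by linarith))
    rw [hm, hl]
    exact_mod_cast Nat.pow_log_le_self D (Nat.floor_pos.2 x2).ne'
  have m2 : c' * n ≤ m := by
    have a1 : ⌊x⌋₊ + 1 ≤ m * D := by
      rw [hm, hl, ← pow_succ]
      exact Nat.lt_pow_succ_log_self (by omega) _
    have a2 : ((⌊x⌋₊ : ℝ) + 1) ≤ m * D := by exact_mod_cast a1
    have a3 := Nat.lt_floor_add_one x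
    exact le_of_mul_le_mul_right (by linarith) (show (0 : ℝ) < D by linarith)
  have ll : (l : ℝ) ≤ L / 50 := by
    have a1 : x ≤ c * n := by
      rw [hx]; exact div_le_self (by positivity) (by linarith)
    have a2 : Real.log m ≤ Real.log (c * n) :=
      Real.log_le_log (by linarith [p1 92]) (m1.trans a1)
    rw [Real.log_mul hc.ne' hnR.ne', ← hL, hm, Nat.cast_pow, Real.log_pow] at a2
    have a3 := mul_le_mul_of_nonneg_left hD1 (Nat.cast_nonneg (α := ℝ) l)
    linarith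
  have l0 : (0 : ℝ) ≤ l := Nat.cast_nonneg _
  have J0 : (0 : ℝ) ≤ J := Nat.cast_nonneg _
  obtain ⟨h, hh⟩ : ∃ h, h = l + j + 2 := ⟨_, rfl⟩
  have hL1 : (h : ℝ) ≤ L := by
    have a1 : h ≤ l + J + 3 := by omega
    have a2 : (h : ℝ) ≤ l + J + 3 := by exact_mod_cast a1
    linarith
  have h0 : (0 : ℝ) < h := by exact_mod_cast (show 0 < h by omega)
  obtain ⟨B, hB⟩ : ∃ B, B = Nat.sqrt n := ⟨_, rfl⟩
  have B1 : (B : ℝ) ≤ w ^ 50 := by
    refine le_of_sq_le_sq ?_ (by positivity)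
    rw [← pow_mul, ← hn, hB]
    exact_mod_cast Nat.sqrt_le' n
  have B2 : w ^ 50 ≤ 2 * B := by
    have a1 : w ^ 50 ≤ B + 1 := by
      refine le_of_sq_le_sq ?_ (by positivity)
      rw [← pow_mul, ← hn, hB]
      exact_mod_cast (Nat.lt_succ_sqrt' n).le
    have a2 : w ≤ w ^ 50 := by simpa using mono (i := 1) (i' := 50) (by norm_num)
    linarith
  obtain ⟨y, hy⟩ : ∃ y : ℝ, y = ε / 100 * B / (l + J + 1) := ⟨_, rfl⟩
  have y1 : 4 * w ^ 49 ≤ y := by
    rw [hy, le_div_iff₀ (by positivity)]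
    have a1 := mul_le_mul_of_nonneg_left B2 hε.le
    have a2 := mul_le_mul_of_nonneg_left w1 (show 0 ≤ w ^ 49 by positivity)
    have a3 := mul_le_mul_of_nonneg_left (show (l : ℝ) + J + 1 ≤ L by linarith)
      (show 0 ≤ w ^ 49 by positivity)
    have a4 : 0 ≤ w ^ 49 * L := by positivity
    rw [pow_succ w 49] at a1
    linarith
  have y2 : 2 * w ^ 49 ≤ ⌊y⌋₊ := by linarith [Nat.lt_floor_add_one y, p1 49]
  obtain ⟨k, hk⟩ : ∃ k, k = ⌈w ^ 90⌉₊ := ⟨_, rfl⟩
  have k1 : w ^ 90 ≤ k := by rw [hk]; exact Nat.le_ceil _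
  have k2 : (k : ℝ) ≤ 2 * w ^ 90 := by
    have := Nat.ceil_lt_add_one (show 0 ≤ w ^ 90 by positivity)
    rw [hk]; linarith [p1 90]
  obtain ⟨r, hr⟩ : ∃ r, r = ⌊C * n / d⌋₊ + 1 := ⟨_, rfl⟩
  have r1 : C * n / d < r := by rw [hr]; push_cast; exact Nat.lt_floor_add_one _
  have r2 : (r : ℝ) ≤ C * n / d + 1 := by
    rw [hr]; push_cast; linarith [Nat.floor_le (show 0 ≤ C * n / d by positivity)]
  have r3 : C * n / d * L ≤ c' * n / 8 := by
    rw [div_mul_eq_mul_div, div_le_iff₀ d0]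
    linarith [mul_le_mul_of_nonneg_left d4 hnR.le]
  have r4 : C * n / d ≤ ε * n / 10 := by
    rw [div_le_iff₀ d0]
    linarith [mul_le_mul_of_nonneg_left d5 hnR.le]
  have r5 : C * n / d ≤ C * n / d * L := le_mul_of_one_le_right (by positivity) (by linarith)
  have na : (n : ℝ) / w ^ 25 = w ^ 75 := by
    rw [hn, div_eq_iff (by positivity), ← pow_add]
  have nM : (n : ℝ) / w ^ 10 = w ^ 90 := by
    rw [hn, div_eq_iff (by positivity), ← pow_add]
  have kh : (k : ℝ) * h + 1 ≤ 3 * w ^ 91 := by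
    have a1 := mul_le_mul k2 hL1 h0.le (by positivity)
    linarith [p1 91]
  have Lw : L ≤ w ^ 92 := by
    have : w ≤ w ^ 92 := by simpa using mono (i := 1) (i' := 92) (by norm_num)
    linarith
  have g1 := mono (i := 75) (i' := 92) (by norm_num)
  have g2 := mono (i := 90) (i' := 92) (by norm_num)
  refine ⟨⟨ε, γ, g * d * n / 20000, ε / 100, D, l, m, J, r, B, ⌊y⌋₊⟩, k, h, w ^ 25, w ^ 10,
    rfl, rfl, rfl, hJ, hD, hm.symm, ?_, by positivity, by linarith, ?_, ?_, ?_, ?_, ?_, ?_, ?_,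
    ?_, ?_, by omega, by simp only; omega, ?_, by positivity, ?_, p1 _, ?_, hL ▸ l1, ?_, ?_, ?_, ?_,
    ?_, ?_, ?_, ?_⟩ <;> try simp only [Pm.om, ← hL]
  · have : (r : ℝ) ≤ m := by linarith [p1 92]
    exact_mod_cast this
  · have := Nat.sqrt_le' n
    rw [← hB] at this
    rw [mul_pow]
    omega
  · have := Nat.floor_le (show 0 ≤ y by linarith [p1 49])
    rw [hy, le_div_iff₀ (by positivity), ← hy] at this
    linarith
  · have : (0 : ℝ) < ⌊y⌋₊ := by linarith [p1 49]
    exact_mod_cast this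
  · linarith
  · linarith
  · rw [div_lt_iff₀ d0, hC] at r1
    linarith
  · rw [hx, le_div_iff₀ (by positivity)] at m1
    linarith
  · have : 0 < (1 + 4 * D) * L := by positivity
    linarith
  · linarith
  · have a1 := mul_le_mul kh (show (l : ℝ) ≤ L by linarith) l0 (by positivity)
    have : ((k : ℝ) * h + 1) * l ≤ m := by linarith [p1 92]
    exact_mod_cast this
  · have a2 := mul_le_mul_of_nonneg_left l1 (show 0 ≤ w ^ 49 by positivity)
    linarith [mono (i := 25) (i' := 49) (by norm_num), p1 49]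
  · rw [mul_div_assoc 2, na]
    have a1 := mul_le_mul kh hL1 h0.le (by positivity)
    have a2 := mul_le_mul (show (l : ℝ) + J + 2 ≤ L by linarith) B1 (Nat.cast_nonneg _)
      (by linarith)
    have a3 : 0 ≤ ε * n := by positivity
    linarith [p1 92, mono (i := 51) (i' := 92) (by norm_num)]
  · have a1 : Real.log 3 ≤ 1.39 := by
      have b1 := Real.log_le_log (show (0 : ℝ) < 3 by norm_num) (show (3 : ℝ) ≤ 2 ^ 2 by norm_num)
      rw [Real.log_pow] at b1
      push_cast at b1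
      linarith [Real.log_two_lt_d9]
    linarith [mul_le_mul_of_nonneg_left a1 l0]
  · have := Real.log_le_log (by linarith [p1 50]) B1
    rw [pw] at this
    push_cast at this
    linarith
  · have := Real.log_le_log (show 0 < w ^ 49 by positivity)
      (show w ^ 49 ≤ (⌊y⌋₊ : ℝ) / 2 by linarith)
    rw [pw] at this
    push_cast at this
    linarith
  · have := Real.log_le_log (show (0 : ℝ) < (10 * h : ℕ) by push_cast; linarith)
      (show ((10 * h : ℕ) : ℝ) ≤ w by push_cast; linarith)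
    rwa [hw, Real.log_exp] at this
  · rw [pw]; push_cast; linarith
  · rw [pw]; push_cast; linarith
  · rw [mul_div_assoc 2, na, nM]
    have a2 := mul_le_mul_of_nonneg_left l1 (show 0 ≤ w ^ 75 by positivity)
    linarith [mono (i := 76) (i' := 90) (by norm_num), p1 75]
  · rw [mul_div_assoc 2, na]
    have a1 := mul_le_mul_of_nonneg_right r2 (show 0 ≤ L by linarith)
    have a2 := mul_le_mul_of_nonneg_right k2 (show 0 ≤ L by linarith)
    linarith [p1 92, mono (i := 76) (i' := 92) (by norm_num),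
      mono (i := 91) (i' := 92) (by norm_num)]

/-- (P) the choice of all parameters -/
theorem params (γ ε g c : ℝ) (hγ : 0 < γ) (hε : 0 < ε) (hε1 : ε ≤ 1) (hg : 0 < g)
    (hc : 0 < c) :
    ∃ K : ℝ, ∀ᶠ n : ℕ in atTop, ∀ d : ℝ, K * Real.log n ≤ d →
      ∃ (P : Pm) (k h : ℕ) (a M : ℝ), Num P n d γ ε g c (ε / 100) k h a M := by
  obtain ⟨j, hj⟩ := exists_nat_ge (1 / γ)
  obtain ⟨J, hJ⟩ : ∃ J, J = 2 * j + 3 := ⟨_, rfl⟩
  have hJ1 : 2 + γ ≤ γ * J := by
    rw [div_le_iff₀ hγ] at hj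
    rw [hJ]
    push_cast
    linarith
  obtain ⟨D, hD, hD1⟩ : ∃ D : ℕ, 2 ≤ D ∧ 55 ≤ Real.log D := by
    refine ⟨2 ^ 80, by norm_num, ?_⟩
    rw [Nat.cast_pow, Real.log_pow]
    push_cast
    linarith [Real.log_two_gt_d9]
  obtain ⟨C, hC⟩ : ∃ C : ℝ, C = (30 * (J + 2) + 2) * 200000 := ⟨_, rfl⟩
  obtain ⟨c', hc'⟩ : ∃ c' : ℝ, c' = c / (40000 * 64 * D) / D := ⟨_, rfl⟩
  have D0 : (0 : ℝ) < D := by exact_mod_cast (show 0 < D by omega)
  have c0 : 0 < c' := by rw [hc']; positivity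
  have C0 : 0 < C := by rw [hC]; positivity
  refine ⟨600001 / g + 12000000 + 120001 * (1 + 4 * D) / c + 8 * C / c' + 10 * C / ε, ?_⟩
  have tl : Tendsto (fun n : ℕ => Real.log n) atTop atTop :=
    Real.tendsto_log_atTop.comp tendsto_natCast_atTop_atTop
  have tl2 : Tendsto (fun n : ℕ => Real.log n / 100) atTop atTop :=
    tl.atTop_div_const (by norm_num)
  have t1 := ((Real.tendsto_exp_div_pow_atTop 1).comp tl2).eventually_ge_atTop (100000 / ε)
  have t2 := (Real.tendsto_exp_atTop.comp tl2).eventually_ge_atTop (1000 / c')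
  filter_upwards [tl.eventually_ge_atTop 1000, tl.eventually_ge_atTop (2 * (J + 3)),
    tl.eventually_ge_atTop (10 * Real.log c),
    tl.eventually_ge_atTop (500 * (J * Real.log (1 / (ε / 100)))), t1, t2,
    eventually_gt_atTop 0] with n l1 l2 l3 l4 w1 w2 hn d hd
  simp only [Function.comp, pow_one] at w1 w2
  obtain ⟨L, hL⟩ : ∃ L, L = Real.log n := ⟨_, rfl⟩
  rw [← hL] at l1 l2 l3 l4 w1 w2 hd
  have L0 : 0 < L := by linarith
  have a1 : 0 ≤ 600001 / g * L := by positivity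
  have a3 : 0 ≤ 120001 * (1 + 4 * D) / c * L := by positivity
  have a4 : 0 ≤ 8 * C / c' * L := by positivity
  have a5 : 0 ≤ 10 * C / ε * L := by positivity
  have key : ∀ {s t : ℝ}, 0 < t → s / t * L ≤ d → s * L ≤ t * d := fun ht h => by
    rwa [div_mul_eq_mul_div, div_le_iff₀' ht] at h
  refine num_of hε hε1 hg hc hJ1 hJ hD hD1 hL rfl hn hC hc' l1 (by linarith) (by linarith)
    (by linarith) ?_ ?_ (key hg (by linarith)) (by linarith) (key hc (by linarith))
    (key c0 (by linarith)) ?_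
  · rw [div_le_div_iff₀ hε (by linarith)] at w1
    linarith
  · rwa [div_le_iff₀' c0] at w2
  · have b1 := key (s := 10 * C) hε (by linarith)
    have b2 := mul_le_mul_of_nonneg_left l1 C0.le
    linarith

end Pool.Agent.MP_d6d719_co.H91

end MrgPart6

-- marker of a merged file
example : 731051 + 360549 = 731051 + 360549 := rfl
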