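import Mathlib.Data.Finset.Functor
import Pool.Agent.MP_d6d719_co.h91.Params2

-- ======== part 0: formerly Pool.Agent.MP_d6d719_co.h91.Walk
section MrgPart0

set_option autoImplicit false

open Finset
open scoped Classical

namespace Pool.Agent.MP_d6d719_co.H91

variable {V : Type} [Fintype V]

/-- balanced pivots -/
noncomputable def PO (P : Pm) (D : Dt V) (S : St V) : Finset V :=
  {y ∈ D.Ro | ∃ z ∈ D.Ro, y ≠ z ∧ S.t (y, true) = (z, true) ∧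
    P.θ * S.lam (S.fin (y, true)) ≤ S.lam (y, true) ∧
    P.θ * S.lam (S.fin (y, true)) ≤ S.lam (z, true)}

/-- vertices on short paths -/
noncomputable def Sm (P : Pm) (S : St V) : Finset V := {y | S.lam (S.fin (y, true)) < P.B}

variable {P : Pm} {D : Dt V} {H Lk : V → V → Prop} {S S' : St V} {p p' : V → V}

theorem card_slot (f : V × Bool → V × Bool) (hf : Function.Injective f) (A : Finset (V × Bool)) :
    #{y : V | f (y, true) ∈ A} ≤ #A :=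
  card_le_card_of_injOn (fun y => f (y, true)) (fun y hy => by simpa using hy)
    fun _ _ _ _ e => (Prod.mk.inj (hf e)).1

theorem card_PO (hθ : 0 ≤ P.θ) (hD : WF D) (h : OV D H Lk S p) :
    (#(D.R \ (PO P D S ∪ {y ∈ D.Ro | S.t (y, true) = (y, true)})) : ℝ) ≤
      3 * #(univ \ D.Ro) + 4 * P.θ * Fintype.card V := by
  set A : Finset (V × Bool) := {u | (S.lam u : ℝ) < P.θ * S.lam (S.fin u)} with hA
  have a1 := S.card_viol hθ
  have a2 := card_slot id Function.injective_id A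
  have a3 := card_slot S.t (fun _ _ => S.t_inj) A
  have a4 := card_slot S.t (fun _ _ => S.t_inj) ((univ \ D.Ro) ×ˢ univ)
  rw [card_product, card_univ, Fintype.card_bool] at a4
  have a5 : D.R \ (PO P D S ∪ {y ∈ D.Ro | S.t (y, true) = (y, true)}) ⊆ (univ \ D.Ro) ∪
      (({y : V | S.t (y, true) ∈ (univ \ D.Ro) ×ˢ (univ : Finset Bool)} : Finset V) ∪
        (({y : V | id (y, true) ∈ A} : Finset V) ∪ ({y : V | S.t (y, true) ∈ A} : Finset V))) := by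
    intro y hy
    simp only [mem_sdiff, mem_union, PO, mem_filter, mem_univ, true_and, mem_product, and_true,
      hA, id, not_or, not_and, not_exists] at hy ⊢
    by_contra hc
    simp only [not_or, not_not, not_lt] at hc
    obtain ⟨b1, b2, b3, b4⟩ := hc
    have b5 : S.t (y, true) = ((S.t (y, true)).1, true) := by
      rcases hD.nf _ (h.t_nf hD (hD.rf y b1)) with c | c
      · exact Prod.ext rfl c.1
      · exact absurd c (hD.pc _ (hD.rp (hD.ro b2)))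
    rw [S.len_of_cl (S.cl_t _)] at b4
    exact hy.2.1 b1 _ b2 (fun e => hy.2.2 b1 (by rw [b5, ← e])) b5 b3 (b5 ▸ b4)
  have a6 := (card_le_card a5).trans ((card_union_le _ _).trans (add_le_add le_rfl
    ((card_union_le _ _).trans (add_le_add a4 ((card_union_le _ _).trans (add_le_add a2 a3))))))
  have a7 : (#(D.R \ (PO P D S ∪ {y ∈ D.Ro | S.t (y, true) = (y, true)})) : ℝ) ≤
      #(univ \ D.Ro) + (#(univ \ D.Ro) * 2 + (#A + #A)) := by exact_mod_cast a6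
  linarith

theorem card_free (hD : WF D) : #{y ∈ D.Ro | S.t (y, true) = (y, true)} ≤ #(S.Un \ D.Fz) := by
  refine le_trans (card_le_card fun y hy => ?_) (card_slot id Function.injective_id _)
  simp only [mem_filter, mem_univ, true_and, id, mem_sdiff, St.mem_Un] at hy ⊢
  exact ⟨hy.2, hD.rf y hy.1⟩

theorem card_PO' (hθ : 0 ≤ P.θ) (hD : WF D) (h : OV D H Lk S p) :
    (#(D.R \ PO P D S) : ℝ) ≤
      #(S.Un \ D.Fz) + (3 * #(univ \ D.Ro) + 4 * P.θ * Fintype.card V) := by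
  have a1 := card_PO hθ hD h
  have a2 : #(D.R \ PO P D S) ≤ #(S.Un \ D.Fz) +
      #(D.R \ (PO P D S ∪ {y ∈ D.Ro | S.t (y, true) = (y, true)})) := by
    refine le_trans (card_le_card fun y hy => ?_)
      ((card_union_le _ _).trans (add_le_add (card_free hD) le_rfl))
    simp only [mem_sdiff, mem_union] at hy ⊢
    tauto
  have a3 : (#(D.R \ PO P D S) : ℝ) ≤ #(S.Un \ D.Fz) +
      #(D.R \ (PO P D S ∪ {y ∈ D.Ro | S.t (y, true) = (y, true)})) := by exact_mod_cast a2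
  linarith

theorem card_sm {A : Finset V} (hA : A ⊆ Sm P S) (c : Sym2 (V × Bool))
    [DecidablePred fun y => S.cl (y, true) = c] : #{y ∈ A | S.cl (y, true) = c} ≤ 2 * P.B := by
  rcases ({y ∈ A | S.cl (y, true) = c} : Finset V).eq_empty_or_nonempty with h | ⟨y, hy⟩
  · simp [h]
  · rw [mem_filter] at hy
    have a1 := S.card_cl (y, true)
    have a2 := (mem_filter.1 (hA hy.1)).2
    refine le_trans (card_le_card fun v hv => ?_) ((card_slot id Function.injective_id _).trans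
      (a1.trans (by omega)))
    simpa [hy.2] using (mem_filter.1 hv).2

/-- no walk produces a long active piece -/
def NW (P : Pm) (D : Dt V) (H Lk : V → V → Prop) (S : St V) (Rt : V × Bool → Prop)
    (Ex : (V → V) → Prop) (m : ℝ) : Prop :=
  ∀ u x W S' p', Rt u → Ex p' → Cf D H Lk S u m (P.om P.J) x W S' p' → S'.lam (x, true) < P.B1

/-- deep pivots stay deep -/
def Dp (P : Pm) (D : Dt V) (S : St V) (j : ℕ) (S' : St V) : Prop :=
  ∀ y ∈ PO P D S \ Sm P S, S'.t (y, true) = S.t (y, true) ∧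
    P.θ * P.B ≤ S'.lam (y, true) + j * P.B1 ∧ P.θ * P.B ≤ S'.lam (S.t (y, true)) + j * P.B1

theorem Dp.init (hθ : 0 ≤ P.θ) (j : ℕ) : Dp P D S j S := by
  intro y hy
  simp only [mem_sdiff, PO, Sm, mem_filter, mem_univ, true_and, not_lt] at hy
  obtain ⟨⟨-, z, -, -, a1, a2, a3⟩, a4⟩ := hy
  have a5 : P.θ * P.B ≤ P.θ * S.lam (S.fin (y, true)) :=
    mul_le_mul_of_nonneg_left (by exact_mod_cast a4) hθ
  have a6 : (0 : ℝ) ≤ j * P.B1 := by positivity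
  rw [a1]
  exact ⟨rfl, by linarith, by linarith⟩

theorem Dp.deep {Pt R : Finset V} (hP : HP P Pt R H) {j : ℕ} (h : Dp P D S j S')
    (hj : j ≤ P.l + P.J) {y : V} (hy : y ∈ PO P D S \ Sm P S) :
    P.B1 ≤ S'.lam (y, true) ∧ P.B1 ≤ S'.lam (S.t (y, true)) := by
  obtain ⟨-, a2, a3⟩ := h y hy
  have a4 : (j : ℝ) * P.B1 ≤ (P.l + P.J) * P.B1 :=
    mul_le_mul_of_nonneg_right (by exact_mod_cast hj) (by positivity)
  have a5 := hP.hB1
  constructor <;> rw [← Nat.cast_le (α := ℝ)] <;> linarith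

theorem Dp.step {Pt R : Finset V} (hP : HP P Pt R H) {j : ℕ} (h : Dp P D S j S')
    (hj : j ≤ P.l + P.J) {S'' : St V} (h1 : ∀ v, S'.t v ≠ v → P.B1 ≤ S'.lam v →
      P.B1 ≤ S'.lam (S'.t v) → S''.t v = S'.t v ∧ S'.lam v ≤ S''.lam v + P.B1) :
    Dp P D S (j + 1) S'' := by
  intro y hy
  obtain ⟨a1, a2, a3⟩ := h y hy
  obtain ⟨a4, a5⟩ := h.deep hP hj hy
  obtain ⟨-, z, -, b1, b2, -⟩ := mem_filter.1 (mem_sdiff.1 hy).1
  have b3 : S'.t (y, true) ≠ (y, true) := by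
    rw [a1, b2]; exact fun e => b1 (Prod.mk.inj e).1.symm
  rw [← a1] at a3 a5 ⊢
  obtain ⟨c1, c2⟩ := h1 _ b3 a4 a5
  obtain ⟨-, c3⟩ := h1 _ (S'.t_ne b3) a5 (by rwa [S'.inv])
  have c4 : (S'.lam (y, true) : ℝ) ≤ S''.lam (y, true) + P.B1 := by exact_mod_cast c2
  have c5 : (S'.lam (S'.t (y, true)) : ℝ) ≤ S''.lam (S'.t (y, true)) + P.B1 := by
    exact_mod_cast c3
  push_cast
  exact ⟨c1, by linarith, by linarith⟩

theorem om_mono {Pt R : Finset V} (hP : HP P Pt R H) {i j : ℕ} (h : i ≤ j) : P.om i ≤ P.om j := by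
  have a1 : 0 ≤ Real.log (1 / P.θ) := Real.log_nonneg (one_le_one_div hP.θ0 hP.θ1)
  have a2 : (i : ℝ) ≤ j := by exact_mod_cast h
  unfold Pm.om
  nlinarith

/-- configurations in the growth phase -/
def KG (P : Pm) (D : Dt V) (H Lk : V → V → Prop) (S : St V) (Rt : V × Bool → Prop)
    (Ex : (V → V) → Prop) (m : ℝ) (W0 : Finset (Sym2 (V × Bool))) (w0 j : ℕ) (x : V)
    (W : Finset (Sym2 (V × Bool))) : Prop :=
  ∃ u S' p', Rt u ∧ Ex p' ∧ Cf D H Lk S u m (P.om j) x W S' p' ∧ W0 ⊆ W ∧ #W ≤ w0 + j ∧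
    (NW P D H Lk S Rt Ex m → Dp P D S (P.l + j) S') ∧
    (1 ≤ j → S'.lam (x, true) < P.B ∧ S.cl (S'.fin (x, true)) ∉ W0)

variable {Rt : V × Bool → Prop} {Ex : (V → V) → Prop} {m : ℝ} {W0 : Finset (Sym2 (V × Bool))}
  {w0 : ℕ}

theorem walk (hP : HP P D.Pt D.R H) (hD : WF D) (HL : ∀ x ∈ D.Pt, ∀ y ∈ D.Pt, H x y → Lk x y)
    (hm : m = 0 ∨ m = 1) (hw : w0 ≤ P.l + 2) {T : Finset V} (hT : T ⊆ D.R)
    (hf : (#(D.R \ (PO P D S ∩ Sm P S ∪ T)) : ℝ) ≤ 4 * P.ε * Fintype.card V) {X0 : Finset V}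
    (hX0 : X0 ⊆ D.Pt) (hr : P.r1 ≤ #X0) (c0 : ∀ x ∈ X0, ∃ W, KG P D H Lk S Rt Ex m W0 w0 0 x W) :
    (∃ j < P.J, ∃ x W y, KG P D H Lk S Rt Ex m W0 w0 j x W ∧ y ∈ T ∧ H x y ∧
      (y ∈ Sm P S → S.cl (y, true) ∉ W)) ∨
    ((#T : ℝ) < P.ε * Fintype.card V ∧ ∃ X ⊆ D.R, #D.R - 5 * P.ε * Fintype.card V ≤ #X ∧
      ∀ x ∈ X, ∃ W, KG P D H Lk S Rt Ex m W0 w0 P.J x W) := by
  refine grow hP.e2 hP.fs (by omega) hP.rx hP.hb hP.hε hP.hγ hP.hγ1 hP.hn hP.hJ hP.hR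
    (fun y => S.cl (y, true)) (fun y => (S.t (y, true)).1)
    (fun y hy => hD.ro (mem_filter.1 (mem_inter.1 hy).1).1) inter_subset_right hT
    (fun c => le_trans (Nat.pow_le_pow_left (@card_sm _ _ P S _ subset_rfl c (_)) 2) hP.hB) hf ?_ ?_ _ ?_ ?_ hX0 hr c0
  · intro y hy y' hy' e
    obtain ⟨-, z, -, -, a1, -⟩ := mem_filter.1 (mem_inter.1 hy).1
    obtain ⟨-, z', -, -, a2, -⟩ := mem_filter.1 (mem_inter.1 hy').1
    simp only [a1, a2] at e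
    exact (Prod.mk.inj (S.t_inj (a1.trans (e ▸ a2.symm)))).1
  · intro y hy
    obtain ⟨-, z, a0, -, a1, -⟩ := mem_filter.1 (mem_inter.1 hy).1
    rw [a1]
    exact hD.ro a0
  · rintro j hj x W ⟨u, S', p', -, -, -, -, a, -⟩
    omega
  · rintro j hj x W y ⟨u, S', p', a1, a2, a3, a4, a5, a6, -⟩ hy b1 b2
    obtain ⟨c0, z, c1, c2, c3, c4, c5⟩ := mem_filter.1 (mem_inter.1 hy).1
    have c6 := (mem_filter.1 (mem_inter.1 hy).2).2
    have d1 : S.cl (z, true) = S.cl (y, true) := by rw [← c3, S.cl_t]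
    obtain ⟨e1, e2, e3⟩ := a3.same b2
    obtain ⟨e4, e5, e6⟩ := a3.same (d1 ▸ b2)
    obtain ⟨e7, -⟩ := a3.same (v := S.fin (y, true)) (by rwa [S.cl_fin])
    have y1 := hD.rp (hD.ro c0)
    have z1 := hD.rp (hD.ro c1)
    have hc : 0 < 1 / P.θ := one_div_pos.2 hP.θ0
    obtain ⟨S'', f1, f2, f3⟩ := a3.step (m' := m) (c := Real.log (1 / P.θ)) (p'' := p')
      ((a3.ag _ b2).trans c3) c3 (fun e => c2 (Prod.mk.inj e).1) e3 z1 (hD.rf z c1)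
      (fun S'' ht => a3.ov.low hD a3.pt y1 z1 a3.nf (hD.rf y c0) (hD.rf z c1) (HL _ a3.pt _ y1 b1)
        (HL _ y1 _ a3.pt (hP.sy _ _ b1)) ht)
      ⟨fun e => absurd e e6, fun _ => acc_le (S'.lam_pos' _) (S'.lam_pos' _) (S'.lam_pos' _)
        (S'.lam_pos' _) hc (by
          rw [e1, e2, e4, e7, one_div_mul_eq_div, one_div_mul_eq_div, le_div_iff₀ hP.θ0,
            le_div_iff₀ hP.θ0, mul_comm]
          tauto)⟩
    have g1 : P.om j + Real.log (1 / P.θ) = P.om (j + 1) := by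
      unfold Pm.om
      push_cast
      ring
    rw [g1] at f1
    simp only [c3]
    refine ⟨_, u, S'', p', a1, a2, f1, a4.trans (subset_insert _ _),
      (card_insert_le _ _).trans (by omega), fun nw => (a6 nw).step hP (by omega)
        (f3 _ (nw _ _ _ _ _ a1 a2 (f1.mono (om_mono hP hj)))), fun _ => ?_⟩
    rw [(f2 e6).1, (f2 e6).2, e4, e5, S.cl_fin, d1]
    exact ⟨(S.lam_le _).trans_lt (S.len_of_cl d1 ▸ c6), fun e => b2 (a4 e)⟩

omit [Fintype V] in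
theorem gad_choice (S : St V) {c : V} {x : V × Bool} {g : Bool → V × Bool}
    (h : ∀ b, S.t (c, b) = g b) (hne : ∀ b, g b ≠ (c, b)) (hm : m = 0 ∨ m = 1) :
    ∃ b, S.fin (c, b) ≠ x ∧ (S.fin (g b) ≠ x →
      (m = 0 ∧ (S.lam (S.fin (c, b)) : ℝ) ≤ 3 * S.lam (g b)) ∨
      (m = 1 ∧ (S.lam (S.fin (c, b)) : ℝ) ≤ 3 * S.lam (c, b))) := by
  have a1 : ∀ b, S.t (c, b) ≠ (c, b) := fun b => h b ▸ hne b
  have a2 : ∀ b, S.lam (c, !b) = S.lam (g b) + 1 ∧ S.fin (c, !b) = S.fin (g b) := fun b =>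
    h b ▸ S.fl_ma (a1 b)
  have a3 : ∀ b, S.lam (c, b) + S.lam (g b) = S.lam (S.fin (c, b)) := fun b =>
    h b ▸ S.lam_add (a1 b)
  by_cases e : ∃ b, S.fin (c, b) = x
  · obtain ⟨b, e⟩ := e
    refine ⟨!b, ?_, fun e' => absurd ?_ e'⟩
    · rw [(a2 b).2, ← h, ← e]; exact S.fin_t_ne (a1 b)
    · rw [← (a2 (!b)).2, Bool.not_not, e]
  · push Not at e
    have b1 := (a2 true).1
    have b2 := (a2 false).1
    have b3 := a3 true
    have b4 := a3 false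
    have b5 := S.lam_pos (g true)
    have b6 := S.lam_pos (g false)
    simp only [Bool.not_true, Bool.not_false] at b1 b2
    rcases hm with hm | hm <;> rcases le_total (S.lam (g true)) (S.lam (g false)) with d | d
    · exact ⟨false, e _, fun _ => Or.inl ⟨hm, by norm_cast; omega⟩⟩
    · exact ⟨true, e _, fun _ => Or.inl ⟨hm, by norm_cast; omega⟩⟩
    · exact ⟨true, e _, fun _ => Or.inr ⟨hm, by norm_cast; omega⟩⟩
    · exact ⟨false, e _, fun _ => Or.inr ⟨hm, by norm_cast; omega⟩⟩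

omit [Fintype V] in
theorem card_usd {T : Finset V} {c x : V} (hc : c ∈ T) (h : p c = c) (hx : x ≠ c) :
    #(Usd T (Function.update p c x)) = #(Usd T p) + 1 := by
  rw [← card_insert_of_notMem (a := c) (by simp [Usd, h])]
  congr 1
  ext y
  by_cases e : y = c
  · simp [Usd, e, hc, hx]
  · simp [Usd, e]

/-- the gadgets used by a walk -/
def ExT (P : Pm) (D : Dt V) (H : V → V → Prop) (p : V → V) (j : ℕ) (p' : V → V) : Prop :=
  Inv H D.Pt D.Cn P.Dg P.m p' ∧ #(Usd D.Cn p) ≤ #(Usd D.Cn p') ∧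
    #(Usd D.Cn p') ≤ #(Usd D.Cn p) + j

theorem tree_phase (hP : HP P D.Pt D.R H) (hE : EX H D.Pt D.Cn P.Dg P.m) (hD : WF D)
    (hm : m = 0 ∨ m = 1) (h : OV D H Lk S p) (hI : Inv H D.Pt D.Cn P.Dg P.m p)
    (hu : #(Usd D.Cn p) ≤ P.m) {u : V × Bool} (h1 : S.t u = u) (h2 : u ∉ D.Fz)
    (h3 : S.cl u ∈ W0) (h4 : #W0 ≤ 2) : ∃ X ⊆ D.Pt, P.r1 ≤ #X ∧ ∀ x ∈ X, ∃ W,
      KG P D H Lk S (· = u) (ExT P D H p P.l) m W0 (P.l + 2) 0 x W := by
  obtain ⟨a1, a2⟩ := h.free hD h1 h2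
  have l3 : 0 ≤ Real.log 3 := Real.log_nonneg (by norm_num)
  obtain ⟨X, b1, b2, b3⟩ := tree hE hP.hD hP.hm hP.ir (fun y z => ∃ b, z = D.g (y, b))
    (by rintro y hy _ ⟨b, rfl⟩; exact (hD.gp y hy b).1)
    (by rintro y hy y' hy' _ ⟨b, rfl⟩ ⟨b', e⟩; exact hD.gi y hy y' hy' b b' e) hI hu a2
    (by
      rintro y hy e _ ⟨b, rfl⟩
      have c1 := h.gu y hy e b
      refine ⟨fun e' => ?_, fun y' hy' c2 c3 => ?_⟩
      · rw [e', ← a1, ← h1] at c1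
        exact hD.ne a2 hy _ _ ((S.t_inj c1).trans a1)
      · obtain ⟨-, -, b', c4, -⟩ := h.gd y' hy' c2
        rw [c3, ← c1] at c4
        exact c2 ((Prod.mk.inj (S.t_inj c4)).1 ▸ e))
    (by
      intro y hy c2 c3
      obtain ⟨-, -, b', c4, -⟩ := h.gd y hy c2
      rw [c3, ← a1, ← h1] at c4
      exact hD.ne a2 hy _ _ ((S.t_inj c4).trans a1))
    (fun j x p' => ∃ W S', Cf D H Lk S u m (j * Real.log 3) x W S' p' ∧ W0 ⊆ W ∧ #W ≤ j + 2 ∧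
      #(Usd D.Cn p) ≤ #(Usd D.Cn p') ∧ #(Usd D.Cn p') ≤ #(Usd D.Cn p) + j ∧
      (NW P D H Lk S (· = u) (ExT P D H p P.l) m → Dp P D S j S'))
    ⟨W0, S, by simpa using Cf.init hD h h1 h2 h3, subset_rfl, by omega, le_rfl, le_rfl,
      fun _ => Dp.init hP.θ0.le _⟩
    (by
      rintro j hj x p' c ⟨W, S', c1, c2, c3, c4, c5, c6⟩ hc d1 d2 d3 d4
      obtain ⟨b, e1, e2⟩ := gad_choice S' (x := (x, true)) (c1.ov.gu c hc d1)
        (fun b => (hD.ne (hD.gp c hc b).1 hc _ _).symm) hm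
      obtain ⟨S'', f1, -, f3⟩ := c1.step (m' := m) (c := Real.log 3) (c1.ov.gu c hc d1 b)
        (h.gu c hc d2 b) (hD.ne (hD.gp c hc b).1 hc _ _) e1 (hD.gp c hc b).1 (hD.gp c hc b).2.2
        (fun S'' ht => c1.ov.gad hD c1.pt hc d1 c1.nf d3 ht)
        ⟨fun _ => ⟨rfl, l3⟩, fun e => acc_le (S'.lam_pos' _) (S'.lam_pos' _) (S'.lam_pos' _)
          (S'.lam_pos' _) (by norm_num) (e2 e)⟩
      have g1 := card_usd hc d1 fun e : x = c => hD.pc x c1.pt (e ▸ hc)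
      have g2 : (j : ℝ) + 1 ≤ P.l := by exact_mod_cast hj
      refine ⟨_, ⟨b, rfl⟩, _, S'', f1.mono (by push_cast; linarith), c2.trans (subset_insert _ _),
        (card_insert_le _ _).trans (by omega), by omega, by omega, fun nw => (c6 nw).step hP
          (by omega) (f3 _ (nw _ _ _ _ _ rfl ⟨d4, by omega, by omega⟩ (f1.mono ?_)))⟩
      refine le_trans ?_ (om_mono hP (Nat.zero_le _))
      simp only [Pm.om, Nat.cast_zero, zero_mul, add_zero]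
      nlinarith)
  refine ⟨X, b1, b2 ▸ hP.r1m, fun x hx => ?_⟩
  obtain ⟨p', ⟨W, S', c1, c2, c3, c4, c5, c6⟩, c7, -⟩ := b3 x hx
  exact ⟨W, u, S', p', rfl, ⟨c7, c4, c5⟩, by simpa [Pm.om] using c1, c2, c3, c6, by omega⟩

end Pool.Agent.MP_d6d719_co.H91

end MrgPart0

-- ======== part 1: formerly Pool.Agent.MP_d6d719_co.h91.Ops
section MrgPart1

set_option autoImplicit false

open Finset
open scoped Classical

namespace Pool.Agent.MP_d6d719_co.H91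

variable {V : Type} [Fintype V] {P : Pm} {D : Dt V} {H Lk : V → V → Prop} {S S' : St V}
  {p p' : V → V} {Rt : V × Bool → Prop} {Ex : (V → V) → Prop} {m : ℝ}
  {W0 : Finset (Sym2 (V × Bool))} {w0 : ℕ}

/-- a walk that ends with a deep cut -/
def Win (P : Pm) (D : Dt V) (H Lk : V → V → Prop) (S : St V) (Rt : V × Bool → Prop)
    (Ex : (V → V) → Prop) : Prop :=
  ∃ u x W S' p', Rt u ∧ Ex p' ∧
    Cf D H Lk S u 0 (Real.log (S.lam u) + P.om P.J - Real.log (P.B1 / 2)) x W S' p'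

theorem win_of_not (hB : 0 < P.B1) (h : ¬ NW P D H Lk S Rt Ex 1) : Win P D H Lk S Rt Ex := by
  unfold NW at h
  push Not at h
  obtain ⟨u, x, W, S', p', a1, a2, a3, a4⟩ := h
  refine ⟨u, x, W, S', p', a1, a2, { a3 with ac := ?_ }⟩
  have b1 : (0 : ℝ) < P.B1 := by exact_mod_cast hB
  have b2 : (P.B1 : ℝ) ≤ S'.lam (x, true) := by exact_mod_cast a4
  have b3 := Real.log_le_log (x := P.B1 / 2) (y := S'.lam (x, true)) (by linarith) (by linarith)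
  linarith [a3.ac]

theorem hit_deep (hP : HP P D.Pt D.R H) (hD : WF D) (HL : ∀ x ∈ D.Pt, ∀ y ∈ D.Pt, H x y → Lk x y)
    {j : ℕ} {x y : V} {W : Finset (Sym2 (V × Bool))} (hj : j ≤ P.J)
    (h : KG P D H Lk S Rt Ex 1 W0 w0 j x W) (hy : y ∈ PO P D S \ Sm P S) (b1 : H x y) :
    Win P D H Lk S Rt Ex := by
  by_cases nw : NW P D H Lk S Rt Ex 1
  swap
  · exact win_of_not hP.B0 nw
  obtain ⟨u, S', p', a1, a2, a3, -, -, a6, -⟩ := h
  obtain ⟨c0, z, c1, c2, c3, -⟩ := mem_filter.1 (mem_sdiff.1 hy).1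
  have d1 := nw _ _ _ _ _ a1 a2 (a3.mono (om_mono hP hj))
  obtain ⟨d2, d3⟩ := (a6 nw).deep hP (by omega) hy
  have d4 := ((a6 nw) y hy).1.trans c3
  rw [c3] at d3
  have y1 := hD.rp (hD.ro c0)
  have z1 := hD.rp (hD.ro c1)
  have e1 : ∀ v, P.B1 ≤ S'.lam v → S'.fin v ≠ (x, true) := fun v hv e => by
    have := S'.lam_le v
    rw [e] at this
    omega
  have e2 := S'.lam_add (y := (y, true)) (by rw [d4]; exact fun e => c2 (Prod.mk.inj e).1.symm)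
  obtain ⟨S'', f1, -⟩ := a3.step (m' := 0) (c := Real.log (S.lam u) - Real.log (P.B1 / 2))
    (p'' := p') d4 c3 (fun e => c2 (Prod.mk.inj e).1) (e1 _ d2) z1 (hD.rf z c1)
    (fun S'' ht => a3.ov.low hD a3.pt y1 z1 a3.nf (hD.rf y c0) (hD.rf z c1) (HL _ a3.pt _ y1 b1)
      (HL _ y1 _ a3.pt (hP.sy _ _ b1)) ht)
    ⟨fun e => absurd e (e1 _ d3), fun _ => by
      rw [← e2, d4, Nat.cast_add]
      exact acc_deep (S'.lam_pos' _) (by exact_mod_cast hP.B0) (by exact_mod_cast d2)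
        (by exact_mod_cast d3)⟩
  exact ⟨u, z, _, S'', p', a1, a2, f1.mono (by linarith [om_mono hP hj])⟩

theorem op_cut (hP : HP P D.Pt D.R H) (hE : EX H D.Pt D.Cn P.Dg P.m) (hD : WF D)
    (HL : ∀ x ∈ D.Pt, ∀ y ∈ D.Pt, H x y → Lk x y) (h : OV D H Lk S p)
    (hI : Inv H D.Pt D.Cn P.Dg P.m p) (hu : #(Usd D.Cn p) ≤ P.m) {u : V × Bool} (h1 : S.t u = u)
    (h2 : u ∉ D.Fz) (hf : (#(D.R \ PO P D S) : ℝ) ≤ 4 * P.ε * Fintype.card V)
    (hT : P.ε * Fintype.card V ≤ #(PO P D S \ Sm P S)) :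
    Win P D H Lk S (· = u) (ExT P D H p P.l) := by
  obtain ⟨X, a1, a2, a3⟩ := tree_phase (W0 := {S.cl u}) hP hE hD (Or.inr rfl) h hI hu h1 h2
    (by simp) (by simp)
  rcases walk (T := PO P D S \ Sm P S) hP hD HL (Or.inr rfl) le_rfl
    (fun y hy => hD.ro (mem_filter.1 (mem_sdiff.1 hy).1).1)
    (by rwa [union_comm, sdiff_union_inter]) a1 a2 a3 with ⟨j, b1, x, W, y, b2, b3, b4, -⟩ | b
  · exact hit_deep hP hD HL b1.le b2 b3 b4
  · linarith [b.1]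

theorem Cf.join {u : V × Bool} {ω : ℝ} {x y : V} {W : Finset (Sym2 (V × Bool))}
    (h : Cf D H Lk S u m ω x W S' p') (hD : WF D) (h1 : S.t u = u) (h2 : u ∉ D.Fz)
    (a1 : y ∈ D.Pt) (a2 : (y, true) ∉ D.Fz) (a3 : S.t (y, true) = (y, true))
    (a4 : S.cl (y, true) ∉ W) (b1 : Lk x y) (b2 : Lk y x) :
    ∃ S'' : St V, OV D H Lk S'' p' ∧ #(S''.Un \ D.Fz) + 2 = #(S.Un \ D.Fz) := by
  have c1 := (h.ag _ a4).trans a3
  obtain ⟨S'', c2, c3, -⟩ := h.ov.link hD h.pt a1 h.nf a2 b1 b2 (fun e => a4 (e ▸ h.cx)) h.free c1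
    fun e => (h.same a4).2.2 (S'.fin_eq_comm h.free e)
  exact ⟨S'', c2, c3.trans (h.card h1 h2)⟩

theorem op_one (hP : HP P D.Pt D.R H) (hD : WF D) (HL : ∀ x ∈ D.Pt, ∀ y ∈ D.Pt, H x y → Lk x y)
    (h : OV D H Lk S p) {a : ℝ} (ha0 : 0 < a) (ha : a ≤ P.B)
    (hr : P.r1 + 2 * Fintype.card V / a ≤ #(S.Un \ D.Fz))
    (hf : 3 * #(univ \ D.Ro) + 4 * P.θ * Fintype.card V + 2 * Fintype.card V / a ≤
      4 * P.ε * Fintype.card V) :
    Win P D H Lk S (fun u => S.t u = u ∧ u ∉ D.Fz ∧ (S.lam u : ℝ) < a) (· = p) ∨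
      ∃ S' : St V, OV D H Lk S' p ∧ #(S'.Un \ D.Fz) + 2 = #(S.Un \ D.Fz) := by
  set A : Finset V := {x | S.t (x, true) = (x, true) ∧ (x, true) ∉ D.Fz ∧
    (S.lam (x, true) : ℝ) < a} with hA
  have l1 : (#{u ∈ S.Un | a ≤ S.lam u} : ℝ) ≤ 2 * Fintype.card V / a := by
    rw [le_div_iff₀ ha0, mul_comm]; exact S.card_long a
  have a1 : A ⊆ D.Pt := fun x hx => (h.free hD (mem_filter.1 hx).2.1 (mem_filter.1 hx).2.2.1).2
  have a2 : P.r1 ≤ #A := by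
    have b1 : #(S.Un \ D.Fz) ≤ #A + #{u ∈ S.Un | a ≤ S.lam u} := by
      refine le_trans (card_le_card fun u hu => ?_) ((card_union_le _ _).trans
        (add_le_add (card_image_le (f := fun x => (x, true))) le_rfl))
      rw [mem_sdiff, St.mem_Un] at hu
      have := (h.free hD hu.1 hu.2).1
      by_cases e : a ≤ S.lam u
      · exact mem_union_right _ (mem_filter.2 ⟨S.mem_Un.2 hu.1, e⟩)
      · exact mem_union_left _ (mem_image.2 ⟨u.1, mem_filter.2 ⟨mem_univ _, by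
          rw [← this]; exact ⟨hu.1, hu.2, not_le.1 e⟩⟩, this.symm⟩)
    have b2 : (#(S.Un \ D.Fz) : ℝ) ≤ #A + #{u ∈ S.Un | a ≤ S.lam u} := by exact_mod_cast b1
    rw [← Nat.cast_le (α := ℝ)]
    linarith
  have a3 : A ⊆ Sm P S := fun x hx => by
    obtain ⟨b1, -, b2⟩ := (mem_filter.1 hx).2
    rw [Sm, mem_filter, S.lam_fin_un b1, ← Nat.cast_lt (α := ℝ)]
    exact ⟨mem_univ _, b2.trans_le ha⟩
  rcases walk (Rt := fun u => S.t u = u ∧ u ∉ D.Fz ∧ (S.lam u : ℝ) < a) (Ex := (· = p)) (W0 := ∅)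
    (w0 := 1) (T := (PO P D S \ Sm P S) ∪ (D.Ro ∩ A)) hP hD HL (Or.inr rfl) (by omega)
    (union_subset (fun y hy => hD.ro (mem_filter.1 (mem_sdiff.1 hy).1).1)
      (inter_subset_left.trans hD.ro)) (by
      have b1 := card_PO hP.θ0.le hD h
      have b2 : #(D.R \ (PO P D S ∩ Sm P S ∪ (PO P D S \ Sm P S ∪ D.Ro ∩ A))) ≤
          #(D.R \ (PO P D S ∪ {y ∈ D.Ro | S.t (y, true) = (y, true)})) +
          #{u ∈ S.Un | a ≤ S.lam u} := by
        refine le_trans (card_le_card fun y hy => ?_) ((card_union_le _ _).trans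
          (add_le_add le_rfl (card_slot id Function.injective_id _)))
        have := hD.rf y
        simp only [mem_sdiff, mem_union, mem_inter, mem_filter, mem_univ, true_and, hA, id,
          St.mem_Un, ← not_lt] at hy ⊢
        tauto
      have b3 : (#(D.R \ (PO P D S ∩ Sm P S ∪ (PO P D S \ Sm P S ∪ D.Ro ∩ A))) : ℝ) ≤
          #(D.R \ (PO P D S ∪ {y ∈ D.Ro | S.t (y, true) = (y, true)})) +
          #{u ∈ S.Un | a ≤ S.lam u} := by exact_mod_cast b2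
      linarith) a1 a2 (fun x hx => by
      obtain ⟨b1, b2, b3⟩ := (mem_filter.1 hx).2
      exact ⟨{S.cl (x, true)}, (x, true), S, p, ⟨b1, b2, b3⟩, rfl,
        (Cf.init hD h b1 b2 (by simp)).mono (by
          simp only [Pm.om, Nat.cast_zero, zero_mul, add_zero]
          exact mul_nonneg (by positivity) (Real.log_nonneg (by norm_num))),
        empty_subset _, by simp, fun _ => Dp.init hP.θ0.le _, by omega⟩) with
    ⟨j, b1, x, W, y, b2, b3, b4, b5⟩ | ⟨-, X, b1, b2, b3⟩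
  · rcases mem_union.1 b3 with b3 | b3
    · exact Or.inl (hit_deep hP hD HL b1.le b2 b3 b4)
    · obtain ⟨u, S', _, c1, rfl, c2, -⟩ := b2
      have c3 := (mem_inter.1 b3).2
      exact Or.inr (c2.join hD c1.1 c1.2.1 (a1 c3) (mem_filter.1 c3).2.2.1 (mem_filter.1 c3).2.1
        (b5 (a3 c3)) (HL _ c2.pt _ (a1 c3) b4) (HL _ (a1 c3) _ c2.pt (hP.sy _ _ b4)))
  · choose! W hW using b3
    obtain ⟨x, hx, y, c3, b4, b5⟩ := junction hP.sy hP.e2 hP.fs hP.hε hP.hn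
      (fun y => S.cl (y, true)) a1 a2
      (fun c => le_trans (Nat.pow_le_pow_left (@card_sm _ _ P S _ a3 c (_)) 2) hP.hB) b1 b2 W
      (fun x hx => by
        obtain ⟨_, _, _, -, -, -, -, c, -⟩ := hW x hx
        omega)
    obtain ⟨u, S', _, c1, rfl, c2, -⟩ := hW x hx
    exact Or.inr (c2.join hD c1.1 c1.2.1 (a1 c3) (mem_filter.1 c3).2.2.1 (mem_filter.1 c3).2.1
      b5 (HL _ c2.pt _ (a1 c3) b4) (HL _ (a1 c3) _ c2.pt (hP.sy _ _ b4)))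

/-- a free end whose path is frozen -/
def Prot (D : Dt V) (S : St V) (w : V × Bool) : Prop := ∀ v, S.cl v = S.cl w → v ∈ D.Fz ∨ v = w

theorem Prot.keep {w u : V × Bool} {ω : ℝ} {x : V} {W : Finset (Sym2 (V × Bool))}
    (h : Prot D S w) (h0 : OV D H Lk S p) (h1 : Cf D H Lk S u m ω x W S' p') (h2 : S.t w = w)
    (h3 : w ≠ u) : S'.t w = w ∧ S'.lam w = S.lam w ∧ Prot D S' w := by
  have a1 : S'.t w = w := (h1.un w).2 (Or.inl ⟨h2, h3⟩)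
  have a2 : ∀ v, S.cl v = S.cl w → S'.t v = S.t v := fun v hv => by
    rcases h v hv with e | e
    · rw [h1.ov.fz v e, h0.fz v e]
    · rw [e, a1, h2]
  refine ⟨a1, (S.agree_cl S' (· = S.cl w) a2 rfl).1, fun v hv => h v ?_⟩
  exact S'.cl_closed (fun v => S.cl v = S.cl w) (fun v hv => by rwa [S.cl_fl])
    (fun v hv => by rwa [a2 v hv, S.cl_t]) rfl hv

/-- two walks lead to a state in which `x` and `y` may be linked -/
def JR (P : Pm) (D : Dt V) (H : V → V → Prop) (t : V × Bool → V × Bool) (p : V → V) (Λ : ℝ)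
    (x y : V) : Prop :=
  ∃ (S S' : St V) (p' : V → V), S.t = t ∧
    OV D H (fun a b => H a b ∨ t (a, true) = (b, true)) S' p' ∧ ExT P D H p (2 * P.l) p' ∧
    x ∈ D.Pt ∧ y ∈ D.Pt ∧ (x, true) ∉ D.Fz ∧ (y, true) ∉ D.Fz ∧ S'.t (x, true) = (x, true) ∧
    S'.t (y, true) = (y, true) ∧ S'.fin (y, true) ≠ (x, true) ∧
    #(S'.Un \ D.Fz) = #(S.Un \ D.Fz) ∧
    S.Pot - 4 * P.om P.J - 2 * Real.log Λ ≤ S'.Pot - 2 * Real.log (S'.lam (y, true))

/-- a link between a large set and the vertices that are ready for it -/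
def LS (P : Pm) (D : Dt V) (H Lk : V → V → Prop) (Λ : ℝ) : Prop :=
  ∀ t p, ∀ X ⊆ D.R, (#D.R : ℝ) - 5 * P.ε * Fintype.card V ≤ #X →
    (∀ x ∈ X, (#{y ∈ D.R | ¬ JR P D H t p Λ x y} : ℝ) ≤ 5 * P.ε * Fintype.card V) →
    ∃ x ∈ X, ∃ y, x ≠ y ∧ Lk x y ∧ Lk y x ∧ JR P D H t p Λ x y

theorem big_walk (hP : HP P D.Pt D.R H) (hE : EX H D.Pt D.Cn P.Dg P.m) (hD : WF D)
    (HL : ∀ x ∈ D.Pt, ∀ y ∈ D.Pt, H x y → Lk x y) (hm : m = 0 ∨ m = 1) (h : OV D H Lk S p)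
    (hI : Inv H D.Pt D.Cn P.Dg P.m p) (hu : #(Usd D.Cn p) ≤ P.m) {u : V × Bool} (h1 : S.t u = u)
    (h2 : u ∉ D.Fz) (h3 : S.cl u ∈ W0) (h4 : #W0 ≤ 2)
    (hf : (#(D.R \ (PO P D S ∩ Sm P S)) : ℝ) ≤ 4 * P.ε * Fintype.card V) :
    ∃ X ⊆ D.R, #D.R - 5 * P.ε * Fintype.card V ≤ #X ∧ ∀ x ∈ X, ∃ W S' p', ExT P D H p P.l p' ∧
      Cf D H Lk S u m (P.om P.J) x W S' p' ∧ #W ≤ P.l + P.J + 2 ∧ S'.lam (x, true) < P.B ∧
      S.cl (S'.fin (x, true)) ∉ W0 := by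
  obtain ⟨X, a1, a2, a3⟩ := tree_phase hP hE hD hm h hI hu h1 h2 h3 h4
  rcases walk (T := ∅) hP hD HL hm le_rfl (empty_subset _) (by rwa [union_empty]) a1 a2 a3 with
    ⟨j, -, x, W, y, -, b, -⟩ | ⟨-, X, b1, b2, b3⟩
  · simp at b
  refine ⟨X, b1, b2, fun x hx => ?_⟩
  obtain ⟨W, _, S', p', rfl, c1, c2, -, c3, -, c4⟩ := b3 x hx
  have : 1 ≤ P.J := Nat.pos_of_ne_zero fun e => by
    have := hP.hJ
    rw [e] at this
    linarith [hP.hγ, hP.hε, (by simp : P.γ * ((0 : ℕ) : ℝ) = 0)]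
  exact ⟨W, S', p', c1, c2, by omega, c4 this⟩

theorem card_lo (P : Pm) (D : Dt V) (S : St V) : (#(D.R \ (PO P D S ∩ Sm P S)) : ℝ) ≤
    #(D.R \ PO P D S) + #(PO P D S \ Sm P S) := by
  norm_cast
  refine le_trans (card_le_card fun y hy => ?_) (card_union_le _ _)
  simp only [mem_sdiff, mem_inter, mem_union] at hy ⊢
  tauto

theorem op_join (hP : HP P D.Pt D.R H) (hE : EX H D.Pt D.Cn P.Dg P.m) (hD : WF D)
    (HL : ∀ x ∈ D.Pt, ∀ y ∈ D.Pt, H x y → Lk x y) (h : OV D H Lk S p)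
    (hI : Inv H D.Pt D.Cn P.Dg P.m p) (hu : #(Usd D.Cn p) + P.l ≤ P.m) {u w : V × Bool}
    (h1 : S.t u = u) (h2 : u ∉ D.Fz) (h3 : S.t w = w) (h4 : w ∉ D.Fz) (huw : w ≠ u) {Λ : ℝ}
    (hΛ : P.B ≤ Λ ∨ (S.lam w ≤ Λ ∧ Prot D S w)) (hL : LS P D H Lk Λ)
    (hf : 2 * (#(S.Un \ D.Fz) + (3 * #(univ \ D.Ro) + 4 * P.θ * Fintype.card V)) +
      (P.l + P.J + 2) * (2 * P.B) ≤ 3 * P.ε * Fintype.card V)
    (hT : (#(PO P D S \ Sm P S) : ℝ) ≤ P.ε * Fintype.card V) :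
    ∃ S' p', OV D H Lk S' p' ∧ ExT P D H p (2 * P.l) p' ∧
      #(S'.Un \ D.Fz) + 2 = #(S.Un \ D.Fz) ∧ S.Pot - 4 * P.om P.J - 2 * Real.log Λ ≤ S'.Pot := by
  set L0 : V → V → Prop := fun a b => H a b ∨ S.t (a, true) = (b, true) with hL0
  have h0 : OV D H L0 S p := { h with pp := fun _ _ _ _ _ _ e => Or.inr e }
  have HL0 : ∀ x ∈ D.Pt, ∀ y ∈ D.Pt, H x y → L0 x y := fun _ _ _ _ e => Or.inl e
  have z1 := card_PO' hP.θ0.le hD h
  have z2 : (0 : ℝ) ≤ (P.l + P.J + 2) * (2 * P.B) := by positivity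
  have z3 : (0 : ℝ) ≤ #(D.R \ PO P D S) := by positivity
  obtain ⟨X, a1, a2, a3⟩ := big_walk (W0 := {S.cl u}) hP hE hD HL0 (Or.inl rfl) h0 hI (by omega)
    h1 h2 (by simp) (by simp) (by linarith [card_lo P D S])
  obtain ⟨x, -, y, b1, b2, b3, S1, S', p', c1, c2, c3, c4, c5, c6, c7, c8, c9, c10, c11, c12⟩ :=
    hL S.t p X a1 a2 fun x hx => by
      obtain ⟨W, S1, p1, b1, b2, b3, -⟩ := a3 x hx
      have c1 : S1.t w = w := (b2.un w).2 (Or.inl ⟨h3, huw⟩)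
      have c2 := card_PO' hP.θ0.le hD b2.ov
      rw [b2.card h1 h2] at c2
      have c3 : #(PO P D S1 \ Sm P S1) ≤ #(D.R \ PO P D S) + #(PO P D S \ Sm P S) +
          #W * (2 * P.B) := by
        refine le_trans (card_le_card fun y hy => ?_) ((card_union_le _ _).trans (add_le_add
          (card_union_le _ _) (card_biUnion_le_card_mul W
            (fun c => {y ∈ Sm P S | S.cl (y, true) = c}) _ fun c _ => card_sm subset_rfl c)))
        have d1 := hD.ro (mem_filter.1 (mem_sdiff.1 hy).1).1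
        have d2 := (mem_sdiff.1 hy).2
        simp only [mem_union, mem_sdiff, mem_biUnion, mem_filter]
        by_cases d3 : y ∈ Sm P S
        · refine Or.inr ⟨_, by_contra fun d4 => d2 ?_, d3, rfl⟩
          rw [Sm, mem_filter, (b2.same d4).2.1,
            (b2.same (v := S.fin (y, true)) (by rwa [S.cl_fin])).1]
          exact mem_filter.1 d3
        · tauto
      have c4 : (#(PO P D S1 \ Sm P S1) : ℝ) ≤ #(D.R \ PO P D S) + #(PO P D S \ Sm P S) +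
          (P.l + P.J + 2) * (2 * P.B) := by
        exact_mod_cast c3.trans (add_le_add le_rfl (Nat.mul_le_mul_right _ b3))
      obtain ⟨m, hm, hm'⟩ : ∃ m : ℝ, (m = 0 ∨ m = 1) ∧ (m = 0 → P.B ≤ Λ) ∧
          (m = 1 → S1.lam w ≤ Λ) := by
        rcases hΛ with e | e
        · exact ⟨0, Or.inl rfl, fun _ => e, by simp⟩
        · exact ⟨1, Or.inr rfl, by simp, fun _ => by rw [(e.2.keep h0 b2 h3 huw).2.1]; exact e.1⟩
      obtain ⟨Y, d1, d2, d3⟩ := big_walk (W0 := {S1.cl w, S1.cl (x, true)}) hP hE hD HL0 hm b2.ov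
        b1.1 (by have := b1.2.2; omega) c1 h4 (by simp) card_le_two
        (by linarith [card_lo P D S1])
      have d4 : #{y ∈ D.R | ¬ JR P D H S.t p Λ x y} ≤ #(D.R \ Y) := card_le_card fun y hy => by
        refine mem_sdiff.2 ⟨(mem_filter.1 hy).1, fun hY => (mem_filter.1 hy).2 ?_⟩
        obtain ⟨W', S2, p2, e1, e2, -, e3, e4⟩ := d3 y hY
        refine ⟨S, S2, p2, rfl, e2.ov, ⟨e1.1, b1.2.1.trans e1.2.1, by
          have := b1.2.2; have := e1.2.2; omega⟩, b2.pt, e2.pt, b2.nf, e2.nf,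
          (e2.un _).2 (Or.inl ⟨b2.free, fun e => huw (e.symm.trans (b2.nx (e ▸ h3)))⟩), e2.free,
          fun e => e4 (by simp [e]), (e2.card c1 h4).trans (b2.card h1 h2), ?_⟩
        have f1 := b2.ac
        have f2 := e2.ac
        rcases hm with rfl | rfl
        · have := Real.log_le_log (S2.lam_pos' (y, true))
            ((by exact_mod_cast e3.le : (S2.lam (y, true) : ℝ) ≤ P.B).trans (hm'.1 rfl))
          linarith
        · have := Real.log_le_log (S1.lam_pos' w) (hm'.2 rfl)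
          linarith
      have d5 : (#{y ∈ D.R | ¬ JR P D H S.t p Λ x y} : ℝ) ≤ #(D.R \ Y) := by exact_mod_cast d4
      rw [card_sdiff_of_subset d1, Nat.cast_sub (card_le_card d1)] at d5
      linarith
  have e1 : OV D H Lk S' p' := ⟨c2.fz, fun a ha b hb d1 d2 d3 =>
    (c2.pp a ha b hb d1 d2 d3).elim (HL a ha b hb) (h.pp a ha b hb d1 d2), c2.gu, c2.gd⟩
  obtain ⟨S'', e2, e3, e4⟩ := e1.link hD c4 c5 c6 c7 b2 b3 b1 c8 c9
    fun e => c10 (S'.fin_eq_comm c8 e)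
  have e5 : S1.Un = S.Un := by rw [St.Un, St.Un, c1]
  have e6 : S1.Pot = S.Pot := by
    rw [St.Pot, St.Pot, e5]
    exact sum_congr rfl fun v _ => by
      rw [(S.agree_cl S1 (fun _ => True) (fun _ _ => by rw [c1]) trivial).1]
  exact ⟨S'', p', e2, c3, by rw [e3, c11, e5], by linarith⟩

end Pool.Agent.MP_d6d719_co.H91

end MrgPart1

-- ======== part 2: formerly Pool.Agent.MP_d6d719_co.h91.Stages
section MrgPart2

set_option autoImplicit false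

open Finset
open scoped Classical

namespace Pool.Agent.MP_d6d719_co.H91

theorem near_max {α : Type} (Q : α → Prop) (f : α → ℝ) (c : ℝ) (hc : ∀ x, Q x → f x ≤ c) {x0 : α}
    (h0 : Q x0) : ∃ x, Q x ∧ f x0 ≤ f x ∧ ∀ y, Q y → f y < f x + 1 := by
  have hb : BddAbove (f '' {x | Q x}) := ⟨c, by rintro _ ⟨x, hx, rfl⟩; exact hc x hx⟩
  obtain ⟨_, ⟨x, hx, rfl⟩, h1⟩ := exists_lt_of_lt_csSup (s := f '' {x | Q x}) ⟨_, x0, h0, rfl⟩
    (sub_one_lt (sSup (f '' {x | Q x})))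
  have h2 : ∀ y, Q y → f y < f x + 1 := fun y hy => by linarith [le_csSup hb ⟨y, hy, rfl⟩]
  rcases le_total (f x0) (f x) with h | h
  · exact ⟨x, hx, h, h2⟩
  · exact ⟨x0, h0, le_rfl, fun y hy => by linarith [h2 y hy]⟩

variable {V : Type} [Fintype V]

/-- the static data with a given frozen set -/
def DF (D : Dt V) (S0 : St V) (Ro : Finset V) (Fz : Finset (V × Bool)) : Dt V :=
  { D with Ro := Ro, t0 := S0.t, Fz := Fz }

/-- everything the outer phase needs -/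
structure Env (P : Pm) (D : Dt V) (H Lk : V → V → Prop) (S0 : St V) (Ro : Finset V)
    (Fz0 Fz1 : Finset (V × Bool)) (k L N : ℕ) (Lg a M : ℝ) : Prop where
  bo : BO D H S0 Ro Fz0 Fz1 k L N
  hp : HP P D.Pt D.R H
  ex : EX H D.Pt D.Cn P.Dg P.m
  hl : ∀ x ∈ D.Pt, ∀ y ∈ D.Pt, H x y → Lk x y
  ls : ∀ Fz, LS P (DF D S0 Ro Fz) H Lk P.B ∧ LS P (DF D S0 Ro Fz) H Lk L
  a0 : 0 < a
  aB : a ≤ P.B
  M1 : 1 ≤ M
  nf : 2 * (P.r1 + 2 * Fintype.card V / a + 2 * k + 2 +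
    (3 * #(univ \ Ro) + 4 * P.θ * Fintype.card V)) + (P.l + P.J + 2) * (2 * P.B) ≤
    3 * P.ε * Fintype.card V
  nL : 1000 ≤ Lg
  nn : Real.log (Fintype.card V) ≤ Lg
  no : P.om P.J + P.l ≤ Lg / 20
  nB : Real.log P.B ≤ Lg / 2
  nB1 : 49 / 100 * Lg ≤ Real.log (P.B1 / 2)
  nL' : Real.log L ≤ Lg / 100
  na : Real.log a ≤ 26 / 100 * Lg
  nM : Real.log M ≤ Lg / 10
  nk : 36 * (2 * Fintype.card V / a) + Fintype.card V / M < 2 * k
  nm : (4 * (P.r1 + 2 * Fintype.card V / a) + 4 * k) * Lg + 4 + 3 * P.l ≤ P.m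

/-- valid states of the outer phase -/
structure Val (P : Pm) (D : Dt V) (H Lk : V → V → Prop) (S0 : St V) (Ro : Finset V)
    (Fz0 Fz1 Fz : Finset (V × Bool)) (S : St V) (p : V → V) : Prop where
  s1 : Fz1 ⊆ Fz
  s0 : Fz ⊆ Fz0
  cf : ∀ u ∈ Fz, S0.t u ∈ Fz
  ov : OV (DF D S0 Ro Fz) H Lk S p
  iv : Inv H D.Pt D.Cn P.Dg P.m p

variable {P : Pm} {D : Dt V} {H Lk : V → V → Prop} {S0 : St V} {Ro : Finset V}
  {Fz0 Fz1 Fz : Finset (V × Bool)} {k L N : ℕ} {Lg a M : ℝ} {S : St V} {p : V → V}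

omit [Fintype V] in
theorem Val.wf (h : Val P D H Lk S0 Ro Fz0 Fz1 Fz S p) (E : BO D H S0 Ro Fz0 Fz1 k L N) :
    WF (DF D S0 Ro Fz) :=
  { E.wf with
    gp := fun y hy b => ⟨(E.wf.gp y hy b).1, fun e => (E.wf.gp y hy b).2.1 (h.s0 e),
      fun e => (E.wf.gp y hy b).2.2 (h.s0 e)⟩
    rf := fun x hx e => E.wf.rf x hx (h.s0 e)
    nf := fun u hu => by
      by_cases e : u ∈ Fz0
      · have := E.hd u (mem_sdiff.2 ⟨e, fun e => hu (h.s1 e)⟩)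
        exact Or.inl ⟨this.1, this.2.1⟩
      · exact E.wf.nf u e
    cf := h.cf }

theorem Val.even (h : Val P D H Lk S0 Ro Fz0 Fz1 Fz S p) (E : BO D H S0 Ro Fz0 Fz1 k L N) :
    Even #(S.Un \ Fz) := by
  have a1 : Even #S.Un :=
    S.even_card (fun u hu => S.mem_Un.1 hu) fun u _ => S.mem_Un.2 (S.fin_un u)
  have a2 : Even #(S.Un ∩ Fz) := by
    refine S0.even_card (fun u hu => ?_) fun u hu => ?_
    · exact (h.ov.fz u (mem_inter.1 hu).2).symm.trans (S.mem_Un.1 (mem_inter.1 hu).1)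
    · have b1 := (h.ov.fz u (mem_inter.1 hu).2).symm.trans (S.mem_Un.1 (mem_inter.1 hu).1)
      have b2 := E.dm u (h.s0 (mem_inter.1 hu).2) b1 _ (S0.cl_fin u)
      have b3 : S0.fin u ∈ Fz := by_contra fun e =>
        (E.hd _ (mem_sdiff.2 ⟨b2, fun e' => e (h.s1 e')⟩)).2.2.1 (S0.fin_un u)
      exact mem_inter.2 ⟨S.mem_Un.2 ((h.ov.fz _ b3).trans (S0.fin_un u)), b3⟩
  rw [← card_sdiff_add_card_inter S.Un Fz] at a1
  exact (Nat.even_add.1 a1).2 a2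

theorem Val.pot (h : Val P D H Lk S0 Ro Fz0 Fz1 Fz S p) (E : BO D H S0 Ro Fz0 Fz1 k L N)
    {S2 : St V} {p2 : V → V} (h2 : Val P D H Lk S0 Ro Fz0 Fz1 Fz0 S2 p2) (hM : 1 ≤ M) :
    S.Pot ≤ S2.Pot + (#(S.Un \ Fz) + #(Fz0 \ Fz)) * Real.log M + 2 * Fintype.card V / M := by
  set Z : Finset (V × Bool) := {u | S0.t u = u ∧ ∀ v, S0.cl v = S0.cl u → v ∈ Fz} with hZ
  have a1 : #(S.Un \ Z) ≤ #(S.Un \ Fz) + #(Fz0 \ Fz) := by
    refine le_trans (card_le_card fun u hu => ?_) ((card_union_le _ _).trans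
      (add_le_add le_rfl (card_image_le (f := S0.fin))))
    simp only [mem_sdiff, St.mem_Un, hZ, mem_filter, mem_univ, true_and, not_and, not_forall,
      mem_union, mem_image] at hu ⊢
    by_cases e : u ∈ Fz
    · have b1 := (h.ov.fz u e).symm.trans hu.1
      obtain ⟨v, b2, b3⟩ := hu.2 b1
      have b4 := E.dm u (h.s0 e) b1 v b2
      rcases S0.un_of_cl b1 b2.symm with c | c
      · exact Or.inr ⟨v, ⟨b4, b3⟩, c.symm⟩
      · refine Or.inr ⟨S0.t v, ⟨E.wf.cf v b4, fun e' => b3 (S0.inv v ▸ h.cf _ e')⟩, ?_⟩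
        rw [c, (S0.fl_ma (E.hd v (mem_sdiff.2 ⟨b4, fun e' => b3 (h.s1 e')⟩)).2.2.1).2]
    · exact Or.inl ⟨hu.1, e⟩
  have a2 := S.pot_diff S2 (Z := Z)
    (fun u hu => S.mem_Un.2 ((h.ov.fz u ((mem_filter.1 hu).2.2 u rfl)).trans (mem_filter.1 hu).2.1))
    (fun u hu => S2.mem_Un.2
      ((h2.ov.fz u (h.s0 ((mem_filter.1 hu).2.2 u rfl))).trans (mem_filter.1 hu).2.1))
    (fun u hu => by
      have b := (mem_filter.1 hu).2.2
      rw [(S0.agree_cl S (· = S0.cl u) (fun v hv => h.ov.fz v (b v hv)) rfl).1,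
        (S0.agree_cl S2 (· = S0.cl u) (fun v hv => h2.ov.fz v (h.s0 (b v hv))) rfl).1])
    (zero_lt_one.trans_le hM)
  have a3 : (#(S.Un \ Z) : ℝ) ≤ #(S.Un \ Fz) + #(Fz0 \ Fz) := by exact_mod_cast a1
  linarith [mul_le_mul_of_nonneg_right a3 (Real.log_nonneg hM)]

theorem Val.op (h : Val P D H Lk S0 Ro Fz0 Fz1 Fz S p) (E : BO D H S0 Ro Fz0 Fz1 k L N)
    {q : V × Bool} (hq : q ∈ Fz \ Fz1) : ∃ Fz' S', Val P D H Lk S0 Ro Fz0 Fz1 Fz' S' p ∧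
      #(S'.Un \ Fz') = #(S.Un \ Fz) + 2 ∧ #(Fz0 \ Fz') = #(Fz0 \ Fz) + 2 ∧ S.Pot - 2 ≤ S'.Pot ∧
      PO P (DF D S0 Ro Fz) S \ Sm P S ⊆ PO P (DF D S0 Ro Fz') S' \ Sm P S' ∧ ∃ w, q ≠ w ∧ S'.t q = q ∧ S'.t w = w ∧ q ∉ Fz' ∧ w ∉ Fz' ∧ S'.lam q ≤ L ∧ S'.lam w ≤ L ∧
        Prot (DF D S0 Ro Fz') S' w := by
  obtain ⟨q1, q2⟩ := mem_sdiff.1 hq
  obtain ⟨a1, a2, a3, a4, a5, a6⟩ := E.hd q (mem_sdiff.2 ⟨h.s0 q1, q2⟩)
  have q3 := h.cf q q1
  obtain ⟨b1, b2, -, -, b5, -⟩ := E.hd _ (mem_sdiff.2 ⟨h.s0 q3, a4⟩)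
  have c1 : S.t q = S0.t q := h.ov.fz q q1
  have c2 : S.t q ≠ q := c1 ▸ a3
  have c3 : ∀ v, S0.cl v = S0.cl q → S.t v = S0.t v := fun v hv => h.ov.fz v (by
    rcases a6 v hv with e | e | e
    exacts [h.s1 e, e ▸ q1, e ▸ q3])
  have c4 := S0.agree_cl S (· = S0.cl q) c3 rfl
  have c5 := S0.agree_cl S (· = S0.cl q) c3 (S0.cl_t q)
  obtain ⟨d1, d2, d3, -⟩ := S.cut_y c2
  have ht : ∀ u, (S.cut q c2).t u = if u = q ∨ u = S0.t q then u else S.t u := fun u => by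
    rw [← c1]; rfl
  have wf := h.wf E
  refine ⟨(Fz.erase q).erase (S0.t q), S.cut q c2, ⟨fun u hu => ?_,
    (erase_subset _ _).trans ((erase_subset _ _).trans h.s0), fun u hu => ?_,
    h.ov.trans (fun u hu => ?_) (fun y hy b => ?_) (fun x _ y _ e1 e2 e3 => ?_), h.iv⟩, ?_, ?_, ?_,
    fun y hy => ?_, S0.t q, a3.symm, by simp [ht], by simp [ht], by simp, by simp, by rw [d1, c4.1]; exact a5,
    by rw [← c1, d2, c1, c5.1]; exact b5, fun v hv => ?_⟩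
  · exact mem_erase.2 ⟨ne_of_mem_of_not_mem hu a4, mem_erase.2 ⟨ne_of_mem_of_not_mem hu q2, h.s1 hu⟩⟩
  · simp only [mem_erase] at hu ⊢
    exact ⟨fun e => hu.2.1 (S0.t_inj e), fun e => hu.1 (by rw [← e, S0.inv]), h.cf u hu.2.2⟩
  · simp only [mem_erase] at hu
    rw [ht, if_neg (by tauto)]
    exact h.ov.fz u hu.2.2
  · rw [ht, if_neg]
    rintro (e | e)
    · exact wf.pc _ a2 (e ▸ hy)
    · exact wf.pc _ b2 (e ▸ hy)
  · rw [ht] at e3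
    split_ifs at e3 with e4
    · exact absurd (Prod.mk.inj e3).1 e2
    · refine Or.inr ⟨fun e5 => e1 ?_, e3⟩
      simp only [mem_erase]
      tauto
  · rw [← one_add_one_eq_two, ← add_assoc,
      ← card_insert_of_notMem (a := q) (s := S.Un \ Fz) (by simp [q1]),
      ← card_insert_of_notMem (a := S0.t q) (by simp [q3, a3])]
    congr 1
    ext u
    simp only [mem_sdiff, St.mem_Un, ht, mem_erase, mem_insert]
    by_cases e1 : u = q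
    · simp [e1]
    by_cases e2 : u = S0.t q
    · simp [e2]
    simp [e1, e2]
  · rw [← one_add_one_eq_two, ← add_assoc,
      ← card_insert_of_notMem (a := q) (s := Fz0 \ Fz) (by simp [q1]),
      ← card_insert_of_notMem (a := S0.t q) (by simp [q3, a3])]
    congr 1
    ext u
    simp only [mem_sdiff, mem_erase, mem_insert]
    by_cases e1 : u = q
    · simp [e1, h.s0 q1]
    by_cases e2 : u = S0.t q
    · simp [e2, h.s0 q3]
    simp [e1, e2]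
  · rw [S.pot_cut, ← S.lam_add c2, Nat.cast_add]
    have e1 : (1 : ℝ) ≤ S.lam q := by exact_mod_cast S.lam_pos q
    have e2 : (1 : ℝ) ≤ S.lam (S.t q) := by exact_mod_cast S.lam_pos _
    have e3 := Real.log_le_log (x := S.lam q + S.lam (S.t q)) (y := 2 * (S.lam q * S.lam (S.t q)))
      (by linarith) (by nlinarith)
    rw [Real.log_mul (by norm_num) (by positivity), Real.log_mul (by positivity) (by positivity)]
      at e3
    linarith [Real.log_two_lt_d9]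
  · have e1 : S.cl (y, true) ≠ S.cl q := fun e => by
      have e2 := E.wf.rf y (mem_filter.1 (mem_sdiff.1 hy).1).1
      rcases a6 _ (S.cl_closed (fun v => S0.cl v = S0.cl q) (fun v hv => by rwa [S0.cl_fl])
        (fun v hv => by rwa [c3 v hv, S0.cl_t]) rfl e) with e3 | e3 | e3
      exacts [e2 (E.s1 e3), e2 (e3 ▸ h.s0 q1), e2 (e3 ▸ h.s0 q3)]
    have e2 : ∀ v, S.cl v ≠ S.cl q → (S.cut q c2).t v = S.t v := fun v hv => by
      rw [ht, if_neg]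
      rintro (e | e)
      · exact hv (by rw [e])
      · exact hv (by rw [e, ← c1, S.cl_t])
    have e3 := fun v hv => S.agree_cl (S.cut q c2) (· ≠ S.cl q) e2 (u := v) hv
    simp only [PO, Sm, mem_sdiff, mem_filter, mem_univ, true_and] at hy ⊢
    obtain ⟨⟨f1, z, f2, f3, f4, f5⟩, f6⟩ := hy
    rw [(e3 _ e1).1, (e3 _ e1).2, (e3 _ (by rwa [S.cl_fin])).1, e2 _ e1]
    exact ⟨⟨f1, z, f2, f3, f4, by rwa [(e3 _ (by rwa [← f4, S.cl_t])).1]⟩, f6⟩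
  · have e1 := (S.cut q c2).cl_closed (fun v => S0.cl v = S0.cl q) (fun v hv => by rwa [S0.cl_fl])
      (fun v hv => by
        rw [ht]
        split_ifs
        · exact hv
        · rwa [c3 v hv, S0.cl_t]) (S0.cl_t q) hv
    rcases a6 v e1 with e | e | e
    · exact Or.inl (mem_erase.2 ⟨ne_of_mem_of_not_mem e a4,
        mem_erase.2 ⟨ne_of_mem_of_not_mem e q2, h.s1 e⟩⟩)
    · subst e
      rcases (S.cut v c2).un_of_cl (by simp [ht]) hv with e | e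
      · rw [← c1, d3] at e
        exact absurd (e ▸ S.fin_un _) c2
      · rw [((S.cut v c2).fl_un (by simp [ht])).2] at e
        exact absurd e.symm a3
    · exact Or.inr e

/-- the weight that is maximised -/
noncomputable def Wt (D : Dt V) (Fz0 : Finset (V × Bool)) (Lg : ℝ) (Fz : Finset (V × Bool))
    (S : St V) (p : V → V) : ℝ :=
  S.Pot - 62 / 100 * Lg * #(S.Un \ Fz) - #(Usd D.Cn p) - 22 / 100 * Lg * #(Fz0 \ Fz)

theorem Env.om0 (E : Env P D H Lk S0 Ro Fz0 Fz1 k L N Lg a M) : 0 ≤ P.om P.J :=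
  le_trans (by
    simp only [Pm.om, Nat.cast_zero, zero_mul, add_zero]
    exact mul_nonneg (by positivity) (Real.log_nonneg (by norm_num))) (om_mono E.hp (Nat.zero_le _))

theorem Val.cut (h : Val P D H Lk S0 Ro Fz0 Fz1 Fz S p)
    (E : Env P D H Lk S0 Ro Fz0 Fz1 k L N Lg a M) (hu : #(Usd D.Cn p) ≤ P.m)
    (hr : (#(S.Un \ Fz) : ℝ) ≤ P.r1 + 2 * Fintype.card V / a + 2 * k + 2)
    (hT : P.ε * Fintype.card V ≤ #(PO P (DF D S0 Ro Fz) S \ Sm P S)) {u : V × Bool}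
    (h1 : S.t u = u) (h2 : u ∉ Fz) {c : ℝ} (h3 : Real.log (S.lam u) ≤ c) :
    ∃ S' p', Val P D H Lk S0 Ro Fz0 Fz1 Fz S' p' ∧ #(S'.Un \ Fz) = #(S.Un \ Fz) ∧
      #(Usd D.Cn p) ≤ #(Usd D.Cn p') ∧ #(Usd D.Cn p') ≤ #(Usd D.Cn p) + P.l ∧
      Wt D Fz0 Lg Fz S p + 88 / 100 * Lg - 2 * c ≤ Wt D Fz0 Lg Fz S' p' ∧
      ∀ w, w ≠ u → S.t w = w → Prot (DF D S0 Ro Fz) S w →
        S'.t w = w ∧ S'.lam w = S.lam w ∧ Prot (DF D S0 Ro Fz) S' w := by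
  have z1 := card_PO' E.hp.θ0.le (h.wf E.bo) h.ov
  have z2 : (0 : ℝ) ≤ (P.l + P.J + 2) * (2 * P.B) := by positivity
  have z3 : 0 ≤ P.ε * Fintype.card V := mul_nonneg E.hp.hε.le (by positivity)
  obtain ⟨_, x, W, S', p', rfl, a1, a2⟩ := op_cut (D := DF D S0 Ro Fz) E.hp E.ex (h.wf E.bo) E.hl
    h.ov h.iv hu h1 h2 (by linarith [E.nf, show (DF D S0 Ro Fz).Fz = Fz from rfl,
      (show ((#(S.Un \ (DF D S0 Ro Fz).Fz) : ℕ) : ℝ) = #(S.Un \ Fz) from rfl),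
      (show ((#(univ \ (DF D S0 Ro Fz).Ro) : ℕ) : ℝ) = #(univ \ Ro) from rfl)]) hT
  have a3 : #(S'.Un \ Fz) = #(S.Un \ Fz) := a2.card h1 h2
  have a4 : (#(Usd D.Cn p') : ℝ) ≤ #(Usd D.Cn p) + P.l := by exact_mod_cast a1.2.2
  refine ⟨S', p', { h with ov := a2.ov, iv := a1.1 }, a3, a1.2.1, a1.2.2, ?_,
    fun w b1 b2 b3 => b3.keep h.ov a2 b2 b1⟩
  have a5 : (0 : ℝ) ≤ P.l := by positivity
  rw [Wt, Wt, a3]
  linarith [a2.ac, E.no, E.nB1]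

theorem Val.join (h : Val P D H Lk S0 Ro Fz0 Fz1 Fz S p)
    (E : Env P D H Lk S0 Ro Fz0 Fz1 k L N Lg a M) (hu : #(Usd D.Cn p) + P.l ≤ P.m)
    (hr : (#(S.Un \ Fz) : ℝ) ≤ P.r1 + 2 * Fintype.card V / a + 2 * k + 2)
    (hT : (#(PO P (DF D S0 Ro Fz) S \ Sm P S) : ℝ) ≤ P.ε * Fintype.card V) {w : V × Bool}
    (h1 : S.t w = w) (h2 : w ∉ Fz) {c : ℝ}
    (h3 : c = Lg / 2 ∨ (c = Lg / 100 ∧ S.lam w ≤ L ∧ Prot (DF D S0 Ro Fz) S w)) :
    ∃ S' p', Val P D H Lk S0 Ro Fz0 Fz1 Fz S' p' ∧ #(S'.Un \ Fz) + 2 = #(S.Un \ Fz) ∧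
      #(Usd D.Cn p) ≤ #(Usd D.Cn p') ∧
      Wt D Fz0 Lg Fz S p + 104 / 100 * Lg - 2 * c ≤ Wt D Fz0 Lg Fz S' p' := by
  obtain ⟨u, hu1, hu2⟩ := exists_mem_ne (s := S.Un \ Fz) (by
    have a1 := h.even E.bo
    have a2 := card_pos.2 ⟨w, mem_sdiff.2 ⟨S.mem_Un.2 h1, h2⟩⟩
    obtain ⟨j, hj⟩ := a1
    omega) w
  obtain ⟨Λ, b1, b2, b3⟩ : ∃ Λ : ℝ, (P.B ≤ Λ ∨ (S.lam w ≤ Λ ∧ Prot (DF D S0 Ro Fz) S w)) ∧
      LS P (DF D S0 Ro Fz) H Lk Λ ∧ Real.log Λ ≤ c := by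
    rcases h3 with rfl | ⟨rfl, b1, b2⟩
    · exact ⟨P.B, Or.inl le_rfl, (E.ls Fz).1, E.nB⟩
    · exact ⟨L, Or.inr ⟨by exact_mod_cast b1, b2⟩, (E.ls Fz).2, E.nL'⟩
  obtain ⟨S', p', a1, a2, a3, a4⟩ := op_join (D := DF D S0 Ro Fz) E.hp E.ex (h.wf E.bo) E.hl
    h.ov h.iv hu (S.mem_Un.1 (mem_sdiff.1 hu1).1) (mem_sdiff.1 hu1).2 h1 h2 hu2.symm b1 b2
    (by linarith [E.nf,
      (show ((#(S.Un \ (DF D S0 Ro Fz).Fz) : ℕ) : ℝ) = #(S.Un \ Fz) from rfl),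
      (show ((#(univ \ (DF D S0 Ro Fz).Ro) : ℕ) : ℝ) = #(univ \ Ro) from rfl)]) hT
  have a5 : (#(Usd D.Cn p') : ℝ) ≤ #(Usd D.Cn p) + 2 * P.l := by exact_mod_cast a2.2.2
  have a6 : (#(S.Un \ Fz) : ℝ) = #(S'.Un \ Fz) + 2 := by exact_mod_cast a3.symm
  refine ⟨S', p', { h with ov := a1, iv := a2.1 }, a3, a2.2.1, ?_⟩
  have a7 : (0 : ℝ) ≤ P.l := by positivity
  rw [Wt, Wt, a6]
  linarith [E.no]

theorem stage1 (E : Env P D H Lk S0 Ro Fz0 Fz1 k L N Lg a M) :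
    ∃ S, Val P D H Lk S0 Ro Fz0 Fz1 Fz0 S id ∧
      (#(S.Un \ Fz0) : ℝ) ≤ P.r1 + 2 * Fintype.card V / a := by
  have h0 : ∃ r, ∃ S, Val P D H Lk S0 Ro Fz0 Fz1 Fz0 S id ∧ #(S.Un \ Fz0) = r :=
    ⟨_, S0, ⟨E.bo.s1, subset_rfl, E.bo.wf.cf, ⟨fun _ _ => rfl, fun x hx y hy e1 e2 e3 =>
      E.hl x hx y hy (E.bo.ov.pp x hx y hy (fun e => e1 (E.bo.s1 (E.bo.s0 e))) e2 e3), E.bo.ov.gu,
      E.bo.ov.gd⟩, E.ex.inv_id⟩, rfl⟩
  obtain ⟨S1, h1⟩ := Nat.find_spec h0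
  obtain ⟨S, ⟨a1, a2⟩, -, a3⟩ := near_max
    (fun S => Val P D H Lk S0 Ro Fz0 Fz1 Fz0 S id ∧ #(S.Un \ Fz0) = Nat.find h0) St.Pot _
    (fun S _ => S.pot_le) h1
  refine ⟨S, a1, le_of_not_ge fun hr => ?_⟩
  have z2 : (0 : ℝ) ≤ (P.l + P.J + 2) * (2 * P.B) := by positivity
  have z3 : 0 ≤ P.ε * Fintype.card V := mul_nonneg E.hp.hε.le (by positivity)
  have z4 : (0 : ℝ) ≤ P.r1 + 2 * k := by positivity
  rcases op_one (D := DF D S0 Ro Fz0) E.hp (a1.wf E.bo) E.hl a1.ov E.a0 E.aB hr (by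
    linarith [E.nf, (show ((#(univ \ (DF D S0 Ro Fz0).Ro) : ℕ) : ℝ) = #(univ \ Ro) from rfl)]) with
    ⟨u, x, W, S', _, ⟨b1, b2, b3⟩, rfl, b4⟩ | ⟨S', b1, b2⟩
  · have c1 := a3 S' ⟨{ a1 with ov := b4.ov }, (b4.card b1 b2).trans a2⟩
    have c2 := Real.log_le_log (S.lam_pos' u) b3.le
    have c3 : (0 : ℝ) ≤ P.l := by positivity
    linarith [b4.ac, E.no, E.nB1, E.na, E.nL]
  · have c1 := Nat.find_min' h0 ⟨S', { a1 with ov := b1 }, rfl⟩
    have c2 : #(S'.Un \ Fz0) + 2 = #(S.Un \ Fz0) := b2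
    omega

theorem wt_le (hL : 0 ≤ Lg) : Wt D Fz0 Lg Fz S p ≤ 2 * Fintype.card V := by
  have a1 : 0 ≤ Lg * #(S.Un \ Fz) := by positivity
  have a2 : 0 ≤ Lg * #(Fz0 \ Fz) := by positivity
  have a3 : (0 : ℝ) ≤ #(Usd D.Cn p) := by positivity
  rw [Wt]
  linarith [S.pot_le]

theorem stage2 (E : Env P D H Lk S0 Ro Fz0 Fz1 k L N Lg a M) :
    ∃ S p, Val P D H Lk S0 Ro Fz0 Fz1 Fz0 S p ∧ (#(S.Un \ Fz0) : ℝ) ≤ 2 * Fintype.card V / a ∧
      (#(Usd D.Cn p) : ℝ) ≤ 2 * (P.r1 + 2 * Fintype.card V / a) * Lg + 2 := by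
  obtain ⟨S1, h1, h2⟩ := stage1 E
  have hL := E.nL
  have n0 : (0 : ℝ) < Fintype.card V := by exact_mod_cast E.hp.hn
  obtain ⟨⟨S, p⟩, ⟨a1, a2⟩, a3, a4⟩ := near_max (α := St V × (V → V))
    (fun x => Val P D H Lk S0 Ro Fz0 Fz1 Fz0 x.1 x.2 ∧ #(x.1.Un \ Fz0) ≤ #(S1.Un \ Fz0))
    (fun x => Wt D Fz0 Lg Fz0 x.1 x.2) _ (fun x _ => wt_le (by linarith)) (x0 := (S1, id))
    ⟨h1, le_rfl⟩
  simp only at a1 a2 a3 a4
  have b1 : (#(S.Un \ Fz0) : ℝ) ≤ #(S1.Un \ Fz0) := by exact_mod_cast a2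
  have b2 : (#(Usd D.Cn p) : ℝ) ≤ 2 * (P.r1 + 2 * Fintype.card V / a) * Lg + 2 := by
    have c1 := a1.pot E.bo h1 (M := Fintype.card V) (by exact_mod_cast E.hp.hn)
    have c2 : Usd D.Cn id = ∅ := by simp [Usd]
    rw [mul_div_assoc, div_self n0.ne'] at c1
    simp only [Wt, c2, sdiff_self, bot_eq_empty, card_empty, Nat.cast_zero, add_zero] at a3 c1
    have c3 := mul_le_mul_of_nonneg_left E.nn (Nat.cast_nonneg (α := ℝ) #(S.Un \ Fz0))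
    have c4 := mul_le_mul_of_nonneg_right h2 (by linarith : 0 ≤ Lg)
    have c5 : 0 ≤ Lg * #(S.Un \ Fz0) := by positivity
    nlinarith
  have b3 : #(Usd D.Cn p) + P.l ≤ P.m := by
    have c1 : 0 ≤ (P.r1 + 2 * Fintype.card V / a) * Lg := by have := E.a0; positivity
    have c2 : 0 ≤ k * Lg := by positivity
    have c3 : (0 : ℝ) ≤ P.l := by positivity
    rw [← Nat.cast_le (α := ℝ), Nat.cast_add]
    linarith [E.nm]
  have b4 : (0 : ℝ) ≤ k := by positivity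
  refine ⟨S, p, a1, le_of_not_gt fun hr => ?_, b2⟩
  obtain ⟨u, c1, c2⟩ := exists_mem_notMem_of_card_lt_card (s := {u ∈ S.Un | a ≤ S.lam u})
    (t := S.Un \ Fz0) (by
      rw [← Nat.cast_lt (α := ℝ)]
      refine lt_of_le_of_lt ?_ hr
      rw [le_div_iff₀ E.a0, mul_comm]
      exact S.card_long a)
  have c3 := S.mem_Un.1 (mem_sdiff.1 c1).1
  rcases le_total (P.ε * Fintype.card V) #(PO P (DF D S0 Ro Fz0) S \ Sm P S) with hT | hT
  · obtain ⟨S', p', d1, d2, -, -, d3, -⟩ := a1.cut E (by omega) (by linarith) hT c3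
      (mem_sdiff.1 c1).2 ((Real.log_le_log (S.lam_pos' u) (le_of_not_ge fun e => c2
        (mem_filter.2 ⟨(mem_sdiff.1 c1).1, e⟩))).trans E.na)
    linarith [a4 (S', p') ⟨d1, d2.trans_le a2⟩]
  · obtain ⟨S', p', d1, d2, -, d3⟩ := a1.join E b3 (by linarith) hT c3 (mem_sdiff.1 c1).2
      (Or.inl rfl)
    linarith [a4 (S', p') ⟨d1, by simp only; omega⟩]

theorem stage3 (E : Env P D H Lk S0 Ro Fz0 Fz1 k L N Lg a M) :
    ∃ Fz S p, Val P D H Lk S0 Ro Fz0 Fz1 Fz S p ∧ S.Un \ Fz = ∅ := by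
  obtain ⟨S2, p2, h1, h2, h3⟩ := stage2 E
  have hL := E.nL
  have n0 : (0 : ℝ) < Fintype.card V := by exact_mod_cast E.hp.hn
  obtain ⟨⟨Fz, S, p⟩, ⟨a1, a2, a2'⟩, a3, a4⟩ := near_max
    (α := Finset (V × Bool) × St V × (V → V))
    (fun x => Val P D H Lk S0 Ro Fz0 Fz1 x.1 x.2.1 x.2.2 ∧
      #(x.2.1.Un \ x.1) ≤ #(S2.Un \ Fz0) + #(Fz0 \ x.1) ∧ #(Usd D.Cn p2) ≤ #(Usd D.Cn x.2.2))
    (fun x => Wt D Fz0 Lg x.1 x.2.1 x.2.2) _ (fun x _ => wt_le (by linarith)) (x0 := (Fz0, S2, p2))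
    ⟨h1, Nat.le_add_right _ _, le_rfl⟩
  simp only at a1 a2 a2' a3 a4
  have b1 : (#(S.Un \ Fz) : ℝ) ≤ #(S2.Un \ Fz0) + #(Fz0 \ Fz) := by exact_mod_cast a2
  have b1' : (#(Usd D.Cn p2) : ℝ) ≤ #(Usd D.Cn p) := by exact_mod_cast a2'
  have z1 : 0 ≤ Lg * #(S.Un \ Fz) := by positivity
  have z2 : 0 ≤ Lg * #(Fz0 \ Fz) := by positivity
  have z3 := mul_le_mul_of_nonneg_left h2 (by linarith : 0 ≤ Lg)
  have z4 := mul_le_mul_of_nonneg_left b1 (by linarith : 0 ≤ Lg)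
  have z5 : (0 : ℝ) ≤ P.r1 := by positivity
  have a3' := a3
  simp only [Wt, sdiff_self, bot_eq_empty, card_empty, Nat.cast_zero] at a3'
  have b2 : (#(Fz0 \ Fz) : ℝ) < 2 * k := by
    have c1 := a1.pot E.bo h1 E.M1
    have c2 := mul_le_mul_of_nonneg_left E.nM
      (by positivity : (0 : ℝ) ≤ #(S.Un \ Fz) + #(Fz0 \ Fz))
    have c3 : 0 ≤ Fintype.card V / M := by have := E.M1; positivity
    have c4 := mul_le_mul_of_nonneg_right hL c3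
    rw [mul_div_assoc] at c1
    refine lt_of_le_of_lt (le_of_mul_le_mul_left ?_ (by linarith : 0 < Lg)) E.nk
    linarith
  have b3 : #(Usd D.Cn p) + P.l + P.l ≤ P.m := by
    have c1 := a1.pot E.bo h1 (M := Fintype.card V) (by exact_mod_cast E.hp.hn)
    rw [mul_div_assoc, div_self n0.ne'] at c1
    have c2 := mul_le_mul_of_nonneg_left E.nn
      (by positivity : (0 : ℝ) ≤ #(S.Un \ Fz) + #(Fz0 \ Fz))
    have c3 := mul_le_mul_of_nonneg_left b2.le (by linarith : 0 ≤ Lg)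
    have c4 : (0 : ℝ) ≤ P.l := by positivity
    have c5 : 0 ≤ P.r1 * Lg := by positivity
    have c6 : 0 ≤ Lg * #(S2.Un \ Fz0) := by positivity
    rw [← Nat.cast_le (α := ℝ)]
    push_cast
    linarith [E.nm]
  refine ⟨Fz, S, p, a1, by_contra fun hr => ?_⟩
  obtain ⟨u, c1⟩ := nonempty_iff_ne_empty.2 hr
  rcases le_total (P.ε * Fintype.card V) #(PO P (DF D S0 Ro Fz) S \ Sm P S) with hT | hT
  swap
  · obtain ⟨S', p', d1, d2, d4, d3⟩ := a1.join E (by omega) (by linarith) hT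
      (S.mem_Un.1 (mem_sdiff.1 c1).1) (mem_sdiff.1 c1).2 (Or.inl rfl)
    linarith [a4 (Fz, S', p') ⟨d1, by simp only; omega, a2'.trans d4⟩]
  obtain ⟨q, c2, c3⟩ := exists_mem_notMem_of_card_lt_card (s := Fz0 \ Fz) (t := Fz0 \ Fz1)
    (lt_of_lt_of_le (by exact_mod_cast b2) E.bo.hk)
  obtain ⟨Fz', S', d1, d2, d3, d4, d4', w, d5, d6, d7, d8, d9, d10, d11, d12⟩ := a1.op E.bo (q := q)
    (by simp only [mem_sdiff] at c2 c3 ⊢; tauto)
  have e1 : (#(S'.Un \ Fz') : ℝ) = #(S.Un \ Fz) + 2 := by exact_mod_cast d2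
  have e2 : (#(Fz0 \ Fz') : ℝ) = #(Fz0 \ Fz) + 2 := by exact_mod_cast d3
  have e3 : Wt D Fz0 Lg Fz S p - 2 - 168 / 100 * Lg ≤ Wt D Fz0 Lg Fz' S' p := by
    rw [Wt, Wt, e1, e2]
    linarith
  have e4 : ∀ (S : St V) v, S.lam v ≤ L → Real.log (S.lam v) ≤ Lg / 100 := fun S v hv =>
    (Real.log_le_log (S.lam_pos' v) (by exact_mod_cast hv)).trans E.nL'
  obtain ⟨S1, p1, f1, f2, f3, f4, f5, f6⟩ := d1.cut E (by omega) (by linarith)
    (hT.trans (by exact_mod_cast card_le_card d4')) d6 d8 (e4 _ _ d10)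
  obtain ⟨g1, g2, g3⟩ := f6 w d5.symm d7 d12
  have g4 : (#(S1.Un \ Fz') : ℝ) = #(S'.Un \ Fz') := by exact_mod_cast f2
  rcases le_total (P.ε * Fintype.card V) #(PO P (DF D S0 Ro Fz') S1 \ Sm P S1) with hT | hT
  · obtain ⟨S3, p3, i1, i2, i3, -, i4, -⟩ := f1.cut E (by omega) (by linarith) hT g1 d9
      (e4 _ _ (g2 ▸ d11))
    linarith [a4 (Fz', S3, p3) ⟨i1, by simp only; omega, by simp only; omega⟩]
  · obtain ⟨S3, p3, i1, i2, i3, i4⟩ := f1.join E (by omega) (by linarith) hT g1 d9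
      (Or.inr ⟨rfl, g2 ▸ d11, g3⟩)
    linarith [a4 (Fz', S3, p3) ⟨i1, by simp only; omega, by simp only; omega⟩]

end Pool.Agent.MP_d6d719_co.H91

end MrgPart2

-- marker of a merged file
example : 731051 + 523127 = 731051 + 523127 := rfl
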