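import Pool.Agent.MP_d6d719_co.h91.ContainA
import Pool.Agent.MP_d6d719_co.Reach
import Pool.Agent.MP_d6d719_co.h91.Stages
import Pool.Agent.MP_d6d719_co.h91.Params2
import Pool.Agent.MP_d6d719_co.h74.Sk2
import Pool.Agent.MP_d6d719_co.Final
import Pool.Agent.MP_d6d719_co.DefsFull

-- ======== part 0: formerly Pool.Agent.MP_d6d719_co.h91.Sparsify
section MrgPart0

set_option autoImplicit false

open Finset
open scoped Classical

namespace Pool.Agent.MP_d6d719_co.H91

/-- (E) a random `δ`-fraction of the pairs of a symmetric relation keeps all tests. -/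
theorem sparsify {V ι : Type} [Fintype V] [Fintype ι] (r : V → V → Prop)
    (hs : ∀ x y, r x y → r y x) (A B : ι → Finset V) (L : ι → ℝ) (δ M : ℝ) (hδ : 0 < δ)
    (hδ1 : δ ≤ 1) (hL : ∀ i, L i ≤ er r (A i) (B i)) (hM : (er r univ univ : ℝ) ≤ M)
    (hsum : ∑ i, Real.exp (-(δ * L i / 8)) + Real.exp (-(δ * M)) < 1) :
    ∃ E : Finset (Sym2 V), (∀ x y, s(x, y) ∈ E → r x y) ∧ (#E : ℝ) ≤ 3 * δ * M ∧
      ∀ i, δ * L i / 4 ≤ er (fun x y => s(x, y) ∈ E) (A i) (B i) := by
  set R : Finset (Sym2 V) := ((univ ×ˢ univ).filter fun q : V × V => r q.1 q.2).image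
    fun q => s(q.1, q.2) with hR
  have hr : ∀ x y, s(x, y) ∈ R ↔ r x y := fun x y => by
    simp only [hR, mem_image, mem_filter, univ_product_univ, mem_univ, true_and, Prod.exists]
    refine ⟨?_, fun h => ⟨x, y, h, rfl⟩⟩
    rintro ⟨a, b, h1, h2⟩
    rcases Sym2.eq_iff.1 h2 with ⟨rfl, rfl⟩ | ⟨rfl, rfl⟩
    exacts [h1, hs _ _ h1]
  have hRM : (#R : ℝ) ≤ M := le_trans (by rw [er_eq_card]; exact Nat.cast_le.2 card_image_le) hM
  by_contra hc
  push Not at hc
  have h1 : ∀ ω : Sym2 V → Bool, (1 : ℝ) ≤ ∑ i, ind ((#{q ∈ (A i ×ˢ B i).filter fun q =>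
      r q.1 q.2 | ω s(q.1, q.2) = true} : ℝ) < δ * L i / 4) +
      ind (3 * δ * M < #{e ∈ R | ω e = true}) := fun ω => by
    by_cases h : 3 * δ * M < #{e ∈ R | ω e = true}
    · rw [ind_of h]
      exact le_add_of_nonneg_left (sum_nonneg fun _ _ => ind_nonneg _)
    · obtain ⟨i, hi⟩ := hc _ (fun x y h => (hr x y).1 (mem_filter.1 h).1) (not_lt.1 h)
      refine le_add_of_le_of_nonneg (le_trans (ind_of ?_).ge (single_le_sum
        (fun _ _ => ind_nonneg _) (mem_univ i))) (ind_nonneg _)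
      rw [er_eq_card] at hi
      simp only [mem_filter, hr] at hi
      rw [filter_filter]
      convert hi
  have h2 := Ex_mono hδ.le hδ1 h1
  rw [Ex_const, Ex_add, Ex_sum] at h2
  refine absurd (h2.trans (add_le_add (sum_le_sum fun i _ => ?_) ?_)) (not_le.2 hsum)
  · refine (Ex_tail hδ.le hδ1 ((A i ×ˢ B i).filter fun q => r q.1 q.2) (fun q => s(q.1, q.2))
      two_pos (fiber_le_two _) ∅ (by simp) (-(1 / 2)) (-(δ * L i / 8)) _
      fun ω h => ⟨by simp, by linarith⟩).trans ?_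
    rw [card_empty, pow_zero, one_mul, ← er_eq_card]
    have h3 : Real.exp ((2 : ℕ) * -(1 / 2)) ≤ 1 / 2 := by
      norm_num [Real.exp_neg]
      rw [inv_le_comm₀ (Real.exp_pos _) (by norm_num)]
      linarith [Real.add_one_le_exp 1]
    have h4 := mul_le_mul_of_nonneg_left (hL i) hδ.le
    have h5 : 0 ≤ δ * er r (A i) (B i) := by positivity
    push_cast at h3 ⊢
    exact Real.exp_le_exp.2 (by nlinarith)
  · refine (Ex_tail hδ.le hδ1 R id one_pos (fiber_le_one _ _ (Set.injOn_id _)) ∅ (by simp) 1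
      (3 * δ * M) _ fun ω h => ⟨by simp, by simpa using h.le⟩).trans ?_
    have h4 := mul_le_mul_of_nonneg_left hRM hδ.le
    have h5 : 0 ≤ δ * #R := by positivity
    simp only [card_empty, pow_zero, one_mul, Nat.cast_one, div_one]
    exact Real.exp_le_exp.2 (by nlinarith [Real.exp_one_lt_three])

end Pool.Agent.MP_d6d719_co.H91

end MrgPart0

-- ======== part 1: formerly Pool.Agent.MP_d6d719_co.h91.Fin1
section MrgPart1

set_option autoImplicit false

open Finset
open scoped Classical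

namespace Pool.Agent.MP_d6d719_co.H91

variable {V : Type} {G : SimpleGraph V} {F : V → V → V → Prop}

theorem WF.st {D : Dt V} (hD : WF D) {v : V} (hv : v ∈ D.Pt) : (v, false) ∈ D.Fz :=
  by_contra fun e => (hD.nf _ e).elim (fun a => by simp at a) (hD.pc v hv)

theorem OV.good {D : Dt V} {H Lk : V → V → Prop} {S S' : St V} {p st : V → V}
    (hF : ∀ v a b, F v a b → F v b a) (hD : WF D) (h : OV D H Lk S' p) (hG : Good G F S)
    (h0 : D.t0 = S.t) (h1 : ∀ y ∈ D.Cn, ∀ b, S.t (y, b) = (D.g (y, b), true))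
    (h2 : ∀ v ∈ D.Pt, (S.t (v, false)).1 = st v)
    (h3 : ∀ x ∈ D.Pt, ∀ y ∈ D.Pt, Lk x y → Gam G F st x y)
    (h4 : ∀ x ∈ D.Pt, ∀ y ∈ D.Cn, H x y →
      G.Adj x y ∧ Cmp F x (st x) y ∧ ∀ b, Cmp F y x (D.g (y, b))) : Good G F S' := by
  have key : ∀ u, S'.t u ≠ u → S'.t u = S.t u ∨ (G.Adj u.1 (S'.t u).1 ∧
      Cmp F u.1 (S'.t u).1 (S'.t (fl u)).1) := by
    rintro ⟨x, b⟩ hu
    by_cases e : (x, b) ∈ D.Fz
    · exact Or.inl (h0 ▸ h.fz _ e)
    rcases hD.nf _ e with ⟨a1, a2⟩ | a1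
    · obtain rfl : b = true := a1
      have a3 : (S'.t (fl (x, true))).1 = st x := by
        rw [← h2 x a2, ← h0]; exact congrArg _ (h.fz _ (hD.st a2))
      rw [a3]
      rcases hy : S'.t (x, true) with ⟨y, c⟩
      have a4 : S'.t (y, c) = (x, true) := by rw [← hy, S'.inv]
      rcases hD.nf _ (hy ▸ h.t_nf hD e) with ⟨b1, b2⟩ | b1
      · obtain rfl : c = true := b1
        have := h3 x a2 y b2 (h.pp x a2 y b2 e (fun e' => hu (by rw [hy, e'])) hy)
        exact Or.inr ⟨this.1, this.2.1.symm' hF⟩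
      · have b2 : S'.t (y, c) = (D.g (y, c), true) → (y, c) = S.t (x, true) := fun e' => by
          rw [← a4, e', ← h1 y b1, S.inv]
        by_cases e' : p y = y
        · exact Or.inl (b2 (h.gu y b1 e' c))
        · obtain ⟨-, d2, c', d3, d4⟩ := h.gd y b1 e'
          by_cases e'' : c = c'
          · rw [← e'', a4] at d3
            have := h4 x a2 y b1 ((Prod.mk.inj d3).1 ▸ d2)
            exact Or.inr ⟨this.1, this.2.1.symm' hF⟩
          · rw [show (!c') = c by cases c <;> cases c' <;> simp_all] at d4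
            exact Or.inl (b2 d4)
    · by_cases e' : p x = x
      · exact Or.inl ((h.gu x a1 e' b).trans (h1 x a1 b).symm)
      · obtain ⟨d1, d2, c', d3, d4⟩ := h.gd x a1 e'
        by_cases e'' : b = c'
        · subst e''
          have := h4 _ d1 x a1 d2
          rw [d3, show fl (x, b) = (x, !b) from rfl, d4]
          exact Or.inr ⟨this.1.symm, this.2.2 _⟩
        · rw [show (!c') = b by cases b <;> cases c' <;> simp_all] at d4
          exact Or.inl (d4.trans (h1 x a1 b).symm)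
  refine ⟨fun u hu => (key u hu).elim (fun e => ?_) And.left, fun u hu hu' => ?_⟩
  · rw [e] at hu ⊢
    exact hG.1 u hu
  · rcases key u hu with e | e
    · rcases key _ hu' with e' | e'
      · rw [e] at hu ⊢
        rw [e'] at hu' ⊢
        exact hG.2 u hu hu'
      · rw [fl_fl] at e'
        exact e'.2.symm' hF
    · exact e.2

variable [Fintype V] {P : Pm} {D : Dt V} {S : St V} {T1 T2 : Finset V}

theorem outer_ham {H : V → V → Prop} {S0 : St V} {Ro : Finset V} {Fz0 Fz1 : Finset (V × Bool)}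
    {k L N : ℕ} {Lg a M : ℝ} (E : Env P D H (Gam G F D.st) S0 Ro Fz0 Fz1 k L N Lg a M)
    (hF : ∀ v a b, F v a b → F v b a) (hS : SK D S T1 T2) (hG : Good G F S)
    (h4 : ∀ x ∈ D.Pt, ∀ y ∈ D.Cn, H x y → Ct G F D x y) : HamList G F := by
  obtain ⟨Fz, S', p, a1, a2⟩ := stage3 E
  have b1 : Good G F S0 := E.bo.ov.good hF hS.wf hG hS.t0 (fun y hy => hS.ov.gu y hy rfl)
    (fun v _ => by rw [Dt.st, hS.t0]) E.hl h4
  refine E.bo.ham G F hF E.hl S' (a1.ov.good hF (a1.wf E.bo) b1 rfl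
    (fun y hy => E.bo.ov.gu y hy rfl) (fun v hv => congrArg _ (E.bo.ov.fz _ (hS.wf.st hv)))
    (fun _ _ _ _ e => e) h4) (fun u hu => a1.ov.fz u (a1.s1 hu)) fun u hu e => ?_
  by_cases e' : u ∈ Fz
  · exact (E.bo.hd u (mem_sdiff.2 ⟨a1.s0 e', hu⟩)).2.2.1 ((a1.ov.fz u e').symm.trans e)
  · exact notMem_empty u (a2 ▸ mem_sdiff.2 ⟨S'.mem_Un.2 e, e'⟩)

omit [Fintype V] in
theorem er_ge {r : V → V → Prop} {X B : Finset V} {a : ℝ}
    (h : ∀ x ∈ X, a ≤ #{y ∈ B | r x y}) : a * #X ≤ er r X B := by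
  rw [er, Nat.cast_sum, mul_comm, ← nsmul_eq_mul]
  exact card_nsmul_le_sum _ _ _ h

theorem ex_of {H : V → V → Prop} {Pt T : Finset V} {d τ ζ c : ℝ} {Dg m : ℕ} (hG : PR G d τ ζ)
    (hH : ∀ x y, H x y → G.Adj x y) (hn : 0 < Fintype.card V) (hd : 0 ≤ d)
    (h : ∀ v ∈ Pt, c * d / 20000 ≤ #{y ∈ T | H v y})
    (h1 : 64 * (Dg : ℝ) * m ≤ c * Fintype.card V / 40000)
    (h2 : 3 * Real.log (Fintype.card V) * (1 + 4 * Dg) < c * d / 40000) : EX H Pt T Dg m := by
  intro X hX hm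
  by_contra hc
  set N : Finset V := {y ∈ T | ∃ x ∈ X, H x y} with hN
  have a1 : c * d / 20000 * #X ≤ er G.Adj X N := by
    refine (er_ge (r := H) (B := N) fun x hx => (h x (hX hx)).trans ?_).trans
      (by exact_mod_cast er_mono hH subset_rfl subset_rfl)
    exact_mod_cast card_le_card fun y hy => by
      simp only [hN, mem_filter] at hy ⊢
      exact ⟨⟨hy.1, x, hx, hy.2⟩, hy.2⟩
  have a2 := hG.p1 X N
  have a3 : (#N : ℝ) ≤ 4 * Dg * #X := by exact_mod_cast (not_le.1 hc).le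
  have a4 : (#X : ℝ) ≤ 2 * m := by exact_mod_cast hm
  have a5 : (0 : ℝ) < #X := by
    exact_mod_cast Nat.pos_of_ne_zero fun e => hc (by simp [e])
  have n0 : (0 : ℝ) < Fintype.card V := by exact_mod_cast hn
  have a6 : 8 * (d / Fintype.card V) * #N ≤ c * d / 40000 := by
    have b1 : (#N : ℝ) * 8 ≤ c * Fintype.card V / 40000 := by
      nlinarith [mul_le_mul_of_nonneg_left a4 (by positivity : (0 : ℝ) ≤ 4 * Dg)]
    calc 8 * (d / Fintype.card V) * #N = d / Fintype.card V * (#N * 8) := by ring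
      _ ≤ d / Fintype.card V * (c * Fintype.card V / 40000) := by gcongr
      _ = _ := by field_simp
  have a7 := mul_le_mul_of_nonneg_left a3
    (by have := Real.log_natCast_nonneg (Fintype.card V); positivity :
      0 ≤ 3 * Real.log (Fintype.card V))
  nlinarith [mul_lt_mul_of_pos_right h2 a5, mul_le_mul_of_nonneg_right a6 a5.le]

theorem fs_of {H : V → V → Prop} {Pt R : Finset V} {d τ ζ ε : ℝ} {r1 w w' : ℕ} (hG : PR G d τ ζ)
    (hH : ∀ x y, H x y → G.Adj x y) (hn : 0 < Fintype.card V) (hd : 0 ≤ d)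
    (h : ∀ v ∈ Pt, d / 100000 ≤ #{y ∈ R | H v y}) (hε : ε ≤ 1 / 40000000)
    (h1 : 30 * (w : ℝ) ≤ d / 400000)
    (h2 : (30 * w' + 2 : ℝ) * Fintype.card V < r1 * d / 200000) : FS H Pt R ε r1 w w' := by
  intro X hX hr N _ hN
  have a1 := er_ge fun x hx => h x (hX hx)
  have a2 : (er H X R : ℝ) ≤ er G.Adj X N + er H X (R \ N) := by
    exact_mod_cast (er_split H X R N).trans (add_le_add (er_mono hH subset_rfl subset_rfl) le_rfl)
  have a3 := hG.p2 X N
  have n0 : (0 : ℝ) < Fintype.card V := by exact_mod_cast hn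
  have a4 : 8 * (d / Fintype.card V) * #N ≤ d / 400000 := by
    calc 8 * (d / Fintype.card V) * #N ≤ 8 * (d / Fintype.card V) * (Fintype.card V / 4000000) := by
          gcongr
          nlinarith
      _ = d / 500000 := by field_simp; ring
      _ ≤ _ := by linarith
  have a5 : (r1 : ℝ) ≤ #X := by exact_mod_cast hr
  have a6 : (0 : ℝ) ≤ #X := by positivity
  rw [← Nat.cast_lt (α := ℝ)]
  push_cast
  nlinarith [mul_le_mul_of_nonneg_right a4 a6, mul_le_mul_of_nonneg_right h1 a6,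
    mul_le_mul_of_nonneg_right a5 hd]

theorem mkH {d τ ζ ε γ g c φ : ℝ} (hS : SK D S T1 T2) (hX : SX G F D T1 T2 d ε γ g c φ)
    (hG : PR G d τ ζ) (hτ : τ ≤ 1 / 2) (hn : 0 < Fintype.card V)
    (h1 : Real.log (Fintype.card V) + 3 ≤ d / 200000)
    (h2 : Real.log (Fintype.card V) + 3 ≤ c * d / 40000) (h3 : 3 ≤ g * d / 40000) :
    ∃ E : Finset (Sym2 V), (∀ x y, s(x, y) ∈ E → G.Adj x y ∧
        (x ∈ D.Pt → y ∈ D.Pt → Gam G F D.st x y) ∧ (y ∈ D.Cn → Ct G F D x y)) ∧
      (#E : ℝ) ≤ Fintype.card V * d / 1000 ∧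
      RX (fun x y => s(x, y) ∈ E) D.R ε γ (g * d * Fintype.card V / 20000) ∧
      (∀ v ∈ D.Pt, d / 100000 ≤ #{y ∈ D.R | s(v, y) ∈ E}) ∧
      ∀ T, T = T1 ∨ T = T2 ∨ T = D.Cn → ∀ v ∈ D.Pt, c * d / 20000 ≤ #{y ∈ T | s(v, y) ∈ E} := by
  obtain ⟨r, hr⟩ : ∃ r : V → V → Prop, ∀ x y, r x y ↔ (x ∈ D.Pt ∧ y ∈ D.Pt ∧ Gam G F D.st x y) ∨
      (x ∈ D.Pt ∧ y ∈ D.Cn ∧ Ct G F D x y) ∨ (y ∈ D.Pt ∧ x ∈ D.Cn ∧ Ct G F D y x) :=
    ⟨_, fun _ _ => Iff.rfl⟩
  have r1 : ∀ x y, r x y → G.Adj x y := fun x y e => by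
    rcases (hr x y).1 e with e | e | e
    exacts [e.2.2.1, e.2.2.1, e.2.2.1.symm]
  have e3 : (16 : ℝ) ≤ Real.exp 3 := by
    rw [show (3 : ℝ) = (3 : ℕ) * 1 by norm_num, Real.exp_nat_mul]
    exact le_trans (by norm_num) (pow_le_pow_left₀ (by norm_num) Real.exp_one_gt_d9.le 3)
  have n1 : (1 : ℝ) ≤ Fintype.card V := by exact_mod_cast hn
  have l0 := Real.log_natCast_nonneg (Fintype.card V)
  have en : ∀ y ∈ D.R ∪ T1 ∪ T2, y ∈ D.Pt := fun y hy => (hS.en y hy).1
  have dg : ∀ v ∈ D.Pt, ∀ T ⊆ D.R ∪ T1 ∪ T2, #{y ∈ T | Gam G F D.st v y} ≤ er r {v} T :=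
    fun v hv T hT => by
      rw [er, sum_singleton]
      exact card_le_card fun y hy => mem_filter.2 ⟨(mem_filter.1 hy).1,
        (hr _ _).2 (Or.inl ⟨hv, en y (hT (mem_filter.1 hy).1), (mem_filter.1 hy).2⟩)⟩
  obtain ⟨E, a1, a2, a3⟩ := sparsify (ι := (D.Pt × Fin 4) ⊕ {q : Finset V × Finset V //
      g * d * Fintype.card V ≤ er r q.1 q.2}) r
    (by
      intro x y e
      rw [hr] at e ⊢
      rcases e with e | e | e
      exacts [Or.inl ⟨e.2.1, e.1, e.2.2.1.symm, e.2.2.2.2, e.2.2.2.1⟩, Or.inr (Or.inr e),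
        Or.inr (Or.inl e)])
    (Sum.elim (fun i => {i.1.1}) fun q => q.1.1)
    (Sum.elim (fun i => ![D.R, T1, T2, D.Cn] i.2) fun q => q.1.2)
    (Sum.elim (fun i => ![d / 5, c * d, c * d, c * d] i.2) fun _ => g * d * Fintype.card V)
    (1 / 5000) (3 / 2 * Fintype.card V * d) (by norm_num) (by norm_num)
    (by
      rintro (⟨⟨v, hv⟩, i⟩ | q)
      · fin_cases i
        · exact (hX.dR v hv).trans (Nat.cast_le.2
            (dg v hv _ (subset_union_left.trans subset_union_left)))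
        · exact (hX.d1 v hv).trans (Nat.cast_le.2
            (dg v hv _ (subset_union_right.trans subset_union_left)))
        · exact (hX.d2 v hv).trans (Nat.cast_le.2 (dg v hv _ subset_union_right))
        · refine (hX.dC v hv).trans (Nat.cast_le.2 ?_)
          simp only [Sum.elim_inl, er, sum_singleton]
          exact card_le_card fun y hy => mem_filter.2 ⟨(mem_filter.1 hy).1,
            (hr _ _).2 (Or.inr (Or.inl ⟨hv, (mem_filter.1 hy).1, (mem_filter.1 hy).2⟩))⟩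
      · exact q.2)
    (by
      refine (Nat.cast_le.2 (er_mono r1 subset_rfl subset_rfl)).trans ?_
      rw [er, Nat.cast_sum]
      refine (sum_le_card_nsmul _ _ _ fun v _ => hG.hi v).trans ?_
      rw [card_univ, nsmul_eq_mul]
      nlinarith [mul_le_mul_of_nonneg_right hτ
        (mul_nonneg (by linarith) (by linarith) : 0 ≤ (Fintype.card V : ℝ) * d)])
    (by
      have b1 : ∀ x, Real.log (Fintype.card V) + 3 ≤ x →
          Real.exp (-x) ≤ 1 / (16 * Fintype.card V) := fun x hx => by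
        rw [Real.exp_neg, one_div]
        refine inv_anti₀ (by positivity) (le_trans ?_ (Real.exp_le_exp.2 hx))
        rw [Real.exp_add, Real.exp_log (by linarith)]
        nlinarith
      rw [Fintype.sum_sum_type]
      have b2 := sum_le_card_nsmul (univ : Finset (D.Pt × Fin 4)) (fun i => Real.exp
        (-(1 / 5000 * ![d / 5, c * d, c * d, c * d] i.2 / 8))) (1 / (16 * Fintype.card V))
        fun i _ => b1 _ (by
          rcases i with ⟨v, i⟩
          fin_cases i <;> simp <;> linarith)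
      have b3 : (#(univ : Finset (D.Pt × Fin 4)) : ℝ) ≤ Fintype.card V * 4 := by
        rw [card_univ, Fintype.card_prod, Fintype.card_fin]
        exact_mod_cast Nat.mul_le_mul_right 4 (Fintype.card_subtype_le _)
      have b4 : (Fintype.card {q : Finset V × Finset V // g * d * Fintype.card V ≤ er r q.1 q.2} :
          ℝ) ≤ 4 ^ Fintype.card V := by
        refine (Nat.cast_le.2 (Fintype.card_subtype_le _)).trans (le_of_eq ?_)
        rw [Fintype.card_prod, Fintype.card_finset, ← mul_pow]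
        norm_num
      have b5 : Real.exp (-(1 / 5000 * (g * d * Fintype.card V) / 8)) ≤
          (1 / 16) ^ Fintype.card V := by
        refine le_trans (Real.exp_le_exp.2 (by nlinarith : _ ≤ (Fintype.card V : ℝ) * (-3))) ?_
        rw [Real.exp_nat_mul]
        refine pow_le_pow_left₀ (by positivity) ?_ _
        rw [Real.exp_neg, one_div]
        exact inv_anti₀ (by positivity) e3
      have b6 : (4 : ℝ) ^ Fintype.card V * (1 / 16) ^ Fintype.card V ≤ 1 / 4 := by
        rw [← mul_pow]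
        norm_num
        exact (pow_le_pow_of_le_one (by norm_num) (by norm_num) hn).trans (by norm_num)
      have b7 := b1 (1 / 5000 * (3 / 2 * Fintype.card V * d)) (by nlinarith)
      have b8 : 1 / (16 * Fintype.card V : ℝ) ≤ 1 / 16 := by gcongr; linarith
      have b9 := mul_le_mul b4 b5 (by positivity) (by positivity)
      have b10 := mul_le_mul_of_nonneg_right b3 (by positivity : 0 ≤ 1 / (16 * Fintype.card V : ℝ))
      rw [show (Fintype.card V : ℝ) * 4 * (1 / (16 * Fintype.card V)) = 1 / 4 by field_simp; norm_num]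
        at b10
      simp only [Sum.elim_inl, Sum.elim_inr, sum_const, card_univ, nsmul_eq_mul] at b2 b10 ⊢
      linarith)
  have a4 : ∀ v ∈ D.Pt, ∀ i : Fin 4, 1 / 5000 * ![d / 5, c * d, c * d, c * d] i / 4 ≤
      #{y ∈ ![D.R, T1, T2, D.Cn] i | s(v, y) ∈ E} := fun v hv i => by
    simpa [er] using a3 (Sum.inl (⟨v, hv⟩, i))
  refine ⟨E, fun x y e => ⟨r1 x y (a1 x y e), fun hx hy => ?_, fun hy => ?_⟩, by nlinarith,
    fun X b1 Y b2 b3 b4 b5 => ?_, fun v hv => ?_, fun T hT v hv => ?_⟩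
  · rcases (hr x y).1 (a1 x y e) with e | e | e
    exacts [e.2.2, absurd e.2.1 (hS.wf.pc y hy), absurd e.2.1 (hS.wf.pc x hx)]
  · rcases (hr x y).1 (a1 x y e) with e | e | e
    exacts [absurd hy (hS.wf.pc y e.2.1), e.2.2, absurd hy (hS.wf.pc y e.1)]
  · have := a3 (Sum.inr ⟨(X, Y), (hX.rx X b1 Y b2 b3 b4 b5).trans (Nat.cast_le.2 (sum_le_sum
      fun x hx => card_le_card fun y hy => mem_filter.2 ⟨(mem_filter.1 hy).1, (hr _ _).2 (Or.inl
        ⟨hS.wf.rp (b1 hx), hS.wf.rp (b2 (mem_filter.1 hy).1), (mem_filter.1 hy).2⟩)⟩))⟩)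
    simp only [Sum.elim_inr] at this
    linarith
  · have := a4 v hv 0
    simp only [Matrix.cons_val_zero] at this
    linarith
  · rcases hT with rfl | rfl | rfl
    · have := a4 v hv 1
      simp only [Matrix.cons_val_one, Matrix.cons_val_zero] at this
      linarith
    · have := a4 v hv 2
      simp only [Matrix.cons_val] at this
      linarith
    · have := a4 v hv 3
      simp only [Matrix.cons_val] at this
      linarith

end Pool.Agent.MP_d6d719_co.H91

end MrgPart1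

-- ======== part 2: formerly Pool.Agent.MP_d6d719_co.h91.SkelA
section MrgPart2

set_option autoImplicit false

open Finset
open scoped Classical

namespace Pool.Agent.MP_d6d719_co.H91

variable {V : Type}

/-- length and last slot of a walk along a ranked involution -/
noncomputable def wk (t : V × Bool → V × Bool) (rk : V × Bool → ℕ)
    (h : ∀ u, t u ≠ u → rk (t u) < rk (fl u)) (u : V × Bool) : ℕ × (V × Bool) :=
  if hu : t (fl u) = fl u then (1, fl u) else
    ((wk t rk h (t (fl u))).1 + 1, (wk t rk h (t (fl u))).2)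
termination_by rk u
decreasing_by all_goals simpa using h _ hu

theorem exists_St (t : V × Bool → V × Bool) (inv : ∀ u, t (t u) = u) (rk : V × Bool → ℕ)
    (h : ∀ u, t u ≠ u → rk (t u) < rk (fl u)) :
    ∃ S : St V, S.t = t ∧ ∀ u, S.lam u ≤ rk u + 1 := by
  obtain ⟨S, hS⟩ : ∃ S : St V, S.t = t :=
    ⟨⟨t, fun u => (wk t rk h u).1, fun u => (wk t rk h u).2, inv,
      fun u hu => by rw [wk, dif_pos hu]; exact ⟨rfl, rfl⟩,
      fun u hu => by rw [wk, dif_neg hu]; exact ⟨rfl, rfl⟩⟩, rfl⟩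
  subst hS
  refine ⟨S, rfl, fun u => ?_⟩
  induction u using S.ind with
  | h0 u a => rw [(S.un u a).1]; omega
  | h1 u a ih =>
    have := h _ a
    rw [fl_fl] at this
    rw [(S.ma u a).1]
    omega

theorem St.ends (S : St V) {Fz : Finset (V × Bool)} (fm : ∀ u ∈ Fz, S.t u ≠ u)
    (Q : V × Bool → Prop) (h1 : ∀ u, Q u → Q (fl u)) (h2 : ∀ u, Q u → Q (S.t u)) {a b : V × Bool}
    (ha : S.t a = a) (qa : Q a) (hQ : ∀ v, Q v → v ∈ Fz ∨ v = a ∨ v = b) :
    S.fin a = b ∧ ∀ v, S.cl v = S.cl a → v ∈ Fz ∨ v = a ∨ v = S.fin a := by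
  have k : S.fin a = b := by
    rcases hQ _ (S.closed_fin Q h1 h2 a qa) with c | c | c
    · exact absurd (S.fin_un a) (fm _ c)
    · exact absurd c (S.fin_ne_un ha)
    · exact c
  exact ⟨k, fun v hv => k ▸ hQ v (S.cl_closed Q h1 h2 qa hv)⟩

/-- the links inside a path on five vertices -/
def nx (w : Fin 5 × Bool) : Fin 5 × Bool :=
  if w.2 then ![(0, true), (2, false), (3, true), (2, true), (4, true)] w.1
  else ![(1, false), (0, false), (1, true), (4, false), (3, false)] w.1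

/-- ranks of the slots of a path on five vertices -/
def ro (w : Fin 5 × Bool) : ℕ := if w.2 then ![4, 2, 3, 1, 5] w.1 else ![1, 3, 2, 4, 0] w.1

/-- the links of the skeleton -/
structure Lnk {O : Type} (ob : O → Fin 5 → V) (M I : Finset V) (s : V → V) (a : V → O)
    (t : V × Bool → V × Bool) : Prop where
  e1 : ∀ v ∈ M, t (v, false) = (s v, false)
  e2 : ∀ v ∈ M ∪ I, t (v, true) = (v, true)
  e3 : ∀ v ∈ I, t (v, false) = (ob (a v) 0, true)
  e4 : ∀ v ∈ I, t (ob (a v) 0, true) = (v, false)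
  e5 : ∀ o w, (w ≠ (0, true) ∨ ∀ v ∈ I, a v ≠ o) → t (ob o w.1, w.2) = (ob o (nx w).1, (nx w).2)

theorem slot_cases {O : Type} {ob : O → Fin 5 → V} {M I : Finset V} (a : V → O)
    (cov : ∀ v, v ∉ M ∪ I → ∃ o i, ob o i = v) (u : V × Bool) :
    (∃ v ∈ M, u = (v, false)) ∨ (∃ v ∈ M ∪ I, u = (v, true)) ∨ (∃ v ∈ I, u = (v, false)) ∨
      (∃ v ∈ I, u = (ob (a v) 0, true)) ∨
      ∃ o w, (w ≠ (0, true) ∨ ∀ v ∈ I, a v ≠ o) ∧ u = (ob o w.1, w.2) := by
  obtain ⟨v, b⟩ := u
  by_cases c : v ∈ M ∪ I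
  · cases b
    · rcases mem_union.1 c with c | c
      · exact Or.inl ⟨v, c, rfl⟩
      · exact Or.inr (Or.inr (Or.inl ⟨v, c, rfl⟩))
    · exact Or.inr (Or.inl ⟨v, c, rfl⟩)
  · obtain ⟨o, i, rfl⟩ := cov v c
    by_cases k : (i, b) ≠ (0, true) ∨ ∀ v ∈ I, a v ≠ o
    · exact Or.inr (Or.inr (Or.inr (Or.inr ⟨o, (i, b), k, rfl⟩)))
    · push Not at k
      obtain ⟨k1, v, k2, rfl⟩ := k
      obtain ⟨rfl, rfl⟩ := Prod.mk.inj k1
      exact Or.inr (Or.inr (Or.inr (Or.inl ⟨v, k2, rfl⟩)))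

theorem sk_core {O : Type} {G : SimpleGraph V} {F : V → V → V → Prop} [Fintype V]
    (hF : ∀ v a b, F v a b → F v b a) {ob : O → Fin 5 → V}
    (inj : Function.Injective fun x : O × Fin 5 => ob x.1 x.2) (hob : ∀ o, Obj G F (ob o))
    {M I : Finset V} {s : V → V} (hM : Mat G M s) (dMI : Disjoint M I)
    (cov : ∀ v, v ∉ M ∪ I ↔ ∃ o i, ob o i = v) {a : V → O} (ha : Set.InjOn a I)
    (ha2 : ∀ v ∈ I, G.Adj v (ob (a v) 0) ∧ Cmp F (ob (a v) 0) v (ob (a v) 1)) :
    ∃ S : St V, Good G F S ∧ Lnk ob M I s a S.t ∧ (∀ v ∈ M, S.lam (v, true) ≤ 5) ∧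
      ∀ o, S.lam (ob o 0, true) ≤ 5 := by
  obtain ⟨ty, y1, y2⟩ : ∃ ty : V → Option (O × Fin 5), (∀ o i, ty (ob o i) = some (o, i)) ∧
      ∀ v ∈ M ∪ I, ty v = none :=
    ⟨Function.partialInv fun x : O × Fin 5 => ob x.1 x.2,
      fun o i => Function.partialInv_left inj (o, i),
      fun v hv => dif_neg fun ⟨x, hx⟩ => (cov v).2 ⟨_, _, hx⟩ hv⟩
  obtain ⟨sg, g1, g2⟩ : ∃ sg : O → Option V, (∀ v ∈ I, sg (a v) = some v) ∧
      ∀ o, (∀ v ∈ I, a v ≠ o) → sg o = none := by
    refine ⟨fun o => if h : ∃ v ∈ I, a v = o then some h.choose else none, fun v hv => ?_,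
      fun o h => dif_neg fun ⟨v, h1, h2⟩ => h v h1 h2⟩
    have h : ∃ w ∈ I, a w = a v := ⟨v, hv, rfl⟩
    simp only [dif_pos h]
    rw [ha h.choose_spec.1 hv h.choose_spec.2]
  have nI : ∀ v ∈ M, v ∉ I := fun v h => disjoint_left.1 dMI h
  obtain ⟨t, L⟩ : ∃ t, Lnk ob M I s a t := by
    refine ⟨fun u => (ty u.1).elim
      (if u.2 then u else if u.1 ∈ I then (ob (a u.1) 0, true) else (s u.1, false))
      fun x => if (x.2, u.2) = (0, true) then (sg x.1).elim u fun v => (v, false)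
        else (ob x.1 (nx (x.2, u.2)).1, (nx (x.2, u.2)).2), fun v hv => ?_, fun v hv => ?_,
      fun v hv => ?_, fun v hv => ?_, fun o w h => ?_⟩
    · simp [y2 v (mem_union_left _ hv), nI v hv]
    · simp [y2 v hv]
    · simp [y2 v (mem_union_right _ hv), hv]
    · simp [y1, g1 v hv]
    · simp only [y1, Option.elim_some]
      split_ifs with c
      · obtain rfl : w = (0, true) := c
        rw [g2 o (h.resolve_left fun c => c rfl)]
        rfl
      · rfl
  obtain ⟨rk, k1, k2, k3⟩ : ∃ rk : V × Bool → ℕ, (∀ o i b, rk (ob o i, b) = ro (i, b)) ∧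
      (∀ v ∈ M ∪ I, rk (v, false) = 0) ∧ ∀ v ∈ M ∪ I, rk (v, true) = if v ∈ I then 5 else 1 :=
    ⟨fun u => (ty u.1).elim (if u.2 then if u.1 ∈ I then 5 else 1 else 0) fun x => ro (x.2, u.2),
      fun o i b => by simp [y1], fun v hv => by simp [y2 v hv], fun v hv => by simp [y2 v hv]⟩
  have cs := slot_cases a fun v => (cov v).1
  obtain ⟨S, rfl, hl⟩ := exists_St t (fun u => by
    rcases cs u with ⟨v, h, rfl⟩ | ⟨v, h, rfl⟩ | ⟨v, h, rfl⟩ | ⟨v, h, rfl⟩ | ⟨o, w, h, rfl⟩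
    · rw [L.e1 v h, L.e1 _ (hM v h).1, (hM v h).2.1]
    · rw [L.e2 v h, L.e2 v h]
    · rw [L.e3 v h, L.e4 v h]
    · rw [L.e4 v h, L.e3 v h]
    · rw [L.e5 o w h, L.e5 o _ (h.imp_left ((by decide : ∀ w, w ≠ (0, true) → nx w ≠ (0, true)) w)),
        (by decide : ∀ w, nx (nx w) = w)]) rk (fun u hu => by
    rcases cs u with ⟨v, h, rfl⟩ | ⟨v, h, rfl⟩ | ⟨v, h, rfl⟩ | ⟨v, h, rfl⟩ | ⟨o, w, h, rfl⟩
    · rw [L.e1 v h, k2 _ (mem_union_left _ (hM v h).1), fl, Bool.not_false,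
        k3 v (mem_union_left _ h)]
      split_ifs <;> omega
    · exact absurd (L.e2 v h) hu
    · rw [L.e3 v h, k1, fl, Bool.not_false, k3 v (mem_union_right _ h), if_pos h]
      decide
    · rw [L.e4 v h, k2 v (mem_union_right _ h), fl, k1]
      exact (by decide : 0 < ro (0, !true))
    · rw [L.e5 o w h] at hu ⊢
      rw [fl, k1, k1]
      exact (by decide : ∀ w, nx w ≠ w → ro ((nx w).1, (nx w).2) < ro (w.1, !w.2)) w
        fun e => hu (by rw [e]))
  refine ⟨S, ⟨fun u hu => ?_, fun u h1 h2 => ?_⟩, L, fun v hv => (hl _).trans ?_,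
    fun o => (hl _).trans (by rw [k1]; decide)⟩
  · rcases cs u with ⟨v, h, rfl⟩ | ⟨v, h, rfl⟩ | ⟨v, h, rfl⟩ | ⟨v, h, rfl⟩ | ⟨o, ⟨i, b⟩, h, rfl⟩
    · rw [L.e1 v h]; exact (hM v h).2.2
    · exact absurd (L.e2 v h) hu
    · rw [L.e3 v h]; exact (ha2 v h).1
    · rw [L.e4 v h]; exact (ha2 v h).1.symm
    · rw [L.e5 o _ h] at hu ⊢
      obtain ⟨b1, b2, b3, b4, -⟩ := hob o
      fin_cases i <;> cases b <;>
        first | exact absurd rfl hu | assumption | exact SimpleGraph.Adj.symm (by assumption)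
  · have key : ∀ v, S.t (v, true) ≠ (v, true) →
        Cmp F v (S.t (v, true)).1 (S.t (v, false)).1 := fun v hv => by
      by_cases c : v ∈ M ∪ I
      · exact absurd (L.e2 v c) hv
      obtain ⟨o, i, rfl⟩ := (cov v).1 c
      rw [L.e5 o (i, false) (Or.inl (by simp))]
      by_cases k : (i, true) ≠ (0, true) ∨ ∀ v ∈ I, a v ≠ o
      · rw [L.e5 o (i, true) k] at hv ⊢
        obtain ⟨-, -, -, -, b1, b2, b3⟩ := hob o
        fin_cases i <;>
          first | exact absurd rfl hv | assumption | exact Cmp.symm' hF (by assumption)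
      · push Not at k
        obtain ⟨k1, v, k2, rfl⟩ := k
        obtain rfl := (Prod.mk.inj k1).1
        rw [L.e4 v k2]
        exact (ha2 v k2).2
    obtain ⟨v, b⟩ := u
    cases b
    · exact (key v h2).symm' hF
    · exact key v h1
  · rw [k3 v (mem_union_left _ hv), if_neg (nI v hv)]
    omega

end Pool.Agent.MP_d6d719_co.H91

end MrgPart2

-- ======== part 3: formerly Pool.Agent.MP_d6d719_co.h91.Skeleton
section MrgPart3

set_option autoImplicit false

open Finset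
open scoped Classical

namespace Pool.Agent.MP_d6d719_co.H91

variable {V : Type} [Fintype V]

/-- the static data of the skeleton -/
noncomputable def skD {T : ℕ} (ob : Fin 4 × Fin T → Fin 5 → V) (R : Finset V) (S : St V) : Dt V where
  Pt := univ.filter fun v => ∀ o, ob o 2 ≠ v
  R := R
  Ro := R
  Cn := univ.image fun t => ob (0, t) 2
  g u := (S.t u).1
  t0 := S.t
  Fz := univ.filter fun u => S.t u ≠ u ∧ (∀ t, ob (0, t) 2 ≠ u.1) ∧ ∀ t, ob (0, t) 2 ≠ (S.t u).1

theorem sk_of {T : ℕ} {G : SimpleGraph V} {ob : Fin 4 × Fin T → Fin 5 → V}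
    (inj : Function.Injective fun x : (Fin 4 × Fin T) × Fin 5 => ob x.1 x.2)
    {R M I : Finset V} {s : V → V} (hR : R ⊆ M) (hM : Mat G M s) (hs : ∀ v ∈ R, s v ∈ R)
    (cov : ∀ v, v ∉ M ∪ I ↔ ∃ o i, ob o i = v) {a : V → Fin 4 × Fin T}
    (h3 : ∀ v ∈ I, (a v).1 = 3) {S : St V} (L : Lnk ob M I s a S.t)
    (l1 : ∀ v ∈ M, S.lam (v, true) ≤ 5) (l2 : ∀ o, S.lam (ob o 0, true) ≤ 5) :
    SK (skD ob R S) S (univ.image fun t => ob (1, t) 0) (univ.image fun t => ob (2, t) 0) := by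
  have ij : ∀ {o i o' i'}, ob o i = ob o' i' ↔ o = o' ∧ i = i' := fun {o i o' i'} =>
    ⟨fun e => Prod.mk.inj (@inj (o, i) (o', i') e), fun e => by rw [e.1, e.2]⟩
  have nM : ∀ o i, ob o i ∉ M ∪ I := fun o i => (cov _).2 ⟨o, i, rfl⟩
  have nR : ∀ o i, ob o i ∉ R := fun o i h => nM o i (mem_union_left _ (hR h))
  have nE : ∀ v ∈ M ∪ I, ∀ o i, ob o i ≠ v := fun v hv o i e => nM o i (e ▸ hv)
  have mP : ∀ v, v ∈ (skD ob R S).Pt ↔ ∀ o, ob o 2 ≠ v := fun v => by simp [skD]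
  have mC : ∀ v, v ∈ (skD ob R S).Cn ↔ ∃ t, ob (0, t) 2 = v := fun v => by simp [skD]
  have mF : ∀ u, u ∈ (skD ob R S).Fz ↔
    S.t u ≠ u ∧ (∀ t, ob (0, t) 2 ≠ u.1) ∧ ∀ t, ob (0, t) 2 ≠ (S.t u).1 := fun u => by simp [skD]
  have c2 : ∀ o b, S.t (ob o 2, b) = (ob o (nx (2, b)).1, true) := fun o b => by
    rw [L.e5 o (2, b) (Or.inl (by simp))]
    cases b <;> rfl
  have n2 : ∀ b, (nx (2, b)).1 ≠ 2 := by decide
  have fm : ∀ u ∈ (skD ob R S).Fz, S.t u ≠ u := fun u hu => ((mF u).1 hu).1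
  have free : ∀ u, S.t u = u → u.2 = true ∧ u.1 ∈ (skD ob R S).Pt := fun u hu => by
    rcases slot_cases a (fun v => (cov v).1) u with
      ⟨v, h, rfl⟩ | ⟨v, h, rfl⟩ | ⟨v, h, rfl⟩ | ⟨v, h, rfl⟩ | ⟨o, w, h, rfl⟩
    · rw [L.e1 v h] at hu
      exact absurd (Prod.mk.inj hu).1 (hM v h).2.2.ne'
    · exact ⟨rfl, (mP _).2 fun o => nE v h o 2⟩
    · rw [L.e3 v h] at hu
      simp at hu
    · rw [L.e4 v h] at hu
      simp at hu
    · rw [L.e5 o w h] at hu
      have := (by decide : ∀ w, (nx w).1 = w.1 → w.2 = true ∧ 2 ≠ w.1) w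
        (ij.1 (Prod.mk.inj hu).1).2
      exact ⟨this.1, (mP _).2 fun o' e => this.2 (ij.1 e).2⟩
  have ent : ∀ j : Fin 4, j ≠ 0 → j ≠ 3 → ∀ t, S.t (ob (j, t) 0, true) = (ob (j, t) 0, true) ∧
      S.fin (ob (j, t) 0, true) = (ob (j, t) 4, true) ∧ ∀ v, S.cl v = S.cl (ob (j, t) 0, true) →
        v ∈ (skD ob R S).Fz ∨ v = (ob (j, t) 0, true) ∨ v = S.fin (ob (j, t) 0, true) := by
    intro j j0 j3 t
    have e : ∀ w : Fin 5 × Bool, S.t (ob (j, t) w.1, w.2) = (ob (j, t) (nx w).1, (nx w).2) :=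
      fun w => L.e5 _ w (Or.inr fun v hv c => j3 (by rw [← h3 v hv, c]))
    refine ⟨e (0, true), S.ends fm (fun u => ∃ i, u.1 = ob (j, t) i) (fun u hu => hu) ?_
      (e (0, true)) ⟨0, rfl⟩ ?_⟩
    · rintro ⟨v, b⟩ ⟨i, rfl⟩
      exact ⟨_, congrArg Prod.fst (e (i, b))⟩
    · rintro ⟨v, b⟩ ⟨i, rfl⟩
      rcases (by decide : ∀ w, (nx w).1 ≠ w.1 ∨ w = (0, true) ∨ w = (4, true)) (i, b) with c | c | c
      · refine Or.inl ((mF _).2 ?_)
        rw [e (i, b)]
        exact ⟨fun k => c (ij.1 (Prod.mk.inj k).1).2,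
          fun _ k => j0 (Prod.mk.inj (ij.1 k).1).1.symm, fun _ k => j0 (Prod.mk.inj (ij.1 k).1).1.symm⟩
      · obtain ⟨rfl, rfl⟩ := Prod.mk.inj c
        exact Or.inr (Or.inl rfl)
      · obtain ⟨rfl, rfl⟩ := Prod.mk.inj c
        exact Or.inr (Or.inr rfl)
  have mat : ∀ y ∈ R, S.fin (y, true) = (s y, true) ∧ ∀ v, S.cl v = S.cl (y, true) →
      v ∈ (skD ob R S).Fz ∨ v = (y, true) ∨ v = S.fin (y, true) := fun y hy => by
    have k : ∀ v, v = y ∨ v = s y → v ∈ M ∧ (s v = y ∨ s v = s y) := by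
      rintro v (rfl | rfl)
      · exact ⟨hR hy, Or.inr rfl⟩
      · exact ⟨hR (hs y hy), Or.inl (hM y (hR hy)).2.1⟩
    refine S.ends fm (fun u => u.1 = y ∨ u.1 = s y) (fun u hu => hu) ?_
      (L.e2 y (mem_union_left _ (hR hy))) (Or.inl rfl) ?_
    · rintro ⟨v, b⟩ hv
      cases b
      · rw [L.e1 v (k v hv).1]; exact (k v hv).2
      · rw [L.e2 v (mem_union_left _ (k v hv).1)]; exact hv
    · rintro ⟨v, b⟩ hv
      cases b
      · refine Or.inl ((mF _).2 ?_)
        rw [L.e1 v (k v hv).1]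
        exact ⟨fun c => (hM v (k v hv).1).2.2.ne' (Prod.mk.inj c).1,
          fun _ => nE v (mem_union_left _ (k v hv).1) _ _,
          fun _ => nE _ (mem_union_left _ (hM v (k v hv).1).1) _ _⟩
      · exact Or.inr (hv.imp (fun c => Prod.ext c rfl) fun c => Prod.ext c rfl)
  have hT : ∀ y ∈ (univ.image fun t => ob (1, t) 0) ∪ univ.image fun t => ob (2, t) 0,
      ∃ j t, j ≠ 0 ∧ j ≠ 3 ∧ y = ob (j, t) 0 := fun y hy => by
    rcases mem_union.1 hy with c | c <;> obtain ⟨t, -, rfl⟩ := mem_image.1 c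
    · exact ⟨1, t, by decide, by decide, rfl⟩
    · exact ⟨2, t, by decide, by decide, rfl⟩
  refine ⟨⟨Subset.refl _, fun v hv => (mP v).2 fun o => nE v (mem_union_left _ (hR hv)) o 2,
    fun x hx c => ?_, fun y hy b => ?_, fun y hy y' hy' b b' e => ?_,
    fun x hx c => fm _ c (L.e2 x (mem_union_left _ (hR hx))), fun u hu => ?_, fun u hu => ?_⟩,
    rfl, rfl, ⟨fun _ _ => rfl, fun x hx y hy c1 c2 c3 => c1 ((mF _).2 ?_), fun y hy _ b => ?_,
      fun y _ h => absurd rfl h⟩, fm, ?_, ?_, ?_, fun y hy => ?_,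
    fun y hy => (mat y hy).1 ▸ hs y hy, fun y hy => ?_⟩
  · obtain ⟨t, e⟩ := (mC x).1 c
    exact (mP x).1 hx _ e
  · obtain ⟨t, rfl⟩ := (mC y).1 hy
    refine ⟨(mP _).2 fun o e => ?_, fun c => ((mF _).1 c).2.1 t rfl,
      fun c => ((mF _).1 c).2.2 t ?_⟩
    · rw [show (skD ob R S).g (ob (0, t) 2, b) = _ from congrArg Prod.fst (c2 _ b)] at e
      exact n2 b (ij.1 e).2.symm
    · rw [show (skD ob R S).g (ob (0, t) 2, b) = _ from congrArg Prod.fst (c2 _ b), ← c2, S.inv]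
  · obtain ⟨t, rfl⟩ := (mC y).1 hy
    obtain ⟨t', rfl⟩ := (mC y').1 hy'
    rw [show (skD ob R S).g (ob (0, t) 2, b) = _ from congrArg Prod.fst (c2 _ b),
      show (skD ob R S).g (ob (0, t') 2, b') = _ from congrArg Prod.fst (c2 _ b')] at e
    rw [(ij.1 e).1]
  · rw [mF] at hu
    push Not at hu
    by_cases c : S.t u = u
    · exact Or.inl (free u c)
    by_cases c' : ∃ t, ob (0, t) 2 = u.1
    · exact Or.inr ((mC _).2 c')
    obtain ⟨t, e⟩ := hu c fun t e => c' ⟨t, e⟩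
    have k := c2 (0, t) (S.t u).2
    rw [e, Prod.mk.eta, S.inv] at k
    rw [k]
    exact Or.inl ⟨rfl, (mP _).2 fun o e => n2 _ (ij.1 e).2.symm⟩
  · obtain ⟨b1, b2, b3⟩ := (mF u).1 hu
    exact (mF _).2 ⟨S.t_ne b1, b3, by rwa [show (skD ob R S).t0 u = S.t u from rfl, S.inv]⟩
  · rw [c3]
    exact ⟨fun e => c2 (Prod.mk.inj e).1.symm, fun t => (mP x).1 hx _, fun t => (mP y).1 hy _⟩
  · obtain ⟨t, rfl⟩ := (mC y).1 hy
    exact Prod.ext rfl (by rw [c2])
  · exact disjoint_right.2 fun y hy => by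
      obtain ⟨t, -, rfl⟩ := mem_image.1 hy
      exact nR _ _
  · exact disjoint_right.2 fun y hy => by
      obtain ⟨t, -, rfl⟩ := mem_image.1 hy
      exact nR _ _
  · exact disjoint_left.2 fun y hy hy' => by
      obtain ⟨t, -, rfl⟩ := mem_image.1 hy
      obtain ⟨t', -, e⟩ := mem_image.1 hy'
      exact absurd (Prod.mk.inj (ij.1 e).1).1 (by decide)
  · have k : ∀ u, S.t u = u → u ∉ (skD ob R S).Fz := fun u e c => fm u c e
    rw [union_assoc] at hy
    rcases mem_union.1 hy with c | c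
    · have e := L.e2 y (mem_union_left _ (hR c))
      exact ⟨(free _ e).2, k _ e, e, l1 y (hR c), (free _ (S.fin_un _)).1, (free _ (S.fin_un _)).2,
        (mat y c).2⟩
    · obtain ⟨j, t, j0, j3, rfl⟩ := hT y c
      obtain ⟨e, -, e'⟩ := ent j j0 j3 t
      exact ⟨(free _ e).2, k _ e, e, l2 _, (free _ (S.fin_un _)).1, (free _ (S.fin_un _)).2, e'⟩
  · obtain ⟨j, t, j0, j3, rfl⟩ := hT y hy
    rw [(ent j j0 j3 t).2.1, union_assoc]
    intro c
    rcases mem_union.1 c with c | c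
    · exact nR _ _ c
    · obtain ⟨j', t', -, -, e⟩ := hT _ c
      exact absurd (ij.1 e).2 (by decide)

omit [Fintype V] in
theorem attach {O : Type} [Fintype O] [Nonempty O] {G : SimpleGraph V} {ξ c : ℝ}
    (hs : ∀ X Y : Finset V, X.Nonempty → (#X : ℝ) ≤ ξ → #Y ≤ #X → (er G.Adj X Y : ℝ) < c * #X)
    {I : Finset V} (hI : (#I : ℝ) ≤ ξ) (e : O → V) (he : Function.Injective e) (P : V → O → Prop)
    [∀ v, DecidablePred (P v)]
    (hP : ∀ v o, P v o → G.Adj v (e o)) (h : ∀ v ∈ I, c ≤ #{o | P v o}) :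
    ∃ a : V → O, Set.InjOn a I ∧ ∀ v ∈ I, P v (a v) := by
  obtain ⟨f, f1, f2⟩ := (all_card_le_biUnion_card_iff_exists_injective
    (fun v : I => univ.filter (P v))).1 fun X => by
      by_contra k
      rw [not_le] at k
      obtain ⟨N, hN⟩ : ∃ N, N = X.biUnion fun v : I => univ.filter (P v) := ⟨_, rfl⟩
      obtain ⟨X', hX⟩ : ∃ X', X' = X.map (Function.Embedding.subtype _) := ⟨_, rfl⟩
      have x1 : #X' = #X := by rw [hX, card_map]
      have x2 : X' ⊆ I := fun v hv => by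
        obtain ⟨a, -, rfl⟩ := mem_map.1 (hX ▸ hv)
        exact a.2
      rw [← hN, ← x1] at k
      refine (hs X' (N.image e) (card_pos.1 (by omega))
        ((Nat.cast_le.2 (card_le_card x2)).trans hI) (card_image_le.trans k.le)).not_ge ?_
      rw [mul_comm, ← nsmul_eq_mul, ← sum_const, er, Nat.cast_sum]
      refine sum_le_sum fun x hx => (h x (x2 hx)).trans (Nat.cast_le.2
        (card_le_card_of_injOn e (fun o ho => ?_) he.injOn))
      obtain ⟨v, b, rfl⟩ := mem_map.1 (hX ▸ hx)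
      exact mem_filter.2 ⟨mem_image_of_mem _ (hN ▸ mem_biUnion.2 ⟨v, b, ho⟩),
        hP _ _ (mem_filter.1 ho).2⟩
  refine ⟨fun v => if h : v ∈ I then f ⟨v, h⟩ else Classical.arbitrary O,
    fun v hv w hw e => ?_, fun v hv => ?_⟩
  · simp only [dif_pos (mem_coe.1 hv), dif_pos (mem_coe.1 hw)] at e
    exact congrArg Subtype.val (f1 e)
  · simp only [dif_pos hv]
    exact (mem_filter.1 (f2 ⟨v, hv⟩)).2

/-- (S) the skeleton. -/
theorem skeleton (μ : ℝ) (hμ : μ < 1 / 2) : ∃ γ : ℝ, 0 < γ ∧ γ ≤ 1 ∧ ∀ ε φ : ℝ, 0 < ε → 0 < φ →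
    ∃ g c τ ζ K : ℝ, 0 < g ∧ 0 < c ∧ 0 < τ ∧ τ ≤ 1 / 2 ∧ 0 < ζ ∧ 0 < K ∧
    ∀ (V : Type) [Fintype V] (G : SimpleGraph V) (F : V → V → V → Prop) (d : ℝ),
      0 < Fintype.card V → Sys G F d μ τ → PR G d τ ζ →
      K * (Real.log (Fintype.card V) + 1) ≤ d →
      ∃ (D : Dt V) (S : St V) (T1 T2 : Finset V),
        SK D S T1 T2 ∧ Good G F S ∧ SX G F D T1 T2 d ε γ g c φ := by
  obtain ⟨γ, γ0, hγ⟩ := container μ hμ
  obtain ⟨c, C, η0, c0, C0, η00, hE⟩ := early μ hμ
  refine ⟨min γ 1, lt_min γ0 one_pos, min_le_right _ _, fun ε φ ε0 φ0 => ?_⟩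
  obtain ⟨g, ζ, W, g0, ζ0, W0, hC⟩ := hγ ε ε0
  obtain ⟨e, K, e0, K0, hM⟩ := H74.matchR (φ / 2) ζ W (by linarith) ζ0 W0.le
  obtain ⟨η, η1, η2, η3, η4, η5⟩ : ∃ η : ℝ, 0 < η ∧ η ≤ η0 ∧ 40 * η ≤ e ∧ 80 * η ≤ φ ∧
      2 * C * η ≤ e := by
    refine ⟨min (min η0 (e / 40)) (min (φ / 80) (e / (2 * C))), by positivity,
      (min_le_left _ _).trans (min_le_left _ _), ?_, ?_, ?_⟩
    · linarith [(min_le_left _ (min (φ / 80) (e / (2 * C)))).trans (min_le_right η0 (e / 40))]
    · linarith [(min_le_right (min η0 (e / 40)) _).trans (min_le_left (φ / 80) (e / (2 * C)))]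
    · exact (le_div_iff₀' (by positivity)).1 ((min_le_right _ _).trans (min_le_right _ _))
  obtain ⟨τ, τ1, τ2, τ3, τ4, τ5⟩ : ∃ τ : ℝ, 0 < τ ∧ τ ≤ 1 / 2 ∧ τ ≤ η0 ∧ τ ≤ ζ ∧ τ ≤ e / 2 :=
    ⟨min (min (1 / 2) η0) (min ζ (e / 2)), by positivity, (min_le_left _ _).trans (min_le_left _ _),
      (min_le_left _ _).trans (min_le_right _ _), (min_le_right _ _).trans (min_le_left _ _),
      (min_le_right _ _).trans (min_le_right _ _)⟩
  refine ⟨g, c * η, τ, min ζ ((c * η / 16) ^ 2), K + W + 2 / η + 13 / (c * η), g0, by positivity,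
    τ1, τ2, by positivity, by positivity, fun V _ G F d hn S P hd => ?_⟩
  obtain ⟨n, hn'⟩ : ∃ n : ℝ, n = Fintype.card V := ⟨_, rfl⟩
  have n1 : 1 ≤ n := by rw [hn']; exact_mod_cast hn
  have lg := Real.log_nonneg n1
  have k1 : 0 < 2 / η := by positivity
  have k2 : 0 < 13 / (c * η) := by positivity
  rw [← hn'] at hd
  have d0 : 0 < d := lt_of_lt_of_le (by positivity) hd
  have d2 := hn' ▸ H74.d_le S τ2 hn d0.le
  have d3 : 13 * (Real.log n + 1) ≤ c * η * d := by
    have : 13 / (c * η) * (Real.log n + 1) ≤ d := by nlinarith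
    rwa [div_mul_eq_mul_div, div_le_iff₀' (by positivity)] at this
  have d4 : 1 ≤ η * n := by
    have : 2 / η ≤ d := by nlinarith
    rw [div_le_iff₀' η1] at this
    nlinarith
  obtain ⟨T, T1, T2⟩ : ∃ T : ℕ, η * n ≤ T ∧ (T : ℝ) ≤ 2 * η * n :=
    ⟨⌈η * n⌉₊, Nat.le_ceil _, by linarith [Nat.ceil_lt_add_one (show 0 ≤ η * n by linarith)]⟩
  obtain ⟨ob, inj, hob, o1, o2, o3⟩ := hE V G F d τ η T S τ1.le τ3 η1 η2 (hn' ▸ T1) (hn' ▸ T2)
    (by rw [← hn']; linarith)
  obtain ⟨m, m1, m2⟩ : ∃ m : ℕ, W * n ≤ m * d ∧ m * d ≤ W * n + d :=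
    ⟨⌈W * n / d⌉₊, (div_le_iff₀ d0).1 (Nat.le_ceil _), by
      have := mul_le_mul_of_nonneg_right
        (Nat.ceil_lt_add_one (show 0 ≤ W * n / d by positivity)).le d0.le
      rwa [add_mul, div_mul_cancel₀ _ d0.ne', one_mul] at this⟩
  obtain ⟨X, hX⟩ := hC V G F d τ m S τ1.le τ4 (by nlinarith) (fun A B => le_trans (by
    have := mul_le_mul_of_nonneg_right (min_le_left ζ ((c * η / 16) ^ 2))
      (show 0 ≤ Fintype.card V * d by positivity)
    linarith) (P.p4 A B)) (hn' ▸ m1)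
  obtain ⟨V0, hV⟩ : ∃ V0 : Finset V, ∀ v, v ∉ V0 ↔ ∃ o i, ob o i = v :=
    ⟨univ.filter fun v => ¬ ∃ o i, ob o i = v, fun v => by simp⟩
  have v1 : (#(univ \ V0) : ℝ) ≤ 40 * η * n := by
    have := card_le_card (s := univ \ V0)
      (t := univ.image fun x : (Fin 4 × Fin T) × Fin 5 => ob x.1 x.2) fun v hv => by
        obtain ⟨o, i, e⟩ := (hV v).1 (mem_sdiff.1 hv).2
        exact mem_image.2 ⟨(o, i), mem_univ _, e⟩
    have := Nat.cast_le (α := ℝ).2 (this.trans card_image_le)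
    simp only [card_univ, Fintype.card_prod, Fintype.card_fin] at this
    push_cast at this
    linarith
  obtain ⟨R, s, r1, r2, r3, r4, r5⟩ := hM V G F d μ τ V0 m X hμ.le τ2 hn S
    (by rw [← hn']; nlinarith) (hn' ▸ m2) (by
      have := congrArg (Nat.cast : ℕ → ℝ) (card_sdiff_add_card_eq_card (subset_univ V0))
      rw [card_univ, ← hn'] at this
      push_cast at this
      rw [← hn']
      nlinarith) fun v => by
      have a : (#{u ∈ V0 | G.Adj v u} : ℝ) ≤ #{w | G.Adj v w} :=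
        Nat.cast_le.2 (card_le_card (filter_subset_filter _ (subset_univ _)))
      have b : (univ.filter fun w => G.Adj v w) ⊆ {u ∈ V0 | G.Adj v u} ∪
          univ.filter fun w => G.Adj v w ∧ ∃ o i, ob o i = w := fun w hw => by
        simp only [mem_filter, mem_union, mem_univ, true_and, ← hV] at hw ⊢
        tauto
      have b' := Nat.cast_le (α := ℝ).2 ((card_le_card b).trans (card_union_le _ _))
      push_cast at b'
      rw [abs_le]
      constructor <;> nlinarith [S.lo v, S.hi v, o1 v]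
  obtain ⟨R', q1, s', q2, q3⟩ := H74.max_mat (H74.big_pos P (ξ := c * η / 16) (by positivity)
    (min_le_right _ _) d0 hn) (V0 \ R)
  have : Nonempty (Fin T) := ⟨⟨0, by exact_mod_cast (by linarith : (0 : ℝ) < T)⟩⟩
  obtain ⟨a, a1, a2⟩ := attach (H74.small_lt P (c := c * η * d) d0.le hn (by rw [← hn']; linarith))
    q3 (fun t => ob (3, t) 0) (fun t t' e => (Prod.mk.inj (Prod.mk.inj
      (@inj ((3, t), 0) ((3, t'), 0) e)).1).2)
    (fun v t => G.Adj v (ob (3, t) 0) ∧ Cmp F (ob (3, t) 0) v (ob (3, t) 1)) (fun _ _ h => h.1)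
    fun v _ => by
      obtain ⟨f, hf⟩ := H74.exists_adj S τ2 d0 v
      refine (o3 3 v f hf).trans (Nat.cast_le.2 (card_le_card fun t ht => ?_))
      exact mem_filter.2 ⟨mem_univ _, (mem_filter.1 ht).2.1, (mem_filter.1 ht).2.2.2⟩
  have q4 := H74.mat_union (disjoint_sdiff.mono_right q1) r2 q2
  have cov : ∀ v, v ∉ R ∪ R' ∪ (V0 \ R) \ R' ↔ ∃ o i, ob o i = v := fun v => by
    have b1 := @r1 v
    have b2 := @q1 v
    simp only [← hV, mem_union, mem_sdiff] at b2 ⊢
    tauto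
  obtain ⟨S0, gd, L, l1, l2⟩ := sk_core S.symm inj hob q4 (disjoint_union_left.2
    ⟨disjoint_sdiff.mono_right sdiff_subset, disjoint_sdiff⟩) cov (a := fun v => (3, a v))
    (fun v hv w hw e => a1 hv hw (Prod.mk.inj e).2) a2
  have sk := sk_of inj subset_union_left q4 (fun v hv => by simpa [hv] using (r2 v hv).1) cov
    (fun _ _ => rfl) L l1 l2
  have s1 : ∀ v ∈ R, (skD ob R S0).st v = s v := fun v hv =>
    (congrArg Prod.fst (L.e1 v (mem_union_left _ hv))).trans (if_pos hv)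
  have s2 : ∀ v ∈ (skD ob R S0).Pt, G.Adj v ((skD ob R S0).st v) := fun v hv =>
    gd.1 (v, false) (sk.fm _ (by
      by_contra k
      rcases sk.wf.nf _ k with k | k
      · simp at k
      · exact sk.wf.pc v hv k))
  have s3 : ∀ o b i, i ≠ 0 ∨ b = false → S0.t (ob o i, b) = (ob o (nx (i, b)).1, (nx (i, b)).2) :=
    fun o b i h => L.e5 o (i, b) (Or.inl (by rcases h with h | h <;> simp [h]))
  have ij : ∀ j i, Function.Injective fun t => ob (j, t) i := fun j i t t' e =>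
    (Prod.mk.inj (Prod.mk.inj (@inj ((j, t), i) ((j, t'), i) e)).1).2
  have en : ∀ j, ∀ v ∈ (skD ob R S0).Pt, c * η * d ≤
      #{y ∈ univ.image fun t => ob (j, t) 0 | Gam G F (skD ob R S0).st v y} := fun j v hv => by
    refine (o3 j v _ (s2 v hv)).trans (Nat.cast_le.2
      (card_le_card_of_injOn _ (fun t ht => ?_) (ij j 0).injOn))
    obtain ⟨b1, b2, b3⟩ := (mem_filter.1 ht).2
    refine mem_filter.2 ⟨mem_image_of_mem _ (mem_univ t), b1, b2, ?_⟩
    rw [show (skD ob R S0).st (ob (j, t) 0) = _ from congrArg Prod.fst (s3 _ false 0 (Or.inr rfl))]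
    exact b3.symm' S.symm
  refine ⟨_, S0, _, _, sk, gd, fun A hA B hB h1 h2 h3 => ?_, fun v hv => ?_, en 1, en 2,
    fun v hv => ?_, ?_⟩
  · refine (hX R s r2 r4 A hA B hB h1 h2 (le_trans (mul_le_mul_of_nonneg_right
      (by linarith [min_le_left γ 1]) (Nat.cast_nonneg _)) h3)).trans (Nat.cast_le.2
        (sum_le_sum fun x hx => card_le_card fun y hy => ?_))
    rw [mem_filter] at hy ⊢
    refine ⟨hy.1, hy.2.1, ?_⟩
    rw [s1 x (hA hx), s1 y (hB hy.1)]
    exact hy.2.2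
  · refine (r5 v _ (s2 v hv)).trans (Nat.cast_le.2 (card_le_card fun y hy => ?_))
    rw [mem_filter] at hy ⊢
    exact ⟨hy.1, hy.2.1, hy.2.2.1, (s1 y hy.1).symm ▸ hy.2.2.2⟩
  · refine (o2 0 v _ (s2 v hv)).trans (Nat.cast_le.2
      (card_le_card_of_injOn _ (fun t ht => ?_) (ij 0 2).injOn))
    obtain ⟨b1, b2, b3, b4⟩ := (mem_filter.1 ht).2
    refine mem_filter.2 ⟨mem_image_of_mem _ (mem_univ t), b1, b2, fun b => ?_⟩
    rw [show (skD ob R S0).g (ob (0, t) 2, b) = _ from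
      congrArg Prod.fst (s3 _ b 2 (Or.inl (by decide)))]
    cases b
    · exact b3
    · exact b4
  · have b : univ \ R ⊆ (univ \ V0) ∪ V0 \ R := fun v hv => by
      simp only [mem_union, mem_sdiff, mem_univ, true_and] at hv ⊢
      tauto
    have b' := Nat.cast_le (α := ℝ).2 ((card_le_card b).trans (card_union_le _ _))
    push_cast at b'
    rw [← hn'] at r3 ⊢
    exact b'.trans (by nlinarith)

end Pool.Agent.MP_d6d719_co.H91

end MrgPart3

-- ======== part 4: formerly Pool.Agent.MP_d6d719_co.h91.Gnp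
section MrgPart4

set_option autoImplicit false

open Finset Filter MeasureTheory
open scoped Classical

namespace Pool.Agent.MP_d6d719_co.H91

variable {V : Type} [Fintype V] (p : unitInterval)

theorem er_tail (A B : Finset V) (t a : ℝ) (S : Set (SimpleGraph V))
    (hS : ∀ G ∈ S, a ≤ t * er G.Adj A B) : (SimpleGraph.binomialRandom V p).real S ≤
      Real.exp (p * #{q ∈ A ×ˢ B | q.1 ≠ q.2} * ((Real.exp (2 * t) - 1) / 2) - a) := by
  simpa using prob_tail p {q ∈ A ×ˢ B | q.1 ≠ q.2} (·.1) (·.2) two_pos (fiber_le_two _)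
    (fun q hq => (mem_filter.1 hq).2) ∅ (by simp) t a S fun G hG => ⟨by simp, by
      rw [filter_filter, filter_congr (q := fun q : V × V => G.Adj q.1 q.2) fun q _ =>
        ⟨fun h => h.2, fun h => ⟨h.ne, h⟩⟩, ← er_eq_card]
      exact hS G hG⟩

theorem er_up (A B : Finset V) {t : ℝ} (ht : 0 ≤ t) (a : ℝ) (S : Set (SimpleGraph V))
    (hS : ∀ G ∈ S, a ≤ t * er G.Adj A B) : (SimpleGraph.binomialRandom V p).real S ≤
      Real.exp (p * (#A * #B) * ((Real.exp (2 * t) - 1) / 2) - a) := by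
  refine (er_tail p A B t a S hS).trans (Real.exp_le_exp.2 ?_)
  have h1 : (#{q ∈ A ×ˢ B | q.1 ≠ q.2} : ℝ) ≤ #A * #B := by
    exact_mod_cast (card_filter_le _ _).trans (card_product _ _).le
  have h2 := Real.one_le_exp (show 0 ≤ 2 * t by linarith)
  have h3 := p.2.1
  gcongr

theorem pairs_log (P : SimpleGraph V → Finset V → Finset V → Prop) (hn : 2 ≤ Fintype.card V)
    (h0 : ∀ G, P G ∅ ∅) (h : ∀ A B, (SimpleGraph.binomialRandom V p).real {G | ¬ P G A B} ≤
      Real.exp (-(3 * Real.log (Fintype.card V) * (#A + #B)))) :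
    (SimpleGraph.binomialRandom V p).real {G | ¬ ∀ A B, P G A B} ≤ 4 / Fintype.card V := by
  set n : ℝ := (Fintype.card V : ℝ) with hn'
  have h1 : 2 ≤ n := Nat.ofNat_le_cast.2 hn
  set x := 1 / n ^ 3 with hx
  have hx0 : 0 ≤ x := by positivity
  refine (prob_union _ (univ.erase (∅, ∅)) (fun q : Finset V × Finset V => {G | ¬ P G q.1 q.2})
    (fun q => x ^ #q.1 * x ^ #q.2) _ (fun G hG => ?_) fun q _ => (h _ _).trans (le_of_eq ?_)).trans ?_
  · simp only [Set.mem_ofPred_eq, not_forall] at hG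
    obtain ⟨A, B, hG⟩ := hG
    refine ⟨(A, B), mem_erase.2 ⟨fun e => hG ?_, mem_univ _⟩, hG⟩
    obtain ⟨rfl, rfl⟩ := Prod.mk.inj e
    exact h0 G
  · rw [← pow_add, ← Real.exp_log (x := x) (by positivity), ← Real.exp_nat_mul, hx, one_div,
      Real.log_inv, Real.log_pow]
    congr 1; push_cast; ring
  · rw [sum_erase_eq_sub (mem_univ _), Fintype.sum_prod_type]
    simp only [← mul_sum, ← sum_mul, card_empty, pow_zero, mul_one]
    have a1 := sum_pow_card_le (V := V) hx0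
    have a2 := mul_le_mul a1 a1 (sum_nonneg fun _ _ => by positivity) (Real.exp_pos _).le
    have a3 : x * n + x * n = 2 / n ^ 2 := by rw [hx]; field_simp; ring
    rw [← Real.exp_add, ← hn', a3] at a2
    have a4 : 2 / n ^ 2 ≤ 2 / n := by gcongr; nlinarith
    have a5 : 2 / n ≤ 1 := (div_le_one (by linarith)).2 h1
    have a6 := Real.abs_exp_sub_one_le (x := 2 / n ^ 2) (by
      rw [abs_of_nonneg (by positivity)]; linarith)
    rw [abs_of_nonneg (a := 2 / n ^ 2) (by positivity)] at a6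
    rw [show 4 / n = 2 * (2 / n) by ring]
    linarith [le_abs_self (Real.exp (2 / n ^ 2) - 1)]

theorem pairs_lin (P : SimpleGraph V → Finset V → Finset V → Prop) (hn : 2 ≤ Fintype.card V)
    (h : ∀ A B, (SimpleGraph.binomialRandom V p).real {G | ¬ P G A B} ≤
      Real.exp (-(2 * Fintype.card V))) :
    (SimpleGraph.binomialRandom V p).real {G | ¬ ∀ A B, P G A B} ≤ 2 / Fintype.card V := by
  have h1 : (2 : ℝ) ≤ Fintype.card V := Nat.ofNat_le_cast.2 hn
  refine (prob_union _ univ (fun q : Finset V × Finset V => {G | ¬ P G q.1 q.2})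
    (fun _ => Real.exp (-(2 * Fintype.card V))) _ (fun G hG => ?_) fun q _ => h _ _).trans ?_
  · simp only [Set.mem_ofPred_eq, not_forall] at hG
    obtain ⟨A, B, hG⟩ := hG
    exact ⟨(A, B), mem_univ _, hG⟩
  · simp only [sum_const, card_univ, Fintype.card_prod, Fintype.card_finset, nsmul_eq_mul]
    push_cast
    rw [← Real.exp_log (x := 2) two_pos, ← Real.exp_nat_mul, ← Real.exp_add, ← Real.exp_add,
      Real.exp_log two_pos, le_div_iff₀ (by linarith)]
    have a1 := Real.add_one_le_exp ((Fintype.card V : ℝ) / 2)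
    have a2 : Real.exp (Fintype.card V * Real.log 2 + Fintype.card V * Real.log 2 +
        -(2 * Fintype.card V)) * Real.exp ((Fintype.card V : ℝ) / 2) ≤ 1 := by
      rw [← Real.exp_add, Real.exp_le_one_iff]
      nlinarith [Real.log_two_lt_d9]
    nlinarith [Real.exp_pos (Fintype.card V * Real.log 2 + Fintype.card V * Real.log 2 +
        -(2 * Fintype.card V))]

theorem deg_tail {t : ℝ} (ht : |t| ≤ 1 / 2) (hn : 2 ≤ Fintype.card V)
    (hd : 2 * Real.log (Fintype.card V) ≤ t ^ 2 * (Fintype.card V * p))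
    (P : SimpleGraph V → V → Prop) (h : ∀ G v, ¬ P G v →
      (t + 2 * t ^ 2) * (Fintype.card V * p) ≤ t * #{w | G.Adj v w}) :
    (SimpleGraph.binomialRandom V p).real {G | ¬ ∀ v, P G v} ≤ 3 / Fintype.card V := by
  have h1 : (2 : ℝ) ≤ Fintype.card V := Nat.ofNat_le_cast.2 hn
  refine (prob_union _ univ (fun v => {G | ¬ P G v}) (fun _ => 3 / (Fintype.card V : ℝ) ^ 2) _
    (fun G hG => by simpa using hG) fun v _ => ?_).trans (le_of_eq ?_)
  · refine (prob_tail p (univ.erase v) (fun _ => v) id one_pos (fiber_le_one _ _ fun _ _ _ _ e =>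
      Sym2.congr_right.1 e) (fun q hq => (ne_of_mem_erase hq).symm) ∅ (by simp) t _ _
      fun G hG => ⟨by simp, (h G v hG).trans (le_of_eq ?_)⟩).trans ?_
    · congr 3
      ext w
      simpa using fun h : G.Adj v w => h.ne'
    · rw [card_erase_of_mem (mem_univ v), card_univ, Nat.cast_sub (by omega)]
      have a1 := (abs_le.1 (Real.abs_exp_sub_one_sub_id_le (x := t) (by linarith))).2
      have a2 := p.2.1
      have a3 := p.2.2
      have a4 := (abs_le.1 ht).1
      have a5 : (p : ℝ) * (Fintype.card V - 1) * (Real.exp t - 1) ≤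
          p * (Fintype.card V - 1) * (t + t ^ 2) :=
        mul_le_mul_of_nonneg_left (by linarith) (mul_nonneg a2 (by linarith))
      simp only [card_empty, pow_zero, one_mul, Nat.cast_one, div_one]
      refine le_trans (Real.exp_le_exp.2 (show _ ≤ 1 - 2 * Real.log (Fintype.card V) by
        nlinarith [mul_nonneg a2 (sq_nonneg t)])) ?_
      rw [Real.exp_sub, two_mul, Real.exp_add, Real.exp_log (by linarith), ← sq]
      gcongr
      exact Real.exp_one_lt_three.le
  · rw [sum_const, card_univ, nsmul_eq_mul]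
    field_simp

theorem up_tail {ι : Type} [Fintype ι] (Ψ : Finset (Sym2 V) → ι → V → Finset V)
    (hn : 2 ≤ Fintype.card V) (hd : 1000 * Real.log (Fintype.card V) ≤ Fintype.card V * (p : ℝ))
    (hι : Real.log (Fintype.card ι) ≤ 20 * Fintype.card V * Real.log (Fintype.card V))
    (hΨ : ∀ E i x, (#(Ψ E i x) : ℝ) ≤ Fintype.card V / 1000) :
    (SimpleGraph.binomialRandom V p).real {G | ¬ UP G (Fintype.card V * p) Ψ} ≤
      1 / Fintype.card V := by
  set n : ℝ := (Fintype.card V : ℝ) with hn'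
  have h1 : 2 ≤ n := Nat.ofNat_le_cast.2 hn
  have h0 := p.2.1
  refine (prob_union _ (({E | (#E : ℝ) ≤ n * (n * p) / 1000} : Finset (Finset (Sym2 V))) ×ˢ univ)
    (fun q : Finset (Sym2 V) × ι => {G | (∀ e ∈ q.1, e ∈ G.edgeSet) ∧
      n * (n * p) / 20 < ((∑ x, #{y ∈ Ψ q.1 q.2 x | G.Adj x y} : ℕ) : ℝ)})
    (fun q => (p : ℝ) ^ #q.1 * Real.exp (-(44 / 1000 * (n * (n * p))))) _ (fun G hG => ?_)
    fun ⟨E, i⟩ hq => ?_).trans ?_
  · simp only [UP, Set.mem_ofPred_eq, not_forall, not_le] at hG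
    obtain ⟨E, a1, a2, i, a3⟩ := hG
    exact ⟨(E, i), by simpa using a2, a1, a3⟩
  · have hE : (#E : ℝ) ≤ n * (n * p) / 1000 := by simpa using hq
    refine (prob_tail p {q : V × V | q.2 ∈ Ψ E i q.1 ∧ q.1 ≠ q.2 ∧ s(q.1, q.2) ∉ E} (·.1) (·.2)
      two_pos (fiber_le_two _) (fun q hq => (mem_filter.1 hq).2.2.1) E
      (fun q hq => (mem_filter.1 hq).2.2.2) 1 (48 / 1000 * (n * (n * p))) _
      fun G hG => ⟨hG.1, ?_⟩).trans (mul_le_mul_of_nonneg_left (Real.exp_le_exp.2 ?_)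
      (by positivity))
    · have a1 : ∑ x, #{y ∈ Ψ E i x | G.Adj x y} ≤ #{q ∈ ({q : V × V | q.2 ∈ Ψ E i q.1 ∧
          q.1 ≠ q.2 ∧ s(q.1, q.2) ∉ E} : Finset _) | G.Adj q.1 q.2} + 2 * #E := by
        rw [← card_sigma, ← card_map ⟨fun q : Σ _ : V, V => (q.1, q.2), fun a b e => by
          simp only [Prod.mk.injEq] at e; exact Sigma.ext e.1 (heq_of_eq e.2)⟩]
        refine le_trans (card_le_card fun q hq => ?_) ((card_union_le _ _).trans
          (Nat.add_le_add_left (card_le_mul_card_image_of_maps_to (s := {q : V × V | s(q.1, q.2) ∈ E})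
          (f := fun q => s(q.1, q.2)) (fun q hq => (mem_filter.1 hq).2) 2
          fun e _ => fiber_le_two _ e) _))
        simp only [Finset.mem_map, mem_sigma, mem_univ, true_and, mem_filter, mem_union,
          Function.Embedding.coeFn_mk] at hq ⊢
        obtain ⟨a, b, rfl⟩ := hq
        have := b.2.ne
        tauto
      have a2 := hG.2.trans_le (Nat.cast_le.2 a1)
      push_cast at a2
      linarith
    · have a1 : (#{q : V × V | q.2 ∈ Ψ E i q.1 ∧ q.1 ≠ q.2 ∧ s(q.1, q.2) ∉ E} : ℝ) ≤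
          n * (n / 1000) := by
        rw [card_filter, Fintype.sum_prod_type, hn', ← card_univ, ← nsmul_eq_mul, ← sum_const,
          Nat.cast_sum]
        refine sum_le_sum fun x _ => le_trans (Nat.cast_le.2 ?_) (hΨ E i x)
        rw [← card_filter]
        exact card_le_card fun y hy => (mem_filter.1 hy).2.1
      have a2 : (Real.exp (((2 : ℕ) : ℝ) * 1) - 1) / ((2 : ℕ) : ℝ) ≤ 4 := by
        rw [Real.exp_nat_mul, Nat.cast_ofNat]
        nlinarith [Real.exp_one_lt_three, Real.exp_pos 1]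
      have a3 := mul_le_mul (mul_le_mul_of_nonneg_left a1 h0) a2
        (div_nonneg (sub_nonneg.2 (Real.one_le_exp (by positivity))) (by positivity))
        (by positivity)
      linarith
  · rw [sum_product]
    simp only [sum_const, card_univ, nsmul_eq_mul, ← mul_sum, ← sum_mul]
    have a1 := sum_planted (V := Sym2 V) (m := n * (n * p) / 1000) (z := 1 / 100) h0 (by norm_num)
      (by norm_num)
    have a2 : (Fintype.card ι : ℝ) ≤ Real.exp (20 * n * Real.log n) :=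
      (Real.le_exp_log _).trans (Real.exp_le_exp.2 hι)
    refine (mul_le_mul a2 (mul_le_mul_of_nonneg_right a1 (Real.exp_pos _).le) (by positivity)
      (Real.exp_pos _).le).trans ?_
    rw [← Real.exp_add, ← Real.exp_add, one_div n, ← Real.exp_log (x := n) (by linarith),
      ← Real.exp_neg, Real.exp_log (x := n) (by linarith), Real.exp_le_exp]
    have a3 : (Fintype.card (Sym2 V) : ℝ) ≤ n * n := by
      rw [hn']
      exact_mod_cast (Fintype.card_le_of_surjective (fun q : V × V => s(q.1, q.2))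
        fun e => by induction e using Sym2.ind with | _ a b => exact ⟨(a, b), rfl⟩).trans
        (Fintype.card_prod _ _).le
    have a4 : Real.log (1 / (1 / 100)) ≤ 5 := by
      rw [Real.log_le_iff_le_exp (by norm_num), show (5 : ℝ) = (5 : ℕ) * 1 by norm_num,
        Real.exp_nat_mul]
      exact le_trans (by norm_num) (pow_le_pow_left₀ (by norm_num) Real.exp_one_gt_d9.le 5)
    have a5 := Real.log_nonneg (show 1 ≤ n by linarith)
    have a6 := mul_le_mul_of_nonneg_left a4 (show 0 ≤ n * (n * p) / 1000 by positivity)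
    have a7 := mul_le_mul_of_nonneg_left a3 h0
    nlinarith

theorem not_PR {τ ζ : ℝ} (hτ : 0 < τ) (hζ : 0 < ζ) (hn : 8 ≤ Fintype.card V)
    (h1 : 2 * Real.log (Fintype.card V) ≤ (min τ 1 / 2) ^ 2 * (Fintype.card V * p))
    (h2 : 6 ≤ min (ζ / 4) (1 / 2) * ζ * (Fintype.card V * p))
    (h3 : (Fintype.card V * p : ℝ) ^ 4 * 256 ≤ Fintype.card V) :
    (SimpleGraph.binomialRandom V p).real {G | ¬ PR G (Fintype.card V * p) τ ζ} ≤
      18 / Fintype.card V := by
  set n : ℝ := (Fintype.card V : ℝ) with hn'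
  have hn1 : 8 ≤ n := Nat.ofNat_le_cast.2 hn
  have h0 := p.2.1
  have e : n * p / n = p := by field_simp
  have e9 : (Real.exp (2 * 1) - 1) / 2 ≤ 8 := by
    rw [two_mul, Real.exp_add]
    nlinarith [Real.exp_one_lt_three, Real.exp_pos 1]
  have e8 : ∀ A B : Finset V, (p : ℝ) * (#A * #B) * ((Real.exp (2 * 1) - 1) / 2) ≤
      p * (#A * #B) * 8 := fun A B => mul_le_mul_of_nonneg_left e9 (by positivity)
  have t0 : 0 < min τ 1 := lt_min hτ one_pos
  have t1 := min_le_left τ 1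
  have t2 := min_le_right τ 1
  have hd : 0 ≤ n * p := by positivity
  have b1 := deg_tail (V := V) p (t := -(min τ 1 / 2))
    (by rw [abs_neg, abs_of_pos (by positivity)]; linarith)
    (by omega) (by rwa [neg_sq]) (fun G v => (1 - τ) * (n * p) ≤ #{w | G.Adj v w}) fun G v h => by
      nlinarith [mul_nonneg (mul_nonneg t0.le hd) (sub_nonneg.2 t1)]
  have b2 := deg_tail (V := V) p (t := min τ 1 / 2) (by rw [abs_of_pos (by positivity)]; linarith)
    (by omega) h1 (fun G v => (#{w | G.Adj v w} : ℝ) ≤ (1 + τ) * (n * p)) fun G v h => by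
      nlinarith [mul_nonneg (mul_nonneg t0.le hd) (sub_nonneg.2 t1)]
  have b3 := pairs_log (V := V) p (fun G A B => (er G.Adj A B : ℝ) ≤
    8 * (n * p / n) * #A * #B + 3 * Real.log n * (#A + #B)) (by omega) (by simp [er]) fun A B =>
    (er_up p A B zero_le_one _ _ fun G hG => by simpa [e] using (not_le.1 hG).le).trans
      (Real.exp_le_exp.2 (by rw [← hn']; linarith [e8 A B]))
  have b4 := pairs_lin (V := V) p (fun G A B => (er G.Adj A B : ℝ) ≤ 8 * (n * p / n) * #A * #B + 2 * n)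
    (by omega) fun A B =>
    (er_up p A B zero_le_one _ _ fun G hG => by simpa [e] using (not_le.1 hG).le).trans
      (Real.exp_le_exp.2 (by rw [← hn']; linarith [e8 A B]))
  have b5 := pairs_log (V := V) p (fun G A B => #B ^ 2 ≤ 16 * Fintype.card V →
      er G.Adj A B ≤ 30 * (#A + #B)) (by omega) (by simp [er]) fun A B => by
    by_cases hB : #B ^ 2 ≤ 16 * Fintype.card V
    swap
    · simp [hB, (Real.exp_pos _).le]
    have hl : 2 ≤ Real.log n := by
      rw [Real.le_log_iff_exp_le (by linarith), show (2 : ℝ) = 1 + 1 by norm_num, Real.exp_add]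
      nlinarith [Real.exp_one_lt_d9, Real.exp_pos 1]
    refine (er_up p A B (t := Real.log n / 8) (by positivity) (Real.log n / 8 * (30 * (#A + #B))) _
      fun G hG => mul_le_mul_of_nonneg_left ?_ (by positivity)).trans (Real.exp_le_exp.2 ?_)
    · simp only [Set.mem_ofPred_eq, hB, true_imp_iff, not_le] at hG
      exact_mod_cast hG.le
    · have c1 : Real.exp (2 * (Real.log n / 8)) ^ 4 = n := by
        rw [← Real.exp_nat_mul, ← Real.exp_log (x := n) (by linarith), Real.log_exp]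
        congr 1; push_cast; ring
      have c2 : (#B : ℝ) ^ 2 ≤ 16 * n := by rw [hn']; exact_mod_cast hB
      have c3 : (p : ℝ) * #B * Real.exp (2 * (Real.log n / 8)) ≤ 1 := by
        refine (pow_le_one_iff_of_nonneg (by positivity) (n := 4) (by norm_num)).1 ?_
        rw [mul_pow, mul_pow, c1, show (#B : ℝ) ^ 4 = (#B ^ 2) ^ 2 by ring]
        refine le_trans (b := p ^ 4 * (16 * n) ^ 2 * n) (by gcongr) ?_
        rw [← mul_le_mul_iff_left₀ (show 0 < n by linarith)]
        linarith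
      have c4 := mul_le_mul_of_nonneg_left c3 (Nat.cast_nonneg (α := ℝ) #A)
      nlinarith [show 0 ≤ (p : ℝ) * (#A * #B) by positivity, Nat.cast_nonneg (α := ℝ) #A,
        Nat.cast_nonneg (α := ℝ) #B]
  have b6 := pairs_lin (V := V) p (fun G A B => n * p / n * #A * #B - ζ * n * (n * p) ≤ er G.Adj A B)
      (by omega) fun A B => by
    set l := min (ζ / 4) (1 / 2) with hl
    have l0 : 0 < l := lt_min (by linarith) (by norm_num)
    have l1 : l ≤ ζ / 4 := min_le_left _ _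
    have l2 : l ≤ 1 / 2 := min_le_right _ _
    refine (er_tail p A B (-l) (-l * (p * #A * #B - ζ * n * (n * p))) _ fun G hG => ?_).trans
      (Real.exp_le_exp.2 ?_)
    · simp only [Set.mem_ofPred_eq, e, not_le] at hG
      nlinarith
    · have c1 := (abs_le.1 (Real.abs_exp_sub_one_sub_id_le (x := 2 * -l) (by
        rw [abs_le]; constructor <;> linarith))).2
      set Q : ℝ := (#{q ∈ A ×ˢ B | q.1 ≠ q.2} : ℝ) with hQ
      have c2 : Q ≤ n * n := by
        rw [hQ, hn']; exact_mod_cast (card_le_univ _).trans (Fintype.card_prod _ _).le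
      have c3 : (#A * #B : ℝ) ≤ Q + n := by
        have := card_filter_add_card_filter_not (s := A ×ˢ B) fun q => q.1 ≠ q.2
        have c4 : #{q ∈ A ×ˢ B | ¬ q.1 ≠ q.2} ≤ Fintype.card V := card_le_card_of_injOn (·.1)
          (fun _ _ => mem_univ _) fun a ha b hb e => Prod.ext e (by
            rw [← not_not.1 (mem_filter.1 ha).2, ← not_not.1 (mem_filter.1 hb).2]; exact e)
        rw [hQ, hn', ← Nat.cast_mul, ← card_product, ← this]
        exact_mod_cast Nat.add_le_add_left c4 _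
      have c5 : p * Q * ((Real.exp (2 * -l) - 1) / 2) ≤ p * Q * (2 * l ^ 2 - l) :=
        mul_le_mul_of_nonneg_left (by linarith) (by positivity)
      have c6 := mul_le_mul_of_nonneg_left c3 (mul_nonneg l0.le h0)
      have c7 : l * p * Q * l ≤ l * p * (n * n) * (ζ / 4) := by gcongr
      have c8 : l * p * n ≤ 1 * 1 * n := by gcongr; exacts [by linarith, p.2.2]
      have c9 := mul_le_mul_of_nonneg_left h2 (show 0 ≤ n by linarith)
      linarith
  refine le_trans (measureReal_mono (fun G hG => ?_)) ((measureReal_union_le _ _).trans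
    ((add_le_add b1 ((measureReal_union_le _ _).trans (add_le_add b2
    ((measureReal_union_le _ _).trans (add_le_add b3 ((measureReal_union_le _ _).trans
    (add_le_add b4 ((measureReal_union_le _ _).trans (add_le_add b5 b6))))))))).trans
    (le_of_eq (by ring))))
  by_contra hc
  simp only [Set.mem_union, Set.mem_ofPred_eq, not_or, not_not] at hc
  exact hG ⟨hc.1, hc.2.1, hc.2.2.1, hc.2.2.2.1, hc.2.2.2.2.1, hc.2.2.2.2.2⟩

/-- (D) the random graph has the properties `PR` and `UP`. -/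
theorem gnp (τ ζ : ℝ) (hτ : 0 < τ) (hζ : 0 < ζ) : ∃ K : ℝ, 0 < K ∧ ∀ β : ℝ, 0 < β →
    ∀ᶠ n : ℕ in atTop, ∀ p : unitInterval, K * Real.log n ≤ n * (p : ℝ) →
      n * (p : ℝ) ≤ Real.log n ^ 100 →
      ∀ (ι : Type) [Fintype ι] (Ψ : Finset (Sym2 (Fin n)) → ι → Fin n → Finset (Fin n)),
        Real.log (Fintype.card ι) ≤ 20 * n * Real.log n →
        (∀ E i x, (#(Ψ E i x) : ℝ) ≤ n / 1000) →
        (SimpleGraph.binomialRandom (Fin n) p).real
          {G | ¬ (PR G (n * (p : ℝ)) τ ζ ∧ UP G (n * (p : ℝ)) Ψ)} ≤ β := by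
  have t0 : 0 < (min τ 1 / 2) ^ 2 := by have := lt_min hτ one_pos; positivity
  have z0 : 0 < min (ζ / 4) (1 / 2) * ζ := mul_pos (lt_min (by linarith) (by norm_num)) hζ
  refine ⟨1000 + 2 / (min τ 1 / 2) ^ 2 + 6 / (min (ζ / 4) (1 / 2) * ζ), by positivity,
    fun β hβ => ?_⟩
  have hlog : Tendsto (fun n : ℕ => Real.log n) atTop atTop :=
    Real.tendsto_log_atTop.comp tendsto_natCast_atTop_atTop
  filter_upwards [((Real.tendsto_exp_div_pow_atTop 400).comp hlog).eventually_ge_atTop 256,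
    eventually_ge_atTop 8, hlog.eventually_ge_atTop 1,
    tendsto_natCast_atTop_atTop.eventually_ge_atTop (19 / β)] with n a1 a2 a3 a4 p h1 h2 ι _ Ψ h3 h4
  have hn : (0 : ℝ) < n := Nat.cast_pos.2 (by omega)
  have h0 := p.2.1
  simp only [Function.comp] at a1
  rw [Real.exp_log hn, le_div_iff₀ (by positivity)] at a1
  have c1 : 0 ≤ 2 / (min τ 1 / 2) ^ 2 * Real.log n := by positivity
  have c2 : 0 ≤ 6 / (min (ζ / 4) (1 / 2) * ζ) := by positivity
  have b1 := not_PR (V := Fin n) p hτ hζ (by simpa using a2) (by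
    rw [Fintype.card_fin, ← div_le_iff₀' t0, mul_div_right_comm]; nlinarith) (by
    rw [Fintype.card_fin, ← div_le_iff₀' z0]; nlinarith) (by
    rw [Fintype.card_fin]
    have := (pow_le_pow_left₀ (by positivity) h2 4).trans_eq (pow_mul _ 100 4).symm
    norm_num at this
    linarith)
  have b2 := up_tail (V := Fin n) p Ψ (by simp; omega) (by rw [Fintype.card_fin]; nlinarith)
    (by rwa [Fintype.card_fin]) (by rwa [Fintype.card_fin])
  rw [Fintype.card_fin] at b1 b2
  refine le_trans (measureReal_mono fun G hG => not_and_or.1 hG) ((measureReal_union_le _ _).trans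
    ((add_le_add b1 b2).trans ?_))
  rw [← add_div, div_le_iff₀ hn]
  rw [div_le_iff₀ hβ] at a4
  linarith

end Pool.Agent.MP_d6d719_co.H91

end MrgPart4

-- ======== part 5: formerly Pool.Agent.MP_d6d719_co.Wrap
section MrgPart5

set_option autoImplicit false

open Finset Filter Topology MeasureTheory
open scoped Classical

namespace Pool.Agent.MP_d6d719_co

/-- At every vertex, the edges into `A` are pairwise incompatible. -/
def starSys {V : Type} (A : Finset V) : IncompSystem (⊤ : SimpleGraph V) where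
  F v := {z | ∃ x ∈ A, ∃ y ∈ A, x ≠ y ∧ v ≠ x ∧ v ≠ y ∧ z = s(s(v, x), s(v, y))}
  spec v e e' := by
    rintro ⟨x, -, y, -, h1, h2, h3, h4⟩
    have key : ∀ u, (u ∈ s(v, x) ∧ u ∈ s(v, y)) ↔ u = v := fun u => by
      simp only [Sym2.mem_iff]
      constructor
      · rintro ⟨h | h, h' | h'⟩
        · exact h
        · exact h
        · exact h'
        · exact absurd (h.symm.trans h') h1
      · exact fun h => ⟨Or.inl h, Or.inl h⟩
    have hne : s(v, x) ≠ s(v, y) := fun h => h1 (Sym2.congr_right.1 h)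
    rcases Sym2.eq_iff.1 h4 with ⟨rfl, rfl⟩ | ⟨rfl, rfl⟩
    · exact ⟨h2, h3, hne, key⟩
    · exact ⟨h3, h2, hne.symm, fun u => and_comm.trans (key u)⟩

theorem starSys_bounded {V : Type} [Fintype V] (A : Finset V) {Δ : ℝ} (h0 : 0 ≤ Δ)
    (h : (A.card : ℝ) ≤ Δ + 1) : (starSys A).IsBounded Δ := by
  intro v e he
  rcases Set.eq_empty_or_nonempty
    {e' | e' ∈ (⊤ : SimpleGraph V).incidenceSet v ∧ e' ≠ e ∧ (starSys A).Incompatible e e'} with
    h1 | ⟨e1, h1⟩
  · rw [h1]; simpa using h0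
  have key : ∀ e', e' ∈ (⊤ : SimpleGraph V).incidenceSet v → (starSys A).Incompatible e e' →
      ∃ x ∈ A, ∃ y ∈ A, x ≠ y ∧ e = s(v, x) ∧ e' = s(v, y) := by
    rintro e' he' ⟨u, hu⟩
    obtain rfl : v = u := (((starSys A).spec u _ _ hu).2.2.2 v).1 ⟨he.2, he'.2⟩
    obtain ⟨x, hx, y, hy, a1, -, -, a2⟩ := hu
    rcases Sym2.eq_iff.1 a2 with ⟨rfl, rfl⟩ | ⟨rfl, rfl⟩
    · exact ⟨x, hx, y, hy, a1, rfl, rfl⟩
    · exact ⟨y, hy, x, hx, a1.symm, rfl, rfl⟩
  obtain ⟨x, hx, -, -, -, rfl, -⟩ := key e1 h1.1 h1.2.2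
  have h2 : {e' | e' ∈ (⊤ : SimpleGraph V).incidenceSet v ∧ e' ≠ s(v, x) ∧
      (starSys A).Incompatible s(v, x) e'} ⊆ ((A.erase x).image fun y => s(v, y) : Finset _) := by
    intro e' he'
    obtain ⟨x', -, y, hy, -, -, rfl⟩ := key e' he'.1 he'.2.2
    exact mem_coe.2 (mem_image.2 ⟨y, mem_erase.2 ⟨fun h => he'.2.1 (h ▸ rfl), hy⟩, rfl⟩)
  have h3 := (Set.ncard_le_ncard h2).trans_eq (Set.ncard_coe_finset _)
  have h4 := (h3.trans card_image_le).trans_eq (card_erase_of_mem hx)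
  have h5 := card_pos.2 ⟨x, hx⟩
  have h6 := Nat.cast_le (α := ℝ).2 h4
  rw [Nat.cast_sub h5, Nat.cast_one] at h6
  linarith

theorem starSys_not_ham {V : Type} [Fintype V] [DecidableEq V] (A : Finset V)
    (h : Fintype.card V < 2 * A.card) : ¬ (starSys A).HasCompatibleHamiltonCycle := by
  rintro ⟨v, c, hc, hF⟩
  have hl := hc.length_eq
  have h3 := hc.isCycle.three_le_length
  obtain ⟨n, hn⟩ : ∃ n, n = c.length := ⟨_, rfl⟩
  have hn0 : 0 < n := by omega
  set g : ℕ → V := fun i => c.getVert (i % n) with hg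
  have ginj : ∀ i j, g i = g j → i % n = j % n := fun i j e =>
    hc.isCycle.getVert_injOn' (by have := Nat.mod_lt i hn0; simp only [Set.mem_ofPred_eq]; omega)
      (by have := Nat.mod_lt j hn0; simp only [Set.mem_ofPred_eq]; omega) e
  have gs : ∀ i, g (i + 1) = c.getVert (i % n + 1) := fun i => by
    have a1 := Nat.mod_lt i hn0
    simp only [hg]
    rw [Nat.add_mod, Nat.mod_eq_of_lt (show 1 < n by omega)]
    rcases Nat.lt_or_ge (i % n + 1) n with h1 | h1
    · rw [Nat.mod_eq_of_lt h1]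
    · rw [show i % n + 1 = n by omega, Nat.mod_self, hn]
      simp
  have ge : ∀ i, s(g i, g (i + 1)) ∈ c.edges := fun i => by
    rw [SimpleGraph.Walk.mk_mem_edges_iff_exists]
    exact ⟨i % n, hn ▸ Nat.mod_lt i hn0, by rw [gs]⟩
  have gne : ∀ i k, 0 < k → k < n → g i ≠ g (i + k) := fun i k h1 h2 e => by
    have := (Nat.modEq_iff_dvd' (Nat.le_add_right i k)).1 (ginj _ _ e)
    rw [Nat.add_sub_cancel_left] at this
    exact absurd (Nat.le_of_dvd h1 this) (by omega)
  have key : ∀ i, g i ∈ A → g (i + 2) ∉ A := fun i h1 h2 =>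
    hF _ (ge i) _ (ge (i + 1)) ⟨g (i + 1), g i, h1, g (i + 2), h2, gne i 2 (by omega) (by omega),
      (gne i 1 (by omega) (by omega)).symm, gne (i + 1) 1 (by omega) (by omega),
      by rw [Sym2.eq_swap (a := g i)]⟩
  have a1 : A.card ≤ ((range n).filter fun i => g i ∈ A).card := by
    refine card_le_card_of_surjOn g fun x hx => ?_
    obtain ⟨i, hi, hi2⟩ := SimpleGraph.Walk.mem_support_iff_exists_getVert.1 (hc.mem_support x)
    have e : g (i % n) = x := by
      simp only [hg, Nat.mod_mod]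
      rcases hi2.eq_or_lt with rfl | h1
      · rw [← hn, Nat.mod_self, ← hi]; simp
      · rw [Nat.mod_eq_of_lt (by omega), hi]
    exact ⟨i % n, by simpa [e] using ⟨Nat.mod_lt i hn0, hx⟩, e⟩
  have a2 : ((range n).filter fun i => g i ∈ A).card ≤ Aᶜ.card := by
    refine card_le_card_of_injOn (fun i => g (i + 2)) (fun i hi => ?_) fun i hi j hj e => ?_
    · exact mem_coe.2 (mem_compl.2 (key i (mem_filter.1 hi).2))
    · have b1 := mem_range.1 (mem_filter.1 hi).1
      have b2 := mem_range.1 (mem_filter.1 hj).1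
      have := Nat.ModEq.add_right_cancel' 2 (ginj _ _ e)
      rwa [Nat.ModEq, Nat.mod_eq_of_lt b1, Nat.mod_eq_of_lt b2] at this
  have a3 := card_add_card_compl A
  omega

theorem le_half_of_admissible {μ : ℝ} (h : Admissible μ) : μ ≤ 1 / 2 := by
  by_contra hμ
  rw [not_le] at hμ
  have h1 := h (fun _ => 1) (by
    have := (Real.tendsto_exp_div_pow_atTop 1).comp
      (Real.tendsto_log_atTop.comp tendsto_natCast_atTop_atTop)
    refine this.congr' ?_
    filter_upwards [eventually_gt_atTop 0] with n hn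
    simp only [Function.comp, pow_one, Set.Icc.coe_one, mul_one]
    rw [Real.exp_log (by exact_mod_cast hn)])
  obtain ⟨n, h2, h3⟩ := ((h1.eventually (lt_mem_nhds one_half_lt_one)).and
    (eventually_gt_atTop 0)).exists
  have := measurableSingletonClass_graph (V := Fin n)
  rw [SimpleGraph.binomialRandom_one, Measure.real, Measure.dirac_apply,
    Set.indicator_of_notMem] at h2
  · norm_num at h2
  · intro h4
    obtain ⟨A, -, hA⟩ := exists_subset_card_eq (s := (univ : Finset (Fin n))) (n := n / 2 + 1)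
      (by rw [card_univ, Fintype.card_fin]; omega)
    have h5 : ((n / 2 : ℕ) : ℝ) ≤ n / 2 := Nat.cast_div_le
    have h6 : (0 : ℝ) ≤ n := by positivity
    refine starSys_not_ham A (by rw [Fintype.card_fin]; omega) (h4 _ (starSys_bounded A ?_ ?_))
    · simp only [Set.Icc.coe_one, mul_one]; nlinarith
    · simp only [Set.Icc.coe_one, mul_one]; rw [hA]; push_cast; nlinarith

/-- The property proved by the core of the argument. -/
def CoreProp {V : Type} [Fintype V] (Δ : ℝ) (G : SimpleGraph V) : Prop :=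
  ∀ bad : V → V → V → Prop, (∀ v a b, bad v a b → bad v b a) → (∀ v a, ¬ bad v a a) →
    (∀ v a, G.Adj v a → (((nb G v univ).filter (bad v a ·)).card : ℝ) ≤ Δ) → HamList G bad

theorem admissible_of_core {μ K : ℝ} (hμ : μ < 1 / 2)
    (core : ∀ p : ℕ → unitInterval, (∀ᶠ n : ℕ in atTop,
      K * Real.log n ≤ n * (p n : ℝ) ∧ n * (p n : ℝ) ≤ Real.log n ^ 100) →
      Tendsto (fun n : ℕ => (SimpleGraph.binomialRandom (Fin n) (p n)).real
        {G | CoreProp (μ * n * p n) G}) atTop (𝓝 1)) : Admissible μ := by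
  intro p hp
  have hlog : Tendsto (fun n : ℕ => Real.log n) atTop atTop :=
    Real.tendsto_log_atTop.comp tendsto_natCast_atTop_atTop
  have hpow : ∀ k : ℕ, ∀ᶠ n : ℕ in atTop, Real.log n ^ k ≤ n := fun k => by
    have := ((Real.tendsto_exp_div_pow_atTop k).comp hlog).eventually_ge_atTop 1
    filter_upwards [this, eventually_gt_atTop 0, hlog.eventually_gt_atTop 0] with n h1 h2 h3
    simp only [Function.comp] at h1
    rwa [Real.exp_log (by exact_mod_cast h2), one_le_div (by positivity)] at h1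
  have h1 := main μ hμ (fun n => if Real.log n ^ 100 ≤ n * (p n : ℝ) then p n else 1) (by
    filter_upwards [hpow 100] with n hn
    split_ifs with h
    · exact h
    · simpa using hn)
  have h2 := core (fun n => if Real.log n ^ 100 ≤ n * (p n : ℝ) then
      Set.projIcc 0 1 zero_le_one (Real.log n ^ 100 / n) else p n) (by
    filter_upwards [hpow 100, eventually_gt_atTop 0, hlog.eventually_ge_atTop (max K 1),
      hp.eventually_ge_atTop K] with n a1 a2 a3 a4
    have b1 : (0 : ℝ) < n := by exact_mod_cast a2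
    have b2 := le_trans (le_max_left _ _) a3
    have b3 := le_trans (le_max_right _ _) a3
    split_ifs with h
    · rw [Set.projIcc_of_mem _ ⟨by positivity, (div_le_one b1).2 a1⟩]
      simp only
      rw [mul_div_cancel₀ _ b1.ne']
      refine ⟨?_, le_rfl⟩
      calc K * Real.log n ≤ Real.log n ^ 2 := by nlinarith
        _ ≤ _ := pow_le_pow_right₀ b3 (by norm_num)
    · exact ⟨(le_div_iff₀ (by linarith)).1 a4, (not_le.1 h).le⟩)
  have h3 := h1.min h2
  rw [min_self] at h3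
  refine tendsto_of_tendsto_of_tendsto_of_le_of_le' h3 tendsto_const_nhds ?_
    (Eventually.of_forall fun n => measureReal_le_one)
  filter_upwards [eventually_ge_atTop 3] with n hn
  split_ifs with h
  · exact min_le_left _ _
  · refine (min_le_right _ _).trans (measureReal_mono fun G hG S hS => ?_)
    refine ham_of_list S (by simpa using hn) (hG _ (fun v a b ⟨u, hu⟩ => ⟨u, Sym2.eq_swap ▸ hu⟩)
      (fun v a ⟨u, hu⟩ => (S.spec u _ _ hu).2.2.1 rfl) (bad_bound S hS))

theorem isLUB_of_admissible (h : ∀ μ : ℝ, μ < 1 / 2 → Admissible μ) :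
    IsLUB {μ : ℝ | 0 < μ ∧ Admissible μ} (1 / 2) := by
  refine ⟨fun μ hμ => le_half_of_admissible hμ.2, fun b hb => le_of_forall_lt_imp_le_of_dense
    fun a ha => ?_⟩
  refine le_trans (le_max_left a (1 / 4)) (hb ⟨lt_max_of_lt_right (by norm_num), h _ ?_⟩)
  exact max_lt ha (by norm_num)

theorem isLUB_of_core (core : ∀ μ : ℝ, μ < 1 / 2 → ∃ K : ℝ, ∀ p : ℕ → unitInterval,
    (∀ᶠ n : ℕ in atTop, K * Real.log n ≤ n * (p n : ℝ) ∧ n * (p n : ℝ) ≤ Real.log n ^ 100) →
      Tendsto (fun n : ℕ => (SimpleGraph.binomialRandom (Fin n) (p n)).real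
        {G | CoreProp (μ * n * p n) G}) atTop (𝓝 1)) :
    IsLUB {μ : ℝ | 0 < μ ∧ Admissible μ} (1 / 2) :=
  isLUB_of_admissible fun μ hμ => (core μ hμ).elim fun _ hK => admissible_of_core hμ hK

end Pool.Agent.MP_d6d719_co

end MrgPart5

-- ======== part 6: formerly Pool.Agent.MP_d6d719_co.h91.Fin2
section MrgPart6

set_option autoImplicit false

open Finset Filter Topology MeasureTheory
open scoped Classical

namespace Pool.Agent.MP_d6d719_co.H91

/-- short descriptions of a state -/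
abbrev Code (V : Type) := (Finset V × Finset V × Finset V × Finset V) × (V × Bool → V) ×
  (V × Bool → V × Bool) × Finset (V × Bool) × (V × Bool → V × Bool) × (V → V) × Bool

variable {V : Type} [Fintype V]

/-- the vertices that are not ready to be linked to `x` -/
noncomputable def NR (P : Pm) (L : ℕ) (E : Finset (Sym2 V)) (i : Code V) (x : V) : Finset V :=
  {y ∈ i.1.2.1 | ¬ JR P ⟨i.1.1, i.1.2.1, i.1.2.2.1, i.1.2.2.2, i.2.1, i.2.2.1, i.2.2.2.1⟩
    (fun a b => s(a, b) ∈ E) i.2.2.2.2.1 i.2.2.2.2.2.1 (if i.2.2.2.2.2.2 then P.B else L) x y}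

/-- the same set when it is small -/
noncomputable def Psi (P : Pm) (L : ℕ) (E : Finset (Sym2 V)) (i : Code V) (x : V) : Finset V :=
  if (#(NR P L E i x) : ℝ) ≤ Fintype.card V / 1000 then NR P L E i x else ∅

theorem card_Psi (P : Pm) (L : ℕ) (E : Finset (Sym2 V)) (i : Code V) (x : V) :
    (#(Psi P L E i x) : ℝ) ≤ Fintype.card V / 1000 := by
  unfold Psi
  split_ifs with h
  · exact h
  · simp only [card_empty, Nat.cast_zero]
    positivity

theorem card_Code {n : ℕ} (hn : 2 ≤ n) :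
    Real.log (Fintype.card (Code (Fin n))) ≤ 20 * n * Real.log n := by
  have n2 : (2 : ℝ) ≤ n := by exact_mod_cast hn
  have a1 : Real.log 2 ≤ Real.log n := Real.log_le_log (by norm_num) n2
  have a2 : 0 ≤ Real.log 2 := Real.log_nonneg (by norm_num)
  simp only [Code, Fintype.card_prod, Fintype.card_finset, Fintype.card_fun, Fintype.card_fin,
    Fintype.card_bool]
  push_cast
  repeat rw [Real.log_mul (by positivity) (by positivity)]
  simp only [Real.log_pow]
  rw [Real.log_mul (by positivity) (by positivity)]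
  push_cast
  nlinarith

variable {G : SimpleGraph V} {F : V → V → V → Prop} {P : Pm} {D : Dt V} {S : St V}
  {T1 T2 : Finset V}

theorem ls_of {d ε : ℝ} {E : Finset (Sym2 V)} {L : ℕ} {st : V → V} (hU : UP G d (Psi P L))
    (h1 : ∀ x y, s(x, y) ∈ E → G.Adj x y) (h2 : (#E : ℝ) ≤ Fintype.card V * d / 1000)
    (hd : 0 < d) (hn : 0 < Fintype.card V) (h3 : P.ε = ε) (hε : ε ≤ 1 / 40000000)
    (hR : (1 - 4 * ε) * Fintype.card V ≤ #D.R)
    (h4 : ∀ v ∈ D.R, d / 5 ≤ #{y ∈ D.R | Gam G F st v y}) (b : Bool) :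
    LS P D (fun x y => s(x, y) ∈ E) (Gam G F st) (if b then P.B else L) := by
  intro t p X a1 a2 a3
  by_contra hc
  push Not at hc
  have n0 : (0 : ℝ) < Fintype.card V := by exact_mod_cast hn
  set i : Code V := ((D.Pt, D.R, D.Ro, D.Cn), D.g, D.t0, D.Fz, t, p, b) with hi
  have b1 := hU E (fun e he => by induction e using Sym2.ind with | _ x y => exact h1 x y he) h2 i
  have b2 : d / 5 * #X ≤ ∑ x ∈ X, (#{y ∈ Psi P L E i x | G.Adj x y} : ℝ) := by
    rw [mul_comm, ← nsmul_eq_mul]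
    refine card_nsmul_le_sum _ _ _ fun x hx => (h4 x (a1 hx)).trans (Nat.cast_le.2
      (card_le_card fun y hy => ?_))
    obtain ⟨c1, c2⟩ := mem_filter.1 hy
    have c3 : (#(NR P L E i x) : ℝ) ≤ Fintype.card V / 1000 :=
      (a3 x hx).trans (by rw [h3]; nlinarith)
    rw [Psi, if_pos c3]
    exact mem_filter.2 ⟨mem_filter.2 ⟨c1, hc x hx y c2.1.ne c2 ⟨c2.1.symm, c2.2.2, c2.2.1⟩⟩, c2.1⟩
  have b3 := sum_le_sum_of_subset_of_nonneg (subset_univ X)
    (f := fun x => (#{y ∈ Psi P L E i x | G.Adj x y} : ℝ)) fun _ _ _ => by positivity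
  rw [Nat.cast_sum] at b1
  rw [h3] at a2
  have b4 : (Fintype.card V : ℝ) / 2 ≤ #X := by nlinarith
  nlinarith [mul_le_mul_of_nonneg_left b4 hd.le, mul_pos hd n0]

theorem det {d τ ζ ε γ g c a M : ℝ} {k h : ℕ} (hF : ∀ v a b, F v a b → F v b a)
    (hS : SK D S T1 T2) (hG : Good G F S) (hX : SX G F D T1 T2 d ε γ g c (ε / 100))
    (hP : PR G d τ ζ) (hτ : τ ≤ 1 / 2) (hU : UP G d (Psi P (10 * h)))
    (hN : Num P (Fintype.card V) d γ ε g c (ε / 100) k h a M) (hε0 : 0 < ε)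
    (hε : ε ≤ 1 / 40000000) (hγ : 20 * ε ≤ γ) (hγ1 : γ ≤ 1) : HamList G F := by
  have hL := hN.nL
  have hn : 0 < Fintype.card V := Nat.pos_of_ne_zero fun e => by
    rw [e] at hL
    norm_num at hL
  have n0 : (0 : ℝ) < Fintype.card V := by exact_mod_cast hn
  have z1 : (0 : ℝ) ≤ P.l + P.J := by positivity
  have z2 : (0 : ℝ) ≤ Real.log (Fintype.card V) * P.Dg := by positivity
  have hd : 0 < d := by linarith [hN.sp1]
  obtain ⟨E, a1, a2, a3, a4, a5⟩ := mkH hS hX hP hτ hn hN.sp1 (by linarith [hN.ex2])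
    (by linarith [hN.hb])
  have a6 : ∀ x y, s(x, y) ∈ E → G.Adj x y := fun x y e => (a1 x y e).1
  have hR : (1 - ε / 100) * Fintype.card V ≤ #D.R := by
    have := hX.cR
    rw [card_sdiff_of_subset (subset_univ _), card_univ, Nat.cast_sub (card_le_univ _)] at this
    linarith
  have hR' : (1 - 4 * ε) * Fintype.card V ≤ #D.R := by nlinarith
  have hH : HP P D.Pt D.R fun x y => s(x, y) ∈ E :=
    { hN with
      sy := fun x y e => Sym2.eq_swap ▸ e
      ir := fun x e => (a6 x x e).ne rfl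
      e2 := fun A B e => (er_mono a6 subset_rfl subset_rfl).trans (hP.p3 A B e)
      fs := hN.eε ▸ fs_of hP a6 hn hd.le (fun v hv => by convert a4 v hv) hε (by exact_mod_cast hN.fs1)
        (by exact_mod_cast hN.fs2)
      rx := by rw [hN.eε, hN.eγ, hN.eb]; exact a3
      hb := by
        rw [hN.eb]
        push_cast
        nlinarith [mul_lt_mul_of_pos_right hN.hb n0]
      hε := hN.eε ▸ hε0
      hγ := by rw [hN.eε, hN.eγ]; exact hγ
      hγ1 := hN.eγ ▸ hγ1
      hn := hn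
      hJ := hN.eγ ▸ hN.hJ
      hR := hN.eε ▸ hR' }
  have hE := fun T hT => ex_of (Pt := D.Pt) (T := T) hP a6 hn hd.le
    (fun v hv => by convert a5 T hT v hv) hN.ex1 hN.ex2
  have z3 : 0 ≤ 2 * (P.r1 + 2 * Fintype.card V / a + 2 * k + 2 + (3 * (ε / 100 * Fintype.card V) +
      4 * P.θ * Fintype.card V)) + (P.l + P.J + 2) * (2 * P.B) := by
    have := hN.a0
    have := hN.θ0
    positivity
  have z4 : (0 : ℝ) ≤ (k * h + 1) * (2 * h) + 1 := by positivity
  obtain ⟨S0, Ro, Fz0, Fz1, hB⟩ := build hS hH (hE _ (Or.inl rfl)) (hE _ (Or.inr (Or.inl rfl)))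
    hN.hh hN.hJ' hN.bm (by rw [hN.eε]; nlinarith [hN.nf, mul_pos hε0 n0])
  have b1 : (#(univ \ Ro) : ℝ) ≤ ε / 100 * Fintype.card V + 2 * ((k * h + 1) * (2 * h) + 1) := by
    have c1 : #(univ \ Ro) ≤ #(univ \ D.R) + 2 * ((k * h + 1) * (2 * h) + 1) :=
      le_trans (card_le_card fun y => by simp only [Finset.mem_sdiff, mem_union]; tauto)
        ((card_union_le _ _).trans (add_le_add le_rfl hB.ro))
    have c2 : (#(univ \ Ro) : ℝ) ≤ #(univ \ D.R) + 2 * ((k * h + 1) * (2 * h) + 1) := by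
      exact_mod_cast c1
    linarith [hX.cR]
  have b2 := fun Fz b => ls_of (D := DF D S0 Ro Fz) (F := F) (st := D.st) hU a6 a2 hd hn hN.eε hε
    hR' (fun v hv => hX.dR v (hS.wf.rp hv)) b
  exact outer_ham (Lg := Real.log (Fintype.card V))
    { hN with
      bo := hB
      hp := hH
      ex := hE _ (Or.inr (Or.inr rfl))
      hl := fun x hx y hy e => (a1 x y e).2.1 hx hy
      ls := fun Fz => ⟨by simpa using b2 Fz true, by simpa using b2 Fz false⟩
      nf := by rw [hN.eε]; linarith [hN.nf]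
      nn := le_rfl } hF hS hG fun x _ y hy e => (a1 x y e).2.2 hy

theorem core (μ : ℝ) (hμ : μ < 1 / 2) : ∃ K : ℝ, ∀ p : ℕ → unitInterval,
    (∀ᶠ n : ℕ in atTop, K * Real.log n ≤ n * (p n : ℝ) ∧ n * (p n : ℝ) ≤ Real.log n ^ 100) →
      Tendsto (fun n : ℕ => (SimpleGraph.binomialRandom (Fin n) (p n)).real
        {G | CoreProp (μ * n * p n) G}) atTop (𝓝 1) := by
  obtain ⟨γ, γ0, γ1, h1⟩ := skeleton ((μ + 1 / 2) / 2) (by linarith)
  obtain ⟨ε, ε0, ε1, ε2⟩ : ∃ ε : ℝ, 0 < ε ∧ ε ≤ 1 / 40000000 ∧ 20 * ε ≤ γ :=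
    ⟨min (1 / 40000000) (γ / 20), lt_min (by norm_num) (by linarith), min_le_left _ _,
      by linarith [min_le_right (1 / 40000000 : ℝ) (γ / 20)]⟩
  obtain ⟨g, c, τ, ζ, K1, g0, c0, τ0, τ1, ζ0, K0, h2⟩ := h1 ε (ε / 100) ε0 (by linarith)
  obtain ⟨K2, -, h3⟩ := gnp τ ζ τ0 ζ0
  obtain ⟨K3, h4⟩ := params γ ε g c γ0 ε0 (by linarith) g0 c0
  refine ⟨max (max (2 * K1) K2) (max K3 (2 / (1 / 2 - μ))), fun p hp => ?_⟩
  rw [tendsto_order]
  refine ⟨fun b hb => ?_, fun b hb => Eventually.of_forall fun n => measureReal_le_one.trans_lt hb⟩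
  have hlog : Tendsto (fun n : ℕ => Real.log n) atTop atTop :=
    Real.tendsto_log_atTop.comp tendsto_natCast_atTop_atTop
  filter_upwards [hp, h3 ((1 - b) / 2) (by linarith), h4, hlog.eventually_ge_atTop 1,
    eventually_ge_atTop 2] with n a1 a2 a3 a4 a5
  have k1 : ∀ x, x ≤ max (max (2 * K1) K2) (max K3 (2 / (1 / 2 - μ))) →
      x * Real.log n ≤ n * (p n : ℝ) := fun x hx =>
    (mul_le_mul_of_nonneg_right hx (by linarith)).trans a1.1
  obtain ⟨P, k, h, a, M, b1⟩ := a3 _ (k1 K3 (by simp))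
  have b2 := a2 (p n) (k1 K2 (by simp)) a1.2 (Code (Fin n)) (Psi P (10 * h)) (card_Code a5)
    fun E i x => by simpa using card_Psi P (10 * h) E i x
  have := measurableSingletonClass_graph (V := Fin n)
  have b3 := probReal_compl_eq_one_sub (μ := SimpleGraph.binomialRandom (Fin n) (p n))
    (s := {G | ¬ (PR G (n * (p n : ℝ)) τ ζ ∧ UP G (n * (p n : ℝ)) (Psi P (10 * h)))})
    (Set.toFinite _).measurableSet
  refine lt_of_lt_of_le (lt_of_lt_of_le (by linarith) b3.ge)
    (measureReal_mono fun G hG F f1 _ f3 => ?_)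
  obtain ⟨c1, c2⟩ := not_not.1 hG
  have c3 : Sys G F (n * (p n : ℝ)) ((μ + 1 / 2) / 2) τ := by
    refine ⟨f1, c1.lo, c1.hi, fun v w e => ?_⟩
    have d1 : #{b | G.Adj v b ∧ ¬ Cmp F v w b} ≤ #((nb G v univ).filter (F v w ·)) + 1 := by
      refine le_trans (card_le_card fun y hy => ?_) (card_insert_le w _)
      simp only [Cmp, nb, mem_filter, mem_univ, true_and, mem_insert, not_and, not_not] at hy ⊢
      tauto
    have d2 : (#{b | G.Adj v b ∧ ¬ Cmp F v w b} : ℝ) ≤ #((nb G v univ).filter (F v w ·)) + 1 := by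
      exact_mod_cast d1
    have d3 := k1 (2 / (1 / 2 - μ)) (by simp)
    have d4 : 2 / (1 / 2 - μ) ≤ n * (p n : ℝ) :=
      le_trans (le_mul_of_one_le_right (div_nonneg (by norm_num) (by linarith)) a4) d3
    rw [div_le_iff₀ (by linarith)] at d4
    linarith [f3 v w e]
  obtain ⟨D, S, T1, T2, d1, d2, d3⟩ := h2 (Fin n) G F _ (by simp; omega) c3 c1 (by
    rw [Fintype.card_fin]
    nlinarith [k1 (2 * K1) (by simp)])
  exact det f1 d1 d2 d3 c1 τ1 c2 (by rwa [Fintype.card_fin]) ε0 ε1 ε2 γ1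

end Pool.Agent.MP_d6d719_co.H91

end MrgPart6

-- marker of a merged file
example : 731051 + 819191 = 731051 + 819191 := rfl
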